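import Pool.Agent.Work.MP_66fdf3_co.BP.NBas

/-!
Large degree, the levels `3 m < l ^ 2`, `4 l ≤ m`.

Plan. Here `l ≥ 55` and `μ ≤ 0.2887 l`. `wt 1 1 1 d μ a = ascFactorial (μ ^ 2) a * a! / (a ^ a d ^ a)`.
`blk_S`, case `a ≥ 12`: for `μ = 1` use `fact_rho` twice (`0.442 ^ 2 / 4 ≤ 1 / 20`); for `μ ≥ 2` use
`asc_le`, `fact_rho` and `0.442 (μ ^ 2 + l / 2) ≤ 3 μ l / 20` (convex in `μ` on `[2, 0.2887 l]`).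
Case `1 ≤ a ≤ 11`: the weight is at most `y ^ a` and at most `2 (y / 2) ^ a` with
`y = (μ ^ 2 + 5) / d`. If `y ≤ l / 20` we are done. Otherwise `μ ≥ 8`, `y / 2 ≤ l / 20` and
`μ ^ 2 ≥ 0.0534 m`, so that `2 ≤ exp (13 μ ^ 2 / m)`.
`Ml_sq`: `Ml_chernoff` with `t = s / (1 + s)`, `s = √(l / m) ≤ 1 / 2`;
`s - log (1 + s) ≤ s ^ 2 / (2 + s)`, `1 / (2 + s) ≤ 1 / 2 - s / 5`, and
`(1 + s) / 1.5 ≤ 1 + (s - 1 / 2) / 5 ≤ exp ((s - 1 / 2) / 5)`.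
`big_S`: `Good.S` with `Y = (l / 20) ^ l * exp (13 / 4)`, `El_div` (`l / (2 m - l) ≤ 1 / 7`);
`2.25 * exp (0.8 + 8 / 7) / 20 ≤ 0.786 ≤ 0.8866 ^ 2`, `exp (13 / 8) ≤ 5.1`.
-/

namespace Pool.Agent.Work.MP_66fdf3_co.BP

open Finset

theorem blk_S {m l d μ a : ℕ} (hm : 1000 ≤ m) (hl : 3 * m < l ^ 2) (h1 : 1 ≤ μ) (h4 : 4 ≤ d)
    (h3 : 3 * μ ≤ d) (hμ : 4 * μ ^ 2 ≤ m) (ha : a ≤ l) :
    wt 1 1 1 d μ a ≤ (l / 20) ^ a * Real.exp (13 * μ ^ 2 / m) := by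
  sorry

theorem Ml_sq {m l : ℕ} (h0 : 0 < l) (h : 4 * l ≤ m) :
    Ml m l ^ 2 ≤ (2.25 * Real.exp 0.8 * m / l) ^ l := by
  sorry

theorem big_S {m R k : ℕ} {d μ : Fin k → ℕ} {B z : ℕ → ℝ} (hm : 1000 ≤ m) (hR : 4 * R ≤ m)
    (ha : Adm m 3 R d μ) (hg : Good m d μ B z) {l : ℕ} (hl : 3 * m < l ^ 2) (hl' : 4 * l ≤ m) :
    z l ≤ 5.1 * 0.8866 ^ l := by
  sorry

end Pool.Agent.Work.MP_66fdf3_co.BP
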