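import Pool.Agent.Work.MP_66fdf3_co.BP.BigP
import Pool.Agent.Work.MP_66fdf3_co.BP.BigS
import Pool.Agent.Work.MP_66fdf3_co.BP.BigT

/-!
Large degree. Plan: split `Icc 1 m` into the three ranges; `0.7`, a geometric sum from `l = 55` on
(at most `0.07`), and `m * exp (-0.012 m) ≤ 0.01`.
-/

namespace Pool.Agent.Work.MP_66fdf3_co.BP

open Finset

theorem big {m R k : ℕ} {d μ : Fin k → ℕ} {B z : ℕ → ℝ} (hm : 1000 ≤ m) (hR : 4 * R ≤ m)
    (ha : Adm m 3 R d μ) (hg : Good m d μ B z) : ∑ l ∈ Icc 1 m, z l < 1 := by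
  sorry

end Pool.Agent.Work.MP_66fdf3_co.BP
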