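import Pool.Agent.Work.MP_66fdf3_co.BP.NBas

/-!
Large degree, the sparse levels `l ^ 2 ≤ 3 m`.

Plan. `grow`: let `U l = √(y ^ l / l!)`, so `U (l + 1) = U l * √(y / (l + 1))`. If
`(l + 2) a (l + 2) ≤ c (l + 1) a (l + 1) + y a l`, `τ` is monotone, and for `k ≤ L` there is `γ ≥ 0`
with `c ^ 2 k ≤ γ ^ 2 y`, `γ τ k + 1 ≤ τ k ^ 2`, then `a l ≤ A * (∏ k ∈ Icc 3 l, τ k) * U l` for
`2 ≤ l ≤ L` follows from the cases `l = 2, 3`. Use it for `Ml m` (`c = 2`, `y = m`, `Ml_rec`;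
`τ = 1.117`, `γ = 0.22` for `k ≤ 12`; `τ = 1.263`, `γ = 0.47` beyond, as `k / m ≤ 0.05478`) and for
`Dl (m / 3) l / l!` (`c = 1`, `y = m / 3`; `1.1`, `0.19`; `1.224`, `0.406`), both with `A = 1 / √2`.
The product of the two `U` is `(m / √3) ^ l / l!`, and `m / (m - k + 1) ≤ 1.0112` for `k ≤ 12`,
`≤ 1.058` beyond. So the term is at most `0.16684 * 0.7174 ^ (l - 2)` for `l ≤ 12`, and
`0.16684 * 0.7174 ^ 10 * 0.9443 ^ (l - 12)` beyond. Geometric sums give `0.693`. The term `l = 1`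
vanishes.
-/

namespace Pool.Agent.Work.MP_66fdf3_co.BP

open Finset

theorem big_P {m : ℕ} (hm : 1000 ≤ m) :
    ∑ l ∈ (Icc 1 m).filter fun l => l ^ 2 ≤ 3 * m,
      Ml m l * Dl (m / (3 : ℕ)) l / m.descFactorial l ≤ 0.7 := by
  sorry

end Pool.Agent.Work.MP_66fdf3_co.BP
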