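import Pool.Agent.Work.MP_66fdf3_co.BP.NBas

/-!
Large degree, the levels `4 l > m`.

Plan. `X = m / 64 ≥ 15.625`, `Y = exp 2 * X ≥ 0.11545 m`, `φ a = wt 1 1 0 d μ a / X ^ a`.
`blk_small` (`μ ≤ 8`): by `wt_anti` take `d = max 4 (3 μ)`. A finite check (`decide +kernel` on
natural numbers) gives `wt a ≤ (1.39 ^ (μ ^ 2) - 1.01) * (125 / 16) ^ a` for `1 ≤ a ≤ 256` and
`wt 256 ≤ (0.92 * 256 / 64) ^ 256`. Induction with `wt_succ` gives `wt a ≤ (0.92 a / 64) ^ a` for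
`a ≥ 256`: `(a + 1) ^ (a + 1) ≥ e * a ^ (a + 1)`, and
`μ ^ 3 / a + 4 μ / 3 + a / d ≤ exp 3 * 0.92 / 64 * a` (`exp 3 ≥ 20.08`; `d ≥ 6` if `μ ≥ 2`). So
`φ a ≤ c / 2 ^ a` or `φ a ≤ 0.92 ^ a`, and `1.39 ≤ exp (1 / 3)`.
`blk_large` (`μ ≥ 9`): `(4 μ / 3 + a / d) / Y ≤ 0.43` for `a ≤ m` (cases `μ ≥ 14` and `μ ≤ 13`). With
`ζ = μ ^ 3 / Y`: `0.43 + ζ / a ≤ 0.88 * max 1 (ζ / (0.45 a))`, and
`∏ a ∈ Icc 1 n, max 1 (x / a) ≤ exp x` (it is `x ^ k / k!` with `k = min n ⌊x⌋`). So the sum is at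
most `1 + μ ^ 3 / X * exp (ζ / 0.45) / 0.12`. Use `ζ ≤ μ ^ 3 / 115.45`, `μ ^ 3 / X ≤ μ ^ 3 / 15.625`
for `μ ≤ 15`, and `ζ ≤ 2.166 μ`, `μ ^ 3 / X ≤ 16 μ` for `μ ≥ 16`.
`big_T`: `Good.H 1 1 0`, `Ul_le`, `El_le`, `El_div`, `Ml_chernoff` with `t = 5 / 12`. With
`λ = l / m ∈ [1 / 4, 1]` the logarithm of `z ^ 2` is at most `m` times
`5 / 7 + log (7 / 12) + λ (log (12 / 5) + 2 - log 64) + λ ^ 2 / (2 - λ) + 1 / 12 ≤ -0.024`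
(`log (12 / 7) ≥ 0.5389`, `log (80 / 3) ≥ 3.2833`; the function is convex, `λ ^ 2 / (2 - λ)` lies
below its chord).
-/

namespace Pool.Agent.Work.MP_66fdf3_co.BP

open Finset

theorem blk_small {m l d μ : ℕ} (hm : 1000 ≤ m) (hl : l ≤ m) (h1 : 1 ≤ μ) (h8 : μ ≤ 8)
    (h4 : 4 ≤ d) (h3 : 3 * μ ≤ d) :
    ∑ a ∈ range (l + 1), wt 1 1 0 d μ a / (m / 64 : ℝ) ^ a ≤ Real.exp (μ ^ 2 / 3) := by
  sorry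

end Pool.Agent.Work.MP_66fdf3_co.BP
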