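import Pool.Agent.Work.MP_66fdf3_co.BP.NDefs

/-!
Balanced permutations: group actions, matrices, the spectral package.
-/

namespace Pool.Agent.Work.MP_66fdf3_co.BP

open Finset Matrix

section
variable (G : Type*) {Ω : Type*} [Group G] [MulAction G Ω]

/-- Balanced permutation. -/
def BPm (o : Ω) : Prop := ∃ (g : Ω → G) (w : Ω → Ω), Function.Bijective (fun a => g a • o) ∧
  Function.Bijective w ∧ Function.Bijective (fun a => g a • w a)

variable [Fintype G] [Fintype Ω] [DecidableEq Ω]

/-- The orbit of `y` under the stabiliser of `x`. -/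
def orb (x y : Ω) : Finset Ω := univ.filter fun z => ∃ g : G, g • x = x ∧ g • y = z

variable (Ω) in
/-- The standing hypotheses. -/
structure Hyp : Prop where
  faith : ∀ g : G, (∀ x : Ω, g • x = x) → g = 1
  trans : ∀ x y : Ω, ∃ g : G, g • x = y
  prim : ∀ x : Ω, IsCoatom (MulAction.stabilizer G x)
  odd : Odd (Fintype.card Ω)
  even : ∀ x y : Ω, x ≠ y → Even (orb G x y).card

variable (Ω) in
/-- No transitive subgroup has trivial two-point stabilisers. -/
def NoFrob : Prop := ∀ N : Subgroup G, (∀ x y : Ω, ∃ g ∈ N, g • x = y) →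
  ∃ g ∈ N, g ≠ 1 ∧ ∃ x y : Ω, x ≠ y ∧ g • x = x ∧ g • y = y

/-- The stabiliser of `x` is doubly transitive on the orbit of `y`. -/
def TwoTr (x y : Ω) : Prop := ∀ u ∈ orb G x y, ∀ v ∈ orb G x y, ∀ u' ∈ orb G x y,
  ∀ v' ∈ orb G x y, u ≠ v → u' ≠ v' → ∃ g : G, g • x = x ∧ g • u = u' ∧ g • v = v'

/-- A partition whose parts lie in orbits of the stabiliser of `o`. -/
def Fine (o : Ω) (P : Finpartition (univ : Finset Ω)) : Prop :=
  ∀ p ∈ P.parts, ∀ x ∈ p, ∀ y ∈ p, y ∈ orb G o x

end

/-- The part sizes. -/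
def sizes {Ω : Type*} [Fintype Ω] [DecidableEq Ω] (P : Finpartition (univ : Finset Ω)) :
    Multiset ℕ := P.parts.val.map Finset.card

/-- Permutation matrix. -/
def rho {G : Type*} (X : Type*) [DecidableEq X] [SMul G X] (g : G) : Matrix X X ℂ :=
  Matrix.of fun x y => if g • y = x then 1 else 0

/-- The projection onto the constants. -/
noncomputable def E0 (X : Type*) [Fintype X] : Matrix X X ℂ :=
  Matrix.of fun _ _ => (Fintype.card X : ℂ)⁻¹

/-- Squared norm. -/
noncomputable def nsq {X : Type*} [Fintype X] (v : X → ℂ) : ℝ := ∑ x, ‖v x‖ ^ 2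

/-- Tensor product of matrices. -/
def tens {ι X : Type*} [Fintype ι] (A : ι → Matrix X X ℂ) : Matrix (ι → X) (ι → X) ℂ :=
  Matrix.of fun x y => ∏ i, A i (x i) (y i)

/-- Orthogonal projection. -/
def Proj {X : Type*} [Fintype X] (P : Matrix X X ℂ) : Prop := Pᴴ = P ∧ P * P = P

/-- Matrices in the image of the group algebra. -/
def InSpan (G : Type*) {X : Type*} [Fintype G] [DecidableEq X] [SMul G X] (E : Matrix X X ℂ) :
    Prop := ∃ c : G → ℂ, E = ∑ g, c g • rho X g

/-- Matrices that commute with the group. -/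
def Invt (G : Type*) {X : Type*} [Fintype X] [DecidableEq X] [SMul G X] (A : Matrix X X ℂ) :
    Prop := ∀ g : G, A * rho X g = rho X g * A

/-- The projection onto the functions of level set `S`. -/
noncomputable def PiS {ι : Type*} (X : Type*) [Fintype ι] [DecidableEq ι] [Fintype X]
    [DecidableEq X] (S : Finset ι) : Matrix (ι → X) (ι → X) ℂ :=
  tens fun i => if i ∈ S then 1 - E0 X else E0 X

/-- Averaging over the parts of a partition. -/
noncomputable def Qp {Ω : Type*} [Fintype Ω] [DecidableEq Ω] (P : Finpartition (univ : Finset Ω)) :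
    Matrix Ω Ω ℂ := Matrix.of fun x y => if y ∈ P.part x then ((P.part x).card : ℂ)⁻¹ else 0

/-- The indicator function of the bijections. -/
noncomputable def ind (Ω : Type*) [Fintype Ω] [DecidableEq Ω] : (Ω → Ω) → ℂ :=
  fun x => if Function.Bijective x then 1 else 0

/-- The normalising constant. -/
noncomputable def cN (m : ℕ) : ℝ := (m : ℝ) ^ m / (m.factorial : ℝ) ^ 2

/-- The number of coordinates of type `j`. -/
def cnt {ι J : Type*} [Fintype ι] [DecidableEq J] (t : ι → J) (j : J) : ℕ :=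
  (univ.filter fun i => t i = j).card

/-- The level of a type. -/
def lvl {ι J : Type*} [Fintype ι] (t : ι → Option J) : ℕ :=
  (univ.filter fun i => (t i).isSome).card

section
variable (G : Type*) {Ω : Type*} [Group G] [MulAction G Ω] [Fintype G] [Fintype Ω] [DecidableEq Ω]

/-- Averaging over the stabiliser of `o`. -/
noncomputable def Qk (o : Ω) : Matrix Ω Ω ℂ :=
  ((univ.filter fun g : G => g • o = o).card : ℂ)⁻¹ •
    ∑ g ∈ univ.filter fun g : G => g • o = o, rho Ω g

/-- Averaging along the orbital of `(o, w)`. -/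
noncomputable def Aw (o w : Ω) : Matrix Ω Ω ℂ :=
  Matrix.of fun x y => (Fintype.card Ω : ℂ) / Fintype.card G *
    (univ.filter fun g : G => g • o = x ∧ g • w = y).card

/-- The counting form. -/
noncomputable def Zb (o : Ω) (u v : (Ω → Ω) → ℂ) : ℂ :=
  ∑ g : Ω → G, star ((rho (Ω → Ω) g *ᵥ u) fun _ => o) * (star (ind Ω) ⬝ᵥ (rho (Ω → Ω) g *ᵥ v))

variable (Ω) in
/-- The main term. -/
noncomputable def Z0 : ℝ := (Fintype.card G : ℝ) ^ Fintype.card Ω *
  ((Fintype.card Ω).factorial : ℝ) ^ 3 / (Fintype.card Ω : ℝ) ^ (2 * Fintype.card Ω)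

variable (Ω) in
/-- The spectral package. -/
structure Spec where
  k : ℕ
  E : Option (Fin k) → Matrix Ω Ω ℂ
  d : Option (Fin k) → ℕ
  mu : Option (Fin k) → ℕ
  om : Option (Fin k) → G → ℂ
  E_none : E none = E0 Ω
  d_none : d none = 1
  mu_none : mu none = 1
  d_pos : ∀ j, 0 < d j
  mu_pos : ∀ j, 0 < mu j
  herm : ∀ j, (E j)ᴴ = E j
  mul : ∀ j l, E j * E l = if j = l then E j else 0
  sum : ∑ j, E j = 1
  comm : ∀ j (g : G), E j * rho Ω g = rho Ω g * E j
  cls : ∀ j u, (∑ g : G, rho Ω (g * u * g⁻¹)) * E j = ((Fintype.card G : ℂ) * om j u) • E j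
  orth : ∀ j l, (∑ u : G, om j u⁻¹ * om l u) * (d j : ℂ) ^ 2 =
    if j = l then (Fintype.card G : ℂ) else 0
  tr : ∀ j, (E j).trace = (d j : ℂ) * mu j

variable {G}

namespace Spec

variable (S : Spec G Ω)

/-- The component of type `t`. -/
noncomputable def ft (t : Ω → Option (Fin S.k)) : (Ω → Ω) → ℂ :=
  tens (fun i => S.E (t i)) *ᵥ ind Ω

/-- The component of type `t` of the averaged indicator function. -/
noncomputable def bt (o : Ω) (t : Ω → Option (Fin S.k)) : (Ω → Ω) → ℂ :=
  tens (fun i => S.E (t i) * Qk G o) *ᵥ ind Ω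

/-- Normalised mass. -/
noncomputable def xm (t : Ω → Option (Fin S.k)) : ℝ := cN (Fintype.card Ω) * nsq (S.ft t)

/-- Normalised mass. -/
noncomputable def ym (o : Ω) (t : Ω → Option (Fin S.k)) : ℝ :=
  cN (Fintype.card Ω) * nsq (S.bt o t)

/-- The normalised contribution of level `l`. -/
noncomputable def z (o : Ω) (l : ℕ) : ℝ :=
  ‖∑ t ∈ univ.filter fun t : Ω → Option (Fin S.k) => lvl t = l, Zb G o (ind Ω) (S.ft t)‖ / Z0 G Ω

end Spec

end

end Pool.Agent.Work.MP_66fdf3_co.BP
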