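import Pool.Agent.Work.MP_66fdf3_co.BP.GBas

/-!
A theorem of Baer and Suzuki, in the form needed here.

Plan. Suppose any two conjugates of `z` have a common fixed point (conjugate the pair to make one of
them `z`). `C x` is the finite set of conjugates of `z` that fix `x`; all `C x` have the same size.
They are not all equal, otherwise `z` fixes every point. Choose `x, y` with `C x ≠ C y` and
`I = C x ∩ C y` as large as possible. `exists_norm`: there is `u ∈ C x \ I` that normalises `I`: take
`H ≤ G_x` maximal such that the conjugates of `z` in `H` are exactly `I` (`G_x ⊓ G_y` is such a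
group); `H ≠ G_x`; the normaliser condition in the nilpotent group `G_x`
(`IsPGroup.isNilpotent`, `normalizerCondition_of_isNilpotent`) gives a larger group `N` in which
`H` is normal, and `u ∈ N`. Likewise `v ∈ C y \ I`. `u, v` fix a common point `c`, so they lie in
the group `G_c ⊓ (normaliser of I)` of order a power of two, which permutes the fixed points of `I`;
their number is odd (`two_fix_odd` for the closure of `I`), so `u, v` fix a fixed point `e` of `I`
(`two_fix`). Maximality gives `C x = C e = C y`.
-/

namespace Pool.Agent.Work.MP_66fdf3_co.BP

open Finset MulAction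

variable {G Ω : Type*} [Group G] [MulAction G Ω] [Fintype G] [Fintype Ω] [DecidableEq Ω]

theorem Hyp.baer (h : Hyp G Ω) (h2 : ∀ x : Ω, IsPGroup 2 (stabilizer G x)) {o : Ω} {z : G}
    (hz : z • o = o) (h1 : z ≠ 1) : ∃ g : G, ∀ x : Ω, z • x = x → (g * z * g⁻¹) • x ≠ x := by
  sorry

end Pool.Agent.Work.MP_66fdf3_co.BP
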