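import Pool.Agent.Work.MP_66fdf3_co.BP.Defs

/-!
Group actions: counting, primitivity, fixed points, Hall's theorem for fibres.
-/

namespace Pool.Agent.Work.MP_66fdf3_co.BP

open Finset MulAction

/-- A section of `p` on which `q` is injective. Hall's theorem
(`Finset.all_card_le_biUnion_card_iff_exists_injective`) and double counting. -/
theorem hall_fib {Γ Ω : Type*} [Fintype Γ] [Fintype Ω] [DecidableEq Ω] (p q : Γ → Ω) {c : ℕ}
    (hc : 0 < c) (hp : ∀ x, c ≤ (univ.filter fun g => p g = x).card)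
    (hq : ∀ x, (univ.filter fun g => q g = x).card ≤ c) :
    ∃ s : Ω → Γ, (∀ x, p (s x) = x) ∧ Function.Bijective fun x => q (s x) := by
  obtain ⟨f, hf, hm⟩ := (Finset.all_card_le_biUnion_card_iff_exists_injective
    fun x => (univ.filter fun g => p g = x).image q).1 fun s => by
      have h1 : c * s.card ≤ (univ.filter fun g => p g ∈ s).card :=
        mul_card_image_le_card_of_maps_to (f := p) (fun a ha => (mem_filter.1 ha).2) c fun b hb =>
          (hp b).trans (card_le_card fun g hg => by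
            have e := (mem_filter.1 hg).2
            exact mem_filter.2 ⟨mem_filter.2 ⟨mem_univ _, e ▸ hb⟩, e⟩)
      refine Nat.le_of_mul_le_mul_left (h1.trans ?_) hc
      refine card_le_mul_card_image_of_maps_to (f := q) (fun a ha => ?_) c fun b _ =>
        (card_le_card fun g hg => mem_filter.2 ⟨mem_univ _, (mem_filter.1 hg).2⟩).trans (hq b)
      exact mem_biUnion.2 ⟨p a, (mem_filter.1 ha).2,
        mem_image_of_mem q (mem_filter.2 ⟨mem_univ _, rfl⟩)⟩
  choose s h1 h2 using fun x => mem_image.1 (hm x)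
  refine ⟨s, fun x => (mem_filter.1 (h1 x)).2, Finite.injective_iff_bijective.1 ?_⟩
  rwa [funext h2]

variable {G Ω : Type*} [Group G] [MulAction G Ω] [Fintype G] [Fintype Ω] [DecidableEq Ω]

theorem mem_orb {x y z : Ω} : z ∈ orb G x y ↔ ∃ g : G, g • x = x ∧ g • y = z := by
  simp [orb]

theorem self_mem_orb (x y : Ω) : y ∈ orb G x y := mem_orb.2 ⟨1, one_smul _ _, one_smul _ _⟩

theorem orb_self (x : Ω) : orb G x x = {x} := by
  ext z
  rw [mem_orb, mem_singleton]
  exact ⟨fun ⟨g, h1, h2⟩ => h2.symm.trans h1, fun e => ⟨1, one_smul _ _, by rw [e, one_smul]⟩⟩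

theorem orb_eq {x y z : Ω} (h : z ∈ orb G x y) : orb G x z = orb G x y := by
  obtain ⟨k, k1, k2⟩ := mem_orb.1 h
  ext w
  rw [mem_orb, mem_orb]
  constructor
  · rintro ⟨g, h1, h2⟩
    exact ⟨g * k, by rw [mul_smul, k1, h1], by rw [mul_smul, k2, h2]⟩
  · rintro ⟨g, h1, h2⟩
    exact ⟨g * k⁻¹, by rw [mul_smul, inv_smul_eq_iff.2 k1.symm, h1],
      by rw [mul_smul, inv_smul_eq_iff.2 k2.symm, h2]⟩

theorem ne_of_mem_orb {x y z : Ω} (h : z ∈ orb G x y) (hxy : x ≠ y) : x ≠ z := by
  obtain ⟨k, k1, k2⟩ := mem_orb.1 h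
  exact fun e => hxy (MulAction.injective k (k1.trans (e.trans k2.symm)))

theorem smul_mem_orb {x y z : Ω} (g : G) : g • z ∈ orb G (g • x) (g • y) ↔ z ∈ orb G x y := by
  rw [mem_orb, mem_orb]
  constructor
  · rintro ⟨k, h1, h2⟩
    exact ⟨g⁻¹ * k * g, by rw [mul_smul, mul_smul, h1, inv_smul_smul],
      by rw [mul_smul, mul_smul, h2, inv_smul_smul]⟩
  · rintro ⟨k, h1, h2⟩
    exact ⟨g * k * g⁻¹, by rw [mul_smul, mul_smul, inv_smul_smul, h1],
      by rw [mul_smul, mul_smul, inv_smul_smul, h2]⟩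

theorem card_orb_smul (g : G) (x y : Ω) : (orb G (g • x) (g • y)).card = (orb G x y).card := by
  exact (card_equiv (MulAction.toPerm g) fun z => (smul_mem_orb g).symm).symm

/-- All fibres of `g ↦ g • x` have the same size. -/
theorem card_fib (htr : ∀ x y : Ω, ∃ g : G, g • x = y) (x y : Ω) :
    Fintype.card Ω * (univ.filter fun g : G => g • x = y).card = Fintype.card G := by
  rw [← card_univ (α := G), card_eq_sum_card_fiberwise (f := fun g : G => g • x) (s := univ)
    (t := univ) fun _ _ => mem_coe.2 (mem_univ _), ← card_univ (α := Ω), ← smul_eq_mul,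
    ← sum_const]
  refine sum_congr rfl fun w _ => ?_
  obtain ⟨k, rfl⟩ := htr y w
  exact card_equiv (Equiv.mulLeft k) fun g => by simp [mul_smul]

theorem GBas_card (H : Subgroup G) (p : G → Prop) [DecidablePred p] (h : ∀ g, g ∈ H ↔ p g) :
    Nat.card H = (univ.filter p).card :=
  Nat.subtype_card _ fun g => by simp [h]
theorem card_stab (htr : ∀ x y : Ω, ∃ g : G, g • x = y) (x : Ω) :
    Fintype.card Ω * Nat.card (stabilizer G x) = Nat.card G := by
  rw [GBas_card (stabilizer G x) (fun g => g • x = x) fun g => Iff.rfl, card_fib htr,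
    Nat.card_eq_fintype_card]

theorem card_stab_eq (htr : ∀ x y : Ω, ∃ g : G, g • x = y) (x y : Ω) :
    Nat.card (stabilizer G x) = Nat.card (stabilizer G y) := by
  exact Nat.eq_of_mul_eq_mul_left (Fintype.card_pos_iff.2 ⟨x⟩)
    ((card_stab htr x).trans (card_stab htr y).symm)

theorem GBas_fib {x y z : Ω} (h : z ∈ orb G x y) :
    (orb G x y).card * (univ.filter fun g : G => g • x = x ∧ g • y = z).card =
      (univ.filter fun g : G => g • x = x).card := by
  rw [card_eq_sum_card_fiberwise (f := fun g : G => g • y) (s := univ.filter fun g : G => g • x = x)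
    (t := orb G x y) fun g hg => mem_orb.2 ⟨g, (mem_filter.1 hg).2, rfl⟩, ← smul_eq_mul,
    ← sum_const]
  refine sum_congr rfl fun w hw => ?_
  rw [← orb_eq h] at hw
  obtain ⟨k, k1, rfl⟩ := mem_orb.1 hw
  refine card_equiv (Equiv.mulLeft k) fun g => ?_
  have e : k • g • x = x ↔ g • x = x := by
    conv_lhs => rhs; rw [← k1]
    exact smul_left_cancel_iff k
  simp [mul_smul, e]
/-- Orbit and stabiliser. -/
theorem card_orb_mul (x y : Ω) :
    (orb G x y).card * Nat.card (stabilizer G x ⊓ stabilizer G y : Subgroup G) =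
      Nat.card (stabilizer G x) := by
  rw [GBas_card (stabilizer G x) (fun g => g • x = x) fun g => Iff.rfl,
    GBas_card _ (fun g => g • x = x ∧ g • y = y) fun g => Iff.rfl, GBas_fib (self_mem_orb x y)]

theorem card_orb_fib {x y z : Ω} (h : z ∈ orb G x y) :
    (orb G x y).card * (univ.filter fun g : G => g • x = x ∧ g • y = z).card =
      (univ.filter fun g : G => g • x = x).card := by
  exact GBas_fib h

theorem card_orb_symm (htr : ∀ x y : Ω, ∃ g : G, g • x = y) (x y : Ω) :
    (orb G x y).card = (orb G y x).card := by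
  have h1 := card_orb_mul (G := G) x y
  have h2 := card_orb_mul (G := G) y x
  rw [inf_comm, card_stab_eq htr y x, ← h1] at h2
  exact (Nat.eq_of_mul_eq_mul_right Nat.card_pos h2).symm

/-- A group of order a power of two fixes a point of an invariant set of odd size. -/
theorem two_fix {H : Subgroup G} (hH : IsPGroup 2 H) {F : Finset Ω} (hF : Odd F.card)
    (hI : ∀ g ∈ H, ∀ x ∈ F, g • x ∈ F) : ∃ x ∈ F, ∀ g ∈ H, g • x = x := by
  let S : SubMulAction H Ω := ⟨F, fun g x hx => hI g g.2 x hx⟩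
  have hc : Nat.card S = F.card := Nat.subtype_card _ fun _ => Iff.rfl
  obtain ⟨x, hx⟩ := hH.nonempty_fixed_point_of_prime_not_dvd_card S (by
    rw [hc]
    exact hF.not_two_dvd_nat)
  exact ⟨x, x.2, fun g hg => congrArg Subtype.val (hx ⟨g, hg⟩)⟩

/-- The number of fixed points of a group of order a power of two is odd. -/
theorem two_fix_odd (ho : Odd (Fintype.card Ω)) {H : Subgroup G} (hH : IsPGroup 2 H)
    {F : Finset Ω} (hF : ∀ x, x ∈ F ↔ ∀ g ∈ H, g • x = x) : Odd F.card := by
  have h1 := hH.card_modEq_card_fixedPoints Ω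
  have hc : Nat.card (fixedPoints H Ω) = F.card := Nat.subtype_card _ fun x =>
    (hF x).trans ⟨fun h g => h g g.2, fun h g hg => h ⟨g, hg⟩⟩
  rw [hc, Nat.card_eq_fintype_card, Nat.ModEq, Nat.odd_iff.1 ho] at h1
  exact Nat.odd_iff.2 h1.symm

namespace Hyp

variable (h : Hyp G Ω)
include h

/-- A subgroup that properly contains a stabiliser is everything. -/
theorem top {x : Ω} {H : Subgroup G} (hH : stabilizer G x ≤ H) {g : G} (hg : g ∈ H)
    (hx : g • x ≠ x) : H = ⊤ :=
  (h.prim x).2 H (lt_of_le_of_ne hH fun e => hx (by rw [← e] at hg; exact hg))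

/-- Invariant equivalence relations are trivial. -/
theorem rel (r : Ω → Ω → Prop) (hr : Equivalence r) (hi : ∀ (g : G) x y, r x y → r (g • x) (g • y))
    {x y : Ω} (hxy : x ≠ y) (hr' : r x y) (u v : Ω) : r u v := by
  let H : Subgroup G :=
    { carrier := {g | r x (g • x)}
      one_mem' := by simpa using hr.refl x
      mul_mem' := fun {a b} ha hb => by
        have := hr.trans ha (hi a _ _ hb)
        rwa [← mul_smul] at this
      inv_mem' := fun {a} ha => by
        have := hr.symm (hi a⁻¹ _ _ ha)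
        rwa [inv_smul_smul] at this }
  obtain ⟨g, rfl⟩ := h.trans x y
  have hH : H = ⊤ := h.top (x := x) (fun k (hk : k • x = x) => by
    show r x (k • x)
    rw [hk]
    exact hr.refl x) (g := g) hr' hxy.symm
  have key : ∀ w, r x w := fun w => by
    obtain ⟨k, rfl⟩ := h.trans x w
    exact (hH ▸ Subgroup.mem_top k : k ∈ H)
  exact hr.trans (hr.symm (key u)) (key v)

/-- Different points have different stabilisers. -/
theorem exists_move {x y : Ω} (hxy : x ≠ y) : ∃ g : G, g • x = x ∧ g • y ≠ y := by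
  by_contra hc
  push Not at hc
  have e : orb G x y = {y} := by
    ext z
    rw [mem_orb, mem_singleton]
    exact ⟨fun ⟨g, h1, h2⟩ => h2.symm.trans (hc g h1),
      fun e => ⟨1, one_smul _ _, by rw [e, one_smul]⟩⟩
  have := h.even x y hxy
  rw [e, card_singleton] at this
  exact Nat.not_even_one this

/-- A subgroup of a stabiliser that is normalised by it and by an element outside is trivial. -/
theorem eq_bot {x : Ω} {L : Subgroup G} (hL : L ≤ stabilizer G x)
    (hN : ∀ k : G, k • x = x → ∀ l ∈ L, k * l * k⁻¹ ∈ L) {g : G} (hg : ∀ l ∈ L, g * l * g⁻¹ ∈ L)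
    (hx : g • x ≠ x) : L = ⊥ := by
  have hT : Subgroup.normalizer (L : Set G) = ⊤ :=
    h.top (x := x) (fun k hk => Subgroup.mem_normalizer_fintype (hN k hk))
      (Subgroup.mem_normalizer_fintype hg) hx
  refine (Subgroup.eq_bot_iff_forall L).2 fun l hl => h.faith l fun y => ?_
  obtain ⟨k, rfl⟩ := h.trans x y
  have h1 : k⁻¹ ∈ Subgroup.normalizer (L : Set G) := hT ▸ Subgroup.mem_top _
  have h2 : (k⁻¹ * l * k⁻¹⁻¹) • x = x := hL ((h1 l).1 hl)
  rwa [inv_inv, mul_smul, mul_smul, inv_smul_eq_iff] at h2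

/-- A nontrivial normal subgroup is transitive. -/
theorem normal_trans {N : Subgroup G} (hN : N.Normal) (h1 : N ≠ ⊥) (x y : Ω) :
    ∃ g ∈ N, g • x = y := by
  obtain ⟨n, hn, hn1⟩ : ∃ n ∈ N, n ≠ 1 := by
    by_contra hc
    push Not at hc
    exact h1 ((Subgroup.eq_bot_iff_forall N).2 hc)
  obtain ⟨a, ha⟩ : ∃ a : Ω, n • a ≠ a := by
    by_contra hc
    push Not at hc
    exact hn1 (h.faith n hc)
  refine h.rel (fun u v => ∃ g ∈ N, g • u = v) ⟨fun u => ⟨1, N.one_mem, one_smul _ _⟩, ?_, ?_⟩ ?_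
    ha.symm ⟨n, hn, rfl⟩ x y
  · rintro u _ ⟨g, hg, rfl⟩
    exact ⟨g⁻¹, N.inv_mem hg, inv_smul_smul _ _⟩
  · rintro u _ _ ⟨g, hg, rfl⟩ ⟨k, hk, rfl⟩
    exact ⟨k * g, N.mul_mem hk hg, mul_smul _ _ _⟩
  · rintro k u _ ⟨g, hg, rfl⟩
    exact ⟨k * g * k⁻¹, hN.conj_mem g hg k, by rw [mul_smul, mul_smul, inv_smul_smul]⟩

end Hyp

end Pool.Agent.Work.MP_66fdf3_co.BP
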