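import Pool.Agent.Work.MP_66fdf3_co.BP.GDim3

/-!
No constituent has dimension three. The plan is in the header of `GDim`.
-/

namespace Pool.Agent.Work.MP_66fdf3_co.BP

open Finset MulAction Matrix

variable {G Ω : Type*} [Group G] [MulAction G Ω] [Fintype G] [Fintype Ω] [DecidableEq Ω]

open scoped ComplexOrder in
/-- A unitary matrix of size three and determinant one with two independent fixed vectors. -/
theorem GDet_one {M : Matrix (Fin 3) (Fin 3) ℂ} (hu : Mᴴ * M = 1) (hd : M.det = 1)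
    {a b : Fin 3 → ℂ} (hi : LinearIndependent ℂ ![a, b]) (ha : M *ᵥ a = a) (hb : M *ᵥ b = b) :
    M = 1 := by
  have hn := crossProduct_ne_zero_iff_linearIndependent.2 hi
  obtain ⟨c, hc⟩ : ∃ c, star c = crossProduct a b := ⟨star _, star_star _⟩
  have h1 : ∀ w, Matrix.det (Matrix.of ![w, a, b]) = star c ⬝ᵥ w := fun w => by
    rw [hc, dotProduct_comm, triple_product_eq_det]
    rfl
  have h2 : Matrix.of ![c, a, b] * Mᵀ = Matrix.of ![M *ᵥ c, a, b] := by
    nth_rewrite 2 [← ha, ← hb]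
    ext i j
    fin_cases i <;> simp [mul_apply, mulVec, dotProduct, mul_comm]
  have h3 : star c ⬝ᵥ M *ᵥ c = star c ⬝ᵥ c := by
    rw [← h1, ← h2, det_mul, det_transpose, hd, mul_one, h1]
  have h4 : star (M *ᵥ c) ⬝ᵥ c = star c ⬝ᵥ c := by
    rw [star_dotProduct, h3, ← star_dotProduct]
  have h5 : star (M *ᵥ c) ⬝ᵥ M *ᵥ c = star c ⬝ᵥ c := by
    rw [dot_mulVec, mulVec_mulVec, hu, one_mulVec]
  have h6 : M *ᵥ c = c := by
    rw [← sub_eq_zero, ← dotProduct_star_self_eq_zero, star_sub, sub_dotProduct, dotProduct_sub,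
      dotProduct_sub, h3, h4, h5, sub_self]
  have h7 : IsUnit (Matrix.of ![c, a, b]).det := by
    rw [h1, isUnit_iff_ne_zero, Ne, dotProduct_star_self_eq_zero]
    rintro rfl
    exact hn (by rw [← hc, star_zero])
  rw [h6] at h2
  have h8 := congrArg ((Matrix.of ![c, a, b])⁻¹ * ·) h2
  simp only [nonsing_inv_mul_cancel_left _ _ h7, nonsing_inv_mul _ h7] at h8
  rw [← transpose_transpose M, h8, transpose_one]

/-- The representation on the range of an invariant projection. -/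
noncomputable def GDet_rep {n : ℕ} (U : Matrix Ω (Fin n) ℂ) (h1 : Uᴴ * U = 1)
    (hc : ∀ g : G, U * Uᴴ * rho Ω g = rho Ω g * (U * Uᴴ)) : G →* Matrix (Fin n) (Fin n) ℂ where
  toFun g := Uᴴ * rho Ω g * U
  map_one' := by rw [rho_one, Matrix.mul_one, h1]
  map_mul' g k := by
    have := congrArg (Uᴴ * rho Ω g * · * U) (hc k)
    simp only [Matrix.mul_assoc, h1, Matrix.mul_one] at this
    simp only [← rho_mul, Matrix.mul_assoc, this]

theorem GDet_vec (S : Spec G Ω) (h : Hyp G Ω) (j : Option (Fin S.k)) (x : Ω) :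
    ∃ u : Ω → ℂ, u ≠ 0 ∧ S.E j *ᵥ u = u ∧ ∀ k : G, k • x = x → rho Ω k *ᵥ u = u := by
  have h1 : S.E j * Qk G x ≠ 0 := fun e => by
    have := S.trQ h.trans x j
    rw [e, trace_zero, eq_comm, pow_eq_zero_iff two_ne_zero, Nat.cast_eq_zero] at this
    exact (S.mu_pos j).ne' this
  obtain ⟨w, hw⟩ : ∃ w, (S.E j * Qk G x) *ᵥ w ≠ 0 := by
    by_contra e
    exact h1 (ext_of_mulVec_single fun i => by
      rw [zero_mulVec]
      exact not_not.1 (not_exists.1 e _))
  refine ⟨_, hw, ?_, (Qk_mulVec x _).1 ?_⟩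
  · rw [mulVec_mulVec, ← Matrix.mul_assoc, (S.proj j).2]
  · rw [mulVec_mulVec, S.comm_Qk, ← Matrix.mul_assoc, (proj_Qk x).2]

theorem Spec.four_le_d (S : Spec G Ω) (h : Hyp G Ω) (hN : NoFrob G Ω) (i : Fin S.k) :
    4 ≤ S.d (some i) := by
  by_contra h4
  have h3 := S.three_mul h hN i
  have h0 := S.mu_pos (some i)
  have hd : S.d (some i) = 3 := by omega
  have hm : S.mu (some i) = 1 := by omega
  obtain ⟨n, U, hE, hU, hn⟩ := (S.proj (some i)).exists_basis
  rw [S.tr, hd, hm] at hn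
  obtain rfl : n = 3 := by exact_mod_cast hn.symm
  let R := GDet_rep (G := G) U hU (hE ▸ S.comm (some i))
  have hR : ∀ g, R g = Uᴴ * rho Ω g * U := fun _ => rfl
  let χ : G →* ℂ := detMonoidHom.comp R
  by_cases hk : χ.ker = ⊥
  · obtain ⟨g, -, hg, x, -, -, hx, -⟩ := hN ⊤ fun x y => (h.trans x y).imp fun _ e => ⟨trivial, e⟩
    refine hg (h.faith g fun y => ?_)
    obtain ⟨k, rfl⟩ := h.trans x y
    have e : g * k * (k * g)⁻¹ ∈ χ.ker := by
      rw [MonoidHom.mem_ker, map_mul, map_mul, mul_comm (χ g), ← map_mul, ← map_mul,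
        mul_inv_cancel, map_one]
    rw [hk, Subgroup.mem_bot, mul_inv_eq_one] at e
    rw [← mul_smul, e, mul_smul, hx]
  obtain ⟨g, hg, hg1, x, y, hxy, hx, hy⟩ := hN _ (h.normal_trans inferInstance hk)
  obtain ⟨u, u0, uE, ux⟩ := GDet_vec S h (some i) x
  obtain ⟨v, v0, vE, vy⟩ := GDet_vec S h (some i) y
  have hf : ∀ w, S.E (some i) *ᵥ w = w → ∀ k, R k *ᵥ Uᴴ *ᵥ w = Uᴴ *ᵥ rho Ω k *ᵥ w :=
    fun w hw k => by
      rw [hR, ← mulVec_mulVec, ← mulVec_mulVec, mulVec_mulVec _ U, hE, hw]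
  have hb : ∀ w, S.E (some i) *ᵥ w = w → U *ᵥ Uᴴ *ᵥ w = w := fun w hw => by
    rw [mulVec_mulVec, hE, hw]
  have h1 : R g = 1 := by
    refine GDet_one ?_ hg (a := Uᴴ *ᵥ u) (b := Uᴴ *ᵥ v) (LinearIndependent.pair_iff.2
      fun s t e => ?_) (by rw [hf u uE, ux g hx]) (by rw [hf v vE, vy g hy])
    · have : (R g)ᴴ = R g⁻¹ := by
        rw [hR, hR, conjTranspose_mul, conjTranspose_mul, conjTranspose_conjTranspose, rho_conjT,
          Matrix.mul_assoc]
      rw [this, ← map_mul, inv_mul_cancel, map_one]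
    · have e1 := congrArg (U *ᵥ ·) e
      simp only [mulVec_add, mulVec_smul, hb u uE, hb v vE, mulVec_zero] at e1
      obtain ⟨k, k1, k2⟩ := h.exists_move hxy.symm
      have e2 : s • u = 0 := S.fix_zero h i (by rw [mulVec_smul, uE])
        (fun l hl => by rw [mulVec_smul, ux l hl])
        (by rw [eq_neg_of_add_eq_zero_left e1, mulVec_neg, mulVec_smul, vy k k1]) k2
      rw [e2, zero_add] at e1
      exact ⟨(smul_eq_zero.1 e2).resolve_right u0, (smul_eq_zero.1 e1).resolve_right v0⟩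
  obtain ⟨k, hk1, hk2⟩ := h.normal_trans (N := R.ker) inferInstance
    (fun e => hg1 (Subgroup.mem_bot.1 (e ▸ MonoidHom.mem_ker.2 h1))) x y
  refine u0 (S.fix_zero h i uE ux (g := k) ?_ (hk2 ▸ hxy.symm))
  have e := congrArg (U *ᵥ ·) (hf u uE k)
  simp only [MonoidHom.mem_ker.1 hk1, one_mulVec, hb u uE] at e
  rw [hb _ (by rw [mulVec_mulVec, S.comm, ← mulVec_mulVec, uE])] at e
  exact e.symm

end Pool.Agent.Work.MP_66fdf3_co.BP
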