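import Pool.Agent.Work.MP_66fdf3_co.BP.SpecF

/-!
Lower bounds for the dimensions.

Plan. Fix `i`, `E = S.E (some i)`. `V` is the space of vectors fixed by `E`, of dimension `d mu`;
`W x` is the space of vectors fixed by `E * Qk x`, that is the vectors of `V` fixed by `G_x`
(`Qk_mulVec`), of dimension `mu ^ 2` (`Proj.trace_eq`, `trQ`). `fix_zero`: a vector of `V` fixed by
`G_x` and by some `g` with `g • x ≠ x` is zero: its stabiliser is `⊤` (`Hyp.top`), so it is fixed by
`E0` (`sum_rho`), and `E0 * E = 0`.
`three_mul`: `NoFrob` for `⊤` gives `g ≠ 1` fixing `x ≠ y` and moving some `z`. The map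
`W x × W y × W z → V`, `(u, v, w) ↦ u + v + w` is injective (`w` is fixed by `g`; then
`exists_move`). `LinearMap.finrank_le_finrank_of_injective`.
`four_mul`: let `y₀, .., y₃` be the points of `orb o a`, `T j = rho (g j)` with `g j • o = o`,
`g j • y₀ = y j`; for `w ∈ W y₀` and any `g` with `g • y₀ = y`, `rho g w` depends only on `y`; call it
`T y w`. The map `W o × {w : orb → W y₀ | ∑ w = 0} → V`, `u + ∑ y, T y (w y)` is injective. Sum the
relation over `G_o`: `u = 0`. Sum over `G_o ⊓ G_y₁`, which is transitive on the other three points: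
`4 T y₁ (w y₁) = ∑ y, T y (w y₁)` is fixed by `G_o` and `G_y₁`, so it is zero.
`four_le_d`: if `mu ≥ 2` use `three_mul`. If `mu = 1`, `d = 3`:
`χ g = det (rho g * E + (1 - E))` is multiplicative; `N = ker χ` is normal. If `N = ⊥` then `G` is
commutative, so `G_x` is normal, so trivial (`eq_bot`), against `NoFrob`. Otherwise `N` is
transitive (`normal_trans`) and `NoFrob` gives `1 ≠ g ∈ N` fixing `x ≠ y`. `M = rho g * E + (1 - E)`
is unitary and fixes `W x ⊔ W y` and the kernel of `E`, a space of codimension at most one; with `F`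
the projection onto its complement, `M = 1 + (c - 1) • F`, `trace F ≤ 1`, `det M = c` if `F ≠ 0`
(`Matrix.det_one_add_mul_comm` with `Proj.exists_basis`), so `M = 1`. The group of all `g` with
`rho g * E = E` is normal and nontrivial, so transitive, and `E = 0` (every column is constant).
-/

namespace Pool.Agent.Work.MP_66fdf3_co.BP

open Finset MulAction Matrix

variable {G Ω : Type*} [Group G] [MulAction G Ω] [Fintype G] [Fintype Ω] [DecidableEq Ω]

namespace Spec

variable (S : Spec G Ω)

theorem fix_zero (h : Hyp G Ω) (i : Fin S.k) {v : Ω → ℂ} (hv : S.E (some i) *ᵥ v = v) {x : Ω}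
    (hx : ∀ k : G, k • x = x → rho Ω k *ᵥ v = v) {g : G} (hg : rho Ω g *ᵥ v = v)
    (hm : g • x ≠ x) : v = 0 := by
  sorry

theorem three_mul (h : Hyp G Ω) (hN : NoFrob G Ω) (i : Fin S.k) :
    3 * S.mu (some i) ≤ S.d (some i) := by
  sorry

end Spec

end Pool.Agent.Work.MP_66fdf3_co.BP
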