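import Pool.Agent.Work.MP_66fdf3_co.BP.GOct

/-!
Suborbits of length four when the stabiliser is not a group of order a power of two.

Plan. `twoTr`: an odd prime `p` divides `|G_o|`. `S x` is the finite set of elements of order `p` in
`G_x`; all have the same size and are nonempty. If `S x` fixes `orb x y` pointwise then
`S x ⊆ S y`, so `S x = S y`, `rel` makes all `S` equal, against `faith`. So some `g ∈ S x` moves a
point of `orb x y`; on four points it fixes exactly one point (count the fixed points modulo `p`,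
`IsPGroup.card_modEq_card_fixedPoints`, `p = 3`) and is transitive on the other three. Conjugate.
`twelve`. `Arc x y := ∃ g, g • o = x ∧ g • a = y`; `Out x = orb x y`, `In y = orb y x` for an arc,
both of size four (`card_orb_symm`). `Sg y y' := y ≠ y' ∧ ∃ x, Arc x y ∧ Arc x y'` is symmetric,
`G` is transitive on such pairs, `{y' | Sg y y'} = orb y y'`. With `λ = |In y ∩ In y'|` (constant),
`λ * |orb y y'| = 12` by double counting. `lam_le` (for all arc types): `λ ≤ 2`: if `λ = 4` then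
`In u = In v` is an invariant equivalence; if `λ = 3` then `|orb y y'| = 4`, `twoTr` makes it a
clique, and `u = v ∨ Sg u v` is an invariant equivalence with classes of size five.
If `λ = 2` the graph `Sg` is regular of degree six, and an edge has at least four common neighbours
(`Out x₁` and `Out x₂` meet only in the edge, by `lam_le` for the arc type `(a, o)`); `octa` gives the
contradiction. So `λ = 1`.
`octa`: let `c` be the number of common neighbours. If `c = 5` then `u = v ∨ r u v` is an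
equivalence with classes of size seven. If `c = 4` take nonadjacent `u ≠ u'` in `N y`;
`V = N y \ {u, u'}` is adjacent to both; for `v ∈ V`, `W = N v \ {u, u'}` is adjacent to both and
contains `y` and a point `w` not adjacent to `y`; `N u = V ∪ {y, w} = N u'`; `N u = N v` is an
invariant equivalence, so all `N` are equal, against irreflexivity.
-/

namespace Pool.Agent.Work.MP_66fdf3_co.BP

open Finset MulAction

variable {G Ω : Type*} [Group G] [MulAction G Ω] [Fintype G] [Fintype Ω] [DecidableEq Ω]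

variable (G) in
/-- A digraph with four arcs in and out of each point, locally doubly transitive. -/
structure GFour_D (O I : Ω → Finset Ω) : Prop where
  mem : ∀ {x y}, y ∈ O x ↔ x ∈ I y
  inv : ∀ (g : G) x y, y ∈ O x → g • y ∈ O (g • x)
  irr : ∀ x, x ∉ O x
  o4 : ∀ x, (O x).card = 4
  i4 : ∀ x, (I x).card = 4
  otr : ∀ x, ∀ u ∈ O x, ∀ v ∈ O x, ∀ u' ∈ O x, ∀ v' ∈ O x, u ≠ v → u' ≠ v' →
    ∃ g : G, g • x = x ∧ g • u = u' ∧ g • v = v'
  itr : ∀ x, ∀ u ∈ I x, ∀ v ∈ I x, ∀ u' ∈ I x, ∀ v' ∈ I x, u ≠ v → u' ≠ v' →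
    ∃ g : G, g • x = x ∧ g • u = u' ∧ g • v = v'

/-- The points with a common neighbour. -/
def GFour_N (I : Ω → Finset Ω) (y : Ω) : Finset Ω :=
  univ.filter fun y' => y ≠ y' ∧ (I y ∩ I y').Nonempty

theorem GFour_mem {I : Ω → Finset Ω} {y y' : Ω} :
    y' ∈ GFour_N I y ↔ y ≠ y' ∧ (I y ∩ I y').Nonempty := by
  rw [GFour_N, mem_filter, and_iff_right (mem_univ _)]

theorem GFour_symm {I : Ω → Finset Ω} {y y' : Ω} (h : y' ∈ GFour_N I y) : y ∈ GFour_N I y' :=
  GFour_mem.2 ⟨(GFour_mem.1 h).1.symm, inter_comm (I y) (I y') ▸ (GFour_mem.1 h).2⟩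

omit [Fintype G] [Fintype Ω] [DecidableEq Ω] in
theorem GFour_iff {F : Ω → Finset Ω} (h : ∀ (g : G) x y, y ∈ F x → g • y ∈ F (g • x)) (g : G)
    (x y : Ω) : y ∈ F (g • x) ↔ g⁻¹ • y ∈ F x :=
  ⟨fun c => by simpa using h g⁻¹ _ _ c, fun c => by simpa using h g _ _ c⟩

omit [Fintype G] [Fintype Ω] in
theorem GFour_card {F : Ω → Finset Ω} (h : ∀ (g : G) x y, y ∈ F x → g • y ∈ F (g • x)) (g : G)
    (x y : Ω) : (F (g • x) ∩ F (g • y)).card = (F x ∩ F y).card :=
  card_equiv (MulAction.toPerm g⁻¹) fun z => by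
    rw [mem_inter, mem_inter, GFour_iff h, GFour_iff h]
    rfl

namespace GFour_D

variable {O I : Ω → Finset Ω} (D : GFour_D G O I)
include D

omit [Fintype G] [Fintype Ω] [DecidableEq Ω] in
theorem symm : GFour_D G I O :=
  ⟨D.mem.symm, fun g _ _ c => D.mem.1 (D.inv g _ _ (D.mem.2 c)), fun x c => D.irr x (D.mem.2 c),
    D.i4, D.o4, D.itr, D.otr⟩

omit [Fintype G] in
theorem ninv (g : G) (x y : Ω) (c : y ∈ GFour_N I x) : g • y ∈ GFour_N I (g • x) := by
  obtain ⟨c1, z, hz⟩ := GFour_mem.1 c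
  exact GFour_mem.2 ⟨fun e => c1 (MulAction.injective g e), g • z, mem_inter.2
    ⟨D.symm.inv g _ _ (mem_inter.1 hz).1, D.symm.inv g _ _ (mem_inter.1 hz).2⟩⟩

omit [Fintype G] in
theorem two {x y : Ω} (hx : x ∈ I y) :
    ∃ u v, u ∈ GFour_N I y ∧ v ∈ GFour_N I y ∧ v ∈ GFour_N I u := by
  have h3 : 1 < ((O x).erase y).card := by
    rw [card_erase_of_mem (D.mem.2 hx), D.o4]
    omega
  obtain ⟨u, hu, v, hv, huv⟩ := one_lt_card.1 h3
  obtain ⟨u1, u2⟩ := mem_erase.1 hu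
  obtain ⟨v1, v2⟩ := mem_erase.1 hv
  exact ⟨u, v, GFour_mem.2 ⟨u1.symm, x, mem_inter.2 ⟨hx, D.mem.1 u2⟩⟩,
    GFour_mem.2 ⟨v1.symm, x, mem_inter.2 ⟨hx, D.mem.1 v2⟩⟩,
    GFour_mem.2 ⟨huv, x, mem_inter.2 ⟨D.mem.1 u2, D.mem.1 v2⟩⟩⟩

variable (h : Hyp G Ω)
include h

theorem tr {y y' z z' : Ω} (hy : y' ∈ GFour_N I y) (hz : z' ∈ GFour_N I z) :
    ∃ g : G, g • y = z ∧ g • y' = z' := by
  obtain ⟨y1, x, hx⟩ := GFour_mem.1 hy
  obtain ⟨z1, w, hw⟩ := GFour_mem.1 hz
  obtain ⟨g, rfl⟩ := h.trans x w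
  obtain ⟨k, -, k1, k2⟩ := D.otr (g • x) _ (D.inv g _ _ (D.mem.2 (mem_inter.1 hx).1)) _
    (D.inv g _ _ (D.mem.2 (mem_inter.1 hx).2)) _ (D.mem.2 (mem_inter.1 hw).1) _
    (D.mem.2 (mem_inter.1 hw).2) (fun e => y1 (MulAction.injective g e)) z1
  exact ⟨k * g, (mul_smul _ _ _).trans k1, (mul_smul _ _ _).trans k2⟩

theorem eq_orb {y y' : Ω} (hy : y' ∈ GFour_N I y) : GFour_N I y = orb G y y' := by
  ext z
  refine ⟨fun c => mem_orb.2 (D.tr h hy c), fun c => ?_⟩
  obtain ⟨g, g1, rfl⟩ := mem_orb.1 c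
  exact g1 ▸ D.ninv g _ _ hy

theorem count {y y' : Ω} (hy : y' ∈ GFour_N I y) (z : Ω) :
    (GFour_N I z).card * (I y ∩ I y').card = 12 := by
  have := card_mul_eq_card_mul (s := GFour_N I z) (t := I z) (fun z' x => x ∈ I z')
    (m := (I y ∩ I y').card) (n := 3) (fun z' hz => by
      obtain ⟨g, rfl, rfl⟩ := D.tr h hy hz
      rw [bipartiteAbove, filter_mem_eq_inter, GFour_card D.symm.inv]) fun x hx => by
      have e : (GFour_N I z).bipartiteBelow (fun z' x => x ∈ I z') x = (O x).erase z := by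
        ext u
        rw [mem_bipartiteBelow, mem_erase, GFour_mem, D.mem]
        exact ⟨fun c => ⟨c.1.1.symm, c.2⟩, fun c => ⟨⟨c.1.symm, x, mem_inter.2 ⟨hx, c.2⟩⟩, c.2⟩⟩
      rw [e, card_erase_of_mem (D.mem.2 hx), D.o4]
  rwa [D.i4] at this

theorem lam_le (hm : 8 ≤ Fintype.card Ω) {o : Ω} (h2 : ¬IsPGroup 2 (stabilizer G o)) {y y' : Ω}
    (hy : y' ∈ GFour_N I y) : (I y ∩ I y').card ≤ 2 := by
  by_contra hc
  obtain ⟨y1, x, hx⟩ := GFour_mem.1 hy
  have h4 : (I y ∩ I y').card ≤ 4 := D.i4 y ▸ card_le_card inter_subset_left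
  by_cases h3 : (I y ∩ I y').card = 3
  · have a1 : ∀ z, (GFour_N I z).card = 4 := fun z => by
      have := D.count h hy z
      rw [h3] at this
      omega
    have a2 : ∀ z, ∀ u ∈ GFour_N I z, ∀ v ∈ GFour_N I z, u = v ∨ v ∈ GFour_N I u := by
      intro z u hu v hv
      obtain ⟨w, hw⟩ := card_pos.1 (show 0 < (I z).card by rw [D.i4]; omega)
      obtain ⟨p, q, p1, q1, pq⟩ := D.two hw
      have e := D.eq_orb h hu
      refine (eq_or_ne u v).imp_right fun huv => ?_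
      obtain ⟨g, -, rfl, rfl⟩ := h.twoTr h2 (e ▸ a1 z) p (e ▸ p1) q (e ▸ q1) u (e ▸ hu) v (e ▸ hv)
        (GFour_mem.1 pq).1 huv
      exact D.ninv g _ _ pq
    have a3 := h.rel (fun u v => u = v ∨ v ∈ GFour_N I u) ⟨fun _ => Or.inl rfl,
      fun c => c.imp Eq.symm GFour_symm, fun {u v w} c d => by
        rcases c with rfl | c
        · exact d
        rcases d with rfl | d
        · exact Or.inr c
        · exact a2 v u (GFour_symm c) w d⟩
      (fun g u v c => c.imp (congrArg _) (D.ninv g u v)) y1 (Or.inr hy) y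
    have a4 : (univ : Finset Ω) ⊆ insert y (GFour_N I y) := fun v _ =>
      mem_insert.2 ((a3 v).imp_left Eq.symm)
    have a5 := (card_le_card a4).trans (card_insert_le _ _)
    rw [card_univ, a1] at a5
    omega
  · have a1 : I y ∩ I y' = I y := eq_of_subset_of_card_le inter_subset_left (by rw [D.i4]; omega)
    have a2 : I y ∩ I y' = I y' := eq_of_subset_of_card_le inter_subset_right (by rw [D.i4]; omega)
    have a3 := h.rel (fun u v => I u = I v) ⟨fun _ => rfl, Eq.symm, Eq.trans⟩ (fun g u v c => by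
      ext z
      rw [GFour_iff D.symm.inv, GFour_iff D.symm.inv, c]) y1 (a1.symm.trans a2) y x
    exact D.symm.irr x (a3 ▸ (mem_inter.1 hx).1)

end GFour_D

theorem GFour_out (o a : Ω) (g : G) :
    (univ.filter fun y => ∃ k : G, k • o = g • o ∧ k • a = y) = orb G (g • o) (g • a) := by
  ext y
  rw [mem_filter, and_iff_right (mem_univ _), mem_orb]
  exact ⟨fun ⟨k, k1, k2⟩ => ⟨k * g⁻¹, by simpa [mul_smul] using k1, by simpa [mul_smul] using k2⟩,
    fun ⟨k, k1, k2⟩ => ⟨k * g, (mul_smul _ _ _).trans k1, (mul_smul _ _ _).trans k2⟩⟩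

theorem GFour_exists (h : Hyp G Ω) {o₀ : Ω} (h2 : ¬IsPGroup 2 (stabilizer G o₀)) {o a : Ω}
    (hoa : o ≠ a) (h4 : (orb G o a).card = 4) (h4' : (orb G a o).card = 4) :
    ∃ O I : Ω → Finset Ω, GFour_D G O I := by
  have key : ∀ o a : Ω, (orb G o a).card = 4 → ∀ x, ∃ y, (orb G x y).card = 4 ∧
      (univ.filter fun y => ∃ k : G, k • o = x ∧ k • a = y) = orb G x y := fun o a c x => by
    obtain ⟨g, rfl⟩ := h.trans o x
    exact ⟨g • a, (card_orb_smul g o a).trans c, GFour_out o a g⟩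
  refine ⟨fun x => univ.filter fun y => ∃ k : G, k • o = x ∧ k • a = y,
    fun x => univ.filter fun y => ∃ k : G, k • a = x ∧ k • o = y,
    ?_, ?_, ?_, fun x => ?_, fun x => ?_, fun x => ?_, fun x => ?_⟩
  · intro x y
    simp only [mem_filter, mem_univ, true_and, and_comm]
  · intro g x y c
    obtain ⟨k, rfl, rfl⟩ := (mem_filter.1 c).2
    exact mem_filter.2 ⟨mem_univ _, g * k, mul_smul _ _ _, mul_smul _ _ _⟩
  · intro x c
    obtain ⟨k, k1, k2⟩ := (mem_filter.1 c).2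
    exact hoa (MulAction.injective k (k1.trans k2.symm))
  · obtain ⟨y, y1, y2⟩ := key o a h4 x
    exact (congrArg card y2).trans y1
  · obtain ⟨y, y1, y2⟩ := key a o h4' x
    exact (congrArg card y2).trans y1
  · obtain ⟨y, y1, y2⟩ := key o a h4 x
    rw [y2]
    exact h.twoTr h2 y1
  · obtain ⟨y, y1, y2⟩ := key a o h4' x
    rw [y2]
    exact h.twoTr h2 y1

theorem Hyp.twelve (h : Hyp G Ω) (hm : 8 ≤ Fintype.card Ω) {o : Ω}
    (h2 : ¬IsPGroup 2 (stabilizer G o)) {a : Ω} (h4 : (orb G o a).card = 4) :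
    ∃ b, (orb G o b).card = 12 := by
  have hoa : o ≠ a := by
    rintro rfl
    rw [orb_self, card_singleton] at h4
    omega
  obtain ⟨O, I, D⟩ := GFour_exists h h2 hoa h4 ((card_orb_symm h.trans a o).trans h4)
  obtain ⟨x, hx⟩ := card_pos.1 (show 0 < (I o).card by rw [D.i4]; omega)
  obtain ⟨b, -, hb, -⟩ := D.two hx
  have h1 := D.count h hb o
  have h3 := D.lam_le h hm h2 hb
  have h5 := card_pos.2 (GFour_mem.1 hb).2
  refine ⟨b, ?_⟩
  rw [← D.eq_orb h hb]
  by_contra h12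
  have hl : (I o ∩ I b).card = 2 := by
    by_contra h0
    rw [show (I o ∩ I b).card = 1 by omega] at h1
    omega
  refine h.octa hm (GFour_N I) (fun _ _ => GFour_symm) (fun x hx => (GFour_mem.1 hx).1 rfl)
    D.ninv (fun z => ?_) (c := (GFour_N I o ∩ GFour_N I b).card) ?_ fun z z' hz => ?_
  · have := D.count h hb z
    rw [hl] at this
    omega
  · obtain ⟨x₁, x₂, hne, e⟩ := card_eq_two.1 hl
    have m1 : x₁ ∈ I o ∩ I b := e ▸ mem_insert_self _ _
    have m2 : x₂ ∈ I o ∩ I b := e ▸ mem_insert_of_mem (mem_singleton_self _)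
    have a1 := D.symm.lam_le h hm h2 (y := x₁) (y' := x₂) (GFour_mem.2 ⟨hne, o,
      mem_inter.2 ⟨D.mem.2 (mem_inter.1 m1).1, D.mem.2 (mem_inter.1 m2).1⟩⟩)
    have a2 := card_union_add_card_inter (O x₁) (O x₂)
    have a3 := le_card_sdiff ({o, b} : Finset Ω) (O x₁ ∪ O x₂)
    have a4 : ({o, b} : Finset Ω).card ≤ 2 := card_le_two
    have a5 : (O x₁ ∪ O x₂) \ {o, b} ⊆ GFour_N I o ∩ GFour_N I b := fun u hu => by
      obtain ⟨u1, u2⟩ := mem_sdiff.1 hu
      rw [mem_insert, mem_singleton, not_or] at u2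
      obtain ⟨w, w1, w2⟩ : ∃ w ∈ I o ∩ I b, u ∈ O w :=
        (mem_union.1 u1).elim (fun c => ⟨x₁, m1, c⟩) fun c => ⟨x₂, m2, c⟩
      exact mem_inter.2
        ⟨GFour_mem.2 ⟨Ne.symm u2.1, w, mem_inter.2 ⟨(mem_inter.1 w1).1, D.mem.1 w2⟩⟩,
          GFour_mem.2 ⟨Ne.symm u2.2, w, mem_inter.2 ⟨(mem_inter.1 w1).2, D.mem.1 w2⟩⟩⟩
    have a6 := card_le_card a5
    rw [D.o4, D.o4] at a2
    omega
  · obtain ⟨g, rfl, rfl⟩ := D.tr h hb hz
    exact GFour_card D.ninv g o b

end Pool.Agent.Work.MP_66fdf3_co.BP
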