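import Pool.Agent.Work.MP_66fdf3_co.BP.GQuo

/-!
The induction.

Plan. `relIn_of_bp`: let `a₀` have `w a₀ = o`; `hp_system` with `S = K`, `J = G ⧸ K`,
`X a = (g a₀)⁻¹ * g a`, `W a = (w a).out`.
`bp_quot`: apply `Hyp.bp` to the range of `MulAction.toPermHom G (G ⧸ K)`, a subgroup of
`Equiv.Perm (G ⧸ K)`. Stabilisers are coatoms (images of conjugates of `K`; or use
`MulAction.isCoatom_stabilizer_iff_preprimitive`), the degree `K.index` divides `P.index`, which is
odd. If `orb o a` had odd size, `P` would fix a point `g K ≠ K` of it (`two_fix`); then `P` and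
`g⁻¹ P g` are Sylow subgroups of `K`, conjugate in `K`, so `g ∈ K`. For a general pair `x, y` use
`card_orb_smul`.
`no_of_even`: strong induction on the order. If the normaliser of `P` is `⊤`, Schur-Zassenhaus
(`Subgroup.exists_left_complement'_of_coprime`) and `no_of_compl`. Otherwise let `K` be a coatom
above it. The commutator subgroup of `K` has even order: if `P` is not commutative take a nontrivial
commutator of elements of `P`; otherwise argue as in `no_of_compl` (Burnside's transfer theorem)
to get `n` in the normaliser and `s ∈ P` with `1 ≠ ⁅n, s⁆ ∈ P`. Then `NO K`, `two_lt_card`,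
`NO.toIn`, `NOin.cm`, `NO.of_sub`.
-/

namespace Pool.Agent.Work.MP_66fdf3_co.BP

open Finset MulAction

universe u in
theorem no_of_even (n : ℕ) : ∀ (G : Type u) [Group G] [Finite G], Nat.card G = n →
    Even (Nat.card (commutator G)) → NO G := by
  sorry

theorem main_full {G : Type*} [Group G] [Finite G] (h2 : Nat.card G ≠ 2) :
    HasNearOrthogonalMate G ↔ Even (Nat.card (commutator G)) :=
  ⟨necessity h2, fun he => (no_of_even _ G rfl he).mate⟩

end Pool.Agent.Work.MP_66fdf3_co.BP
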