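import Pool.Agent.Work.MP_66fdf3_co.BP.GRef

/-!
The partition into small parts.

Plan. `split`: a finite set whose size is a sum of a multiset `ks` of positive numbers has a
`Finpartition` with these part sizes (induction on `ks`, `Finset.exists_subset_card_eq`,
`Finpartition.extend`). `refine`: the orbits of `G_o` form a partition
(`Finpartition.ofSetoid`, or `Finpartition.ofExistsUnique`); choose a multiset `ks p` for each
orbit `p`, `Finpartition.bind` gives a `Fine` partition with `sizes = ∑ p, ks p`.
A multiset is `replicate b 6 + replicate c 8 + replicate e 10` as soon as its elements lie in
`{6, 8, 10}`; such multisets are closed under sums. Case A: no orbit has size four. Case C: sizes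
are powers of two (`card_orb_mul`, `IsPGroup.iff_card`), orbits of size four stay, the others are cut
into eights; `4 a` is the number of points in orbits of size four. Case B: one orbit of size twelve
stays, the others are cut into fours and sixes. `sizes.sum = m` is `Finpartition.sum_card_parts`.
`bp_15`: by `exists_part` there is a `Fine` partition with sizes `1, 6, 8` (the only solution of
`Cls 15`); orbits are unions of parts and `{o}` is an orbit.
So `k = |orb o a|` is `14`, or `6` or `8` and the rest is one
orbit of size `14 - k`. Use `bp_tri`. If there is no triangle, count the arcs from `orb o a` to the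
other orbit: `k * j = (14 - k) * i` with `j = k - 1` or `j = k`, impossible.
-/

namespace Pool.Agent.Work.MP_66fdf3_co.BP

open Finset MulAction

variable {G Ω : Type*} [Group G] [MulAction G Ω] [Fintype G] [Fintype Ω] [DecidableEq Ω]

theorem Hyp.bp_15 (h : Hyp G Ω) (hN : NoFrob G Ω) (hm : Fintype.card Ω = 15) (o : Ω) :
    BPm G o := by
  sorry

end Pool.Agent.Work.MP_66fdf3_co.BP
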