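import Pool.Agent.Work.MP_66fdf3_co.BP.NDefs

/-!
The level masses of the indicator function of the bijections.

Plan. Let `Gm = ∑ k ∈ range (m + 1), C (m ^ k / k!) * X ^ k * (1 - X) ^ (m - k)` in `ℝ[X]`. Its
coefficient of `X ^ l` is `Bf m (replicate m 1) l` (`Lz m 1 = 1 + m X`, binomial theorem,
`(m - j)! * choose m j = m! / j!`). It satisfies
`(1 - X) ^ 2 * Gm' = m X Gm - m (m X) ^ m / m!` (induction on the upper limit of the sum, or
telescoping), which gives the recurrence of `Ml` for the coefficients of index at most `m`.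
Chernoff: the degree is at most `m`, all coefficients are nonnegative, so
`Ml t ^ l ≤ Gm (t) = (1 - t) ^ m ∑ (t m / (1 - t)) ^ k / k!` (`Real.sum_le_exp_of_nonneg`).
-/

namespace Pool.Agent.Work.MP_66fdf3_co.BP

open Finset

theorem Ml_nonneg (m l : ℕ) : 0 ≤ Ml m l := by
  unfold Ml
  positivity

theorem Ml_rec {m l : ℕ} (h : l ≤ m) :
    ((l : ℝ) + 2) * Ml m (l + 2) = 2 * (l + 1) * Ml m (l + 1) + (m - l) * Ml m l := by
  unfold Ml
  rw [Nl, Nat.factorial_succ, Nat.factorial_succ]
  push_cast [Nat.cast_sub h]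
  have h1 : (l.factorial : ℝ) ≠ 0 := by exact_mod_cast (Nat.factorial_pos l).ne'
  field_simp
  ring

section
open Polynomial

theorem MRec_coeff {R : Type*} [CommSemiring R] (a : R) (n j : ℕ) :
    ((1 + C a * X) ^ n).coeff j = n.choose j * a ^ j := by
  have h := comp_C_mul_X_coeff (p := (1 + X : R[X]) ^ n) (r := a) (n := j)
  rw [coeff_one_add_X_pow] at h
  rw [← h]
  simp

/-- One term of the generating function. -/
noncomputable def MRec_T (m k : ℕ) : ℝ[X] :=
  C ((m : ℝ) ^ k / k.factorial) * X ^ k * (1 - X) ^ (m - k)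

/-- The generating function. -/
noncomputable def MRec_G (m n : ℕ) : ℝ[X] := ∑ k ∈ range (n + 1), MRec_T m k

theorem MRec_der (r : ℕ) :
    (1 - X : ℝ[X]) * derivative ((1 - X) ^ r) = -(r : ℝ[X]) * (1 - X) ^ r := by
  cases r with
  | zero => simp
  | succ r =>
    rw [derivative_pow_succ]
    simp only [derivative_sub, derivative_one, derivative_X, map_add, map_natCast, map_one]
    push_cast
    ring

theorem MRec_ode {m n : ℕ} (h : n ≤ m) : (1 - X) ^ 2 * derivative (MRec_G m n) =
    (m : ℝ[X]) * X * MRec_G m n - (m : ℝ[X]) * MRec_T m n := by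
  induction n with
  | zero =>
    have h1 := MRec_der m
    simp only [MRec_G, MRec_T, zero_add, range_one, sum_singleton, pow_zero, Nat.factorial_zero,
      Nat.cast_one, div_one, map_one, one_mul, Nat.sub_zero]
    linear_combination (1 - X) * h1
  | succ k ih =>
    have h1 := ih (by omega)
    obtain ⟨r, hr⟩ : ∃ r, m = k + 1 + r := ⟨m - (k + 1), by omega⟩
    have e1 : m - (k + 1) = r := by omega
    have e2 : m - k = r + 1 := by omega
    have h2 := MRec_der r
    have h3 : (C ((m : ℝ) ^ (k + 1) / (k + 1).factorial) : ℝ[X]) * ((k : ℝ[X]) + 1) =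
        (m : ℝ[X]) * C ((m : ℝ) ^ k / k.factorial) := by
      have h4 : (k.factorial : ℝ) ≠ 0 := by exact_mod_cast (Nat.factorial_pos k).ne'
      have h5 : (m : ℝ) ^ (k + 1) / (k + 1).factorial * ((k : ℝ) + 1) =
          m * ((m : ℝ) ^ k / k.factorial) := by
        rw [Nat.factorial_succ]
        push_cast
        field_simp
        ring
      have h6 := congrArg (C : ℝ → ℝ[X]) h5
      simpa only [map_mul, map_add, map_natCast, map_one] using h6
    have h7 : (m : ℝ[X]) = (k : ℝ[X]) + 1 + r := by rw [hr]; push_cast; ring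
    have h8 : MRec_G m (k + 1) = MRec_G m k + MRec_T m (k + 1) := sum_range_succ _ _
    rw [h8, derivative_add, mul_add, h1]
    simp only [MRec_T, e1, e2]
    rw [derivative_mul, derivative_C_mul, derivative_X_pow_succ]
    simp only [map_add, map_natCast, map_one]
    generalize (C ((m : ℝ) ^ (k + 1) / (k + 1).factorial) : ℝ[X]) = c1 at *
    generalize (C ((m : ℝ) ^ k / k.factorial) : ℝ[X]) = c0 at *
    linear_combination (c1 * X ^ (k + 1) * (1 - X)) * h2 + (X ^ k * (1 - X) ^ (r + 1)) * h3 +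
      (c1 * X ^ (k + 1) * (1 - X) ^ (r + 1)) * h7

theorem MRec_cT (m k l : ℕ) : (MRec_T m k).coeff l = if k ≤ l then
    (m : ℝ) ^ k / k.factorial * (((m - k).choose (l - k) : ℝ) * (-1) ^ (l - k)) else 0 := by
  unfold MRec_T
  rw [mul_assoc, coeff_C_mul, coeff_X_pow_mul']
  have h : (1 - X : ℝ[X]) = 1 + C (-1) * X := by simp [sub_eq_add_neg]
  rw [h, MRec_coeff]
  split_ifs <;> simp

theorem MRec_rec {m l : ℕ} (h : l + 2 ≤ m) : ((l : ℝ) + 2) * (MRec_G m m).coeff (l + 2) =
    2 * (l + 1) * (MRec_G m m).coeff (l + 1) + (m - l) * (MRec_G m m).coeff l := by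
  have h1 := congrArg (fun p => coeff p (l + 1)) (MRec_ode (le_refl m))
  have h2 : ∀ p : ℝ[X], (1 - X) ^ 2 * p = p - C 2 * (X * p) + X * (X * p) := fun p => by
    rw [show (C 2 : ℝ[X]) = 2 from rfl]; ring
  have h3 : ∀ p : ℝ[X], (X * derivative p).coeff l = p.coeff l * l := fun p => by
    cases l with
    | zero => simp
    | succ l => rw [coeff_X_mul, coeff_derivative]; push_cast; ring
  rw [h2, mul_assoc, ← C_eq_natCast] at h1
  simp only [coeff_add, coeff_sub, coeff_C_mul, coeff_X_mul, coeff_derivative, h3, MRec_cT] at h1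
  rw [if_neg (by omega)] at h1
  push_cast at h1
  linear_combination h1

theorem MRec_zero (m : ℕ) : (MRec_G m m).coeff 0 = 1 := by
  unfold MRec_G
  rw [finsetSum_coeff, sum_range_succ']
  simp [MRec_cT]

theorem MRec_one {m : ℕ} (h : 1 ≤ m) : (MRec_G m m).coeff 1 = 0 := by
  have h1 := congrArg (fun p => coeff p 0) (MRec_ode (le_refl m))
  have h2 : ∀ p : ℝ[X], (1 - X) ^ 2 * p = p - X * (2 * p - X * p) := fun p => by ring
  rw [h2, mul_assoc, ← C_eq_natCast] at h1
  simp only [coeff_sub, coeff_C_mul, coeff_X_mul_zero, coeff_derivative, MRec_cT] at h1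
  rw [if_neg (by omega)] at h1
  simpa using h1

theorem MRec_G_Ml {m : ℕ} (l : ℕ) : l ≤ m → (MRec_G m m).coeff l = Ml m l := by
  induction l using Nat.twoStepInduction with
  | zero => intro _; simp [MRec_zero, Ml, Nl]
  | one => intro h; simp [MRec_one h, Ml, Nl]
  | more l ih1 ih2 =>
    intro h
    have h1 := MRec_rec h
    rw [ih1 (by omega), ih2 (by omega), ← Ml_rec (by omega)] at h1
    exact mul_left_cancel₀ (by positivity) h1

theorem MRec_deg (m : ℕ) : (MRec_G m m).natDegree < m + 1 := by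
  rw [Nat.lt_succ_iff, natDegree_le_iff_coeff_eq_zero]
  intro l hl
  unfold MRec_G
  rw [finsetSum_coeff]
  refine sum_eq_zero fun k hk => ?_
  have := mem_range.1 hk
  rw [MRec_cT, if_pos (by omega), Nat.choose_eq_zero_of_lt (by omega)]
  simp

end

theorem Bf_ones {m l : ℕ} (h : l ≤ m) : Bf m (Multiset.replicate m 1) l = Ml m l := by
  rw [← MRec_G_Ml l h]
  have h1 : Lz m 1 = 1 + Polynomial.C m * Polynomial.X := by
    simp [Lz, sum_range_succ, ← Polynomial.C_mul_X_pow_eq_monomial]
  unfold Bf MRec_G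
  simp only [Multiset.map_replicate, Multiset.prod_replicate, h1, MRec_coeff, one_pow,
    Nat.cast_one, mul_one, Polynomial.finsetSum_coeff, MRec_cT]
  rw [← sum_filter, sum_div]
  refine sum_congr ?_ fun j hj => ?_
  · ext j
    simp only [mem_range, mem_filter]
    omega
  · have h2 : j ≤ m := by
      have := mem_range.1 (mem_filter.1 hj).1
      omega
    have h3 : (m.choose j : ℝ) * j.factorial * (m - j).factorial = m.factorial := by
      exact_mod_cast Nat.choose_mul_factorial_mul_factorial h2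
    have h4 : (j.factorial : ℝ) ≠ 0 := by exact_mod_cast (Nat.factorial_pos j).ne'
    have h5 : (m.factorial : ℝ) ≠ 0 := by exact_mod_cast (Nat.factorial_pos m).ne'
    push_cast
    rw [div_eq_iff h5, ← h3]
    field_simp

theorem Ml_chernoff {m l : ℕ} (h : l ≤ m) {t : ℝ} (h0 : 0 ≤ t) (h1 : t < 1) :
    Ml m l * t ^ l ≤ (1 - t) ^ m * Real.exp (t * m / (1 - t)) := by
  have h2 : 0 < 1 - t := sub_pos.2 h1
  have h3 : Ml m l * t ^ l ≤ (MRec_G m m).eval t := by
    rw [Polynomial.eval_eq_sum_range' (MRec_deg m), ← MRec_G_Ml l h]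
    refine single_le_sum (f := fun i => (MRec_G m m).coeff i * t ^ i) (fun i hi => ?_)
      (mem_range.2 (by omega))
    rw [MRec_G_Ml i (by have := mem_range.1 hi; omega)]
    exact mul_nonneg (Ml_nonneg _ _) (pow_nonneg h0 _)
  refine h3.trans (le_trans (le_of_eq ?_) (mul_le_mul_of_nonneg_left
    (Real.sum_le_exp_of_nonneg (by positivity) (m + 1)) (by positivity)))
  unfold MRec_G MRec_T
  rw [Polynomial.eval_finsetSum, mul_sum]
  refine sum_congr rfl fun k hk => ?_
  obtain ⟨r, hr⟩ : ∃ r, m = k + r := ⟨m - k, by have := mem_range.1 hk; omega⟩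
  have e : m - k = r := by omega
  have h4 : (1 - t) ^ m = (1 - t) ^ k * (1 - t) ^ r := by rw [hr, pow_add]
  simp only [Polynomial.eval_mul, Polynomial.eval_C, Polynomial.eval_pow, Polynomial.eval_X,
    Polynomial.eval_sub, Polynomial.eval_one, e, h4, div_pow, mul_pow]
  field_simp

end Pool.Agent.Work.MP_66fdf3_co.BP
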