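import Pool.Agent.Work.MP_66fdf3_co.BP.Tens
import Pool.Agent.Work.MP_66fdf3_co.BP.GBas

/-!
Consequences of the spectral package.

Plan. `sum_cls`: for a class function `φ`, `|G| • ∑ u, φ u • rho u = ∑ u, φ u • C u` (reindex by
conjugation), so `(∑ u, φ u • rho u) * E j = (∑ u, φ u * om j u) • E j`. `tr_rho`: traces in `cls`;
it shows that `om j` is a class function. `inSpan`: `c u = d ^ 2 / |G| * om j u⁻¹`, multiply by
`1 = ∑ l, E l` and use `orth`.
`Aw`: `Aw o w x y = m / |G| * ∑ g, rho g x o * rho g y w`. `sum_AA'`: the entry `(y, y')` of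
`∑ w, (Aw w)ᴴ * Aw w` is `(m / |G|) ^ 2` times the number of `(w, g, g')` with `g o = g' o`,
`g w = y`, `g' w = y'`; put `g' = g k`: the matrix is `(m / |G|) ^ 2 • ∑ k ∈ K, C k⁻¹`, and
`|G| = m |K|`. On `E j` it is `m * trace (E j * Qk) / (d mu)`. `sum_AA`: the entry `(x, x')` counts
`g o = x`, `g' o = x'`, `g w = g' w`; put `g' = u g`: the matrix is
`m / |G| • ∑ u, fix u • rho u⁻¹`, `fix u = trace (rho u) = ∑ l, d l mu l om l u`. On `E j` it is
`m mu / d`. `E j` commutes with `Aw` (`InSpan.comm`), so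
`trace (E j * A * Aᴴ) = trace (E j * Aᴴ * A)`, which gives `trQ`.
`rank_le`: `Qp - Qk` is a `Proj`, so its trace is a natural number; `trace Qp = #parts`.
-/

namespace Pool.Agent.Work.MP_66fdf3_co.BP

open Finset Matrix

variable {G Ω : Type*} [Group G] [MulAction G Ω] [Fintype G] [Fintype Ω] [DecidableEq Ω]

omit [Fintype G] in
theorem SpecQ_mul_rho (A : Matrix Ω Ω ℂ) (g : G) (x y : Ω) : (A * rho Ω g) x y = A x (g • y) := by
  simp [rho, mul_apply]

omit [Fintype G] in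
theorem SpecQ_rho_mul (A : Matrix Ω Ω ℂ) (g : G) (x y : Ω) :
    (rho Ω g * A) x y = A (g⁻¹ • x) y := by
  simp only [rho, mul_apply, of_apply, ← eq_inv_smul_iff]
  simp

omit [Fintype Ω] in
theorem SpecQ_card (o : Ω) : (((univ.filter fun g : G => g • o = o).card : ℕ) : ℂ) ≠ 0 := by
  rw [Nat.cast_ne_zero, card_ne_zero]
  exact ⟨1, by simp⟩

theorem SpecQ_rho_Qk {o : Ω} {k : G} (hk : k • o = o) : rho Ω k * Qk G o = Qk G o := by
  rw [Qk, Matrix.mul_smul, Matrix.mul_sum]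
  congr 1
  have hk' : k⁻¹ • o = o := inv_smul_eq_iff.2 hk.symm
  refine sum_nbij' (fun g => k * g) (fun g => k⁻¹ * g) ?_ ?_ ?_ ?_ ?_
  · intro g hg
    simp only [mem_filter, mem_univ, true_and] at hg ⊢
    rw [mul_smul, hg, hk]
  · intro g hg
    simp only [mem_filter, mem_univ, true_and] at hg ⊢
    rw [mul_smul, hg, hk']
  · intro g _; simp
  · intro g _; simp
  · intro g _; exact rho_mul k g

omit [Fintype Ω] in
theorem SpecQ_avg {V : Type*} [AddCommGroup V] [Module ℂ V] (o : Ω) (f : G → V) (v : V)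
    (h : ∀ g : G, g • o = o → f g = v) :
    ((univ.filter fun g : G => g • o = o).card : ℂ)⁻¹ •
      ∑ g ∈ univ.filter fun g : G => g • o = o, f g = v := by
  rw [sum_congr rfl fun g hg => h g (mem_filter.1 hg).2, sum_const, ← Nat.cast_smul_eq_nsmul ℂ,
    smul_smul, inv_mul_cancel₀ (SpecQ_card o), one_smul]

omit [Fintype Ω] in
theorem SpecQ_herm (o : Ω) : (Qk G o)ᴴ = Qk G o := by
  rw [Qk, conjTranspose_smul, conjTranspose_sum]
  congr 1
  · simp
  · refine sum_nbij' (fun g => g⁻¹) (fun g => g⁻¹) ?_ ?_ ?_ ?_ ?_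
    · intro g hg
      simp only [mem_filter, mem_univ, true_and] at hg ⊢
      exact inv_smul_eq_iff.2 hg.symm
    · intro g hg
      simp only [mem_filter, mem_univ, true_and] at hg ⊢
      exact inv_smul_eq_iff.2 hg.symm
    · intro g _; simp
    · intro g _; simp
    · intro g _; exact rho_conjT g

theorem SpecQ_Qk_mul (o : Ω) (A B : Matrix Ω Ω ℂ) (h : ∀ g : G, g • o = o → rho Ω g * A = B) :
    Qk G o * A = B := by
  rw [Qk, Matrix.smul_mul, Matrix.sum_mul]
  exact SpecQ_avg o _ _ h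

theorem SpecQ_Qk_rho {o : Ω} {k : G} (hk : k • o = o) : Qk G o * rho Ω k = Qk G o := by
  have h := congrArg conjTranspose (SpecQ_rho_Qk (k := k⁻¹) (inv_smul_eq_iff.2 hk.symm))
  rwa [conjTranspose_mul, SpecQ_herm, rho_conjT, inv_inv] at h

theorem proj_Qk (o : Ω) : Proj (Qk G o) :=
  ⟨SpecQ_herm o, SpecQ_Qk_mul o _ _ fun _ hg => SpecQ_rho_Qk hg⟩

theorem Qk_mul_E0 (o : Ω) : Qk G o * E0 Ω = E0 Ω :=
  SpecQ_Qk_mul o _ _ fun g _ => rho_mul_E0 g

theorem E0_mul_Qk (o : Ω) : E0 Ω * Qk G o = E0 Ω := by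
  have h := congrArg conjTranspose (Qk_mul_E0 (G := G) o)
  rwa [conjTranspose_mul, SpecQ_herm, proj_E0.1] at h

theorem Qk_mulVec (o : Ω) (v : Ω → ℂ) :
    Qk G o *ᵥ v = v ↔ ∀ g : G, g • o = o → rho Ω g *ᵥ v = v := by
  constructor
  · intro h g hg
    rw [← h, mulVec_mulVec, SpecQ_rho_Qk hg]
  · intro h
    rw [Qk, smul_mulVec, sum_mulVec]
    exact SpecQ_avg o _ _ h

theorem SpecQ_part (P : Finpartition (univ : Finset Ω)) {x y : Ω} (h : y ∈ P.part x) :
    P.part y = P.part x :=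
  P.part_eq_of_mem (P.part_mem.2 (mem_univ x)) h

theorem SpecQ_self (P : Finpartition (univ : Finset Ω)) (x : Ω) : x ∈ P.part x :=
  P.mem_part (mem_univ x)

theorem SpecQ_symm (P : Finpartition (univ : Finset Ω)) (x y : Ω) : Qp P x y = Qp P y x := by
  simp only [Qp, of_apply]
  by_cases h : y ∈ P.part x
  · have h' : x ∈ P.part y := by rw [SpecQ_part P h]; exact SpecQ_self P x
    rw [if_pos h, if_pos h', SpecQ_part P h]
  · have h' : x ∉ P.part y := fun h' => h (by rw [SpecQ_part P h']; exact SpecQ_self P y)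
    rw [if_neg h, if_neg h']

theorem SpecQ_row (P : Finpartition (univ : Finset Ω)) (x : Ω) : ∑ y, Qp P x y = 1 := by
  have h : (((P.part x).card : ℕ) : ℂ) ≠ 0 := by
    rw [Nat.cast_ne_zero, card_ne_zero]
    exact ⟨x, SpecQ_self P x⟩
  simp only [Qp, of_apply, sum_ite_mem, univ_inter, sum_const, nsmul_eq_mul]
  exact mul_inv_cancel₀ h

theorem SpecQ_mul_Qp (P : Finpartition (univ : Finset Ω)) (A : Matrix Ω Ω ℂ)
    (h : ∀ x y z, z ∈ P.part y → A x z = A x y) : A * Qp P = A := by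
  ext x y
  rw [mul_apply]
  calc ∑ z, A x z * Qp P z y = ∑ z, A x y * Qp P y z := by
        refine sum_congr rfl fun z _ => ?_
        rw [SpecQ_symm P z y]
        by_cases hz : z ∈ P.part y
        · rw [h x y z hz]
        · simp [Qp, hz]
    _ = A x y := by rw [← mul_sum, SpecQ_row, mul_one]

theorem SpecQ_hermp (P : Finpartition (univ : Finset Ω)) : (Qp P)ᴴ = Qp P := by
  ext x y
  rw [conjTranspose_apply, SpecQ_symm P y x]
  simp only [Qp, of_apply]
  split_ifs <;> simp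

theorem proj_Qp (P : Finpartition (univ : Finset Ω)) : Proj (Qp P) := by
  refine ⟨SpecQ_hermp P, SpecQ_mul_Qp P _ fun x y z hz => ?_⟩
  rw [SpecQ_symm P x z, SpecQ_symm P x y]
  simp only [Qp, of_apply, SpecQ_part P hz]

theorem E0_mul_Qp (P : Finpartition (univ : Finset Ω)) : E0 Ω * Qp P = E0 Ω :=
  SpecQ_mul_Qp P _ fun _ _ _ _ => rfl

theorem Qp_mul_E0 (P : Finpartition (univ : Finset Ω)) : Qp P * E0 Ω = E0 Ω := by
  have h := congrArg conjTranspose (E0_mul_Qp P)
  rwa [conjTranspose_mul, SpecQ_hermp, proj_E0.1] at h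

theorem Qk_mul_Qp {o : Ω} {P : Finpartition (univ : Finset Ω)} (h : Fine G o P) :
    Qk G o * Qp P = Qk G o := by
  refine SpecQ_mul_Qp P _ fun x y z hz => ?_
  obtain ⟨k, hk, rfl⟩ := mem_orb.1 (h _ (P.part_mem.2 (mem_univ y)) y (SpecQ_self P y) z hz)
  rw [← SpecQ_mul_rho (Qk G o), SpecQ_Qk_rho hk]

theorem invt_Aw (o w : Ω) : Invt G (Aw G o w) := by
  intro g
  ext x y
  rw [SpecQ_mul_rho, SpecQ_rho_mul]
  simp only [Aw, of_apply]
  congr 2
  refine card_nbij' (fun k => g⁻¹ * k) (fun k => g * k) ?_ ?_ ?_ ?_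
  · intro k hk
    simp only [coe_filter, mem_univ, true_and, Set.mem_ofPred_eq] at hk ⊢
    simp [mul_smul, hk.1, hk.2]
  · intro k hk
    simp only [coe_filter, mem_univ, true_and, Set.mem_ofPred_eq] at hk ⊢
    simp [mul_smul, hk.1, hk.2]
  · intro k _; simp
  · intro k _; simp

omit [Group G] [MulAction G Ω] in
theorem SpecQ_fib (p : G → Prop) [DecidablePred p] (f : G → Ω) :
    ∑ y, (univ.filter fun g => p g ∧ f g = y).card = (univ.filter p).card := by
  rw [card_eq_sum_card_fiberwise (f := f) (s := univ.filter p) (t := univ) fun _ _ => mem_univ _]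
  exact sum_congr rfl fun y _ => by rw [filter_filter]

theorem SpecQ_one (htr : ∀ x y : Ω, ∃ g : G, g • x = y) (x y : Ω) :
    (Fintype.card Ω : ℝ) / Fintype.card G * (univ.filter fun g : G => g • x = y).card = 1 := by
  have h : (Fintype.card G : ℝ) ≠ 0 := by simp
  rw [div_mul_eq_mul_div, div_eq_one_iff_eq h]
  exact_mod_cast card_fib htr x y

theorem sum_Aw (htr : ∀ x y : Ω, ∃ g : G, g • x = y) (o : Ω) :
    ∑ w, Aw G o w = (Fintype.card Ω : ℂ) • E0 Ω := by
  ext x y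
  have h0 : (Fintype.card Ω : ℂ) ≠ 0 := by
    have : Nonempty Ω := ⟨x⟩
    simp
  simp only [Matrix.sum_apply, Aw, of_apply, Matrix.smul_apply, E0, smul_eq_mul]
  rw [mul_inv_cancel₀ h0, ← mul_sum, ← Nat.cast_sum]
  have h1 := SpecQ_fib (fun g : G => g • o = x) fun g => g⁻¹ • y
  simp only [inv_smul_eq_iff, eq_comm (a := y)] at h1
  rw [h1]
  have h2 := congrArg (fun r : ℝ => (r : ℂ)) (SpecQ_one htr o x)
  push_cast at h2
  exact h2

theorem Aw_stoch (htr : ∀ x y : Ω, ∃ g : G, g • x = y) (o w : Ω) : ∃ a : Ω → Ω → ℝ,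
    (∀ x y, Aw G o w x y = a x y) ∧ (∀ x y, 0 ≤ a x y) ∧ (∀ x, ∑ y, a x y = 1) ∧
      ∀ y, ∑ x, a x y = 1 := by
  refine ⟨fun x y => (Fintype.card Ω : ℝ) / Fintype.card G *
    (univ.filter fun g : G => g • o = x ∧ g • w = y).card, fun x y => ?_, fun x y => ?_,
    fun x => ?_, fun y => ?_⟩
  · simp [Aw]
  · positivity
  · rw [← mul_sum, ← Nat.cast_sum, SpecQ_fib (fun g : G => g • o = x) fun g => g • w]
    exact SpecQ_one htr o x
  · have h1 := SpecQ_fib (fun g : G => g • w = y) fun g => g • o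
    simp only [and_comm (a := _ • w = y)] at h1
    rw [← mul_sum, ← Nat.cast_sum, h1]
    exact SpecQ_one htr w y

end Pool.Agent.Work.MP_66fdf3_co.BP
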