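import Pool.Agent.Work.MP_66fdf3_co.BP.SpecE
import Pool.Agent.Work.MP_66fdf3_co.BP.SpecQ

/-!
Consequences of the spectral package.

Plan. `sum_cls`: for a class function `φ`, `|G| • ∑ u, φ u • rho u = ∑ u, φ u • C u` (reindex by
conjugation), so `(∑ u, φ u • rho u) * E j = (∑ u, φ u * om j u) • E j`. `tr_rho`: traces in `cls`;
it shows that `om j` is a class function. `inSpan`: `c u = d ^ 2 / |G| * om j u⁻¹`, multiply by
`1 = ∑ l, E l` and use `orth`.
`Aw`: `Aw o w x y = m / |G| * ∑ g, rho g x o * rho g y w`. `sum_AA'`: the entry `(y, y')` of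
`∑ w, (Aw w)ᴴ * Aw w` is `(m / |G|) ^ 2` times the number of `(w, g, g')` with `g o = g' o`,
`g w = y`, `g' w = y'`; put `g' = g k`: the matrix is `(m / |G|) ^ 2 • ∑ k ∈ K, C k⁻¹`, and
`|G| = m |K|`. On `E j` it is `m * trace (E j * Qk) / (d mu)`. `sum_AA`: the entry `(x, x')` counts
`g o = x`, `g' o = x'`, `g w = g' w`; put `g' = u g`: the matrix is
`m / |G| • ∑ u, fix u • rho u⁻¹`, `fix u = trace (rho u) = ∑ l, d l mu l om l u`. On `E j` it is
`m mu / d`. `E j` commutes with `Aw` (`InSpan.comm`), so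
`trace (E j * A * Aᴴ) = trace (E j * Aᴴ * A)`, which gives `trQ`.
`rank_le`: `Qp - Qk` is a `Proj`, so its trace is a natural number; `trace Qp` is the number of parts.
-/

namespace Pool.Agent.Work.MP_66fdf3_co.BP

open Finset Matrix

variable {G Ω : Type*} [Group G] [MulAction G Ω] [Fintype G] [Fintype Ω] [DecidableEq Ω]

theorem SpecF_n : (Fintype.card G : ℂ) ≠ 0 := Nat.cast_ne_zero.2 Fintype.card_ne_zero

omit [Fintype G] in
theorem SpecF_mul_single (u : G) (a b : Ω) :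
    rho Ω u * single a b (1 : ℂ) = single (u • a) b 1 := by
  ext x y
  simp only [rho, mul_apply, of_apply, single_apply]
  rw [sum_eq_single a]
  · by_cases h : b = y <;> simp [h]
  · simp +contextual [eq_comm]
  · simp

theorem SpecF_Aw (o w : Ω) : Aw G o w =
    ((Fintype.card Ω : ℂ) / Fintype.card G) • ∑ g : G, single (g • o) (g • w) (1 : ℂ) := by
  ext x y
  simp only [Aw, of_apply, Matrix.smul_apply, Matrix.sum_apply, single_apply, smul_eq_mul,
    card_filter]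
  push_cast
  rfl

theorem SpecF_AwT (o w : Ω) : (Aw G o w)ᴴ = Aw G w o := by
  ext x y
  simp only [Aw, conjTranspose_apply, of_apply, and_comm]
  simp

theorem SpecF_diag (htr : ∀ x y : Ω, ∃ g : G, g • x = y) (o : Ω) :
    (Fintype.card Ω : ℂ) • ∑ g : G, single (g • o) (g • o) (1 : ℂ) =
      (Fintype.card G : ℂ) • (1 : Matrix Ω Ω ℂ) := by
  ext x y
  simp only [Matrix.smul_apply, Matrix.sum_apply, single_apply, smul_eq_mul, one_apply]
  by_cases h : x = y
  · subst h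
    rw [← card_fib htr o x, card_filter]
    simp
  · rw [sum_eq_zero fun g _ => if_neg fun h' => h (h'.1.symm.trans h'.2)]
    simp [h]

omit [Fintype G] in
theorem SpecF_sum_single (g h : G) :
    ∑ w : Ω, single (g • w) (h • w) (1 : ℂ) = rho Ω (g * h⁻¹) := by
  ext x y
  simp only [Matrix.sum_apply, single_apply, rho, of_apply, mul_smul]
  rw [sum_eq_single (h⁻¹ • y)]
  · simp
  · intro w _ hw
    exact if_neg fun h' => hw (eq_inv_smul_iff.2 h'.2)
  · simp

omit [Fintype G] in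
theorem SpecF_fix (u g : G) :
    ∑ w : Ω, (if (u * g) • w = g • w then (1 : ℂ) else 0) = (rho Ω u⁻¹).trace := by
  simp only [trace, diag_apply, rho, of_apply, inv_smul_eq_iff, mul_smul]
  refine Fintype.sum_equiv (MulAction.toPerm g) _ _ fun w => ?_
  simp [eq_comm]

theorem SpecF_prod (a b c d : Ω) : Aw G a b * Aw G c d =
    ((Fintype.card Ω : ℂ) / Fintype.card G) ^ 2 • ∑ h : G, ∑ g : G,
      (if g • b = h • c then (1 : ℂ) else 0) • single (g • a) (h • d) (1 : ℂ) := by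
  rw [SpecF_Aw, SpecF_Aw, smul_mul_smul_comm, ← sq, Finset.mul_sum]
  congr 1
  refine sum_congr rfl fun h _ => ?_
  rw [Finset.sum_mul]
  refine sum_congr rfl fun g _ => ?_
  by_cases e : g • b = h • c
  · rw [e, single_mul_single_same]
    simp
  · rw [single_mul_single_of_ne _ _ _ _ e]
    simp [e]

theorem SpecF_A (htr : ∀ x y : Ω, ∃ g : G, g • x = y) (o : Ω) :
    ∑ w, Aw G o w * (Aw G o w)ᴴ =
      ((Fintype.card Ω : ℂ) / Fintype.card G) • ∑ u : G, (rho Ω u⁻¹).trace • rho Ω u := by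
  have h1 : ∀ h : G, ∑ w : Ω, ∑ g : G,
      (if g • w = h • w then (1 : ℂ) else 0) • single (g • o) (h • o) (1 : ℂ) =
      (∑ u : G, (rho Ω u⁻¹).trace • rho Ω u) * single (h • o) (h • o) (1 : ℂ) := fun h => by
    rw [sum_comm, Finset.sum_mul]
    refine (Fintype.sum_equiv (Equiv.mulRight h) _ _ fun u => ?_).symm
    rw [← Finset.sum_smul, Equiv.coe_mulRight, SpecF_fix, smul_mul_assoc, SpecF_mul_single,
      mul_smul]
  simp only [SpecF_AwT, SpecF_prod]
  rw [← smul_sum, sum_comm]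
  simp only [h1]
  rw [← Finset.mul_sum, sq, mul_smul, div_eq_mul_inv, mul_comm (Fintype.card Ω : ℂ), mul_smul,
    mul_smul, mul_smul, ← mul_smul_comm (Fintype.card Ω : ℂ) (∑ u : G, _), SpecF_diag htr,
    mul_smul_comm, mul_one, inv_smul_smul₀ SpecF_n]

theorem SpecF_B (o : Ω) : ∑ w, (Aw G o w)ᴴ * Aw G o w =
    ((Fintype.card Ω : ℂ) / Fintype.card G) ^ 2 •
      ∑ k ∈ univ.filter fun k : G => k • o = o, ∑ g : G, rho Ω (g * k * g⁻¹) := by
  have h1 : ∀ h : G, ∑ w : Ω, ∑ g : G,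
      (if g • o = h • o then (1 : ℂ) else 0) • single (g • w) (h • w) (1 : ℂ) =
      ∑ k ∈ univ.filter fun k : G => k • o = o, rho Ω (h * k * h⁻¹) := fun h => by
    rw [sum_comm, sum_filter]
    refine (Fintype.sum_equiv (Equiv.mulLeft h) _ _ fun k => ?_).symm
    rw [← smul_sum, SpecF_sum_single, Equiv.coe_mulLeft]
    simp [mul_smul]
  simp only [SpecF_AwT, SpecF_prod]
  rw [← smul_sum, sum_comm]
  simp only [h1]
  rw [sum_comm]

theorem SpecF_trQp (P : Finpartition (univ : Finset Ω)) : (Qp P).trace = P.parts.card := by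
  have h1 : (Qp P).trace = ∑ x ∈ P.parts.biUnion id, ((P.part x).card : ℂ)⁻¹ := by
    rw [P.biUnion_parts]
    simp only [trace, diag_apply, Qp, of_apply]
    exact sum_congr rfl fun x _ => if_pos ((P.mem_part_self).2 (mem_univ x))
  rw [h1, sum_biUnion P.supIndep.pairwiseDisjoint, card_eq_sum_ones, Nat.cast_sum]
  refine sum_congr rfl fun p hp => ?_
  rw [sum_congr rfl fun x hx => by rw [P.part_eq_of_mem hp hx], sum_const, nsmul_eq_mul]
  simpa using mul_inv_cancel₀ (Nat.cast_ne_zero.2 (P.nonempty_of_mem_parts hp).card_pos.ne')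

namespace Spec

variable (S : Spec G Ω)

theorem proj (j : Option (Fin S.k)) : Proj (S.E j) := ⟨S.herm j, by simp [S.mul]⟩

theorem SpecF_d (j : Option (Fin S.k)) : (S.d j : ℂ) ≠ 0 := Nat.cast_ne_zero.2 (S.d_pos j).ne'

theorem SpecF_mu (j : Option (Fin S.k)) : (S.mu j : ℂ) ≠ 0 := Nat.cast_ne_zero.2 (S.mu_pos j).ne'

theorem SpecF_conj (j : Option (Fin S.k)) (g u : G) :
    (rho Ω (g * u * g⁻¹) * S.E j).trace = (rho Ω u * S.E j).trace := by
  rw [← rho_mul, ← rho_mul, Matrix.mul_assoc, ← S.comm, Matrix.mul_assoc, trace_mul_comm,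
    Matrix.mul_assoc, Matrix.mul_assoc, rho_mul, inv_mul_cancel, rho_one, Matrix.mul_one]

theorem tr_rho (j : Option (Fin S.k)) (u : G) :
    (rho Ω u * S.E j).trace = S.om j u * (S.d j * S.mu j) := by
  have h := congrArg trace (S.cls j u)
  rw [Finset.sum_mul, trace_sum, trace_smul, S.tr] at h
  simp only [S.SpecF_conj, sum_const, card_univ, nsmul_eq_mul, smul_eq_mul] at h
  rw [mul_assoc] at h
  exact mul_left_cancel₀ SpecF_n h

theorem SpecF_om (j : Option (Fin S.k)) (g u : G) : S.om j (g * u * g⁻¹) = S.om j u := by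
  have h := S.SpecF_conj j g u
  rw [tr_rho, tr_rho] at h
  exact mul_right_cancel₀ (mul_ne_zero (S.SpecF_d j) (S.SpecF_mu j)) h

theorem SpecF_cls (φ : G → ℂ) (hφ : ∀ g u, φ (g * u * g⁻¹) = φ u) (j : Option (Fin S.k)) :
    (∑ u, φ u • rho Ω u) * S.E j = (∑ u, φ u * S.om j u) • S.E j := by
  have h1 : ∀ g : G, ∑ u, φ u • rho Ω u = ∑ u, φ u • rho Ω (g * u * g⁻¹) := fun g =>
    (Fintype.sum_equiv (MulAut.conj g).toEquiv _ _ fun u => by simp [hφ]).symm
  have h2 : (Fintype.card G : ℂ) • ∑ u, φ u • rho Ω u =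
      ∑ u, φ u • ∑ g : G, rho Ω (g * u * g⁻¹) := by
    simp only [smul_sum]
    rw [sum_comm (f := fun u g => φ u • rho Ω (g * u * g⁻¹))]
    simp only [← h1]
    rw [← smul_sum, sum_const, card_univ, Nat.cast_smul_eq_nsmul]
  refine smul_right_injective _ (SpecF_n (G := G)) ?_
  simp only []
  rw [← smul_mul_assoc, h2, Finset.sum_mul, smul_smul, Finset.mul_sum, Finset.sum_smul]
  refine sum_congr rfl fun u _ => ?_
  rw [smul_mul_assoc, S.cls, smul_smul]
  congr 1
  ring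

theorem SpecF_exp {A : Matrix Ω Ω ℂ} {c : Option (Fin S.k) → ℂ}
    (h : ∀ j, A * S.E j = c j • S.E j) : A = ∑ j, c j • S.E j := by
  simp only [← h]
  rw [← Finset.mul_sum, S.sum, Matrix.mul_one]

theorem inSpan (j : Option (Fin S.k)) : InSpan G (S.E j) := by
  refine ⟨fun u => S.om j u⁻¹ * ((S.d j : ℂ) ^ 2 / Fintype.card G), ?_⟩
  have h : ∀ l, ∑ u : G, S.om j u⁻¹ * ((S.d j : ℂ) ^ 2 / Fintype.card G) * S.om l u =
      if j = l then 1 else 0 := fun l => by
    have h1 := S.orth j l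
    have h2 : ∑ u : G, S.om j u⁻¹ * ((S.d j : ℂ) ^ 2 / Fintype.card G) * S.om l u =
        (∑ u : G, S.om j u⁻¹ * S.om l u) * (S.d j : ℂ) ^ 2 / Fintype.card G := by
      rw [Finset.sum_mul, Finset.sum_div]
      exact sum_congr rfl fun u _ => by ring
    rw [h2, h1]
    split_ifs
    · exact div_self SpecF_n
    · exact zero_div _
  rw [S.SpecF_exp (S.SpecF_cls _ fun g u => ?_)]
  · simp [h]
  · rw [show (g * u * g⁻¹)⁻¹ = g * u⁻¹ * g⁻¹ by group, SpecF_om]

theorem comm_Qk (j : Option (Fin S.k)) (o : Ω) : S.E j * Qk G o = Qk G o * S.E j := by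
  simp only [Qk, mul_smul_comm, smul_mul_assoc, Finset.mul_sum, Finset.sum_mul, S.comm]

theorem projQ (j : Option (Fin S.k)) (o : Ω) : Proj (S.E j * Qk G o) :=
  (S.proj j).mul (proj_Qk o) (S.comm_Qk j o)

theorem SpecF_tr (u : G) : (rho Ω u).trace = ∑ l, S.om l u * (S.d l * S.mu l) := by
  simp only [← S.tr_rho]
  rw [← trace_sum, ← Finset.mul_sum, S.sum, Matrix.mul_one]

theorem SpecF_AE (htr : ∀ x y : Ω, ∃ g : G, g • x = y) (o : Ω) (j : Option (Fin S.k)) :
    (∑ w, Aw G o w * (Aw G o w)ᴴ) * S.E j = ((Fintype.card Ω : ℂ) * S.mu j / S.d j) • S.E j := by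
  rw [SpecF_A htr, smul_mul_assoc, S.SpecF_cls, smul_smul]
  · congr 1
    simp only [S.SpecF_tr, Finset.sum_mul]
    rw [sum_comm, sum_eq_single j]
    · have h1 := S.orth j j
      rw [if_pos rfl] at h1
      have h2 : ∑ u : G, S.om j u⁻¹ * ((S.d j : ℂ) * S.mu j) * S.om j u =
          (∑ u : G, S.om j u⁻¹ * S.om j u) * (S.d j : ℂ) ^ 2 * S.mu j / S.d j := by
        rw [Finset.sum_mul, Finset.sum_mul, Finset.sum_div]
        have := S.SpecF_d j
        exact sum_congr rfl fun u _ => by field_simp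
      rw [h2, h1]
      have := SpecF_n (G := G)
      field_simp
    · intro l _ hl
      have h1 := S.orth l j
      rw [if_neg hl, mul_eq_zero_iff_right (pow_ne_zero 2 (S.SpecF_d l))] at h1
      have h2 : ∑ u : G, S.om l u⁻¹ * ((S.d l : ℂ) * S.mu l) * S.om j u =
          (∑ u : G, S.om l u⁻¹ * S.om j u) * ((S.d l : ℂ) * S.mu l) := by
        rw [Finset.sum_mul]
        exact sum_congr rfl fun u _ => by ring
      rw [h2, h1, zero_mul]
    · simp
  · intro g u
    simp only [S.SpecF_tr]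
    rw [show (g * u * g⁻¹)⁻¹ = g * u⁻¹ * g⁻¹ by group]
    simp only [S.SpecF_om]

theorem sum_AA (htr : ∀ x y : Ω, ∃ g : G, g • x = y) (o : Ω) : ∑ w, Aw G o w * (Aw G o w)ᴴ =
    ∑ j, ((Fintype.card Ω : ℂ) * S.mu j / S.d j) • S.E j :=
  S.SpecF_exp (S.SpecF_AE htr o)

theorem SpecF_BE (htr : ∀ x y : Ω, ∃ g : G, g • x = y) (o : Ω) (j : Option (Fin S.k)) :
    (∑ w, (Aw G o w)ᴴ * Aw G o w) * S.E j =
      ((Fintype.card Ω : ℂ) * (S.E j * Qk G o).trace / (S.d j * S.mu j)) • S.E j := by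
  rw [SpecF_B, smul_mul_assoc, Finset.sum_mul]
  simp only [S.cls]
  rw [← Finset.sum_smul, smul_smul, S.comm_Qk, Qk, smul_mul_assoc, Finset.sum_mul, trace_smul,
    trace_sum]
  simp only [S.tr_rho]
  rw [← Finset.mul_sum, ← Finset.sum_mul]
  congr 1
  have h1 := card_fib htr o o
  have h2 : ((univ.filter fun g : G => g • o = o).card : ℂ) ≠ 0 :=
    Nat.cast_ne_zero.2 (card_pos.2 ⟨1, by simp⟩).ne'
  have h3 : (Fintype.card Ω : ℂ) ≠ 0 := Nat.cast_ne_zero.2 (Fintype.card_pos_iff.2 ⟨o⟩).ne'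
  have h4 := S.SpecF_d j
  have h5 := S.SpecF_mu j
  rw [← h1]
  push_cast
  rw [smul_eq_mul]
  field_simp

theorem trQ (htr : ∀ x y : Ω, ∃ g : G, g • x = y) (o : Ω) (j : Option (Fin S.k)) :
    (S.E j * Qk G o).trace = (S.mu j : ℂ) ^ 2 := by
  have h : ((∑ w, Aw G o w * (Aw G o w)ᴴ) * S.E j).trace =
      ((∑ w, (Aw G o w)ᴴ * Aw G o w) * S.E j).trace := by
    simp only [Finset.sum_mul, trace_sum]
    refine sum_congr rfl fun w _ => ?_
    rw [Matrix.mul_assoc, trace_mul_comm, Matrix.mul_assoc, (S.inSpan j).comm (invt_Aw o w),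
      Matrix.mul_assoc]
  rw [S.SpecF_AE htr, S.SpecF_BE htr, trace_smul, trace_smul, S.tr, smul_eq_mul, smul_eq_mul] at h
  have h3 : (Fintype.card Ω : ℂ) ≠ 0 := Nat.cast_ne_zero.2 (Fintype.card_pos_iff.2 ⟨o⟩).ne'
  have h4 := S.SpecF_d j
  have h5 := S.SpecF_mu j
  field_simp at h
  exact h.symm

theorem sum_AA' (htr : ∀ x y : Ω, ∃ g : G, g • x = y) (o : Ω) : ∑ w, (Aw G o w)ᴴ * Aw G o w =
    ∑ j, ((Fintype.card Ω : ℂ) * S.mu j / S.d j) • S.E j := by
  refine S.SpecF_exp fun j => ?_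
  rw [S.SpecF_BE htr, S.trQ htr]
  have h4 := S.SpecF_d j
  have h5 := S.SpecF_mu j
  congr 1
  field_simp

theorem dim_le (i : Fin S.k) : S.d (some i) * S.mu (some i) + 1 ≤ Fintype.card Ω := by
  have h := congrArg trace S.sum
  rw [trace_sum, trace_one] at h
  simp only [S.tr] at h
  have h1 : ∑ j, S.d j * S.mu j = Fintype.card Ω := by exact_mod_cast h
  rw [← h1, Fintype.sum_option, S.d_none, S.mu_none, add_comm]
  exact Nat.add_le_add_left (single_le_sum (f := fun i => S.d (some i) * S.mu (some i))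
    (fun _ _ => Nat.zero_le _) (mem_univ i)) _

theorem rank_le (htr : ∀ x y : Ω, ∃ g : G, g • x = y) {o : Ω}
    {P : Finpartition (univ : Finset Ω)} (h : Fine G o P) :
    ∑ i, S.mu (some i) ^ 2 + 1 ≤ Multiset.card (sizes P) := by
  have h1 := Qk_mul_Qp h
  have h2 : Qp P * Qk G o = Qk G o := by
    have := congrArg conjTranspose h1
    rwa [conjTranspose_mul, (proj_Qp P).1, (proj_Qk o).1] at this
  have h3 : Proj (Qp P - Qk G o) := ⟨by rw [conjTranspose_sub, (proj_Qp P).1, (proj_Qk o).1], by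
    rw [Matrix.sub_mul, Matrix.mul_sub, Matrix.mul_sub, h1, h2, (proj_Qp P).2, (proj_Qk o).2,
      sub_self, sub_zero]⟩
  obtain ⟨n, -, -, -, hn⟩ := h3.exists_basis
  have h4 : (Qk G o).trace = ∑ j, (S.mu j : ℂ) ^ 2 := by
    simp only [← S.trQ htr o]
    rw [← trace_sum, ← Finset.sum_mul, S.sum, Matrix.one_mul]
  rw [trace_sub, SpecF_trQp, h4, sub_eq_iff_eq_add] at hn
  have h5 : P.parts.card = n + ∑ j, S.mu j ^ 2 := by exact_mod_cast hn
  rw [sizes, Multiset.card_map, ← card_def, h5, Fintype.sum_option, S.mu_none]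
  omega

end Spec

end Pool.Agent.Work.MP_66fdf3_co.BP
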