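import Pool.Agent.Work.MP_66fdf3_co.BP.Gf
import Pool.Agent.Work.MP_66fdf3_co.BP.MRec
import Pool.Agent.Work.MP_66fdf3_co.BP.SpecF

/-!
Level sums.

Plan. `sum_supp`: `tens_sum` with the summands `if (j.isSome ↔ i ∈ S) then E j * C else 0`;
`∑ j, E (some j) = 1 - E0`. `sum_lvl`: `Finset.sum_fiberwise_of_maps_to`.
`gf_one`: `gf_part` for the partition `⊥` into points (`Qp ⊥ = 1`, `sizes ⊥ = replicate m 1`).
`sum_xm`, `sum_ym`: `nsq_sum_orth`; `PiS S * tens Qk = tens Qk * (PiS S * tens Qp)` and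
`Proj.nsq_le`.
-/

namespace Pool.Agent.Work.MP_66fdf3_co.BP

open Finset Matrix

/-- The level set of a type. -/
def supp {ι J : Type*} [Fintype ι] (t : ι → Option J) : Finset ι :=
  univ.filter fun i => (t i).isSome

theorem sum_lvl {ι J M : Type*} [Fintype ι] [DecidableEq ι] [Fintype J] [AddCommMonoid M]
    (F : (ι → Option J) → M) (l : ℕ) : ∑ t ∈ univ.filter fun t => lvl t = l, F t =
      ∑ S ∈ powersetCard l univ, ∑ t ∈ univ.filter fun t => supp t = S, F t := by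
  sorry

variable {G Ω : Type*} [Group G] [MulAction G Ω] [Fintype G] [Fintype Ω] [DecidableEq Ω]

theorem proj_PiS (T : Finset Ω) : Proj (PiS Ω T) := by
  sorry

theorem gf_one {l : ℕ} (h : l ≤ Fintype.card Ω) :
    cN (Fintype.card Ω) * ∑ S ∈ powersetCard l univ, nsq (PiS Ω (S : Finset Ω) *ᵥ ind Ω) =
      Ml (Fintype.card Ω) l := by
  sorry

namespace Spec

variable (S : Spec G Ω)

theorem sum_supp (C : Matrix Ω Ω ℂ) (T : Finset Ω) :
    ∑ t ∈ univ.filter fun t : Ω → Option (Fin S.k) => supp t = T,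
      tens (fun i => S.E (t i) * C) = PiS Ω T * tens fun _ => C := by
  sorry

theorem sum_ft (T : Finset Ω) :
    ∑ t ∈ univ.filter fun t : Ω → Option (Fin S.k) => supp t = T, S.ft t = PiS Ω T *ᵥ ind Ω := by
  sorry

theorem sum_xm {l : ℕ} (h : l ≤ Fintype.card Ω) :
    ∑ t ∈ univ.filter fun t => lvl t = l, S.xm t = Ml (Fintype.card Ω) l := by
  sorry

theorem sum_ym {o : Ω} {P : Finpartition (univ : Finset Ω)} (h : Fine G o P) {l : ℕ}
    (hl : l ≤ Fintype.card Ω) :
    ∑ t ∈ univ.filter fun t => lvl t = l, S.ym o t ≤ Bf (Fintype.card Ω) (sizes P) l := by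
  sorry

end Spec

end Pool.Agent.Work.MP_66fdf3_co.BP
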