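import Pool.Agent.Work.MP_66fdf3_co.BP.SpecQ

/-!
The decomposition of the count.

Plan. `Zb_move`: for `E = ∑ h, c h • rho h` substitute `g ↦ g h⁻¹`; `Eᴴ = ∑ h, star (c h) • rho h⁻¹`.
`Zb_ind`: a term is `ind (g⁻¹ • o) * ∑ w, ind w * ind (g⁻¹ • w)`; a nonzero term gives `BPm`.
`Zb_Qk`: substitute `g ↦ k g` with `k i • o = o` and average over `k` (`tens_sum`, `rho_pi`), or do
it through `rho_conjT` and `dot_mulVec`.
`Z_none`: `Zb ind ft = Zb ft ft` as in `Zt_le`; `ft none` is the constant `m! / m ^ m`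
(`card_bij`).
`sum_nsq_at`: `g ↦ g⁻¹ • (o, ..., o)` takes every value `(|G| / m) ^ m` times (`card_fib` for the
group `Ω → G`, which is transitive on `Ω → Ω`).
`Zt_le`: with `E = tens (E (t i))`, `Zb ind ft = Zb ft ft` (`Zb_move`, `InSpan.tens`), insert `Qk`,
move `E` through `rho g` to get `bt`; Cauchy-Schwarz over `g`, `sum_nsq_at`, and `twirl` for the
group `Ω → G` with `ω u = ∏ i, om (t i) (u i)`, `D = ∏ i, d (t i)` (`rho_pi`, `tens_sum`,
`tens_smul`, `Finset.prod_univ_sum`).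
`bp_of_sum`: `∑ t, ft t = ind` (`tens_sum`, `tens_one`), group by `lvl t ≤ m`
(`Finset.sum_fiberwise_of_maps_to`), `lvl t = 0` only for `t = none`.
-/

namespace Pool.Agent.Work.MP_66fdf3_co.BP

open Finset Matrix

variable {G Ω : Type*} [Group G] [MulAction G Ω] [Fintype G] [Fintype Ω] [DecidableEq Ω]

theorem card_bij (Ω : Type*) [Fintype Ω] [DecidableEq Ω] :
    (univ.filter fun x : Ω → Ω => Function.Bijective x).card = (Fintype.card Ω).factorial := by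
  rw [← Fintype.card_perm, ← card_univ, eq_comm]
  exact card_nbij (fun e : Equiv.Perm Ω => (e : Ω → Ω)) (fun e _ => by simp)
    (fun _ _ _ _ e => DFunLike.coe_injective e)
    fun x hx => ⟨Equiv.ofBijective x (by simpa using hx), by simp, rfl⟩

theorem Zb_sum {T : Type*} (o : Ω) (u : (Ω → Ω) → ℂ) (s : Finset T) (v : T → (Ω → Ω) → ℂ) :
    Zb G o u (∑ t ∈ s, v t) = ∑ t ∈ s, Zb G o u (v t) := by
  simp only [Zb, mulVec_sum, dotProduct_sum, mul_sum]
  exact sum_comm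

theorem Zb_move (o : Ω) {E : Matrix (Ω → Ω) (Ω → Ω) ℂ} (hE : InSpan (Ω → G) E)
    (u v : (Ω → Ω) → ℂ) : Zb G o (E *ᵥ u) v = Zb G o u (Eᴴ *ᵥ v) := by
  obtain ⟨c, rfl⟩ := hE
  simp only [Zb, conjTranspose_sum, conjTranspose_smul, rho_conjT, sum_mulVec, smul_mulVec,
    mulVec_sum, mulVec_smul, mulVec_mulVec, rho_mul, Finset.sum_apply, Pi.smul_apply, star_sum,
    sum_mul, dotProduct_sum, dotProduct_smul, mul_sum, smul_eq_mul, star_mul']
  rw [sum_comm, eq_comm, sum_comm]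
  refine sum_congr rfl fun h _ => ?_
  rw [← Equiv.sum_comp (Equiv.mulRight h)]
  refine sum_congr rfl fun g _ => ?_
  simp only [Equiv.coe_mulRight, mul_inv_cancel_right]
  ring

theorem Zb_ind {o : Ω} (h : ¬BPm G o) : Zb G o (ind Ω) (ind Ω) = 0 := by
  refine sum_eq_zero fun g _ => by_contra fun e => h ?_
  obtain ⟨h1, h2⟩ := mul_ne_zero_iff.1 e
  obtain ⟨w, -, h3⟩ := exists_ne_zero_of_sum_ne_zero h2
  obtain ⟨h3, h4⟩ := mul_ne_zero_iff.1 h3
  have key : ∀ x, ind Ω x ≠ 0 → Function.Bijective x := fun x hx =>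
    by_contra fun e => hx (if_neg e)
  rw [rho_mulVec] at h1 h4
  exact ⟨g⁻¹, w, key _ (star_ne_zero.1 h1), key _ (star_ne_zero.1 h3), key _ h4⟩

theorem Zb_Qk (o : Ω) (u v : (Ω → Ω) → ℂ) : Zb G o u v =
    ∑ g : Ω → G, star ((rho (Ω → Ω) g *ᵥ u) fun _ => o) *
      (star (tens (fun _ => Qk G o) *ᵥ ind Ω) ⬝ᵥ (rho (Ω → Ω) g *ᵥ v)) := by
  have hc : ((univ.filter fun g : G => g • o = o).card : ℂ) ≠ 0 :=
    Nat.cast_ne_zero.2 (card_pos.2 ⟨1, by simp⟩).ne'
  let a : G → ℂ := fun k => if k • o = o then ((univ.filter fun g : G => g • o = o).card : ℂ)⁻¹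
    else 0
  have h1 : Qk G o = ∑ k, a k • rho Ω k := by
    simp only [Qk, smul_sum, sum_filter, a, ite_smul, zero_smul, smul_ite, smul_zero]
  have h2 : ∑ k, a k = 1 := by
    rw [← sum_filter, sum_const, nsmul_eq_mul, mul_inv_cancel₀ hc]
  have h3 : tens (fun _ : Ω => Qk G o) = ∑ k : Ω → G, (∏ i, a (k i)) • rho (Ω → Ω) k := by
    rw [h1, tens_sum (fun _ k => a k • rho Ω k)]
    simp only [tens_smul, rho_pi]
  have h4 : ∑ k : Ω → G, ∏ i, a (k i) = 1 := by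
    rw [← Fintype.piFinset_univ, ← Finset.prod_univ_sum (fun _ => univ) fun _ k => a k]
    simp [h2]
  rw [← (Proj.tens fun _ => proj_Qk o).1]
  simp only [← dot_mulVec]
  simp only [h3, sum_mulVec, smul_mulVec, dotProduct_sum, dotProduct_smul, mul_sum, smul_eq_mul]
  simp only [mulVec_mulVec, rho_mul]
  rw [sum_comm, ← one_mul (Zb G o u v), ← h4, sum_mul]
  refine sum_congr rfl fun k _ => ?_
  by_cases h0 : ∏ i, a (k i) = 0
  · simp [h0]
  have h5 : k⁻¹ • (fun _ => o : Ω → Ω) = fun _ => o := funext fun i =>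
    inv_smul_eq_iff.2 (by_contra fun e => prod_ne_zero_iff.1 h0 i (mem_univ i)
      (if_neg (Ne.symm e)))
  rw [Zb, mul_sum, ← Equiv.sum_comp (Equiv.mulLeft k)]
  refine sum_congr rfl fun g _ => ?_
  rw [Equiv.coe_mulLeft, rho_mulVec (k * g) u, rho_mulVec g u, _root_.mul_inv_rev, mul_smul, h5]
  ring

theorem sum_nsq_at (htr : ∀ x y : Ω, ∃ g : G, g • x = y) (o : Ω) (v : (Ω → Ω) → ℂ) :
    ∑ g : Ω → G, ‖(rho (Ω → Ω) g *ᵥ v) fun _ => o‖ ^ 2 =
      ((Fintype.card G : ℝ) / Fintype.card Ω) ^ Fintype.card Ω * nsq v := by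
  have h0 : (0 : ℝ) < Fintype.card Ω := Nat.cast_pos.2 (Fintype.card_pos_iff.2 ⟨o⟩)
  have ht : ∀ x y : Ω → Ω, ∃ g : Ω → G, g • x = y := fun x y => by
    choose g hg using fun i => htr (x i) (y i)
    exact ⟨g, funext hg⟩
  simp only [rho_mulVec]
  rw [← Equiv.sum_comp (Equiv.inv (Ω → G)), ← sum_fiberwise univ (· • (fun _ => o : Ω → Ω)), nsq,
    mul_sum]
  refine sum_congr rfl fun y _ => ?_
  have e := congrArg (Nat.cast : ℕ → ℝ) (card_fib ht (fun _ => o) y)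
  rw [Fintype.card_fun, Fintype.card_fun] at e
  push_cast at e
  rw [sum_congr rfl fun g hg => by rw [Equiv.inv_apply, inv_inv, (mem_filter.1 hg).2], sum_const,
    nsmul_eq_mul, div_pow, ← e, mul_div_cancel_left₀ _ (pow_pos h0 _).ne']

omit [MulAction G Ω] [DecidableEq Ω] in
theorem Z0_pos [Nonempty Ω] : 0 < Z0 G Ω := by
  unfold Z0
  positivity

end Pool.Agent.Work.MP_66fdf3_co.BP
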