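import Pool.Agent.Work.MP_66fdf3_co.BP.Twirl
import Pool.Agent.Work.MP_66fdf3_co.BP.SpecF
import Pool.Agent.Work.MP_66fdf3_co.BP.Zbas

/-!
The decomposition of the count.

Plan. `Zb_move`: for `E = ∑ h, c h • rho h` substitute `g ↦ g h⁻¹`; `Eᴴ = ∑ h, star (c h) • rho h⁻¹`.
`Zb_ind`: a term is `ind (g⁻¹ • o) * ∑ w, ind w * ind (g⁻¹ • w)`; a nonzero term gives `BPm`.
`Zb_Qk`: substitute `g ↦ k g` with `k i • o = o` and average over `k` (`tens_sum`, `rho_pi`), or do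
it through `rho_conjT` and `dot_mulVec`.
`Z_none`: `Zb ind ft = Zb ft ft` as in `Zt_le`; `ft none` is the constant `m! / m ^ m`
(`card_bij`).
`sum_nsq_at`: `g ↦ g⁻¹ • (o, ..., o)` takes every value `(|G| / m) ^ m` times (`card_fib` for the
group `Ω → G`, which is transitive on `Ω → Ω`).
`Zt_le`: with `E = tens (E (t i))`, `Zb ind ft = Zb ft ft` (`Zb_move`, `InSpan.tens`), insert `Qk`,
move `E` through `rho g` to get `bt`; Cauchy-Schwarz over `g`, `sum_nsq_at`, and `twirl` for the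
group `Ω → G` with `ω u = ∏ i, om (t i) (u i)`, `D = ∏ i, d (t i)` (`rho_pi`, `tens_sum`,
`tens_smul`, `Finset.prod_univ_sum`).
`bp_of_sum`: `∑ t, ft t = ind` (`tens_sum`, `tens_one`), group by `lvl t ≤ m`
(`Finset.sum_fiberwise_of_maps_to`), `lvl t = 0` only for `t = none`.
-/

namespace Pool.Agent.Work.MP_66fdf3_co.BP

open Finset Matrix

variable {G Ω : Type*} [Group G] [MulAction G Ω] [Fintype G] [Fintype Ω] [DecidableEq Ω]

namespace Spec

variable (S : Spec G Ω)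

theorem Zdec_proj (t : Ω → Option (Fin S.k)) : Proj (tens fun i => S.E (t i)) :=
  Proj.tens fun i => S.proj (t i)

theorem Zdec_fix (t : Ω → Option (Fin S.k)) : tens (fun i => S.E (t i)) *ᵥ S.ft t = S.ft t := by
  rw [ft, mulVec_mulVec, (S.Zdec_proj t).2]

theorem Zdec_ft (o : Ω) (t : Ω → Option (Fin S.k)) :
    Zb G o (ind Ω) (S.ft t) = Zb G o (S.ft t) (S.ft t) := by
  nth_rewrite 2 [ft]
  rw [Zb_move o (InSpan.tens fun i => S.inSpan (t i)), (S.Zdec_proj t).1, S.Zdec_fix]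

theorem Zdec_cls (t : Ω → Option (Fin S.k)) (u : Ω → G) :
    (∑ g : Ω → G, rho (Ω → Ω) (g * u * g⁻¹)) * tens (fun i => S.E (t i)) =
      ((Fintype.card (Ω → G) : ℂ) * ∏ i, S.om (t i) (u i)) • tens fun i => S.E (t i) := by
  simp only [rho_pi, Pi.mul_apply, Pi.inv_apply]
  rw [← tens_sum fun i (h : G) => rho Ω (h * u i * h⁻¹), tens_mul]
  simp only [S.cls]
  rw [tens_smul, prod_mul_distrib, prod_const, Fintype.card_fun, Nat.cast_pow, card_univ]

theorem Zdec_orth (t : Ω → Option (Fin S.k)) :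
    (∑ u : Ω → G, (∏ i, S.om (t i) (u⁻¹ i)) * ∏ i, S.om (t i) (u i)) *
      ((∏ i, (S.d (t i) : ℝ) : ℝ) : ℂ) ^ 2 = Fintype.card (Ω → G) := by
  simp only [← prod_mul_distrib, Pi.inv_apply]
  rw [← Fintype.piFinset_univ,
    ← Finset.prod_univ_sum (fun _ => univ) fun i (h : G) => S.om (t i) h⁻¹ * S.om (t i) h]
  push_cast
  rw [← prod_pow, ← prod_mul_distrib]
  simp [S.orth]

theorem Z_none (o : Ω) : Zb G o (ind Ω) (S.ft fun _ => none) = Z0 G Ω := by
  have h0 : ∑ y, ind Ω y = (Fintype.card Ω).factorial := by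
    simp only [ind, sum_boole, card_bij]
  have h1 : (S.ft fun _ => none) = fun _ =>
      ((Fintype.card Ω : ℂ)⁻¹) ^ Fintype.card Ω * (Fintype.card Ω).factorial := by
    funext x
    simp only [ft, S.E_none, mulVec, dotProduct, tens, E0, of_apply, prod_const, card_univ,
      ← mul_sum, h0]
  have h2 : star (ind Ω) = ind Ω := by
    funext x
    simp [ind]
  rw [S.Zdec_ft, h1, Zb, Z0]
  simp only [dotProduct, rho_mulVec, h2, ← sum_mul, h0, sum_const, card_univ, Fintype.card_fun,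
    nsmul_eq_mul, star_mul', star_pow, star_inv₀, star_natCast]
  push_cast
  ring

theorem Zt_le (htr : ∀ x y : Ω, ∃ g : G, g • x = y) (o : Ω) (t : Ω → Option (Fin S.k)) :
    ‖Zb G o (ind Ω) (S.ft t)‖ ^ 2 ≤
      Z0 G Ω ^ 2 * (S.xm t ^ 2 * S.ym o t / ∏ i, (S.d (t i) : ℝ)) := by
  have h0 : (0 : ℝ) < Fintype.card Ω := Nat.cast_pos.2 (Fintype.card_pos_iff.2 ⟨o⟩)
  have hD : 0 < ∏ i, (S.d (t i) : ℝ) := prod_pos fun i _ => Nat.cast_pos.2 (S.d_pos _)
  have hb : S.bt o t = tens (fun i => S.E (t i)) *ᵥ tens (fun _ => Qk G o) *ᵥ ind Ω := by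
    rw [bt, mulVec_mulVec, tens_mul]
  have h1 : ∀ g : Ω → G, star (tens (fun _ => Qk G o) *ᵥ ind Ω) ⬝ᵥ (rho (Ω → Ω) g *ᵥ S.ft t) =
      star (S.bt o t) ⬝ᵥ (rho (Ω → Ω) g *ᵥ S.ft t) := fun g => by
    rw [hb, ← (S.Zdec_proj t).1, ← dot_mulVec (tens fun i => S.E (t i)), mulVec_mulVec (S.ft t),
      rho_pi, tens_mul]
    simp only [S.comm]
    rw [← tens_mul, ← mulVec_mulVec, S.Zdec_fix]
  have h2 := dot_le (fun g : Ω → G => (rho (Ω → Ω) g *ᵥ S.ft t) fun _ => o)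
    fun g => star (S.bt o t) ⬝ᵥ (rho (Ω → Ω) g *ᵥ S.ft t)
  have h3 := twirl _ (fun u : Ω → G => ∏ i, S.om (t i) (u i)) hD (S.Zdec_cls t) (S.Zdec_orth t)
    (b := S.bt o t) (by rw [hb, mulVec_mulVec, (S.Zdec_proj t).2]) (S.Zdec_fix t)
  rw [S.Zdec_ft, Zb_Qk]
  simp only [h1]
  refine h2.trans ((mul_le_mul (sum_nsq_at htr o _).le h3 (nsq_nonneg _)
    (mul_nonneg (by positivity) (nsq_nonneg _))).trans_eq ?_)
  have h4 : ((Fintype.card Ω).factorial : ℝ) ≠ 0 := by positivity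
  simp only [Z0, xm, ym, cN, Fintype.card_fun, div_pow]
  push_cast
  field_simp
  ring

theorem bp_of_sum (o : Ω) (h : ∑ l ∈ Icc 1 (Fintype.card Ω), S.z o l < 1) : BPm G o := by
  by_contra hn
  have : Nonempty Ω := ⟨o⟩
  have h0 := Z0_pos (G := G) (Ω := Ω)
  have h1 : ∑ t, S.ft t = ind Ω := by
    simp only [ft]
    rw [← sum_mulVec, ← tens_sum fun _ j => S.E j]
    simp only [S.sum]
    rw [tens_one, one_mulVec]
  have h2 := Zb_ind hn
  nth_rewrite 2 [← h1] at h2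
  have h3 : (univ.filter fun t : Ω → Option (Fin S.k) => lvl t = 0) = {fun _ => none} := by
    ext t
    simp [lvl, funext_iff]
  rw [Zb_sum, ← sum_fiberwise_of_maps_to (t := Icc 0 (Fintype.card Ω)) (g := lvl)
    fun t _ => mem_Icc.2 ⟨Nat.zero_le _, card_le_univ _⟩, ← insert_Icc_add_one_left_eq_Icc
    (Nat.zero_le _), sum_insert (by simp), h3, sum_singleton, S.Z_none, zero_add,
    add_eq_zero_iff_eq_neg] at h2
  have h4 := congrArg norm h2
  rw [norm_neg, Complex.norm_real, Real.norm_of_nonneg h0.le] at h4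
  simp only [z, ← sum_div, div_lt_one h0] at h
  exact (h4.le.trans (norm_sum_le _ _)).not_gt h

end Spec

end Pool.Agent.Work.MP_66fdf3_co.BP
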