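import Pool.Agent.Work.MP_66fdf3_co.BP.PJ
import Pool.Agent.Work.MP_66fdf3_co.BP.Lev
import Pool.Agent.Work.MP_66fdf3_co.BP.Zdec

/-!
The bound for the sparse levels.

Plan. `Zb_Aw`: `∑ g, star (u (g⁻¹ • o)) * v (g⁻¹ • w) = (|G| / m) ^ m * ⟨u, tens (Aw (w i)) v⟩`:
replace `g` by `g⁻¹`, insert `∑ x y`, and use `Finset.prod_univ_sum` for the product of the counts.
For `v = PiS T *ᵥ ind`: `Zb ind v = Zb v v` (`PiS T` is `InSpan`: `E0 = S.E none`, `1 = rho 1`).
`tens (Aw (w i)) * PiS T = tens (A' (w i) on T, 1 off T) * PiS T` with `A' w = Aw w * (1 - E0)`,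
because `Aw * E0 = E0` (row sums). `sum_bij`, then `der_bound` with `x = m / q`:
`h0` from `sum_Aw`; `hc` from `stoch_nsq_le` for `tens (Aw or 1)` and `Proj.nsq_le` for
`tens (1 - E0 or 1)`; `h1`, `h2` from `nsq_mulVec`, `tens_mul`, `tens_update_sum`, `sum_AA'`,
`sum_AA`: the matrix is `∑ j ≠ none, (m mu / d) • tens (update 1 i (E j))`, and
`∑ j, nsq (tens (update 1 i (E j)) v) = nsq v` (`nsq_sum_orth`). `Aw` commutes with `E0`.
Finally `sum_lvl`, `sum_ft`, `Zb_sum`, `gf_one`; `m! = (m - l)! * descFactorial m l`.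
-/

namespace Pool.Agent.Work.MP_66fdf3_co.BP

open Finset Matrix

variable {G Ω : Type*} [Group G] [MulAction G Ω] [Fintype G] [Fintype Ω] [DecidableEq Ω]

section aux

variable {ι X : Type*} [Fintype ι] [DecidableEq ι] [Fintype X] [DecidableEq X]

omit [DecidableEq ι] [Fintype X] in
theorem PB_single (a b : ι → X) :
    tens (fun i => single (a i) (b i) (1 : ℂ)) = single a b (1 : ℂ) := by
  ext x y
  simp only [tens, Matrix.of_apply, Matrix.single_apply]
  rw [Finset.prod_ite_zero]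
  simp only [mem_univ, forall_true_left, Finset.prod_const_one, funext_iff, forall_and]

theorem PB_dot {Y : Type*} [Fintype Y] [DecidableEq Y] (a b : Y) (u v : Y → ℂ) :
    star u ⬝ᵥ (single a b (1 : ℂ) *ᵥ v) = star (u a) * v b := by
  rw [Matrix.single_mulVec, dotProduct]
  rw [Finset.sum_eq_single a]
  · simp
  · intro c _ hc
    simp [Function.update_of_ne hc]
  · simp

/-- A matrix acting on one coordinate. -/
def PB_at (i : ι) (A : Matrix X X ℂ) : Matrix (ι → X) (ι → X) ℂ :=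
  tens (Function.update (fun _ => 1) i A)

theorem PB_at_mul (i : ι) (A B : Matrix X X ℂ) : PB_at i A * PB_at i B = PB_at i (A * B) := by
  unfold PB_at
  rw [tens_mul]
  congr 1
  funext k
  by_cases h : k = i
  · subst h; simp
  · simp [Function.update_of_ne h]

omit [Fintype X] in
theorem PB_at_conj (i : ι) (A : Matrix X X ℂ) : (PB_at i A)ᴴ = PB_at i Aᴴ := by
  unfold PB_at
  rw [tens_conjT]
  congr 1
  funext k
  by_cases h : k = i
  · subst h; simp
  · simp [Function.update_of_ne h]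

omit [Fintype X] in
theorem PB_at_smul (i : ι) (c : ℂ) (A : Matrix X X ℂ) : PB_at i (c • A) = c • PB_at i A := by
  unfold PB_at
  have h := tens_smul (Function.update (fun _ : ι => (1 : ℂ)) i c)
    (Function.update (fun _ => (1 : Matrix X X ℂ)) i A)
  rw [Finset.prod_update_of_mem (mem_univ i)] at h
  simp only [Finset.prod_const_one, mul_one] at h
  rw [← h]
  congr 1
  funext k
  by_cases hk : k = i
  · subst hk; simp
  · simp [Function.update_of_ne hk]

omit [Fintype X] in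
theorem PB_at_one (i : ι) : PB_at i (1 : Matrix X X ℂ) = 1 := by
  unfold PB_at
  rw [Function.update_eq_self_iff.2 rfl, tens_one]

omit [Fintype X] in
theorem PB_at_zero (i : ι) : PB_at i (0 : Matrix X X ℂ) = 0 :=
  tens_zero (i := i) (by simp)

omit [Fintype X] in
theorem PB_at_sum {W : Type*} (s : Finset W) (i : ι) (B : W → Matrix X X ℂ) :
    ∑ w ∈ s, PB_at i (B w) = PB_at i (∑ w ∈ s, B w) := tens_update_sum s _ i B

theorem PB_at_proj (i : ι) {P : Matrix X X ℂ} (h : Proj P) : Proj (PB_at i P) :=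
  ⟨by rw [PB_at_conj, h.1], by rw [PB_at_mul, h.2]⟩

theorem PB_bound {J W : Type*} [Fintype J] [Fintype W] (E : J → Matrix X X ℂ)
    (hE : ∀ j, Proj (E j)) (ho : ∀ j l, j ≠ l → E j * E l = 0) (hs : ∑ j, E j = 1) (c : J → ℝ)
    {x : ℝ} (hc : ∀ j, c j ≤ x) (B : W → Matrix X X ℂ)
    (hB : ∑ w, (B w)ᴴ * B w = ∑ j, (c j : ℂ) • E j) (i : ι) (v : (ι → X) → ℂ) :
    ∑ w, nsq (PB_at i (B w) *ᵥ v) ≤ x * nsq v := by
  have h1 : ∑ w, nsq (PB_at i (B w) *ᵥ v) = ∑ j, c j * nsq (PB_at i (E j) *ᵥ v) := by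
    apply Complex.ofReal_injective
    push_cast
    simp only [nsq_mulVec, PB_at_conj, PB_at_mul, (hE _).1, (hE _).2]
    rw [← dotProduct_sum, ← Matrix.sum_mulVec, PB_at_sum, hB, ← PB_at_sum, Matrix.sum_mulVec,
      dotProduct_sum]
    refine sum_congr rfl fun j _ => ?_
    rw [PB_at_smul, Matrix.smul_mulVec, dotProduct_smul, smul_eq_mul]
  have h2 := nsq_sum_orth univ (fun j => PB_at i (E j)) (fun j _ => PB_at_proj i (hE j))
    (fun j _ l _ hjl => by rw [PB_at_mul, ho j l hjl, PB_at_zero]) v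
  rw [PB_at_sum, hs, PB_at_one, Matrix.one_mulVec] at h2
  rw [h1, h2, mul_sum]
  exact sum_le_sum fun j _ => mul_le_mul_of_nonneg_right (hc j) (nsq_nonneg _)

/-- Doubly stochastic matrices. -/
def PB_St (A : Matrix X X ℂ) : Prop := ∃ a : X → X → ℝ,
    (∀ x y, A x y = a x y) ∧ (∀ x y, 0 ≤ a x y) ∧ (∀ x, ∑ y, a x y = 1) ∧ ∀ y, ∑ x, a x y = 1

theorem PB_St_one : PB_St (1 : Matrix X X ℂ) := by
  refine ⟨fun x y => if x = y then 1 else 0, fun x y => ?_, fun x y => ?_, fun x => ?_,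
    fun y => ?_⟩
  · by_cases h : x = y <;> simp [Matrix.one_apply, h]
  · by_cases h : x = y <;> simp [h]
  · simp
  · simp

omit [DecidableEq X] in
theorem PB_St_tens {A : ι → Matrix X X ℂ} (h : ∀ i, PB_St (A i)) (v : (ι → X) → ℂ) :
    nsq (tens A *ᵥ v) ≤ nsq v := by
  choose a h1 h2 h3 h4 using h
  refine stoch_nsq_le (fun x y => ∏ i, a i (x i) (y i)) (fun x y => ?_) (fun x y => ?_)
    (fun x => ?_) (fun y => ?_) v
  · simp only [tens, Matrix.of_apply, h1]; push_cast; rfl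
  · exact prod_nonneg fun i _ => h2 i _ _
  · have := Finset.prod_univ_sum (fun _ : ι => (univ : Finset X)) fun i y => a i (x i) y
    rw [Fintype.piFinset_univ] at this
    rw [← this]
    simp [h3]
  · have := Finset.prod_univ_sum (fun _ : ι => (univ : Finset X)) fun i x => a i x (y i)
    rw [Fintype.piFinset_univ] at this
    rw [← this]
    simp [h4]

omit [DecidableEq X] in
theorem PB_St.mul_E0 {A : Matrix X X ℂ} (h : PB_St A) : A * E0 X = E0 X := by
  obtain ⟨a, h1, -, h3, -⟩ := h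
  ext x y
  simp only [Matrix.mul_apply, E0, Matrix.of_apply, h1]
  rw [← sum_mul, ← Complex.ofReal_sum, h3]
  simp

omit [DecidableEq X] in
theorem PB_St.E0_mul {A : Matrix X X ℂ} (h : PB_St A) : E0 X * A = E0 X := by
  obtain ⟨a, h1, -, -, h4⟩ := h
  ext x y
  simp only [Matrix.mul_apply, E0, Matrix.of_apply, h1]
  rw [← mul_sum, ← Complex.ofReal_sum, h4]
  simp

end aux

theorem Zb_Aw (o : Ω) (u v : (Ω → Ω) → ℂ) : Zb G o u v =
    ((Fintype.card G : ℂ) / Fintype.card Ω) ^ Fintype.card Ω *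
      (star u ⬝ᵥ ((∑ w ∈ univ.filter fun w : Ω → Ω => Function.Bijective w,
        tens fun i => Aw G o (w i)) *ᵥ v)) := by
  have hm : (Fintype.card Ω : ℂ) ≠ 0 := by
    have : Nonempty Ω := ⟨o⟩
    exact_mod_cast Fintype.card_ne_zero
  have hn : (Fintype.card G : ℂ) ≠ 0 := SpecF_n
  have h1 : ∀ w : Ω → Ω, (tens fun i => Aw G o (w i)) =
      ((Fintype.card Ω : ℂ) / Fintype.card G) ^ Fintype.card Ω •
        ∑ g : Ω → G, single (g • fun _ : Ω => o) (g • w) (1 : ℂ) := by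
    intro w
    simp only [SpecF_Aw]
    rw [tens_smul, tens_sum, prod_const, card_univ]
    congr 1
    refine sum_congr rfl fun g _ => ?_
    rw [PB_single]
    rfl
  simp only [h1]
  rw [← smul_sum, Matrix.smul_mulVec, dotProduct_smul, smul_eq_mul, ← mul_assoc, ← mul_pow,
    div_mul_div_cancel₀ hm, div_self hn, one_pow, one_mul, sum_comm, Matrix.sum_mulVec,
    dotProduct_sum]
  unfold Zb
  refine Fintype.sum_equiv (Equiv.inv (Ω → G)) _ _ fun g => ?_
  rw [Matrix.sum_mulVec, dotProduct_sum]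
  simp only [PB_dot, rho_mulVec, Equiv.inv_apply]
  rw [← mul_sum, dotProduct, sum_filter]
  congr 1
  refine sum_congr rfl fun w _ => ?_
  rw [rho_mulVec]
  simp [ind]

theorem Spec.PB_span (S : Spec G Ω) (T : Finset Ω) : InSpan (Ω → G) (PiS Ω T) := by
  classical
  refine InSpan.tens fun i => ?_
  obtain ⟨c, hc⟩ := S.inSpan none
  rw [S.E_none] at hc
  split_ifs
  · refine ⟨fun g => (if g = 1 then 1 else 0) - c g, ?_⟩
    simp only [sub_smul, sum_sub_distrib, ← hc, ite_smul, one_smul, zero_smul]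
    rw [Finset.sum_ite_eq' univ (1 : G), if_pos (mem_univ _), rho_one]
  · exact ⟨c, hc⟩

theorem Spec.PB_cut (S : Spec G Ω) (c : Option (Fin S.k) → ℂ) :
    (1 - E0 Ω) * (∑ j, c j • S.E j) * (1 - E0 Ω) =
      ∑ j, (if j = none then 0 else c j) • S.E j := by
  rw [Finset.mul_sum, Finset.sum_mul]
  refine sum_congr rfl fun j _ => ?_
  rw [← S.E_none, Matrix.mul_smul, Matrix.smul_mul]
  by_cases h : j = none
  · subst h
    simp [sub_mul, S.mul]
  · simp [sub_mul, mul_sub, S.mul, h, Ne.symm h]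

theorem Spec.PB_der (S : Spec G Ω) (htr : ∀ x y : Ω, ∃ g : G, g • x = y) (o : Ω) {q : ℕ}
    (hq : 0 < q) (hd : ∀ i, q * S.mu (some i) ≤ S.d (some i)) (T : Finset Ω) (v : (Ω → Ω) → ℂ) :
    nsq ((∑ w ∈ injs Ω T, tens fun i => if i ∈ T then Aw G o (w i) * (1 - E0 Ω) else 1) *ᵥ v) ≤
      ((Fintype.card Ω : ℝ) ^ (Fintype.card Ω - T.card) * Dl (Fintype.card Ω / q) T.card) ^ 2 *
        nsq v := by
  have : Nonempty Ω := ⟨o⟩
  have hst : ∀ w, PB_St (Aw G o w) := fun w => Aw_stoch htr o w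
  have hP : Proj (1 - E0 Ω) := proj_E0.one_sub
  have hx : (0 : ℝ) ≤ Fintype.card Ω / q := by positivity
  let c : Option (Fin S.k) → ℝ := fun j =>
    if j = none then 0 else (Fintype.card Ω : ℝ) * S.mu j / S.d j
  have hc : ∀ j, c j ≤ Fintype.card Ω / q := by
    rintro (_ | i)
    · simpa [c] using hx
    · simp only [c, reduceCtorEq, if_false]
      have h1 : (0 : ℝ) < S.d (some i) := by exact_mod_cast S.d_pos _
      have h2 : (0 : ℝ) < q := by exact_mod_cast hq
      have h3 : (q : ℝ) * S.mu (some i) ≤ S.d (some i) := by exact_mod_cast hd i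
      rw [div_le_div_iff₀ h1 h2, mul_assoc]
      exact mul_le_mul_of_nonneg_left (by linarith) (Nat.cast_nonneg _)
  have hcc : ∑ j, (if j = none then 0 else (Fintype.card Ω : ℂ) * S.mu j / S.d j) • S.E j =
      ∑ j, (c j : ℂ) • S.E j := by
    refine sum_congr rfl fun j _ => ?_
    congr 1
    simp only [c]
    split_ifs <;> simp
  have ho : ∀ j l, j ≠ l → S.E j * S.E l = 0 := fun j l h => by rw [S.mul, if_neg h]
  refine der_bound (fun w => Aw G o w * (1 - E0 Ω)) hx ?_ (fun e u => ?_) (fun i u => ?_)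
    (fun i u => ?_) T v
  · rw [← Finset.sum_mul, sum_Aw htr, Matrix.smul_mul, mul_sub, mul_one, proj_E0.2, sub_self,
      smul_zero]
  · have h1 : (tens fun i => (e i).elim 1 fun w => Aw G o w * (1 - E0 Ω)) =
        (tens fun i => (e i).elim 1 (Aw G o)) * tens fun i => (e i).elim 1 fun _ => 1 - E0 Ω := by
      rw [tens_mul]
      congr 1
      funext i
      cases e i <;> simp
    rw [h1, ← Matrix.mulVec_mulVec]
    refine (PB_St_tens (fun i => ?_) _).trans (Proj.nsq_le (Proj.tens fun i => ?_) u)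
    · cases e i
      · exact PB_St_one
      · exact hst _
    · cases e i
      · exact Proj.one
      · exact hP
  · refine PB_bound S.E S.proj ho S.sum c hc (fun w => Aw G o w * (1 - E0 Ω)) ?_ i u
    rw [← hcc, ← S.PB_cut, ← S.sum_AA' htr o, Finset.mul_sum, Finset.sum_mul]
    refine sum_congr rfl fun w _ => ?_
    rw [conjTranspose_mul, hP.1]
    simp only [Matrix.mul_assoc]
  · refine PB_bound S.E S.proj ho S.sum c hc (fun w => (Aw G o w * (1 - E0 Ω))ᴴ) ?_ i u
    rw [← hcc, ← S.PB_cut, ← S.sum_AA htr o, Finset.mul_sum, Finset.sum_mul]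
    refine sum_congr rfl fun w _ => ?_
    have h1 : Aw G o w * (1 - E0 Ω) = (1 - E0 Ω) * Aw G o w := by
      rw [mul_sub, sub_mul, (hst w).mul_E0, (hst w).E0_mul, mul_one, one_mul]
    rw [conjTranspose_conjTranspose, h1, conjTranspose_mul, hP.1]
    simp only [Matrix.mul_assoc]

theorem Spec.PB_T (S : Spec G Ω) (htr : ∀ x y : Ω, ∃ g : G, g • x = y) (o : Ω) {q : ℕ}
    (hq : 0 < q) (hd : ∀ i, q * S.mu (some i) ≤ S.d (some i)) (T : Finset Ω) :
    ‖Zb G o (ind Ω) (PiS Ω T *ᵥ ind Ω)‖ ≤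
      ((Fintype.card G : ℝ) / Fintype.card Ω) ^ Fintype.card Ω *
        ((Fintype.card Ω - T.card).factorial * Dl (Fintype.card Ω / q) T.card *
          nsq (PiS Ω T *ᵥ ind Ω)) := by
  have : Nonempty Ω := ⟨o⟩
  have hst : ∀ w, PB_St (Aw G o w) := fun w => Aw_stoch htr o w
  have hP : Proj (1 - E0 Ω) := proj_E0.one_sub
  have hT := proj_PiS T
  have hfix : PiS Ω T *ᵥ (PiS Ω T *ᵥ ind Ω) = PiS Ω T *ᵥ ind Ω := by
    rw [Matrix.mulVec_mulVec, hT.2]
  have h1 : Zb G o (ind Ω) (PiS Ω T *ᵥ ind Ω) =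
      Zb G o (PiS Ω T *ᵥ ind Ω) (PiS Ω T *ᵥ ind Ω) := by
    rw [Zb_move o (S.PB_span T), hT.1, hfix]
  set F : (Ω → Ω) → Matrix (Ω → Ω) (Ω → Ω) ℂ := fun w =>
    tens fun i => if i ∈ T then Aw G o (w i) * (1 - E0 Ω) else 1 with hF
  have h2 : (∑ w ∈ univ.filter fun w : Ω → Ω => Function.Bijective w,
      tens fun i => Aw G o (w i)) *ᵥ (PiS Ω T *ᵥ ind Ω) =
      (∑ w ∈ univ.filter fun w : Ω → Ω => Function.Bijective w, F w) *ᵥ (PiS Ω T *ᵥ ind Ω) := by
    rw [Matrix.mulVec_mulVec, Matrix.mulVec_mulVec, Finset.sum_mul, Finset.sum_mul]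
    congr 1
    refine sum_congr rfl fun w _ => ?_
    simp only [hF, PiS, tens_mul]
    congr 1
    funext i
    split_ifs
    · rw [Matrix.mul_assoc, hP.2]
    · rw [(hst _).mul_E0, Matrix.one_mul]
  have h3 := sum_bij T F (fun w b v hb => by
    simp only [hF]
    congr 1
    funext i
    split_ifs with hi
    · rw [Function.update_of_ne (by rintro rfl; exact hb hi)]
    · rfl)
  generalize PiS Ω T *ᵥ ind Ω = v at *
  have h4 := S.PB_der htr o hq hd T v
  have hD : 0 ≤ Dl (Fintype.card Ω / q) T.card := Dl_nonneg (by positivity) _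
  have hm : (0 : ℝ) < Fintype.card Ω := by exact_mod_cast Fintype.card_pos
  have hs : ∀ (n : ℕ) (B : Matrix (Ω → Ω) (Ω → Ω) ℂ),
      nsq ((n • B) *ᵥ v) = (n : ℝ) ^ 2 * nsq (B *ᵥ v) := by
    intro n B
    rw [Matrix.smul_mulVec]
    simp only [nsq, Pi.smul_apply, nsmul_eq_mul, norm_mul, Complex.norm_natCast, mul_pow, mul_sum]
  have h5 := congrArg (fun B => nsq (B *ᵥ v)) h3
  simp only [hs] at h5
  have h6 : nsq ((∑ w ∈ univ.filter fun w : Ω → Ω => Function.Bijective w, F w) *ᵥ v) ≤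
      ((Fintype.card Ω - T.card).factorial * Dl (Fintype.card Ω / q) T.card) ^ 2 * nsq v := by
    have hp : (0 : ℝ) < ((Fintype.card Ω ^ (Fintype.card Ω - T.card) : ℕ) : ℝ) ^ 2 := by
      push_cast; positivity
    refine le_of_mul_le_mul_left ?_ hp
    rw [h5]
    refine (mul_le_mul_of_nonneg_left h4 (sq_nonneg _)).trans (le_of_eq ?_)
    push_cast
    ring
  rw [h1, Zb_Aw, h2, norm_mul, norm_pow, norm_div, Complex.norm_natCast, Complex.norm_natCast]
  refine mul_le_mul_of_nonneg_left ?_ (by positivity)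
  have hv := nsq_nonneg v
  refine (pow_le_pow_iff_left₀ (norm_nonneg _) (by positivity) two_ne_zero).1 ?_
  refine (dot_le _ _).trans ((mul_le_mul_of_nonneg_left h6 hv).trans (le_of_eq ?_))
  ring

theorem Spec.z_le_P (S : Spec G Ω) (htr : ∀ x y : Ω, ∃ g : G, g • x = y) (o : Ω) {q : ℕ}
    (hq : 0 < q) (hd : ∀ i, q * S.mu (some i) ≤ S.d (some i)) {l : ℕ} (hl : l ≤ Fintype.card Ω) :
    S.z o l ≤ Ml (Fintype.card Ω) l * Dl (Fintype.card Ω / q) l /
      (Fintype.card Ω).descFactorial l := by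
  have : Nonempty Ω := ⟨o⟩
  have hm : (0 : ℝ) < Fintype.card Ω := by exact_mod_cast Fintype.card_pos
  have hn : (0 : ℝ) < Fintype.card G := by exact_mod_cast Fintype.card_pos
  have h1 : ∑ t ∈ univ.filter fun t : Ω → Option (Fin S.k) => lvl t = l,
      Zb G o (ind Ω) (S.ft t) =
      ∑ T ∈ powersetCard l univ, Zb G o (ind Ω) (PiS Ω (T : Finset Ω) *ᵥ ind Ω) := by
    rw [sum_lvl]
    refine sum_congr rfl fun T _ => ?_
    rw [← Zb_sum, S.sum_ft]
  have h2 : ‖∑ T ∈ powersetCard l univ, Zb G o (ind Ω) (PiS Ω (T : Finset Ω) *ᵥ ind Ω)‖ ≤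
      ((Fintype.card G : ℝ) / Fintype.card Ω) ^ Fintype.card Ω *
        ((Fintype.card Ω - l).factorial * Dl (Fintype.card Ω / q) l *
          ∑ T ∈ powersetCard l univ, nsq (PiS Ω (T : Finset Ω) *ᵥ ind Ω)) := by
    rw [mul_sum, mul_sum]
    refine norm_sum_le_of_le _ fun T hT => ?_
    have := S.PB_T htr o hq hd T
    rwa [(mem_powersetCard.1 hT).2] at this
  have h3 := gf_one (Ω := Ω) hl
  have h4 : ((Fintype.card Ω - l).factorial : ℝ) * (Fintype.card Ω).descFactorial l =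
      (Fintype.card Ω).factorial := by
    exact_mod_cast Nat.factorial_mul_descFactorial hl
  have h5 : (0 : ℝ) < (Fintype.card Ω).descFactorial l := by
    exact_mod_cast Nat.descFactorial_pos.2 hl
  have h6 : (0 : ℝ) < (Fintype.card Ω - l).factorial := by exact_mod_cast Nat.factorial_pos _
  unfold Spec.z
  rw [h1, div_le_iff₀ Z0_pos]
  refine h2.trans (le_of_eq ?_)
  rw [← h3]
  unfold Z0 cN
  rw [← h4, div_pow]
  field_simp
  ring

end Pool.Agent.Work.MP_66fdf3_co.BP
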