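import Pool.Agent.Work.MP_66fdf3_co.BP.SphC
import Pool.Agent.Work.MP_66fdf3_co.BP.PB

/-!
Hoelder's inequality and the output of the analytic part.

Plan. `holder3`: if the right side vanishes all `u` vanish. Otherwise normalise and use the
weighted inequality of the means (`Real.geom_mean_le_arith_mean3_weighted`), or iterate
`Real.inner_le_Lp_mul_Lq`. Take care of `A = 0` or `C = 0`.
`good`. Let `a = cnt t`, `π = ∏ j, (a j)!`, `u t = ‖Zb ind (ft t)‖ / Z0`, `x = xm t`, `y = ym o t`;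
`u ^ 2 ≤ x ^ 2 y / D` (`Zt_le`), `D = ∏ i, d i ^ a i` (`prod_cnt`). Bounds for one type of level `l`:
`x ≤ π / m! * El * ∏ i, sph (d mu) (a i)` and `y ≤ π / m! * El * ∏ i, sph (mu ^ 2) (a i)`
(`sphere`, `S.tr`, `trQ`, `sph 1 a = a! / a ^ a`, `cnt_none`), and `x ≤ π / m! * Ml` (`xm` is
constant on the class of `t`, `card_cnt`, `sum_xm`). Then
`u ^ (2 s) ≤ x ^ (s - 1 + j) * y ^ (s - j) * v` with `v = x ^ (s + 1 - j) * y ^ j / D ^ s`,
`holder3` with `A = s - 1 + j`, `C = s - j`, and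
`v ≤ π * (Ml ^ e * El ^ (s + 1 - e) / (m! * descFactorial ^ s)) * ∏ i, wt`, because
`π / m! = ∏ i, (a i)! / descFactorial m l`; sum with `sum_cnt_le`.
For `S`: `u ≤ x * √(El / descFactorial * Y)`, sum over `t`.
-/

namespace Pool.Agent.Work.MP_66fdf3_co.BP

open Finset Matrix

theorem Hold_amgm {p q r z : ℝ} (A C : ℕ) (hp : 0 ≤ p) (hq : 0 ≤ q) (hr : 0 ≤ r)
    (h : z ^ (A + C + 1) ≤ p ^ A * q ^ C * r) :
    z ≤ (A * p + C * q + r) / (A + C + 1 : ℕ) := by
  have hN : (0 : ℝ) < (A + C + 1 : ℕ) := by positivity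
  have h1 := Real.geom_mean_le_arith_mean3_weighted (w₁ := A / (A + C + 1 : ℕ))
    (w₂ := C / (A + C + 1 : ℕ)) (w₃ := 1 / (A + C + 1 : ℕ)) (by positivity) (by positivity)
    (by positivity) hp hq hr (by field_simp; push_cast; ring)
  have e : ∀ {w : ℝ} (n : ℕ), 0 ≤ w →
      (w ^ ((n : ℝ) / (A + C + 1 : ℕ))) ^ (A + C + 1) = w ^ n := fun {w} n hw => by
    rw [← Real.rpow_natCast, ← Real.rpow_mul hw, div_mul_cancel₀ _ hN.ne', Real.rpow_natCast]
  have e3 := e 1 hr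
  rw [Nat.cast_one, pow_one] at e3
  have h2 : z ≤ p ^ ((A : ℝ) / (A + C + 1 : ℕ)) * q ^ ((C : ℝ) / (A + C + 1 : ℕ)) *
      r ^ ((1 : ℝ) / (A + C + 1 : ℕ)) := by
    refine le_of_pow_le_pow_left₀ (Nat.succ_ne_zero (A + C)) (by positivity) ?_
    rw [mul_pow, mul_pow, e A hp, e C hq, e3]
    exact h
  refine (h2.trans h1).trans (le_of_eq ?_)
  field_simp

theorem Hold_pos {T : Type*} (s : Finset T) (u x y v : T → ℝ) (A C : ℕ) (hu : ∀ t, 0 ≤ u t)
    (hx : ∀ t, 0 ≤ x t) (hy : ∀ t, 0 ≤ y t) (hv : ∀ t, 0 ≤ v t)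
    (h : ∀ t ∈ s, u t ^ (A + C + 1) ≤ x t ^ A * y t ^ C * v t) {X Y V : ℝ} (hX : 0 < X)
    (hY : 0 < Y) (hV : 0 < V) (hX' : ∑ t ∈ s, x t ≤ X) (hY' : ∑ t ∈ s, y t ≤ Y)
    (hV' : ∑ t ∈ s, v t ≤ V) : (∑ t ∈ s, u t) ^ (A + C + 1) ≤ X ^ A * Y ^ C * V := by
  have hN : (0 : ℝ) < (A + C + 1 : ℕ) := by positivity
  have h0 : 0 < X ^ A * Y ^ C * V := by positivity
  obtain ⟨R, hR, hR'⟩ : ∃ R : ℝ, 0 < R ∧ R ^ (A + C + 1) = X ^ A * Y ^ C * V :=
    ⟨_, Real.rpow_pos_of_pos h0 _, Real.rpow_inv_natCast_pow h0.le (Nat.succ_ne_zero _)⟩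
  have h1 : ∀ t ∈ s, u t / R ≤ (A * (x t / X) + C * (y t / Y) + v t / V) / (A + C + 1 : ℕ) := by
    intro t ht
    refine Hold_amgm A C (div_nonneg (hx t) hX.le) (div_nonneg (hy t) hY.le)
      (div_nonneg (hv t) hV.le) ?_
    rw [div_pow, hR', div_pow, div_pow, div_mul_div_comm, div_mul_div_comm]
    exact div_le_div_of_nonneg_right (h t ht) h0.le
  have h2 := sum_le_sum h1
  rw [← sum_div, ← sum_div, sum_add_distrib, sum_add_distrib, ← mul_sum, ← mul_sum, ← sum_div,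
    ← sum_div, ← sum_div] at h2
  have h3 : (A * ((∑ t ∈ s, x t) / X) + C * ((∑ t ∈ s, y t) / Y) + (∑ t ∈ s, v t) / V) /
      (A + C + 1 : ℕ) ≤ 1 := by
    rw [div_le_one hN]
    push_cast
    have a1 := (div_le_one hX).2 hX'
    have a2 := (div_le_one hY).2 hY'
    have a3 := (div_le_one hV).2 hV'
    have b1 := mul_le_mul_of_nonneg_left a1 (Nat.cast_nonneg (α := ℝ) A)
    have b2 := mul_le_mul_of_nonneg_left a2 (Nat.cast_nonneg (α := ℝ) C)
    linarith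
  rw [← hR']
  exact pow_le_pow_left₀ (sum_nonneg fun t _ => hu t) ((div_le_one hR).1 (h2.trans h3)) _

theorem holder3 {T : Type*} (s : Finset T) (u x y v : T → ℝ) (A C : ℕ) (hu : ∀ t, 0 ≤ u t)
    (hx : ∀ t, 0 ≤ x t) (hy : ∀ t, 0 ≤ y t) (hv : ∀ t, 0 ≤ v t)
    (h : ∀ t ∈ s, u t ^ (A + C + 1) ≤ x t ^ A * y t ^ C * v t) :
    (∑ t ∈ s, u t) ^ (A + C + 1) ≤ (∑ t ∈ s, x t) ^ A * (∑ t ∈ s, y t) ^ C * ∑ t ∈ s, v t := by
  have hX : 0 ≤ ∑ t ∈ s, x t := sum_nonneg fun t _ => hx t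
  have hY : 0 ≤ ∑ t ∈ s, y t := sum_nonneg fun t _ => hy t
  have hV : 0 ≤ ∑ t ∈ s, v t := sum_nonneg fun t _ => hv t
  have hc : Continuous fun ε : ℝ => (∑ t ∈ s, x t + ε) ^ A * (∑ t ∈ s, y t + ε) ^ C *
      (∑ t ∈ s, v t + ε) := by fun_prop
  have ht := (hc.tendsto 0).mono_left (nhdsWithin_le_nhds (s := Set.Ioi 0))
  simp only [add_zero] at ht
  refine ge_of_tendsto ht (eventually_nhdsWithin_of_forall fun ε hε => ?_)
  have hε' : (0 : ℝ) < ε := hε
  exact Hold_pos s u x y v A C hu hx hy hv h (by linarith) (by linarith) (by linarith)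
    (by linarith) (by linarith) (by linarith)

variable {G Ω : Type*} [Group G] [MulAction G Ω] [Fintype G] [Fintype Ω] [DecidableEq Ω]

theorem Hold_cN (m : ℕ) : 0 ≤ cN m := by
  unfold cN
  positivity

theorem Hold_El (m l : ℕ) : 0 ≤ El m l := by
  unfold El
  positivity

theorem Hold_wt (s j e d μ a : ℕ) : 0 ≤ wt s j e d μ a := by
  unfold wt sph
  positivity

theorem Hold_sphere {k : ℕ} (P : Option (Fin k) → Matrix Ω Ω ℂ) (n : Option (Fin k) → ℕ)
    (hP : ∀ j, Proj (P j)) (ho : ∀ j l, j ≠ l → P j * P l = 0) (hn : ∀ j, (P j).trace = n j)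
    (h1 : n none = 1) (t : Ω → Option (Fin k)) :
    cN (Fintype.card Ω) * nsq (tens (fun i => P (t i)) *ᵥ ind Ω) ≤
      (∏ j, ((cnt t j).factorial : ℝ)) / (Fintype.card Ω).factorial *
        (El (Fintype.card Ω) (lvl t) * ∏ i, sph (n (some i)) (cnt t (some i))) := by
  refine (mul_le_mul_of_nonneg_left (sphere P n hP ho hn t) (Hold_cN _)).trans (le_of_eq ?_)
  rw [prod_mul_distrib, Fintype.prod_option fun j => sph (n j) (cnt t j), h1, cnt_none]
  unfold cN El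
  rw [show sph 1 (Fintype.card Ω - lvl t) = ((Fintype.card Ω - lvl t).factorial : ℝ) /
    ((Fintype.card Ω - lvl t : ℕ) : ℝ) ^ (Fintype.card Ω - lvl t) by
      unfold sph; rw [Nat.one_ascFactorial]]
  ring

omit [DecidableEq Ω] in
theorem Hold_pi {k : ℕ} (t : Ω → Option (Fin k)) (hl : lvl t ≤ Fintype.card Ω) :
    (∏ j, ((cnt t j).factorial : ℝ)) / (Fintype.card Ω).factorial =
      (∏ i, ((cnt t (some i)).factorial : ℝ)) / (Fintype.card Ω).descFactorial (lvl t) := by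
  rw [Fintype.prod_option, cnt_none, ← Nat.factorial_mul_descFactorial hl]
  push_cast
  rw [mul_div_mul_left _ _ (by positivity)]

namespace Spec

variable (S : Spec G Ω)

theorem Hold_x0 (t : Ω → Option (Fin S.k)) : 0 ≤ S.xm t := mul_nonneg (Hold_cN _) (nsq_nonneg _)

theorem Hold_y0 (o : Ω) (t : Ω → Option (Fin S.k)) : 0 ≤ S.ym o t :=
  mul_nonneg (Hold_cN _) (nsq_nonneg _)

theorem Hold_x1 (t : Ω → Option (Fin S.k)) :
    S.xm t ≤ (∏ j, ((cnt t j).factorial : ℝ)) / (Fintype.card Ω).factorial *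
      (El (Fintype.card Ω) (lvl t) * ∏ i, sph (S.d (some i) * S.mu (some i)) (cnt t (some i))) :=
  Hold_sphere S.E (fun j => S.d j * S.mu j) S.proj (fun j l h => by rw [S.mul, if_neg h])
    (fun j => by rw [S.tr]; push_cast; rfl) (by simp [S.d_none, S.mu_none]) t

theorem Hold_y1 (htr : ∀ x y : Ω, ∃ g : G, g • x = y) (o : Ω) (t : Ω → Option (Fin S.k)) :
    S.ym o t ≤ (∏ j, ((cnt t j).factorial : ℝ)) / (Fintype.card Ω).factorial *
      (El (Fintype.card Ω) (lvl t) * ∏ i, sph (S.mu (some i) ^ 2) (cnt t (some i))) :=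
  Hold_sphere (fun j => S.E j * Qk G o) (fun j => S.mu j ^ 2) (fun j => S.projQ j o)
    (fun j l h => by
      rw [S.comm_Qk j o, Matrix.mul_assoc, ← Matrix.mul_assoc (S.E j), S.mul, if_neg h,
        Matrix.zero_mul, Matrix.mul_zero])
    (fun j => by rw [S.trQ htr]; push_cast; rfl) (by simp [S.mu_none]) t

theorem Hold_x2 (t : Ω → Option (Fin S.k)) (hl : lvl t ≤ Fintype.card Ω) :
    S.xm t ≤ (∏ j, ((cnt t j).factorial : ℝ)) / (Fintype.card Ω).factorial *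
      Ml (Fintype.card Ω) (lvl t) := by
  have h1 : ∀ t' ∈ univ.filter fun t' : Ω → Option (Fin S.k) => cnt t' = cnt t,
      S.xm t' = S.xm t := by
    intro t' ht'
    obtain ⟨σ, rfl⟩ := exists_perm (mem_filter.1 ht').2
    exact congrArg (cN (Fintype.card Ω) * ·) (nsq_tens_perm (fun i => S.E (t i)) σ)
  have h2 : ((univ.filter fun t' : Ω → Option (Fin S.k) => cnt t' = cnt t).card : ℝ) * S.xm t ≤
      Ml (Fintype.card Ω) (lvl t) := by
    rw [← S.sum_xm hl, ← nsmul_eq_mul, ← sum_const, ← sum_congr rfl h1]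
    refine sum_le_sum_of_subset_of_nonneg (fun t' ht' => ?_) fun t' _ _ => S.Hold_x0 t'
    rw [mem_filter] at ht' ⊢
    refine ⟨ht'.1, ?_⟩
    rw [← sum_cnt_some, ← sum_cnt_some, ht'.2]
  have h3 : (∏ j, ((cnt t j).factorial : ℝ)) *
      (univ.filter fun t' : Ω → Option (Fin S.k) => cnt t' = cnt t).card =
      (Fintype.card Ω).factorial := by exact_mod_cast card_cnt t
  rw [div_mul_eq_mul_div, le_div_iff₀ (by positivity), ← h3]
  calc _ = (∏ j, ((cnt t j).factorial : ℝ)) *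
        (((univ.filter fun t' : Ω → Option (Fin S.k) => cnt t' = cnt t).card : ℝ) * S.xm t) := by
        ring
    _ ≤ _ := mul_le_mul_of_nonneg_left h2 (by positivity)

theorem Hold_D (t : Ω → Option (Fin S.k)) :
    ∏ i, (S.d (t i) : ℝ) = ∏ i, (S.d (some i) : ℝ) ^ cnt t (some i) := by
  rw [prod_cnt t fun j => (S.d j : ℝ), Fintype.prod_option, S.d_none]
  simp

theorem Hold_D0 (t : Ω → Option (Fin S.k)) : 0 < ∏ i, (S.d (t i) : ℝ) :=
  prod_pos fun i _ => by exact_mod_cast S.d_pos _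

theorem Hold_u (htr : ∀ x y : Ω, ∃ g : G, g • x = y) (o : Ω) (t : Ω → Option (Fin S.k)) :
    (‖Zb G o (ind Ω) (S.ft t)‖ / Z0 G Ω) ^ 2 ≤
      S.xm t ^ 2 * S.ym o t / ∏ i, (S.d (t i) : ℝ) := by
  have : Nonempty Ω := ⟨o⟩
  have h0 := Z0_pos (G := G) (Ω := Ω)
  rw [div_pow, div_le_iff₀' (by positivity)]
  exact S.Zt_le htr o t

theorem Hold_z (o : Ω) (l : ℕ) : S.z o l ≤
    ∑ t ∈ univ.filter fun t : Ω → Option (Fin S.k) => lvl t = l,
      ‖Zb G o (ind Ω) (S.ft t)‖ / Z0 G Ω := by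
  have : Nonempty Ω := ⟨o⟩
  rw [← sum_div]
  exact div_le_div_of_nonneg_right (norm_sum_le _ _) Z0_pos.le

theorem Hold_z0 (o : Ω) (l : ℕ) : 0 ≤ S.z o l := by
  have : Nonempty Ω := ⟨o⟩
  exact div_nonneg (norm_nonneg _) Z0_pos.le

theorem Hold_v (htr : ∀ x y : Ω, ∃ g : G, g • x = y) (o : Ω) {s j e : ℕ} (h : j + e ≤ s + 1)
    (t : Ω → Option (Fin S.k)) (hl : lvl t ≤ Fintype.card Ω) :
    S.xm t ^ (s + 1 - j) * S.ym o t ^ j / (∏ i, (S.d (t i) : ℝ)) ^ s ≤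
      Ml (Fintype.card Ω) (lvl t) ^ e * El (Fintype.card Ω) (lvl t) ^ (s + 1 - e) /
        ((Fintype.card Ω).descFactorial (lvl t) : ℝ) ^ s / (Fintype.card Ω).factorial *
      ((∏ j, ((cnt t j).factorial : ℝ)) *
        ∏ i, wt s j e (S.d (some i)) (S.mu (some i)) (cnt t (some i))) := by
  obtain ⟨r, hr⟩ := Nat.exists_eq_add_of_le h
  have e1 : s + 1 - j = e + r := by omega
  have e2 : s + 1 - e = j + r := by omega
  have e3 : s + 1 - j - e = r := by omega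
  have x0 := S.Hold_x0 t
  have y0 := S.Hold_y0 o t
  have a1 := pow_le_pow_left₀ x0 (S.Hold_x2 t hl) e
  have a2 := pow_le_pow_left₀ x0 (S.Hold_x1 t) r
  have a3 := pow_le_pow_left₀ y0 (S.Hold_y1 htr o t) j
  have b := mul_le_mul (mul_le_mul a1 a2 (pow_nonneg x0 r) ((pow_nonneg x0 e).trans a1)) a3
    (pow_nonneg y0 j) (mul_nonneg ((pow_nonneg x0 e).trans a1) ((pow_nonneg x0 r).trans a2))
  rw [e1, pow_add]
  refine (div_le_div_of_nonneg_right b (pow_nonneg (S.Hold_D0 t).le s)).trans (le_of_eq ?_)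
  have hp := Hold_pi t hl
  unfold wt
  rw [e2, e3, prod_mul_distrib, prod_mul_distrib, prod_pow, prod_pow, prod_pow, prod_div_distrib,
    ← S.Hold_D]
  generalize (∏ j, ((cnt t j).factorial : ℝ)) = p at hp ⊢
  generalize (∏ i, ((cnt t (some i)).factorial : ℝ)) = p' at hp ⊢
  generalize ((Fintype.card Ω).factorial : ℝ) = f at hp ⊢
  generalize ((Fintype.card Ω).descFactorial (lvl t) : ℝ) = g at hp ⊢
  have key : (p / f) ^ e * (p / f) ^ r * (p / f) ^ j = p / f * (p' / g) ^ s := by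
    rw [← hp, ← pow_add, ← pow_add, ← pow_succ']
    congr 1
    omega
  generalize Ml (Fintype.card Ω) (lvl t) = M
  generalize El (Fintype.card Ω) (lvl t) = E
  generalize (∏ i, sph (S.d (some i) * S.mu (some i)) (cnt t (some i))) = X
  generalize (∏ i, sph (S.mu (some i) ^ 2) (cnt t (some i))) = Y
  generalize (∏ i, (S.d (t i) : ℝ)) = D
  calc (p / f * M) ^ e * (p / f * (E * X)) ^ r * (p / f * (E * Y)) ^ j / D ^ s
      = (p / f) ^ e * (p / f) ^ r * (p / f) ^ j *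
        (M ^ e * E ^ (j + r) * X ^ r * Y ^ j / D ^ s) := by
        simp only [mul_pow, pow_add]
        ring
    _ = _ := by
        rw [key]
        simp only [div_pow]
        ring

theorem Hold_H (htr : ∀ x y : Ω, ∃ g : G, g • x = y) {o : Ω}
    {P : Finpartition (univ : Finset Ω)} (h : Fine G o P) (s j e l : ℕ) (hs : 1 ≤ s) (hj : j ≤ s)
    (he : j + e ≤ s + 1) (hl : l ≤ Fintype.card Ω) : S.z o l ^ (2 * s) ≤
    Ml (Fintype.card Ω) l ^ (s - 1 + j + e) * Bf (Fintype.card Ω) (sizes P) l ^ (s - j) *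
      El (Fintype.card Ω) l ^ (s + 1 - e) / ((Fintype.card Ω).descFactorial l : ℝ) ^ s *
      Ul s j e (fun i => S.d (some i)) (fun i => S.mu (some i)) l := by
  have : Nonempty Ω := ⟨o⟩
  have e0 : 2 * s = s - 1 + j + (s - j) + 1 := by omega
  have v0 : ∀ t : Ω → Option (Fin S.k),
      0 ≤ S.xm t ^ (s + 1 - j) * S.ym o t ^ j / (∏ i, (S.d (t i) : ℝ)) ^ s := fun t =>
    div_nonneg (mul_nonneg (pow_nonneg (S.Hold_x0 t) _) (pow_nonneg (S.Hold_y0 o t) _))
      (pow_nonneg (S.Hold_D0 t).le _)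
  have h1 := holder3 (univ.filter fun t : Ω → Option (Fin S.k) => lvl t = l)
    (fun t => ‖Zb G o (ind Ω) (S.ft t)‖ / Z0 G Ω) S.xm (S.ym o)
    (fun t => S.xm t ^ (s + 1 - j) * S.ym o t ^ j / (∏ i, (S.d (t i) : ℝ)) ^ s)
    (s - 1 + j) (s - j) (fun t => div_nonneg (norm_nonneg _) Z0_pos.le) S.Hold_x0 (S.Hold_y0 o)
    v0 fun t _ => by
      rw [← e0, pow_mul]
      refine (pow_le_pow_left₀ (sq_nonneg _) (S.Hold_u htr o t) s).trans (le_of_eq ?_)
      have a1 : (S.xm t ^ 2) ^ s = S.xm t ^ (s - 1 + j) * S.xm t ^ (s + 1 - j) := by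
        rw [← pow_mul, ← pow_add]
        congr 1
        omega
      have a2 : S.ym o t ^ s = S.ym o t ^ (s - j) * S.ym o t ^ j := by
        rw [← pow_add]
        congr 1
        omega
      rw [div_pow, mul_pow, a1, a2]
      ring
  rw [← e0, S.sum_xm hl] at h1
  have K0 : 0 ≤ Ml (Fintype.card Ω) l ^ e * El (Fintype.card Ω) l ^ (s + 1 - e) /
      ((Fintype.card Ω).descFactorial l : ℝ) ^ s :=
    div_nonneg (mul_nonneg (pow_nonneg (Ml_nonneg _ _) _) (pow_nonneg (Hold_El _ _) _))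
      (by positivity)
  have h2 : ∑ t ∈ univ.filter fun t : Ω → Option (Fin S.k) => lvl t = l,
      S.xm t ^ (s + 1 - j) * S.ym o t ^ j / (∏ i, (S.d (t i) : ℝ)) ^ s ≤
      Ml (Fintype.card Ω) l ^ e * El (Fintype.card Ω) l ^ (s + 1 - e) /
        ((Fintype.card Ω).descFactorial l : ℝ) ^ s *
        Ul s j e (fun i => S.d (some i)) (fun i => S.mu (some i)) l := by
    have a := sum_cnt_le (ι := Ω) (fun a => ∏ i, wt s j e (S.d (some i)) (S.mu (some i)) (a i))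
      (fun a => prod_nonneg fun i _ => Hold_wt _ _ _ _ _ _) l
    have hf : (0 : ℝ) < (Fintype.card Ω).factorial := by positivity
    refine (sum_le_sum fun t ht => ?_).trans
      ((le_of_eq (mul_sum _ _ _).symm).trans
        ((mul_le_mul_of_nonneg_left a (div_nonneg K0 hf.le)).trans (le_of_eq ?_)))
    · have := S.Hold_v htr o he t ((mem_filter.1 ht).2.symm ▸ hl)
      rwa [(mem_filter.1 ht).2] at this
    · unfold Ul
      field_simp
  have y0 : 0 ≤ ∑ t ∈ univ.filter fun t : Ω → Option (Fin S.k) => lvl t = l, S.ym o t :=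
    sum_nonneg fun t _ => S.Hold_y0 o t
  have h3 := pow_le_pow_left₀ y0 (S.sum_ym h hl) (s - j)
  have h4 := mul_le_mul (mul_le_mul_of_nonneg_left h3
    (pow_nonneg (Ml_nonneg (Fintype.card Ω) l) (s - 1 + j))) h2 (sum_nonneg fun t _ => v0 t)
    (mul_nonneg (pow_nonneg (Ml_nonneg _ _) _) ((pow_nonneg y0 _).trans h3))
  refine ((pow_le_pow_left₀ (S.Hold_z0 o l) (S.Hold_z o l) _).trans (h1.trans h4)).trans
    (le_of_eq ?_)
  rw [pow_add (Ml (Fintype.card Ω) l) (s - 1 + j) e]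
  ring

theorem Hold_S (htr : ∀ x y : Ω, ∃ g : G, g • x = y) (o : Ω) (l : ℕ) (hl : l ≤ Fintype.card Ω)
    (Y : ℝ) (hY : 0 ≤ Y)
    (h : ∀ a ∈ piAntidiag univ l, ∏ i, wt 1 1 1 (S.d (some i)) (S.mu (some i)) (a i) ≤ Y) :
    S.z o l ^ 2 ≤ Ml (Fintype.card Ω) l ^ 2 * El (Fintype.card Ω) l /
      (Fintype.card Ω).descFactorial l * Y := by
  have K0 : 0 ≤ El (Fintype.card Ω) l / (Fintype.card Ω).descFactorial l :=
    div_nonneg (Hold_El _ _) (by positivity)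
  have h1 : ∀ t ∈ univ.filter fun t : Ω → Option (Fin S.k) => lvl t = l,
      ‖Zb G o (ind Ω) (S.ft t)‖ / Z0 G Ω ≤
        S.xm t * √(El (Fintype.card Ω) l / (Fintype.card Ω).descFactorial l * Y) := by
    intro t ht
    have ht' := (mem_filter.1 ht).2
    have a1 := S.Hold_y1 htr o t
    rw [Hold_pi t (ht'.symm ▸ hl), ht'] at a1
    have a2 := h (fun i => cnt t (some i)) (by
      rw [mem_piAntidiag]
      exact ⟨by rw [sum_cnt_some, ht'], fun i _ => mem_univ i⟩)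
    simp only [wt, pow_one, show 1 + 1 - 1 - 1 = 0 from rfl, pow_zero, one_mul] at a2
    rw [prod_mul_distrib, prod_div_distrib, ← S.Hold_D] at a2
    have a3 : S.ym o t / ∏ i, (S.d (t i) : ℝ) ≤
        El (Fintype.card Ω) l / (Fintype.card Ω).descFactorial l * Y := by
      refine (div_le_div_of_nonneg_right a1 (S.Hold_D0 t).le).trans
        (le_trans (le_of_eq ?_) (mul_le_mul_of_nonneg_left a2 K0))
      ring
    refine le_of_pow_le_pow_left₀ two_ne_zero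
      (mul_nonneg (S.Hold_x0 t) (Real.sqrt_nonneg _)) ((S.Hold_u htr o t).trans ?_)
    rw [mul_pow, Real.sq_sqrt (mul_nonneg K0 hY), mul_div_assoc]
    exact mul_le_mul_of_nonneg_left a3 (sq_nonneg _)
  have h2 := (S.Hold_z o l).trans (sum_le_sum h1)
  rw [← sum_mul, S.sum_xm hl] at h2
  refine (pow_le_pow_left₀ (S.Hold_z0 o l) h2 2).trans (le_of_eq ?_)
  rw [mul_pow, Real.sq_sqrt (mul_nonneg K0 hY)]
  ring

end Spec

theorem Spec.good (S : Spec G Ω) (htr : ∀ x y : Ω, ∃ g : G, g • x = y) {o : Ω}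
    {P : Finpartition (univ : Finset Ω)} (h : Fine G o P) :
    Good (Fintype.card Ω) (fun i => S.d (some i)) (fun i => S.mu (some i))
      (Bf (Fintype.card Ω) (sizes P)) (S.z o) :=
  ⟨S.Hold_z0 o, fun _ hq hd _ hl => S.z_le_P htr o hq hd hl, S.Hold_H htr h,
    fun l hl Y hY hw => S.Hold_S htr o l hl Y hY hw⟩

end Pool.Agent.Work.MP_66fdf3_co.BP
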