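import Pool.Agent.Work.MP_66fdf3_co.BP.Num
import Pool.Agent.Work.MP_66fdf3_co.BP.Hold
import Pool.Agent.Work.MP_66fdf3_co.BP.GPart
import Pool.Agent.Work.MP_66fdf3_co.BP.GDet
import Pool.Agent.Work.MP_66fdf3_co.BP.GDim

/-!
Balanced permutations exist.
-/

namespace Pool.Agent.Work.MP_66fdf3_co.BP

open Finset MulAction

variable {G Ω : Type*} [Group G] [MulAction G Ω] [Fintype G] [Fintype Ω] [DecidableEq Ω]

theorem small_deg {m : ℕ} (ho : Odd m) (h1 : 1 < m) (hp : ¬IsPrimePow m) : m = 15 ∨ 21 ≤ m := by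
  by_contra h
  have : m < 21 := by omega
  interval_cases m <;> revert ho hp h <;> decide +kernel

theorem Hyp.bp (h : Hyp G Ω) (o : Ω) : BPm G o := by
  by_cases hN : NoFrob G Ω
  swap
  · exact bp_frob h.odd hN o
  by_cases hp : IsPrimePow (Fintype.card Ω)
  · exact bp_pp h.trans h.odd hp o
  have h1 : 1 < Fintype.card Ω := by
    obtain ⟨g, -, -, x, y, hxy, -⟩ := hN ⊤ fun x y => by simpa using h.trans x y
    exact Fintype.one_lt_card_iff.2 ⟨x, y, hxy⟩
  rcases small_deg h.odd h1 hp with hm | hm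
  · exact h.bp_15 hN hm o
  rcases h.exists_part hN (by omega) o with hb | ⟨dm, P, hF, hC, h4⟩
  · exact hb
  have : Nonempty Ω := ⟨o⟩
  obtain ⟨S⟩ := exists_spec h.trans
  refine S.bp_of_sum o (num_main hm h.odd hp hC ⟨fun i => S.mu_pos _, S.four_le_d h hN,
    fun i => ?_, S.dim_le, ?_⟩ (S.good h.trans hF))
  · rcases hC.2 with ⟨rfl, -⟩ | ⟨rfl, -⟩ | ⟨rfl, -⟩
    · exact S.three_mul h hN i
    · exact S.three_mul h hN i
    · obtain ⟨a, a1, a2⟩ := h4 rfl
      exact S.four_mul h a1 a2 i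
  · have := S.rank_le h.trans hF
    omega

end Pool.Agent.Work.MP_66fdf3_co.BP
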