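import Pool.Agent.Work.MP_66fdf3_co.BP.GBas

/-!
Suborbits of length four when the stabiliser is not a group of order a power of two.

Plan. `twoTr`: an odd prime `p` divides `|G_o|`. `S x` is the finite set of elements of order `p` in
`G_x`; all have the same size and are nonempty. If `S x` fixes `orb x y` pointwise then
`S x ⊆ S y`, so `S x = S y`, `rel` makes all `S` equal, against `faith`. So some `g ∈ S x` moves a
point of `orb x y`; on four points it fixes exactly one point (count the fixed points modulo `p`,
`IsPGroup.card_modEq_card_fixedPoints`, `p = 3`) and is transitive on the other three. Conjugate.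
`twelve`. `Arc x y := ∃ g, g • o = x ∧ g • a = y`; `Out x = orb x y`, `In y = orb y x` for an arc,
both of size four (`card_orb_symm`). `Sg y y' := y ≠ y' ∧ ∃ x, Arc x y ∧ Arc x y'` is symmetric,
`G` is transitive on such pairs, `{y' | Sg y y'} = orb y y'`. With `λ = |In y ∩ In y'|` (constant),
`λ * |orb y y'| = 12` by double counting. `lam_le` (for all arc types): `λ ≤ 2`: if `λ = 4` then
`In u = In v` is an invariant equivalence; if `λ = 3` then `|orb y y'| = 4`, `twoTr` makes it a
clique, and `u = v ∨ Sg u v` is an invariant equivalence with classes of size five.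
If `λ = 2` the graph `Sg` is regular of degree six, and an edge has at least four common neighbours
(`Out x₁` and `Out x₂` meet only in the edge, by `lam_le` for the arc type `(a, o)`); `octa` gives the
contradiction. So `λ = 1`.
`octa`: let `c` be the number of common neighbours. If `c = 5` then `u = v ∨ r u v` is an
equivalence with classes of size seven. If `c = 4` take nonadjacent `u ≠ u'` in `N y`;
`V = N y \ {u, u'}` is adjacent to both; for `v ∈ V`, `W = N v \ {u, u'}` is adjacent to both and
contains `y` and a point `w` not adjacent to `y`; `N u = V ∪ {y, w} = N u'`; `N u = N v` is an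
invariant equivalence, so all `N` are equal, against irreflexivity.
-/

namespace Pool.Agent.Work.MP_66fdf3_co.BP

open Finset MulAction

variable {G Ω : Type*} [Group G] [MulAction G Ω] [Fintype G] [Fintype Ω] [DecidableEq Ω]

theorem Hyp.twoTr (h : Hyp G Ω) {o : Ω} (h2 : ¬IsPGroup 2 (stabilizer G o)) {x y : Ω}
    (h4 : (orb G x y).card = 4) : TwoTr G x y := by
  sorry

theorem Hyp.octa (h : Hyp G Ω) (hm : 8 ≤ Fintype.card Ω) (N : Ω → Finset Ω)
    (hs : ∀ x y, y ∈ N x → x ∈ N y) (hi : ∀ x, x ∉ N x)
    (hg : ∀ (g : G) x y, y ∈ N x → g • y ∈ N (g • x)) (h6 : ∀ x, (N x).card = 6) {c : ℕ}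
    (hc : 4 ≤ c) (hN : ∀ x y, y ∈ N x → (N x ∩ N y).card = c) : False := by
  sorry

end Pool.Agent.Work.MP_66fdf3_co.BP
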