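import Pool.Agent.Work.MP_66fdf3_co.BP.GBas

/-!
The easy cases.

Plan. `bp_odd`: `hall_fib` with `Γ = Q`, `p g = g • o`, `q g = g ^ 2 • o` (squaring is a bijection
of `Q`; `card_fib` for `Q`), `w = id`. `bp_pp`: a Sylow `p`-subgroup `Q` is transitive: the orbit of
`o` has size `|Q : Q ⊓ K|`, and `m` divides `|G : Q ⊓ K| = |G : Q| |Q : Q ⊓ K|` and is coprime to
`|G : Q|`; then all points are reached from `o`. `bp_inv`: `π a = t a • o` is injective off `o`: if
`y = t b * t a` fixes `o`, then `t a` permutes the fixed points of `y` (it inverts `y`), so it fixes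
one (`two_fix` for `zpowers (t a)`), which is `a`; so `t b` fixes `a`. `hall_fib` with `Γ = G`,
`p y = y • o`, `q y = y⁻¹ • o` gives `y a`; `g a = t a * y a` (`g o = y o`), `w a = (y a)⁻¹ • o`.
`bp_tri`: choose `b a, c a` (for `a = o` both `o`); `Γ = K × Ω`, `p (k, a) = k • b a`,
`q (k, a) = k • c a`; all fibres have size `|K|` (`card_orb_fib`); `w = id`.
`bp_frob`: if the stabiliser of `o` in `N` has odd order then `|N|` is odd (`card_stab` for `N`).
Otherwise it has an involution `t`; `t a = n t n⁻¹` with `n ∈ N`, `n • o = a`.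
`four_le`: if `|orb x y| = 2` then `L = G_x ⊓ G_y` has index two in both groups, so it is normal in
both, `eq_bot` gives `L = ⊥`, `|G_x| = 2`, so all stabilisers have order two; then `NoFrob` for
`N = ⊤` gives `G_u = G_v` with `u ≠ v`, against `exists_move`.
-/

namespace Pool.Agent.Work.MP_66fdf3_co.BP

open Finset MulAction

variable {G Ω : Type*} [Group G] [MulAction G Ω] [Fintype G] [Fintype Ω] [DecidableEq Ω]

theorem bp_odd (o : Ω) {Q : Subgroup G} (hQ : Odd (Nat.card Q))
    (ht : ∀ x y : Ω, ∃ g ∈ Q, g • x = y) : BPm G o := by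
  sorry

theorem bp_pp (htr : ∀ x y : Ω, ∃ g : G, g • x = y) (ho : Odd (Fintype.card Ω))
    (hp : IsPrimePow (Fintype.card Ω)) (o : Ω) : BPm G o := by
  sorry

theorem bp_inv (htr : ∀ x y : Ω, ∃ g : G, g • x = y) (o : Ω) (t : Ω → G)
    (h2 : ∀ a, a ≠ o → t a * t a = 1) (hf : ∀ a, a ≠ o → ∀ x, t a • x = x ↔ x = a)
    (ho : ∀ a b, a ≠ o → b ≠ o → (t b * t a) • o = o →
      Odd (univ.filter fun x : Ω => (t b * t a) • x = x).card) : BPm G o := by
  sorry

end Pool.Agent.Work.MP_66fdf3_co.BP
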