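import Pool.Agent.Work.MP_66fdf3_co.BP.GTwo
import Pool.Agent.Work.MP_66fdf3_co.BP.GFour

/-!
The partition into small parts.

Plan. `split`: a finite set whose size is a sum of a multiset `ks` of positive numbers has a
`Finpartition` with these part sizes (induction on `ks`, `Finset.exists_subset_card_eq`,
`Finpartition.extend`). `refine`: the orbits of `G_o` form a partition
(`Finpartition.ofSetoid`, or `Finpartition.ofExistsUnique`); choose a multiset `ks p` for each
orbit `p`, `Finpartition.bind` gives a `Fine` partition with `sizes = ∑ p, ks p`.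
A multiset is `replicate b 6 + replicate c 8 + replicate e 10` as soon as its elements lie in
`{6, 8, 10}`; such multisets are closed under sums. Case A: no orbit has size four. Case C: sizes
are powers of two (`card_orb_mul`, `IsPGroup.iff_card`), orbits of size four stay, the others are cut
into eights; `4 a` is the number of points in orbits of size four. Case B: one orbit of size twelve
stays, the others are cut into fours and sixes. `sizes.sum = m` is `Finpartition.sum_card_parts`.
`bp_15`: by `exists_part` there is a `Fine` partition with sizes `1, 6, 8` (the only solution of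
`Cls 15`); orbits are unions of parts and `{o}` is an orbit.
So `k = |orb o a|` is `14`, or `6` or `8` and the rest is one
orbit of size `14 - k`. Use `bp_tri`. If there is no triangle, count the arcs from `orb o a` to the
other orbit: `k * j = (14 - k) * i` with `j = k - 1` or `j = k`, impossible.
-/

namespace Pool.Agent.Work.MP_66fdf3_co.BP

open Finset MulAction

variable {G Ω : Type*} [Group G] [MulAction G Ω] [Fintype G] [Fintype Ω] [DecidableEq Ω]

/-- A partition of `s` with part sizes `ks` whose parts are `r`-cliques. -/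
def GRef_PT {Ω : Type*} [DecidableEq Ω] (r : Ω → Ω → Prop) (s : Finset Ω) (ks : Multiset ℕ) :
    Prop :=
  ∃ P : Finpartition s, P.parts.val.map Finset.card = ks ∧ ∀ p ∈ P.parts, ∀ x ∈ p, ∀ y ∈ p, r x y

section
variable {Ω : Type*} [DecidableEq Ω] {r : Ω → Ω → Prop}

theorem GRef_empty : GRef_PT r ∅ 0 :=
  ⟨Finpartition.empty _, by simp, by simp⟩

theorem GRef_sum {s : Finset Ω} {ks : Multiset ℕ} (h : GRef_PT r s ks) : ks.sum = s.card := by
  obtain ⟨P, rfl, -⟩ := h
  exact P.sum_card_parts

theorem GRef_extend {s t : Finset Ω} {ks : Multiset ℕ} (h : GRef_PT r s ks) (hd : Disjoint s t)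
    (ht : 0 < t.card) (hr : ∀ x ∈ t, ∀ y ∈ t, r x y) : GRef_PT r (s ∪ t) (t.card ::ₘ ks) := by
  obtain ⟨P, rfl, hP⟩ := h
  have h0 : t ≠ ⊥ := (card_pos.1 ht).ne_empty
  have h1 : t ∉ P.parts := fun hm => h0 (hd.symm.eq_bot_of_le (P.le hm))
  refine ⟨P.extend h0 hd rfl, ?_, ?_⟩
  · rw [Finpartition.extend_parts, insert_val_of_notMem h1, Multiset.map_cons]
  · rw [Finpartition.extend_parts]
    intro p hp
    rcases mem_insert.1 hp with rfl | hp
    · exact hr
    · exact hP p hp

theorem GRef_add {s : Finset Ω} {ks : Multiset ℕ} (h : GRef_PT r s ks) (ls : Multiset ℕ) :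
    ∀ t : Finset Ω, Disjoint s t → (∀ x ∈ t, ∀ y ∈ t, r x y) → (∀ l ∈ ls, 0 < l) →
      ls.sum = t.card → GRef_PT r (s ∪ t) (ks + ls) := by
  induction ls using Multiset.induction_on with
  | empty =>
    intro t _ _ _ h0
    rw [Multiset.sum_zero, eq_comm, card_eq_zero] at h0
    simpa [h0] using h
  | cons l ls ih =>
    intro t hd hr hp h0
    rw [Multiset.sum_cons] at h0
    obtain ⟨u, hu, rfl⟩ := exists_subset_card_eq (s := t) (n := l) (by omega)
    have a := ih (t \ u) (hd.mono_right sdiff_subset)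
      (fun x hx y hy => hr x (sdiff_subset hx) y (sdiff_subset hy))
      (fun l hl => hp l (Multiset.mem_cons_of_mem hl)) (by rw [card_sdiff_of_subset hu]; omega)
    have b := GRef_extend a (t := u)
      (disjoint_union_left.2 ⟨hd.mono_right hu, sdiff_disjoint⟩) (hp _ (Multiset.mem_cons_self _ _))
      (fun x hx y hy => hr x (hu hx) y (hu hy))
    rwa [union_assoc, sdiff_union_of_subset hu, ← Multiset.add_cons] at b

end

theorem GRef_rep {a b c : ℕ} (ls : Multiset ℕ) (h : ∀ l ∈ ls, l = a ∨ l = b ∨ l = c) :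
    ∃ i j k, ls = Multiset.replicate i a + Multiset.replicate j b + Multiset.replicate k c := by
  induction ls using Multiset.induction_on with
  | empty => exact ⟨0, 0, 0, by simp⟩
  | cons l ls ih =>
    obtain ⟨i, j, k, rfl⟩ := ih fun l hl => h l (Multiset.mem_cons_of_mem hl)
    rcases h l (Multiset.mem_cons_self _ _) with rfl | rfl | rfl
    · exact ⟨i + 1, j, k, by simp only [Multiset.replicate_succ, Multiset.cons_add]⟩
    · exact ⟨i, j + 1, k, by
        simp only [Multiset.replicate_succ, Multiset.cons_add, Multiset.add_cons]⟩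
    · exact ⟨i, j, k + 1, by simp only [Multiset.replicate_succ, Multiset.add_cons]⟩

theorem GRef_rep2 {a b : ℕ} (ls : Multiset ℕ) (h : ∀ l ∈ ls, l = a ∨ l = b) :
    ∃ i j, ls = Multiset.replicate i a + Multiset.replicate j b := by
  obtain ⟨i, j, k, rfl⟩ := GRef_rep (c := b) ls fun l hl => (h l hl).imp_right Or.inl
  exact ⟨i, j + k, by rw [Multiset.replicate_add, add_assoc]⟩

theorem GRef_orbs (o : Ω) (A : ℕ → Prop) (hA : ∀ l, A l → 0 < l) {s : Finset Ω} {ks : Multiset ℕ}
    (h : GRef_PT (fun x y => y ∈ orb G o x) s ks) (t : Finset Ω) :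
    Disjoint s t → (∀ x ∈ t, orb G o x ⊆ t) →
      (∀ x ∈ t, ∃ ls : Multiset ℕ, (∀ l ∈ ls, A l) ∧ ls.sum = (orb G o x).card) →
      ∃ ls : Multiset ℕ, (∀ l ∈ ls, A l) ∧
        GRef_PT (fun x y => y ∈ orb G o x) (s ∪ t) (ks + ls) := by
  induction t using Finset.strongInduction with
  | H t ih =>
    intro hd hc hl
    rcases t.eq_empty_or_nonempty with rfl | ⟨x, hx⟩
    · exact ⟨0, by simp, by simpa using h⟩
    obtain ⟨ls, a1, a2⟩ := ih (t \ orb G o x)
      (sdiff_ssubset (hc x hx) ⟨x, self_mem_orb o x⟩) (hd.mono_right sdiff_subset)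
      (fun y hy z hz => mem_sdiff.2 ⟨hc y (sdiff_subset hy) hz, fun hz' => (mem_sdiff.1 hy).2 (by
        rw [← orb_eq hz', orb_eq hz]; exact self_mem_orb o y)⟩)
      (fun y hy => hl y (sdiff_subset hy))
    obtain ⟨ms, b1, b2⟩ := hl x hx
    have c := GRef_add a2 ms (orb G o x)
      (disjoint_union_left.2 ⟨hd.mono_right (hc x hx), sdiff_disjoint⟩)
      (fun y hy z hz => by rw [orb_eq hy]; exact hz) (fun l hl => hA l (b1 l hl)) b2
    rw [union_assoc, sdiff_union_of_subset (hc x hx), add_assoc] at c
    exact ⟨ls + ms, fun l hl => (Multiset.mem_add.1 hl).elim (a1 l) (b1 l), c⟩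

theorem GRef_compl (o : Ω) (A : ℕ → Prop) (hA : ∀ l, A l → 0 < l) {s : Finset Ω} {ks : Multiset ℕ}
    (h : GRef_PT (fun x y => y ∈ orb G o x) s ks) (hs : ∀ x ∈ s, orb G o x ⊆ s)
    (hl : ∀ x, x ∉ s → ∃ ls : Multiset ℕ, (∀ l ∈ ls, A l) ∧ ls.sum = (orb G o x).card) :
    ∃ (ls : Multiset ℕ) (P : Finpartition (univ : Finset Ω)), (∀ l ∈ ls, A l) ∧ Fine G o P ∧
      sizes P = ks + ls ∧ (sizes P).sum = Fintype.card Ω := by
  obtain ⟨ls, a, b⟩ := GRef_orbs o A hA h sᶜ disjoint_compl_right
    (fun x hx y hy => mem_compl.2 fun hy' => mem_compl.1 hx (hs y hy' (by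
      rw [orb_eq hy]; exact self_mem_orb o x))) (fun x hx => hl x (mem_compl.1 hx))
  rw [union_compl] at b
  have c := GRef_sum b
  obtain ⟨P, p1, p2⟩ := b
  exact ⟨ls, P, a, p2, p1, by rw [← p1] at c; exact c⟩

theorem Hyp.exists_part (h : Hyp G Ω) (hN : NoFrob G Ω) (hm : 8 ≤ Fintype.card Ω) (o : Ω) :
    BPm G o ∨ ∃ (dm : ℕ) (P : Finpartition (univ : Finset Ω)), Fine G o P ∧
      Cls (Fintype.card Ω) dm (sizes P) ∧ (dm = 4 → ∃ a, (orb G o a).card = 4 ∧ TwoTr G o a) := by
  have h0 : GRef_PT (fun x y => y ∈ orb G o x) {o} {1} := by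
    have := GRef_extend (r := fun x y => y ∈ orb G o x) (t := {o}) GRef_empty
      (disjoint_empty_left _) (by simp) (by simp [self_mem_orb])
    simpa using this
  have hs0 : ∀ x ∈ ({o} : Finset Ω), orb G o x ⊆ {o} := fun x hx => by
    rw [mem_singleton.1 hx, orb_self]
  by_cases h4 : ∃ a, (orb G o a).card = 4
  · by_cases h2 : IsPGroup 2 (stabilizer G o)
    · refine (h.two_case hN o h2).imp_right fun hb => ?_
      set t := univ.filter fun b => (orb G o b).card = 4 with ht
      have hc : ∀ x ∈ t, orb G o x ⊆ t := fun x hx y hy => by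
        simp only [ht, mem_filter, mem_univ, true_and] at hx ⊢
        rw [orb_eq hy, hx]
      obtain ⟨ls, a1, a2⟩ := GRef_orbs o (fun l => l = 4) (fun l hl => by omega) h0 t
        (by simp [ht, orb_self]) hc (fun x hx => ⟨{4}, by simp, by
          simp only [ht, mem_filter, mem_univ, true_and] at hx
          simp [hx]⟩)
      have a3 := GRef_sum a2
      obtain ⟨a, rfl⟩ : ∃ a, ls = Multiset.replicate a 4 :=
        ⟨_, Multiset.eq_replicate_card.2 a1⟩
      rw [card_union_of_disjoint (by simp [ht, orb_self])] at a3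
      simp only [Multiset.sum_add, Multiset.sum_singleton, Multiset.sum_replicate, smul_eq_mul,
        card_singleton] at a3
      obtain ⟨ms, P, b1, b2, b3, b4⟩ := GRef_compl o (fun l => l = 8) (fun l hl => by omega) a2
        (fun x hx => (mem_union.1 hx).elim (fun p => (hs0 x p).trans subset_union_left)
          (fun p => (hc x p).trans subset_union_right)) (fun x hx => by
          simp only [ht, mem_union, mem_singleton, mem_filter, mem_univ, true_and, not_or] at hx
          have e := h.four_le hN (Ne.symm hx.1)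
          obtain ⟨n, hn⟩ := IsPGroup.iff_card.1 h2
          have d : (orb G o x).card ∣ 2 ^ n := ⟨_, by rw [← hn, card_orb_mul o x]⟩
          obtain ⟨k, -, hk⟩ := (Nat.dvd_prime_pow Nat.prime_two).1 d
          have k3 : 3 ≤ k := by
            by_contra hk3
            have : k ≤ 2 := by omega
            interval_cases k <;> omega
          refine ⟨Multiset.replicate (2 ^ (k - 3)) 8, fun l hl => Multiset.eq_of_mem_replicate hl,
            ?_⟩
          rw [Multiset.sum_replicate, smul_eq_mul, hk, show 8 = 2 ^ 3 by norm_num, ← pow_add,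
            Nat.sub_add_cancel k3])
      obtain ⟨c, rfl⟩ : ∃ c, ms = Multiset.replicate c 8 :=
        ⟨_, Multiset.eq_replicate_card.2 b1⟩
      exact ⟨3, P, b2, ⟨b4, Or.inr (Or.inl ⟨rfl, a, c, by omega, b3⟩)⟩, fun e => by omega⟩
    · obtain ⟨a, ha⟩ := h4
      obtain ⟨b, hb⟩ := h.twelve hm h2 ha
      have hob : o ≠ b := by
        rintro rfl
        simp [orb_self] at hb
      have a2 := GRef_extend h0 (t := orb G o b)
        (disjoint_singleton_left.2 fun e => ne_of_mem_orb e hob rfl) (by omega)
        (fun y hy z hz => by rw [orb_eq hy]; exact hz)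
      obtain ⟨ms, P, b1, b2, b3, b4⟩ := GRef_compl o (fun l => l = 4 ∨ l = 6)
        (fun l hl => by omega) a2
        (fun x hx => (mem_union.1 hx).elim (fun p => (hs0 x p).trans subset_union_left)
          (fun p => (orb_eq p).subset.trans subset_union_right)) (fun x hx => by
          simp only [mem_union, mem_singleton, not_or] at hx
          have e := h.four_le hN (Ne.symm hx.1)
          obtain ⟨k, hk⟩ := h.even o x (Ne.symm hx.1)
          refine ⟨Multiset.replicate ((k - 3 * (k % 2)) / 2) 4 + Multiset.replicate (k % 2) 6,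
            fun l hl => (Multiset.mem_add.1 hl).imp Multiset.eq_of_mem_replicate
              Multiset.eq_of_mem_replicate, ?_⟩
          simp only [Multiset.sum_add, Multiset.sum_replicate, smul_eq_mul]
          omega)
      obtain ⟨i, j, rfl⟩ := GRef_rep2 ms b1
      refine Or.inr ⟨4, P, b2, ⟨b4, Or.inr (Or.inr ⟨rfl, i, j, ?_⟩)⟩,
        fun _ => ⟨a, ha, h.twoTr h2 ha⟩⟩
      rw [b3, hb, ← Multiset.singleton_add]
      abel
  · obtain ⟨ms, P, b1, b2, b3, b4⟩ := GRef_compl o (fun l => l = 6 ∨ l = 8 ∨ l = 10)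
      (fun l hl => by omega) h0 hs0 (fun x hx => by
        have hx' : o ≠ x := fun e => hx (mem_singleton.2 e.symm)
        have e := h.four_le hN hx'
        have e' : (orb G o x).card ≠ 4 := fun e => h4 ⟨x, e⟩
        obtain ⟨k, hk⟩ := h.even o x hx'
        refine ⟨Multiset.replicate (k / 3 - 1) 6 + {6 + 2 * (k % 3)}, fun l hl => ?_, ?_⟩
        · rcases Multiset.mem_add.1 hl with p | p
          · exact Or.inl (Multiset.eq_of_mem_replicate p)
          · rw [Multiset.mem_singleton] at p
            omega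
        · simp only [Multiset.sum_add, Multiset.sum_replicate, smul_eq_mul, Multiset.sum_singleton]
          omega)
    obtain ⟨i, j, k, rfl⟩ := GRef_rep ms b1
    exact Or.inr ⟨3, P, b2, ⟨b4, Or.inl ⟨rfl, i, j, k, by rw [b3]; simp only [add_assoc]⟩⟩,
      fun e => by omega⟩

end Pool.Agent.Work.MP_66fdf3_co.BP
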