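import Pool.Agent.Work.MP_66fdf3_co.BP.GEasy
import Pool.Agent.Work.MP_66fdf3_co.BP.GBS

/-!
The stabiliser is a group of order a power of two.

Plan. `K = G_o` is nontrivial; `z` is a central involution of `K` (`IsPGroup.center_nontrivial`),
its centraliser is `K` (`Hyp.top`, `faith`).
`fix_unique`: let `z` move `b` with `|orb o b| = 4`. `D = G_o ⊓ G_b`, `N` its normaliser.
`E = N ⊓ G_o` contains `D` and `z`; `E' = N ⊓ G_b` is larger than `D` (normaliser condition), so both
have order at least `2 |D| = |K| / 2`. A subgroup of order at least `|K| / 2` fixes at most one point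
(`four_le`, `card_orb_mul`). A Sylow subgroup of `N` above `E` fixes a point (`two_fix`), which is
`o`, so it is `E`; the same for `E'`. So `E' = n E n⁻¹` with `n ∈ N`, `n • o = b`, and
`z' = n z n⁻¹` centralises `D` and moves `o`. The pointwise stabiliser `C` of `orb o b` in `K` is
normalised by `K` and `z'`, so it is trivial (`eq_bot`), `K` embeds in the permutations of four
points and `|K| ≤ 8`. If `z` fixes `c ≠ o`, then `G_o ⊓ G_c = {1, z}` and `|K| = 8`; a nontrivial
central element of `G_c` commutes with `z`, so it is `z`; then `G_c ≤ K`, against `exists_move`.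
Then `bp_inv` with `t a = g z g⁻¹`, `g • o = a`, and `two_fix_odd` for `zpowers (t b * t a) ≤ K`.
Otherwise `z` fixes `o` and all such `b`, and `baer` gives two disjoint sets of the same size.
-/

namespace Pool.Agent.Work.MP_66fdf3_co.BP

open Finset MulAction

variable {G Ω : Type*} [Group G] [MulAction G Ω] [Fintype G] [Fintype Ω] [DecidableEq Ω]

omit [Fintype G] in
theorem GTwo_inv [Finite G] {K : Subgroup G} (h2 : IsPGroup 2 K) (h1 : 1 < Nat.card K) :
    ∃ z ∈ K, z ≠ 1 ∧ z * z = 1 ∧ ∀ k ∈ K, k * z = z * k := by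
  have : Nontrivial K := Finite.one_lt_card_iff_nontrivial.1 h1
  have := h2.center_nontrivial
  obtain ⟨n, hn, e⟩ := (h2.to_subgroup (Subgroup.center K)).nontrivial_iff_card.1 inferInstance
  obtain ⟨z, hz⟩ := exists_prime_orderOf_dvd_card' (G := Subgroup.center K) 2
    (e ▸ dvd_pow_self 2 hn.ne')
  refine ⟨z.1.1, z.1.2, fun e => ?_, ?_, fun k hk => ?_⟩
  · rw [show z = 1 from Subtype.ext (Subtype.ext e), orderOf_one] at hz
    omega
  · have := pow_orderOf_eq_one z
    rw [hz, pow_two] at this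
    exact congrArg (fun u : Subgroup.center K => u.1.1) this
  · exact congrArg Subtype.val (Subgroup.mem_center_iff.1 z.2 ⟨k, hk⟩)

theorem GTwo_cent (h : Hyp G Ω) {o : Ω} {z : G} (hz : z • o = o) (h1 : z ≠ 1)
    (hc : ∀ k : G, k • o = o → k * z = z * k) {g : G} (hg : g * z = z * g) : g • o = o := by
  by_contra hx
  have e := h.top (x := o) (H := Subgroup.centralizer {z})
    (fun k hk => Subgroup.mem_centralizer_singleton_iff.2 (hc k hk))
    (Subgroup.mem_centralizer_singleton_iff.2 hg) hx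
  refine h1 (h.faith z fun x => ?_)
  obtain ⟨u, rfl⟩ := h.trans o x
  have : u * z = z * u := Subgroup.mem_centralizer_singleton_iff.1 (e ▸ Subgroup.mem_top u)
  rw [← mul_smul, ← this, mul_smul, hz]

theorem GTwo_eight (h : Hyp G Ω) {o b : Ω} (h2 : IsPGroup 2 (stabilizer G o))
    (h4 : (orb G o b).card = 4) {t : G} (ht : t • o ≠ o)
    (hc : ∀ k : G, k • b = b → k * t = t * k) : Nat.card (stabilizer G o) ≤ 8 := by
  let C : Subgroup G :=
    { carrier := {k | k • o = o ∧ ∀ y ∈ orb G o b, k • y = y}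
      one_mem' := ⟨one_smul _ _, fun _ _ => one_smul _ _⟩
      mul_mem' := fun {k l} hk hl => ⟨by rw [mul_smul, hl.1, hk.1], fun y hy => by
        rw [mul_smul, hl.2 y hy, hk.2 y hy]⟩
      inv_mem' := fun {k} hk => ⟨inv_smul_eq_iff.2 hk.1.symm, fun y hy =>
        inv_smul_eq_iff.2 (hk.2 y hy).symm⟩ }
  have hC : C = ⊥ := by
    refine h.eq_bot (x := o) (fun k hk => hk.1) (fun k hk l hl => ⟨?_, fun y hy => ?_⟩)
      (g := t) (fun l hl => ?_) ht
    · rw [mul_smul, mul_smul, inv_smul_eq_iff.2 hk.symm, hl.1, hk]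
    · obtain ⟨u, u1, u2⟩ := mem_orb.1 hy
      rw [mul_smul, mul_smul, hl.2 _ (mem_orb.2 ⟨k⁻¹ * u, ?_, by rw [mul_smul, u2]⟩),
        smul_inv_smul]
      rw [mul_smul, u1, inv_smul_eq_iff.2 hk.symm]
    · rw [← hc l (hl.2 b (self_mem_orb o b)), mul_inv_cancel_right]
      exact hl
  have hm : ∀ y, y ∈ orbit (stabilizer G o) b ↔ y ∈ orb G o b := fun y => by
    rw [mem_orb, mem_orbit_iff]
    exact ⟨fun ⟨g, hg⟩ => ⟨g.1, g.2, hg⟩, fun ⟨g, g1, g2⟩ => ⟨⟨g, g1⟩, g2⟩⟩
  have hcard : Nat.card (orbit (stabilizer G o) b) = 4 := by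
    rw [← h4, ← Fintype.card_coe, ← Nat.card_eq_fintype_card]
    exact Nat.card_congr (Equiv.subtypeEquivRight hm)
  have hinj : Function.Injective (toPermHom (stabilizer G o) (orbit (stabilizer G o) b)) := by
    refine (injective_iff_map_eq_one _).2 fun k hk => Subtype.ext ?_
    refine Subgroup.mem_bot.1 (hC ▸ (⟨k.2, fun y hy => ?_⟩ : k.1 ∈ C))
    exact congrArg Subtype.val (Equiv.congr_fun hk ⟨y, (hm y).2 hy⟩)
  have hd := Subgroup.card_dvd_of_injective _ hinj
  rw [Nat.card_perm, hcard] at hd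
  obtain ⟨n, hn⟩ := IsPGroup.iff_card.1 h2
  rw [hn] at hd ⊢
  rcases le_or_gt n 3 with h3 | h3
  · exact (Nat.pow_le_pow_right two_pos h3).trans (by norm_num)
  · exact absurd ((pow_dvd_pow 2 h3).trans hd) (by decide)

theorem Hyp.two_case (h : Hyp G Ω) (hN : NoFrob G Ω) (o : Ω) (h2 : IsPGroup 2 (stabilizer G o)) :
    BPm G o ∨ 2 * (1 + (univ.filter fun b => (orb G o b).card = 4).card) ≤ Fintype.card Ω := by
  classical
  have h2' : ∀ x : Ω, IsPGroup 2 (stabilizer G x) := fun x => by
    obtain ⟨n, hn⟩ := IsPGroup.iff_card.1 h2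
    exact IsPGroup.iff_card.2 ⟨n, (card_stab_eq h.trans x o).trans hn⟩
  have hK : 1 < Nat.card (stabilizer G o) := by
    obtain ⟨g, -, g1, x, -, -, gx, -⟩ := hN ⊤ fun x y =>
      (h.trans x y).imp fun g hg => ⟨Subgroup.mem_top g, hg⟩
    rw [card_stab_eq h.trans o x]
    exact Finite.one_lt_card_iff_nontrivial.2
      ⟨⟨⟨g, gx⟩, 1, fun e => g1 (congrArg Subtype.val e)⟩⟩
  obtain ⟨z, zo, z1, z2, zc⟩ := GTwo_inv h2 hK
  have zo : z • o = o := zo
  have zc' : ∀ g : G, g * z = z * g → g • o = o := fun g hg => GTwo_cent h zo z1 zc hg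
  choose n hn using h.trans o
  let t : Ω → G := fun a => n a * z * (n a)⁻¹
  have t1 : ∀ a, t a ≠ 1 := fun a e => z1 (by simpa [t] using e)
  have t2 : ∀ a, t a * t a = 1 := fun a => by
    simp only [t, conj_mul, z2, mul_one, mul_inv_cancel]
  have tf : ∀ a x : Ω, t a • x = x ↔ z • (n a)⁻¹ • x = (n a)⁻¹ • x := fun a x => by
    simp only [t, mul_smul]
    exact eq_inv_smul_iff.symm
  have ta : ∀ a, t a • a = a := fun a => by
    rw [tf, inv_smul_eq_iff.2 (hn a).symm, zo]
  have tc : ∀ a (k : G), k • a = a → k * t a = t a * k := fun a k hk => by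
    have := zc ((n a)⁻¹ * k * n a) (by
      rw [mem_stabilizer_iff, mul_smul, mul_smul, hn, hk, inv_smul_eq_iff, hn])
    calc k * t a = n a * ((n a)⁻¹ * k * n a * z) * (n a)⁻¹ := by simp only [t]; group
      _ = t a * k := by rw [this]; simp only [t]; group
  have tc' : ∀ a (k : G), k * t a = t a * k → k • a = a := fun a k hk =>
    GTwo_cent h (ta a) (t1 a) (tc a) hk
  by_cases hb : ∃ b, (orb G o b).card = 4 ∧ z • b ≠ b
  · left
    obtain ⟨b, b4, bz⟩ := hb
    have h8 := GTwo_eight h h2 b4 (t := t b) (fun e => bz (tc' b z (zc _ e).symm)) (tc b)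
    have hfix : ∀ c, z • c = c → c = o := fun c hc => by
      by_contra hco
      have e1 := card_orb_mul (G := G) o c
      have e2 := h.four_le hN (Ne.symm hco)
      have e3 : Nat.card (stabilizer G o ⊓ stabilizer G c : Subgroup G) ≤ 2 := by nlinarith
      have e4 : t c = z := by
        by_contra e
        have s3 : ({1, z, t c} : Set G).ncard = 3 :=
          Set.ncard_eq_three.2 ⟨_, _, _, z1.symm, (t1 c).symm, Ne.symm e, rfl⟩
        have : ({1, z, t c} : Set G).ncard ≤
            ((stabilizer G o ⊓ stabilizer G c : Subgroup G) : Set G).ncard := by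
          refine Set.ncard_le_ncard ?_
          rintro _ (rfl | rfl | rfl)
          · exact Subgroup.one_mem _
          · exact ⟨zo, hc⟩
          · exact ⟨zc' _ (tc c z hc).symm, ta c⟩
        rw [s3, ← Nat.card_coe_set_eq] at this
        exact absurd (this.trans e3) (by norm_num)
      obtain ⟨g, g1, g2⟩ := h.exists_move hco
      exact g2 (zc' g (e4 ▸ tc c g g1))
    refine bp_inv h.trans o t (fun a _ => t2 a) (fun a _ x => ⟨fun e => ?_, fun e => e ▸ ta x⟩)
      fun a b _ _ e => ?_
    · rw [← hn a]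
      exact inv_smul_eq_iff.1 (hfix _ ((tf a x).1 e))
    · refine two_fix_odd h.odd (H := Subgroup.zpowers (t b * t a))
        (h2.to_le ((Subgroup.zpowers_le).2 e)) fun x => ?_
      rw [mem_filter]
      exact ⟨fun hx g hg => (Subgroup.zpowers_le (H := stabilizer G x)).2 hx.2 hg,
        fun hx => ⟨mem_univ _, hx _ (Subgroup.mem_zpowers _)⟩⟩
  · right
    push Not at hb
    obtain ⟨g, hg⟩ := h.baer h2' zo z1
    let A : Finset Ω := insert o (univ.filter fun b => (orb G o b).card = 4)
    have a1 : A.card = 1 + (univ.filter fun b => (orb G o b).card = 4).card := by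
      rw [card_insert_of_notMem (by simp [orb_self]), add_comm]
    have a2 : ∀ x ∈ A, z • x = x := fun x hx => by
      rcases mem_insert.1 hx with rfl | hx
      · exact zo
      · exact hb x (mem_filter.1 hx).2
    have a3 : Disjoint A (A.image fun x => g • x) := by
      refine disjoint_left.2 fun x hx hx' => ?_
      obtain ⟨y, hy, rfl⟩ := mem_image.1 hx'
      exact hg _ (a2 _ hx) (by rw [mul_smul, mul_smul, inv_smul_smul, a2 y hy])
    have a4 := card_le_univ (A ∪ A.image fun x => g • x)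
    rw [card_union_of_disjoint a3, card_image_of_injective _ (MulAction.injective g), a1] at a4
    omega

end Pool.Agent.Work.MP_66fdf3_co.BP
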