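import Pool.Agent.Work.MP_66fdf3_co.BP.GfA
import Pool.Agent.Work.MP_66fdf3_co.BP.SpecQ

/-!
The level masses for a partition.

Plan. Write `Q = Qp P`, `f = ind`. `PiS S * tens Q = tens (Q - E0 on S, E0 off S)` is a `Proj`, so
the mass is `⟨f, tens (..) f⟩`. Expand over `T ⊆ S` entrywise (`Finset.prod_sub`, or
`Finset.prod_add`): `∑ T ⊆ S, (-1) ^ |S \ T| ⟨f, tens (Q on T, E0 off T) f⟩`.
`form_T`: `⟨f, tens (Q on T, E0 off T) f⟩ = ∑ x y bijective, ...`. It is easier to sum over `S` or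
`T` first: substituting `i ↦ x⁻¹ i` shows that the sum over all `T` of size `j` is
`m! * m⁻¹ ^ (m - j) * ∑ |T| = j, ∑ σ bijective, ∏ i ∈ T, Q i (σ i)`. By `sum_bij` and `inj_prod` the
inner sum is `(m - j)! * ∏ p ∈ parts, descFactorial |p| |T ∩ p| / |p| ^ |T ∩ p|`.
`inj_prod`: induction on `T` with `inj_insert`: `∑ v, Q b v = 1`, and
`Q b v * Q c v` is `Q c v / |p|` if `b, c` lie in the same part `p`, else `0`.
`sum_T`: `∑ T, X ^ |T| * ∏ p, h p |T ∩ p| = ∏ p, ∑ i, choose |p| i * h p i * X ^ i`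
(induction on a finite family of disjoint sets, `Finset.powerset_union`-like bijection, or
`Finset.prod_sum`). The number of `S ⊇ T` with `|S| = l` is `choose (m - j) (l - j)`.
-/

namespace Pool.Agent.Work.MP_66fdf3_co.BP

open Finset Matrix

variable {Ω : Type*} [Fintype Ω] [DecidableEq Ω]

/-- Elementary symmetric functions. -/
noncomputable def Gf_es (j : ℕ) (a : Ω → ℂ) : ℂ := ∑ T ∈ powersetCard j univ, ∏ i ∈ T, a i

theorem Gf_shift (a : Ω → ℂ) (c : ℂ) (l : ℕ) : Gf_es l (fun i => a i + c) =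
    ∑ j ∈ range (l + 1), ((Fintype.card Ω - j).choose (l - j) : ℂ) * c ^ (l - j) * Gf_es j a := by
  have h1 : ∀ S ∈ powersetCard l (univ : Finset Ω), ∏ i ∈ S, (a i + c) =
      ∑ j ∈ range (l + 1), ∑ T ∈ powersetCard j S, c ^ (l - j) * ∏ i ∈ T, a i := by
    intro S hS
    have hS' := (mem_powersetCard.1 hS).2
    rw [prod_add, sum_powerset, hS']
    refine sum_congr rfl fun j _ => sum_congr rfl fun T hT => ?_
    obtain ⟨h2, h3⟩ := mem_powersetCard.1 hT
    rw [prod_const, card_sdiff_of_subset h2, hS', h3, mul_comm]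
  unfold Gf_es
  rw [sum_congr rfl h1, sum_comm]
  refine sum_congr rfl fun j hj => ?_
  rw [sum_comm' (t' := powersetCard j univ)
    (s' := fun T => (powersetCard l univ).filter fun S => T ⊆ S) fun S T => by
      simp only [mem_powersetCard, mem_filter, subset_univ, true_and]
      tauto, mul_sum]
  refine sum_congr rfl fun T hT => ?_
  have h3 := (mem_powersetCard.1 hT).2
  rw [sum_const, card_filter_powersetCard_subset _ _ _ (subset_univ T)
    (by have := mem_range.1 hj; omega), h3, card_univ, nsmul_eq_mul, mul_assoc]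

omit [DecidableEq Ω] in
theorem Gf_perm (j : ℕ) (a : Ω → ℂ) (e : Ω ≃ Ω) : Gf_es j (fun i => a (e i)) = Gf_es j a := by
  unfold Gf_es
  refine sum_equiv e.finsetCongr (fun T => ?_) fun T _ => ?_
  · simp [mem_powersetCard]
  · simp

theorem Gf_card : (univ.filter fun x : Ω → Ω => Function.Bijective x).card =
    (Fintype.card Ω).factorial := by
  rw [← Fintype.card_perm, ← card_univ, eq_comm]
  exact card_nbij (fun e : Equiv.Perm Ω => (e : Ω → Ω)) (fun e _ => by simp)
    (fun _ _ _ _ e => DFunLike.coe_injective e)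
    fun x hx => ⟨Equiv.ofBijective x (by simpa using hx), by simp, rfl⟩

theorem Gf_two (A : Matrix Ω Ω ℂ) (j : ℕ) :
    ∑ x ∈ univ.filter fun x : Ω → Ω => Function.Bijective x,
      ∑ y ∈ univ.filter fun y : Ω → Ω => Function.Bijective y, Gf_es j (fun i => A (x i) (y i)) =
    (Fintype.card Ω).factorial * ∑ y ∈ univ.filter fun y : Ω → Ω => Function.Bijective y,
      Gf_es j fun i => A i (y i) := by
  rw [← Gf_card, ← nsmul_eq_mul, ← sum_const]
  refine sum_congr rfl fun x hx => ?_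
  let e := Equiv.ofBijective x (mem_filter.1 hx).2
  refine sum_nbij' (fun y => y ∘ e.symm) (fun y => y ∘ e) (fun y hy => ?_) (fun y hy => ?_)
    (fun y _ => ?_) (fun y _ => ?_) fun y _ => ?_
  · exact mem_filter.2 ⟨mem_univ _, (mem_filter.1 hy).2.comp e.symm.bijective⟩
  · exact mem_filter.2 ⟨mem_univ _, (mem_filter.1 hy).2.comp e.bijective⟩
  · funext i; simp
  · funext i; simp
  · rw [← Gf_perm j (fun i => A i ((y ∘ e.symm) i)) e]
    simp only [Function.comp_apply, Equiv.symm_apply_apply]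
    rfl

theorem Gf_one (P : Finpartition (univ : Finset Ω)) (j : ℕ) :
    (∑ y ∈ univ.filter fun y : Ω → Ω => Function.Bijective y, Gf_es j fun i => Qp P i (y i)) *
      (Fintype.card Ω : ℂ) ^ j * (((sizes P).map fun k => k ^ k).prod : ℕ) =
    (Fintype.card Ω - j).factorial *
      (((sizes P).map (Lz (Fintype.card Ω))).prod.coeff j : ℕ) := by
  rw [← sum_T, ← mul_assoc, ← mul_assoc]
  congr 2
  unfold Gf_es
  rw [sum_comm, mul_sum]
  refine sum_congr rfl fun T hT => ?_
  have h1 := sum_bij T (fun w => ∏ i ∈ T, Qp P i (w i)) fun w b v hb =>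
    prod_congr rfl fun i hi => by rw [Function.update_of_ne (by rintro rfl; exact hb hi)]
  rw [inj_prod, (mem_powersetCard.1 hT).2, nsmul_eq_mul, nsmul_eq_mul, mul_left_comm] at h1
  push_cast at h1
  refine mul_left_cancel₀ ?_ h1
  rcases Nat.eq_zero_or_pos (Fintype.card Ω) with h | h
  · simp [h]
  · exact pow_ne_zero _ (by exact_mod_cast h.ne')

theorem Gf_dot (A : Matrix (Ω → Ω) (Ω → Ω) ℂ) : star (ind Ω) ⬝ᵥ (A *ᵥ ind Ω) =
    ∑ x ∈ univ.filter fun x : Ω → Ω => Function.Bijective x,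
      ∑ y ∈ univ.filter fun y : Ω → Ω => Function.Bijective y, A x y := by
  simp only [dotProduct, mulVec, sum_filter]
  refine sum_congr rfl fun x _ => ?_
  simp [ind]

theorem Gf_S (P : Finpartition (univ : Finset Ω)) (S : Finset Ω) :
    (nsq ((PiS Ω S * tens fun _ : Ω => Qp P) *ᵥ ind Ω) : ℂ) =
    ∑ x ∈ univ.filter fun x : Ω → Ω => Function.Bijective x,
      ∑ y ∈ univ.filter fun y : Ω → Ω => Function.Bijective y,
        (Fintype.card Ω : ℂ)⁻¹ ^ (Fintype.card Ω - S.card) *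
          ∏ i ∈ S, (Qp P (x i) (y i) + -(Fintype.card Ω : ℂ)⁻¹) := by
  have h1 : Proj (PiS Ω S * tens fun _ : Ω => Qp P) := by
    unfold PiS
    rw [tens_mul]
    refine Proj.tens fun i => ?_
    split_ifs
    · refine proj_E0.one_sub.mul (proj_Qp P) ?_
      rw [sub_mul, mul_sub, E0_mul_Qp, Qp_mul_E0, one_mul, mul_one]
    · exact proj_E0.mul (proj_Qp P) (by rw [E0_mul_Qp, Qp_mul_E0])
  rw [h1.nsq_eq, Gf_dot]
  refine sum_congr rfl fun x _ => sum_congr rfl fun y _ => ?_
  unfold PiS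
  rw [tens_mul]
  simp only [tens, Matrix.of_apply, ite_mul, sub_mul, one_mul, E0_mul_Qp]
  rw [← prod_mul_prod_compl S, mul_comm]
  congr 1
  · rw [← card_compl, ← prod_const]
    exact prod_congr rfl fun i hi => by rw [if_neg (mem_compl.1 hi)]; rfl
  · exact prod_congr rfl fun i hi => by rw [if_pos hi, sub_eq_add_neg]; rfl

theorem gf_part (P : Finpartition (univ : Finset Ω)) {l : ℕ} (hl : l ≤ Fintype.card Ω) :
    cN (Fintype.card Ω) * ∑ S ∈ powersetCard l univ,
      nsq ((PiS Ω S * tens fun _ : Ω => Qp P) *ᵥ ind Ω) = Bf (Fintype.card Ω) (sizes P) l := by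
  apply Complex.ofReal_injective
  have h1 : ∑ S ∈ powersetCard l univ,
      (nsq ((PiS Ω S * tens fun _ : Ω => Qp P) *ᵥ ind Ω) : ℂ) =
      ∑ j ∈ range (l + 1), (Fintype.card Ω : ℂ)⁻¹ ^ (Fintype.card Ω - l) *
        (((Fintype.card Ω - j).choose (l - j) : ℂ) * (-(Fintype.card Ω : ℂ)⁻¹) ^ (l - j)) *
        ((Fintype.card Ω).factorial * ∑ y ∈ univ.filter fun y : Ω → Ω => Function.Bijective y,
          Gf_es j fun i => Qp P i (y i)) := by
    simp only [← Gf_two]
    simp only [mul_sum]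
    rw [sum_congr rfl fun S hS => by rw [Gf_S, (mem_powersetCard.1 hS).2], sum_comm,
      sum_comm (s := range (l + 1))]
    refine sum_congr rfl fun x _ => ?_
    rw [sum_comm, sum_comm (s := range (l + 1))]
    refine sum_congr rfl fun y _ => ?_
    have h2 := Gf_shift (fun i => Qp P (x i) (y i)) (-(Fintype.card Ω : ℂ)⁻¹) l
    simp only [mul_assoc] at h2 ⊢
    rw [← mul_sum, ← mul_sum, ← h2]
    rfl
  have hK : ((((sizes P).map fun k => k ^ k).prod : ℕ) : ℂ) ≠ 0 := by
    refine Nat.cast_ne_zero.2 (Multiset.prod_ne_zero fun h => ?_)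
    obtain ⟨k, -, hk⟩ := Multiset.mem_map.1 h
    rcases Nat.eq_zero_or_pos k with h0 | h0
    · simp [h0] at hk
    · exact absurd hk (pow_pos h0 k).ne'
  have hf : ((Fintype.card Ω).factorial : ℂ) ≠ 0 := by exact_mod_cast (Nat.factorial_pos _).ne'
  unfold Bf cN
  rw [Complex.ofReal_mul, Complex.ofReal_sum, h1]
  simp only [Complex.ofReal_div, Complex.ofReal_sum, Complex.ofReal_mul, Complex.ofReal_pow,
    Complex.ofReal_natCast, Complex.ofReal_neg, Complex.ofReal_one]
  rw [mul_sum, sum_div]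
  refine sum_congr rfl fun j hj => ?_
  have h3 : (Fintype.card Ω : ℂ) ^ Fintype.card Ω * (Fintype.card Ω : ℂ)⁻¹ ^ (Fintype.card Ω - l) *
      (Fintype.card Ω : ℂ)⁻¹ ^ (l - j) = (Fintype.card Ω : ℂ) ^ j := by
    have := mem_range.1 hj
    rcases Nat.eq_zero_or_pos (Fintype.card Ω) with h | h
    · obtain rfl : l = 0 := by omega
      obtain rfl : j = 0 := by omega
      simp [h]
    · have h4 : (Fintype.card Ω : ℂ) ≠ 0 := by exact_mod_cast h.ne'
      have h5 : (Fintype.card Ω : ℂ) ^ Fintype.card Ω = (Fintype.card Ω : ℂ) ^ j *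
          (Fintype.card Ω : ℂ) ^ (Fintype.card Ω - l) * (Fintype.card Ω : ℂ) ^ (l - j) := by
        rw [← pow_add, ← pow_add]
        congr 1
        omega
      rw [h5, inv_pow, inv_pow]
      field_simp
  rw [mul_assoc _ ((Fintype.card Ω - j).factorial : ℂ), ← Gf_one, ← h3, neg_pow]
  field_simp

end Pool.Agent.Work.MP_66fdf3_co.BP
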