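import Pool.Agent.Work.MP_66fdf3_co.BP.Inj

/-!
The level masses for a partition.

Plan. Write `Q = Qp P`, `f = ind`. `PiS S * tens Q = tens (Q - E0 on S, E0 off S)` is a `Proj`, so
the mass is `⟨f, tens (..) f⟩`. Expand over `T ⊆ S` entrywise (`Finset.prod_sub`, or
`Finset.prod_add`): `∑ T ⊆ S, (-1) ^ |S \ T| ⟨f, tens (Q on T, E0 off T) f⟩`.
`form_T`: `⟨f, tens (Q on T, E0 off T) f⟩ = ∑ x y bijective, ...`. It is easier to sum over `S` or
`T` first: substituting `i ↦ x⁻¹ i` shows that the sum over all `T` of size `j` is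
`m! * m⁻¹ ^ (m - j) * ∑ |T| = j, ∑ σ bijective, ∏ i ∈ T, Q i (σ i)`. By `sum_bij` and `inj_prod` the
inner sum is `(m - j)! * ∏ p ∈ parts, descFactorial |p| |T ∩ p| / |p| ^ |T ∩ p|`.
`inj_prod`: induction on `T` with `inj_insert`: `∑ v, Q b v = 1`, and
`Q b v * Q c v` is `Q c v / |p|` if `b, c` lie in the same part `p`, else `0`.
`sum_T`: `∑ T, X ^ |T| * ∏ p, h p |T ∩ p| = ∏ p, ∑ i, choose |p| i * h p i * X ^ i`
(induction on a finite family of disjoint sets, `Finset.powerset_union`-like bijection, or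
`Finset.prod_sum`). The number of `S ⊇ T` with `|S| = l` is `choose (m - j) (l - j)`.
-/

namespace Pool.Agent.Work.MP_66fdf3_co.BP

open Finset Matrix

variable {Ω : Type*} [Fintype Ω] [DecidableEq Ω]

theorem GfA_pos (P : Finpartition (univ : Finset Ω)) (b : Ω) : ((P.part b).card : ℂ) ≠ 0 := by
  exact_mod_cast (card_pos.2 ⟨b, P.mem_part_self.2 (mem_univ b)⟩).ne'

theorem GfA_row (P : Finpartition (univ : Finset Ω)) (b : Ω) : ∑ v, Qp P b v = 1 := by
  simp only [Qp, Matrix.of_apply]
  rw [← sum_filter, filter_mem_eq_inter, univ_inter, sum_const, nsmul_eq_mul,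
    mul_inv_cancel₀ (GfA_pos P b)]

theorem GfA_mul (P : Finpartition (univ : Finset Ω)) (b c v : Ω) : Qp P b v * Qp P c v =
    (if c ∈ P.part b then ((P.part b).card : ℂ)⁻¹ else 0) * Qp P c v := by
  simp only [Qp, Matrix.of_apply, P.mem_part_iff_part_eq_part (mem_univ _) (mem_univ _)]
  by_cases h : P.part v = P.part c
  · rw [h]
  · rw [if_neg h, mul_zero, mul_zero]

theorem inj_prod (P : Finpartition (univ : Finset Ω)) (T : Finset Ω) :
    ∑ w ∈ injs Ω T, ∏ i ∈ T, Qp P i (w i) =
      (Fintype.card Ω : ℂ) ^ (Fintype.card Ω - T.card) * ∏ p ∈ P.parts,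
        (p.card.descFactorial (T ∩ p).card : ℂ) / (p.card : ℂ) ^ (T ∩ p).card := by
  induction T using Finset.induction_on with
  | empty => simp [injs]
  | insert b Λ hb ih =>
    have h1 := inj_insert (X := Ω) hb (fun w v => Qp P b v * ∏ i ∈ Λ, Qp P i (w i))
      (fun w v v' => by
        congr 1
        exact prod_congr rfl fun i hi => by
          rw [Function.update_of_ne (by rintro rfl; exact hb hi)])
    have h2 : ∀ c ∈ Λ, ∑ w ∈ injs Ω Λ, Qp P b (w c) * ∏ i ∈ Λ, Qp P i (w i) =
        (if c ∈ P.part b then ((P.part b).card : ℂ)⁻¹ else 0) *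
          ∑ w ∈ injs Ω Λ, ∏ i ∈ Λ, Qp P i (w i) := by
      intro c hc
      rw [mul_sum]
      refine sum_congr rfl fun w _ => ?_
      rw [← mul_prod_erase Λ _ hc, ← mul_assoc, GfA_mul, mul_assoc]
    simp only [← sum_mul, GfA_row, one_mul] at h1
    rw [sum_congr rfl h2, ← sum_mul, ← sum_filter, filter_mem_eq_inter, sum_const, nsmul_eq_mul,
      nsmul_eq_mul, ih] at h1
    have hm : (Fintype.card Ω : ℂ) ≠ 0 := by
      have : Nonempty Ω := ⟨b⟩
      exact_mod_cast Fintype.card_ne_zero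
    have h3 : Λ.card + 1 ≤ Fintype.card Ω := by
      rw [← card_insert_of_notMem hb]
      exact card_le_univ _
    have hp : P.part b ∈ P.parts := P.part_mem.2 (mem_univ b)
    have hbp : b ∈ P.part b := P.mem_part_self.2 (mem_univ b)
    have h4 : (insert b Λ ∩ P.part b).card = (Λ ∩ P.part b).card + 1 := by
      rw [insert_inter_of_mem hbp, card_insert_of_notMem fun h => hb (mem_inter.1 h).1]
    have h5 : ∏ p ∈ P.parts.erase (P.part b),
        (p.card.descFactorial (insert b Λ ∩ p).card : ℂ) / (p.card : ℂ) ^ (insert b Λ ∩ p).card =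
        ∏ p ∈ P.parts.erase (P.part b),
          (p.card.descFactorial (Λ ∩ p).card : ℂ) / (p.card : ℂ) ^ (Λ ∩ p).card := by
      refine prod_congr rfl fun p h => ?_
      rw [insert_inter_of_notMem fun h' =>
        (mem_erase.1 h).1 (P.part_eq_of_mem (mem_erase.1 h).2 h').symm]
    have h6 : (Λ ∩ P.part b).card ≤ (P.part b).card := card_le_card inter_subset_right
    have h7 : Fintype.card Ω - Λ.card = Fintype.card Ω - (Λ.card + 1) + 1 := by omega
    have h8 := GfA_pos P b
    apply mul_left_cancel₀ hm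
    simp only [prod_insert hb]
    rw [h1, ← mul_prod_erase _ _ hp, ← mul_prod_erase _ _ hp, h5, h4, card_insert_of_notMem hb, h7,
      Nat.descFactorial_succ]
    push_cast [Nat.cast_sub h6]
    field_simp
    ring

omit [Fintype Ω] in
theorem GfA_split {M : Type*} [AddCommMonoid M] {a U : Finset Ω} (h : Disjoint a U)
    (F : Finset Ω → Finset Ω → M) : ∑ T ∈ (a ∪ U).powerset, F (T ∩ a) (T ∩ U) =
      ∑ t ∈ a.powerset, ∑ T ∈ U.powerset, F t T := by
  rw [← sum_product']
  have hd := disjoint_left.1 h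
  refine sum_nbij' (fun T => (T ∩ a, T ∩ U)) (fun x => x.1 ∪ x.2) (fun T _ => ?_) (fun x hx => ?_)
    (fun T hT => ?_) (fun x hx => ?_) fun T _ => rfl
  · simp
  · simp only [mem_product, mem_powerset] at hx ⊢
    exact union_subset_union hx.1 hx.2
  · simp only [mem_powerset] at hT
    simp only [← inter_union_distrib_left]
    exact inter_eq_left.2 hT
  · simp only [mem_product, mem_powerset] at hx
    have h1 := subset_iff.1 hx.1
    have h2 := subset_iff.1 hx.2
    refine Prod.ext ?_ ?_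
    · ext y
      simp only [mem_inter, mem_union]
      exact ⟨fun hy => hy.1.elim id fun h' => absurd (h2 h') (hd hy.2), fun hy => ⟨.inl hy, h1 hy⟩⟩
    · ext y
      simp only [mem_inter, mem_union]
      exact ⟨fun hy => hy.1.elim (fun h' => absurd hy.2 (hd (h1 h'))) id,
        fun hy => ⟨.inr hy, h2 hy⟩⟩

omit [Fintype Ω] in
theorem GfA_prod {R : Type*} [CommSemiring R] (f : Finset Ω → Finset Ω → R)
    (s : Finset (Finset Ω)) (hs : ∀ p ∈ s, ∀ q ∈ s, p ≠ q → Disjoint p q) :
    ∑ T ∈ (s.biUnion id).powerset, ∏ p ∈ s, f p (T ∩ p) = ∏ p ∈ s, ∑ t ∈ p.powerset, f p t := by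
  induction s using Finset.induction_on with
  | empty => simp
  | insert a s ha ih =>
    have hd : Disjoint a (s.biUnion id) := by
      rw [disjoint_biUnion_right]
      exact fun q hq => hs a (mem_insert_self _ _) q (mem_insert_of_mem hq)
        (by rintro rfl; exact ha hq)
    rw [biUnion_insert, prod_insert ha,
      ← ih fun p hp q hq => hs p (mem_insert_of_mem hp) q (mem_insert_of_mem hq), sum_mul_sum,
      ← GfA_split hd fun t T => f a t * ∏ p ∈ s, f p (T ∩ p)]
    refine sum_congr rfl fun T _ => ?_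
    rw [prod_insert ha]
    congr 1
    refine prod_congr rfl fun p hp => ?_
    have h1 : p ⊆ s.biUnion id := subset_biUnion_of_mem id hp
    rw [inter_assoc, inter_eq_right.2 h1]

theorem GfA_card (P : Finpartition (univ : Finset Ω)) (T : Finset Ω) :
    ∑ p ∈ P.parts, (T ∩ p).card = T.card := by
  rw [card_eq_sum_card_fiberwise (f := P.part) (s := T) (t := P.parts)
    fun x _ => P.part_mem.2 (mem_univ x)]
  refine sum_congr rfl fun p hp => ?_
  congr 1
  ext x
  simp [P.part_eq_iff_mem hp]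

omit [Fintype Ω] [DecidableEq Ω] in
theorem GfA_Lz (m : ℕ) {p : Finset Ω} (hp : p.Nonempty) : (Lz m p.card).map (Nat.castRingHom ℂ) =
    ∑ t ∈ p.powerset, Polynomial.C ((p.card.descFactorial t.card : ℂ) / (p.card : ℂ) ^ t.card *
      (m : ℂ) ^ t.card * (p.card : ℂ) ^ p.card) * Polynomial.X ^ t.card := by
  rw [sum_powerset_apply_card fun c => Polynomial.C ((p.card.descFactorial c : ℂ) /
    (p.card : ℂ) ^ c * (m : ℂ) ^ c * (p.card : ℂ) ^ p.card) * Polynomial.X ^ c]
  unfold Lz
  rw [Polynomial.map_sum]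
  refine sum_congr rfl fun c hc => ?_
  rw [Polynomial.map_monomial, Polynomial.C_mul_X_pow_eq_monomial, Polynomial.smul_monomial]
  congr 1
  have h1 : (p.card : ℂ) ≠ 0 := by exact_mod_cast (card_pos.2 hp).ne'
  obtain ⟨r, hr⟩ : ∃ r, p.card = c + r := ⟨p.card - c, by have := mem_range.1 hc; omega⟩
  have h2 : p.card - c = r := by omega
  have h3 : (p.card : ℂ) ^ p.card = (p.card : ℂ) ^ c * (p.card : ℂ) ^ r := by
    rw [← pow_add, ← hr]
  rw [h2, h3, Nat.descFactorial_eq_factorial_mul_choose, nsmul_eq_mul, eq_natCast]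
  push_cast
  field_simp

theorem sum_T (P : Finpartition (univ : Finset Ω)) (m j : ℕ) :
    (∑ T ∈ powersetCard j (univ : Finset Ω), ∏ p ∈ P.parts,
        (p.card.descFactorial (T ∩ p).card : ℂ) / (p.card : ℂ) ^ (T ∩ p).card) *
      (m : ℂ) ^ j * (((sizes P).map fun k => k ^ k).prod : ℕ) =
      (((sizes P).map (Lz m)).prod.coeff j : ℕ) := by
  have h1 : ((((sizes P).map (Lz m)).prod.coeff j : ℕ) : ℂ) =
      (∏ p ∈ P.parts, (Lz m p.card).map (Nat.castRingHom ℂ)).coeff j := by
    rw [← Polynomial.map_prod, Polynomial.coeff_map, eq_natCast, sizes, Multiset.map_map]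
    rfl
  have h2 : ((((sizes P).map fun k => k ^ k).prod : ℕ) : ℂ) =
      ∏ p ∈ P.parts, (p.card : ℂ) ^ p.card := by
    rw [sizes, Multiset.map_map]
    exact_mod_cast rfl
  rw [h1, h2, prod_congr rfl fun p hp => GfA_Lz m (P.nonempty_of_mem_parts hp),
    ← GfA_prod _ _ fun p hp q hq h => P.disjoint hp hq h, P.biUnion_parts,
    Polynomial.finsetSum_coeff, sum_mul, sum_mul, powersetCard_eq_filter, sum_filter]
  refine sum_congr rfl fun T _ => ?_
  rw [prod_mul_distrib, prod_pow_eq_pow_sum, GfA_card, ← map_prod, Polynomial.coeff_C_mul_X_pow,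
    prod_mul_distrib, prod_mul_distrib, prod_pow_eq_pow_sum, GfA_card]
  by_cases h : T.card = j
  · rw [if_pos h, if_pos h.symm, h]
  · rw [if_neg h, if_neg fun h' => h h'.symm]

end Pool.Agent.Work.MP_66fdf3_co.BP
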