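import Pool.Agent.Work.MP_66fdf3_co.BP.Tens

/-!
Sums over functions that are injective on a set.

Plan. `sum_update`: the map `(w, v) ↦ (update w b v, w b)` is an involution of `(ι → X) × X`.
`inj_insert`: apply `sum_update` to the left side; for `w` injective on `Λ`, `update w b v` is
injective on `insert b Λ` iff `v ∉ w '' Λ`, and the sum over `v ∈ w '' Λ` is the sum over `c ∈ Λ`.
`sum_bij`: induction on the complement of `S` with `inj_insert` (the function does not depend on the
new coordinate); at the end injective on `univ` means bijective.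
-/

namespace Pool.Agent.Work.MP_66fdf3_co.BP

open Finset Matrix

variable {ι X M : Type*} [Fintype ι] [DecidableEq ι] [Fintype X] [DecidableEq X]

omit [DecidableEq X] in
theorem sum_update [AddCommMonoid M] (b : ι) (F : (ι → X) → M) :
    Fintype.card X • ∑ w, F w = ∑ w, ∑ v, F (Function.update w b v) := by
  have hi : Function.Involutive fun p : (ι → X) × X => (Function.update p.1 b p.2, p.1 b) :=
    fun p => by simp
  rw [← Fintype.sum_prod_type' fun w v => F (Function.update w b v), smul_sum]
  have := Equiv.sum_comp hi.toPerm fun p => F p.1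
  rw [Fintype.sum_prod_type fun p : (ι → X) × X => F p.1] at this
  simpa using this.symm

/-- Functions injective on `Λ`. -/
def injs (X : Type*) [Fintype X] [DecidableEq X] (Λ : Finset ι) : Finset (ι → X) :=
  univ.filter fun w => ∀ i ∈ Λ, ∀ j ∈ Λ, w i = w j → i = j

omit [Fintype ι] [Fintype X] in
theorem Inj_iff {Λ : Finset ι} {b : ι} (hb : b ∉ Λ) (w : ι → X) (v : X) :
    (∀ i ∈ insert b Λ, ∀ j ∈ insert b Λ,
      Function.update w b v i = Function.update w b v j → i = j) ↔
      (∀ i ∈ Λ, ∀ j ∈ Λ, w i = w j → i = j) ∧ v ∉ Λ.image w := by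
  have hu : ∀ i ∈ Λ, Function.update w b v i = w i := fun i hi =>
    Function.update_of_ne (fun e : i = b => hb (e ▸ hi)) _ _
  constructor
  · intro h
    refine ⟨fun i hi j hj e => h i (mem_insert_of_mem hi) j (mem_insert_of_mem hj)
      (by rw [hu i hi, hu j hj, e]), fun hv => ?_⟩
    obtain ⟨c, hc, e⟩ := mem_image.1 hv
    exact hb (h c (mem_insert_of_mem hc) b (mem_insert_self _ _)
      (by rw [hu c hc, Function.update_self, e]) ▸ hc)
  · rintro ⟨h1, h2⟩ i hi j hj e
    rcases mem_insert.1 hi with a | a <;> rcases mem_insert.1 hj with c | c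
    · rw [a, c]
    · rw [a, Function.update_self, hu j c] at e
      exact absurd (mem_image.2 ⟨j, c, e.symm⟩) h2
    · rw [c, Function.update_self, hu i a] at e
      exact absurd (mem_image.2 ⟨i, a, e⟩) h2
    · rw [hu i a, hu j c] at e
      exact h1 i a j c e

theorem inj_insert [AddCommGroup M] {Λ : Finset ι} {b : ι} (hb : b ∉ Λ) (F : (ι → X) → X → M)
    (hF : ∀ w v v', F (Function.update w b v) v' = F w v') :
    Fintype.card X • ∑ w ∈ injs X (insert b Λ), F w (w b) =
      ∑ w ∈ injs X Λ, ∑ v, F w v - ∑ c ∈ Λ, ∑ w ∈ injs X Λ, F w (w c) := by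
  rw [sum_comm (s := Λ), ← sum_sub_distrib, injs, injs, sum_filter, sum_filter, sum_update b]
  refine sum_congr rfl fun w _ => ?_
  simp only [Inj_iff hb, hF, Function.update_self]
  split_ifs with h
  · rw [← sum_image (s := Λ) (g := w) (f := F w) fun i hi j hj e => h i hi j hj e,
      eq_sub_iff_add_eq, ← sum_filter_add_sum_filter_not univ (fun v => v ∉ Λ.image w) (F w),
      sum_filter]
    congr 1
    · exact sum_congr rfl fun v _ => if_congr (and_iff_right h) rfl rfl
    · exact sum_congr (by ext v; simp only [mem_filter, mem_univ, true_and, not_not]) fun _ _ => rfl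
  · exact sum_eq_zero fun v _ => if_neg fun h' => h h'.1

theorem sum_bij [AddCommGroup M] (S : Finset X) (F : (X → X) → M)
    (hF : ∀ w b v, b ∉ S → F (Function.update w b v) = F w) :
    Fintype.card X ^ (Fintype.card X - S.card) •
        ∑ w ∈ univ.filter fun w : X → X => Function.Bijective w, F w =
      (Fintype.card X - S.card).factorial • ∑ w ∈ injs X S, F w := by
  generalize hk : Fintype.card X - S.card = k
  induction k generalizing S with
  | zero =>
    have : S = univ := eq_univ_of_card S (by have := card_le_univ S; omega)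
    subst this
    simp only [pow_zero, Nat.factorial_zero, injs, mem_univ, forall_true_left]
    congr 2
    ext w
    simp only [mem_filter, mem_univ, true_and]
    exact Finite.injective_iff_bijective.symm
  | succ k ih =>
    obtain ⟨b, -, hb⟩ := exists_mem_notMem_of_card_lt_card (s := S) (t := univ)
      (by rw [card_univ]; omega)
    have h1 := ih (insert b S) (fun w c v hc => hF w c v fun h => hc (mem_insert_of_mem h))
      (by rw [card_insert_of_notMem hb]; omega)
    have h2 := inj_insert (X := X) hb (fun w _ => F w) fun w v _ => hF w b v hb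
    simp only [sum_const, card_univ, ← smul_sum] at h2
    have h3 : Fintype.card X = k + 1 + S.card := by omega
    rw [pow_succ', mul_smul, h1, smul_comm, h2, Nat.factorial_succ, mul_comm, mul_smul]
    congr 1
    rw [sub_eq_iff_eq_add, ← add_smul, ← h3]

end Pool.Agent.Work.MP_66fdf3_co.BP
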