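import Pool.Agent.Work.MP_66fdf3_co.BP.Tens

/-!
Bases of projections, and the decomposition into minimal invariant projections.

Plan. `Proj.exists_basis`: take an orthonormal basis of the range of `P` in `EuclideanSpace ℂ X`
(`stdOrthonormalBasis`), `U` has these vectors as columns.
`proj_of_sub`: the orthogonal projection onto an invariant subspace is an invariant `Proj`
(`U * Uᴴ` for an orthonormal basis, or uniqueness of the orthogonal decomposition and `rho_conjT`).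
`exists_irr`: strong induction on the natural number `trace P` (or the rank). If `P = 0` take
`n = 0`. Otherwise take a minimal nonzero invariant subspace `W` of the range of `P`, `F` its
projection, `F * P = F = P * F`, recurse with `P - F`. Schur: for invariant `A` the map `F * A * F`
preserves `W` and has an eigenvector there (`Module.End.exists_eigenvalue` for the restriction);
the eigenspace in `W` is invariant and nonzero, so it is `W`.
-/

namespace Pool.Agent.Work.MP_66fdf3_co.BP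

open Finset Matrix

variable {X : Type*} [Fintype X] [DecidableEq X]

omit [DecidableEq X] in
theorem Irr_basis (W : Submodule ℂ (X → ℂ)) :
    ∃ U : Matrix X (Fin (Module.finrank ℂ W)) ℂ, Uᴴ * U = 1 ∧ ∀ v, v ∈ W ↔ (U * Uᴴ) *ᵥ v = v := by
  let e := WithLp.linearEquiv 2 ℂ (X → ℂ)
  let W' : Submodule ℂ (EuclideanSpace ℂ X) := W.comap e.toLinearMap
  have hr : Module.finrank ℂ W' = Module.finrank ℂ W := (e.ofSubmodule' W).finrank_eq
  let b := (stdOrthonormalBasis ℂ W').reindex (finCongr hr)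
  let U : Matrix X (Fin (Module.finrank ℂ W)) ℂ :=
    Matrix.of fun x i => (b i : EuclideanSpace ℂ X) x
  have h1 : ∀ c, U *ᵥ c = ((∑ i, c i • b i : W') : EuclideanSpace ℂ X).ofLp := by
    intro c
    funext x
    simp [U, mulVec, dotProduct, mul_comm]
  have h2 : ∀ (v : W') i, (Uᴴ *ᵥ (v : EuclideanSpace ℂ X).ofLp) i = inner ℂ (b i) v := by
    intro v i
    simp [U, mulVec, dotProduct, PiLp.inner_apply, mul_comm]
  refine ⟨U, ?_, fun v => ⟨fun hv => ?_, fun hv => ?_⟩⟩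
  · ext i j
    rw [one_apply, ← orthonormal_iff_ite.1 b.orthonormal i j, ← h2]
    rfl
  · rw [← mulVec_mulVec, h1]
    have := h2 ⟨WithLp.toLp 2 v, hv⟩
    simp only at this
    simp only [this, b.sum_repr']
  · rw [← hv, ← mulVec_mulVec, h1]
    exact (∑ i, (Uᴴ *ᵥ v) i • b i : W').2

omit [DecidableEq X] in
theorem Irr_le {P F : Matrix X X ℂ} (hP : Proj P) (hF : Proj F)
    (h : ∀ v, F *ᵥ v = v → P *ᵥ v = v) : P * F = F ∧ F * P = F := by
  have h1 : P * F = F := ext_iff_mulVec.2 fun v => by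
    rw [← mulVec_mulVec]
    exact h _ (by rw [mulVec_mulVec, hF.2])
  refine ⟨h1, ?_⟩
  have := congrArg conjTranspose h1
  rwa [conjTranspose_mul, hP.1, hF.1] at this

omit [DecidableEq X] in
theorem Irr_proj {n : ℕ} {U : Matrix X (Fin n) ℂ} (h : Uᴴ * U = 1) : Proj (U * Uᴴ) :=
  ⟨by rw [conjTranspose_mul, conjTranspose_conjTranspose],
    by rw [Matrix.mul_assoc, ← Matrix.mul_assoc Uᴴ, h, Matrix.one_mul]⟩

omit [DecidableEq X] in
theorem Irr_main {P : Matrix X X ℂ} (h : Proj P) (W : Submodule ℂ (X → ℂ))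
    (hW : ∀ v, v ∈ W ↔ P *ᵥ v = v) : ∃ U : Matrix X (Fin (Module.finrank ℂ W)) ℂ,
      U * Uᴴ = P ∧ Uᴴ * U = 1 ∧ P.trace = Module.finrank ℂ W := by
  obtain ⟨U, h1, h2⟩ := Irr_basis W
  have a1 := Irr_le h (Irr_proj h1) fun v hv => (hW v).1 ((h2 v).2 hv)
  have a2 := Irr_le (Irr_proj h1) h fun v hv => (h2 v).1 ((hW v).2 hv)
  have e : U * Uᴴ = P := a1.1.symm.trans a2.2
  exact ⟨U, e, h1, by rw [← e, trace_mul_comm, h1, trace_one, Fintype.card_fin]⟩

theorem Proj.exists_basis {P : Matrix X X ℂ} (h : Proj P) :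
    ∃ (n : ℕ) (U : Matrix X (Fin n) ℂ), U * Uᴴ = P ∧ Uᴴ * U = 1 ∧ P.trace = n := by
  exact ⟨_, Irr_main h (LinearMap.eqLocus P.mulVecLin LinearMap.id) fun _ => Iff.rfl⟩

/-- The trace of a projection is the dimension of the space of its fixed vectors. -/
theorem Proj.trace_eq {P : Matrix X X ℂ} (h : Proj P) (W : Submodule ℂ (X → ℂ))
    (hW : ∀ v, v ∈ W ↔ P *ᵥ v = v) : P.trace = Module.finrank ℂ W := by
  obtain ⟨_, _, _, e⟩ := Irr_main h W hW
  exact e

variable {G : Type*} [Group G] [MulAction G X]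

theorem proj_of_sub (W : Submodule ℂ (X → ℂ)) (hW : ∀ g : G, ∀ v ∈ W, rho X g *ᵥ v ∈ W) :
    ∃ F : Matrix X X ℂ, Proj F ∧ Invt G F ∧ ∀ v, v ∈ W ↔ F *ᵥ v = v := by
  obtain ⟨U, h1, h2⟩ := Irr_basis W
  have hF := Irr_proj h1
  generalize U * Uᴴ = F at h2 hF
  have key : ∀ g : G, F * (rho X g * F) = rho X g * F := fun g => ext_iff_mulVec.2 fun v => by
    rw [← mulVec_mulVec, ← mulVec_mulVec]
    exact (h2 _).1 (hW g _ ((h2 _).2 (by rw [mulVec_mulVec, hF.2])))
  refine ⟨F, hF, fun g => ?_, h2⟩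
  have := congrArg conjTranspose (key g⁻¹)
  simp only [conjTranspose_mul, hF.1, rho_conjT, inv_inv] at this
  rw [← this, Matrix.mul_assoc, key]

theorem Irr_min {P : Matrix X X ℂ} (hP : Proj P) (hI : Invt G P) (h0 : P ≠ 0) :
    ∃ F : Matrix X X ℂ, (Proj F ∧ Invt G F ∧ F ≠ 0 ∧ ∀ A, Invt G A → ∃ c : ℂ, F * A * F = c • F) ∧
      P * F = F ∧ F * P = F := by
  have hc : ∀ {A : Matrix X X ℂ}, Invt G A → ∀ (g : G) v,
      A *ᵥ (rho X g *ᵥ v) = rho X g *ᵥ (A *ᵥ v) := fun hA g v => by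
    rw [mulVec_mulVec, mulVec_mulVec, hA g]
  obtain ⟨W, ⟨w0, w1, w2⟩, hmin⟩ := exists_minimal_of_wellFoundedLT
    (fun W : Submodule ℂ (X → ℂ) => W ≠ ⊥ ∧ (∀ v ∈ W, P *ᵥ v = v) ∧
      ∀ g : G, ∀ v ∈ W, rho X g *ᵥ v ∈ W)
    ⟨LinearMap.eqLocus P.mulVecLin LinearMap.id, fun e => h0 (ext_iff_mulVec.2 fun v => by
      rw [zero_mulVec]
      exact e.le (show P *ᵥ (P *ᵥ v) = P *ᵥ v by rw [mulVec_mulVec, hP.2])), fun v hv => hv,
      fun g v hv => (hc hI g v).trans (congrArg _ hv)⟩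
  obtain ⟨F, f1, f2, f3⟩ := proj_of_sub W w2
  have f4 : ∀ u, F *ᵥ u ∈ W := fun u => (f3 _).2 (by rw [mulVec_mulVec, f1.2])
  refine ⟨F, ⟨f1, f2, fun e => w0 (eq_bot_iff.2 fun v hv => ?_), fun A hA => ?_⟩,
    Irr_le hP f1 fun v hv => w1 v ((f3 v).2 hv)⟩
  · have := (f3 v).1 hv
    rw [e, zero_mulVec] at this
    exact this.symm
  have hB : Invt G (F * A) := fun g => by
    rw [Matrix.mul_assoc, hA g, ← Matrix.mul_assoc, f2 g, Matrix.mul_assoc]
  have hm : ∀ v ∈ W, (F * A).mulVecLin v ∈ W := fun v _ => by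
    rw [mulVecLin_apply, ← mulVec_mulVec]
    exact f4 _
  have : Nontrivial W := Submodule.nontrivial_iff_ne_bot.2 w0
  obtain ⟨c, hc1⟩ := Module.End.exists_eigenvalue ((F * A).mulVecLin.restrict hm)
  obtain ⟨v, hv⟩ := hc1.exists_hasEigenvector
  have hv1 : (F * A) *ᵥ v.1 = c • v.1 := congrArg Subtype.val hv.apply_eq_smul
  obtain ⟨V, hV⟩ : ∃ V : Submodule ℂ (X → ℂ), ∀ u, u ∈ V ↔ (F * A) *ᵥ u = c • u :=
    ⟨LinearMap.eqLocus (F * A).mulVecLin (c • LinearMap.id), fun u => by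
      rw [LinearMap.mem_eqLocus, mulVecLin_apply, LinearMap.smul_apply, LinearMap.id_apply]⟩
  have hle := hmin (y := W ⊓ V)
    ⟨fun e => hv.2 (Subtype.ext (e.le ⟨v.2, (hV _).2 hv1⟩)), fun u hu => w1 u hu.1, fun g u hu =>
      ⟨w2 g u hu.1, (hV _).2 (by rw [hc hB g u, (hV _).1 hu.2, mulVec_smul])⟩⟩ inf_le_left
  refine ⟨c, ext_iff_mulVec.2 fun u => ?_⟩
  rw [← mulVec_mulVec, smul_mulVec]
  exact (hV _).1 (hle (f4 u)).2

theorem exists_irr {P : Matrix X X ℂ} (hP : Proj P) (hI : Invt G P) :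
    ∃ (n : ℕ) (F : Fin n → Matrix X X ℂ), (∀ i, Proj (F i) ∧ Invt G (F i) ∧ F i ≠ 0 ∧
      ∀ A, Invt G A → ∃ c : ℂ, F i * A * F i = c • F i) ∧ (∀ i j, i ≠ j → F i * F j = 0) ∧
      ∑ i, F i = P := by
  obtain ⟨n, -, -, -, hn⟩ := hP.exists_basis
  induction n using Nat.strong_induction_on generalizing P with
  | _ n ih =>
  by_cases h0 : P = 0
  · exact ⟨0, Fin.elim0, fun i => i.elim0, fun i => i.elim0, by simp [h0]⟩
  obtain ⟨F, hF, a1, a2⟩ := Irr_min hP hI h0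
  have hQ : Proj (P - F) := ⟨by rw [conjTranspose_sub, hP.1, hF.1.1], by
    rw [Matrix.sub_mul, Matrix.mul_sub, Matrix.mul_sub, hP.2, a1, a2, hF.1.2, sub_self, sub_zero]⟩
  obtain ⟨k, -, -, -, hk⟩ := hQ.exists_basis
  obtain ⟨l, U, u1, -, hl⟩ := hF.1.exists_basis
  have hl0 : l ≠ 0 := by
    rintro rfl
    exact hF.2.2.1 (by rw [← u1]; ext; simp [mul_apply])
  have e : k + l = n := by
    rw [trace_sub, hn, hl, sub_eq_iff_eq_add] at hk
    exact_mod_cast hk.symm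
  obtain ⟨m, E, e1, e2, e3⟩ := ih k (by omega) hQ
    (fun g => by rw [Matrix.sub_mul, Matrix.mul_sub, hI g, hF.2.1 g]) hk
  have b1 : ∀ i, F * E i = 0 := fun i => by
    have : (P - F) * E i = E i := by
      rw [← e3, Finset.sum_mul, sum_eq_single i (fun j _ hj => e2 j i hj) (by simp), (e1 i).1.2]
    rw [← this, ← Matrix.mul_assoc, Matrix.mul_sub, a2, hF.1.2, sub_self, Matrix.zero_mul]
  have b2 : ∀ i, E i * F = 0 := fun i => by
    have := congrArg conjTranspose (b1 i)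
    rwa [conjTranspose_mul, hF.1.1, (e1 i).1.1, conjTranspose_zero] at this
  refine ⟨m + 1, Fin.cons F E, Fin.cases hF e1, ?_, ?_⟩
  · refine Fin.cases (Fin.cases (fun h => absurd rfl h) fun j _ => b1 j) fun i => ?_
    exact Fin.cases (fun _ => b2 i) fun j h => e2 i j fun e => h (congrArg _ e)
  · rw [Fin.sum_univ_succ]
    simp only [Fin.cons_zero, Fin.cons_succ, e3, add_sub_cancel]

end Pool.Agent.Work.MP_66fdf3_co.BP
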