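import Pool.Agent.Work.MP_66fdf3_co.BP.MRec

/-!
Elementary inequalities for the numerical quantities.

Plan. `wt_anti`: `ascFactorial (d μ) a / d ^ a = ∏ j < a, (μ + j / d)` is antitone in `d`; write
`s = (s + 1 - j - e) + r`. `Ul_le`: `Ul / X ^ l` is a sum of some of the terms of the expansion of
the product (`Finset.prod_univ_sum`, `piAntidiag univ l ⊆ Fintype.piFinset fun _ => range (l + 1)`).
`El_le`: induction on `l`, the quotient is `((k + 1) / k) ^ k ≤ e` with `k = m - l - 1`.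
`El_div`: `El / descFactorial = El ^ 2 * (m - l) ^ (m - l) / m ^ m`, and
`(1 - λ) ^ (m - l) ≤ exp (-(m - l) * 2 λ / (2 - λ))` by `Real.le_log_one_add_of_nonneg` with
`x = l / (m - l)`. `fact_half`, `fact_rho`: induction, `(1 + 1 / a) ^ a ≥ 2`, and `≥ 2.45` for
`a ≥ 12` (three terms of the binomial theorem, or `Real.le_log_one_add_of_nonneg`).
`asc_le`: induction, or pair the factors. `wt_succ`: `(a / (a + 1)) ^ (2 a + 1) ≤ exp (-2)`.
-/

namespace Pool.Agent.Work.MP_66fdf3_co.BP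

open Finset

theorem sph_nonneg (n a : ℕ) : 0 ≤ sph n a := by
  unfold sph
  positivity

theorem wt_nonneg (s j e d μ a : ℕ) : 0 ≤ wt s j e d μ a := by
  unfold wt sph
  positivity

theorem wt_zero (s j e d μ : ℕ) : wt s j e d μ 0 = 1 := by
  simp [wt, sph]

theorem El_nonneg (m l : ℕ) : 0 ≤ El m l := by
  unfold El
  positivity

theorem NBas_asc {d d' : ℕ} (hd' : d ≤ d') (μ a : ℕ) :
    (d' * μ).ascFactorial a * d ^ a ≤ (d * μ).ascFactorial a * d' ^ a := by
  induction a with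
  | zero => simp
  | succ a ih =>
    have h : (d' * μ + a) * d ≤ (d * μ + a) * d' := by nlinarith [Nat.mul_le_mul_left a hd']
    calc (d' * μ).ascFactorial (a + 1) * d ^ (a + 1)
        = ((d' * μ + a) * d) * ((d' * μ).ascFactorial a * d ^ a) := by
          rw [Nat.ascFactorial_succ]; ring
      _ ≤ ((d * μ + a) * d') * ((d * μ).ascFactorial a * d' ^ a) := Nat.mul_le_mul h ih
      _ = _ := by rw [Nat.ascFactorial_succ]; ring

theorem NBas_up (k : ℕ) : ((k : ℝ) + 1) ^ k ≤ Real.exp 1 * (k : ℝ) ^ k := by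
  rcases Nat.eq_zero_or_pos k with rfl | hk
  · simp
  have h0 : (0 : ℝ) < k := by exact_mod_cast hk
  have e : (k : ℝ) + 1 = (1 + (k : ℝ)⁻¹) * k := by field_simp
  rw [e, mul_pow]
  exact mul_le_mul_of_nonneg_right Real.one_add_inv_pow_le_exp (by positivity)

theorem NBas_low {x y : ℝ} (hx : 0 < x) (hy : 0 ≤ y) (n : ℕ) :
    Real.exp (n * (2 * y / (2 * x + y))) * x ^ n ≤ (x + y) ^ n := by
  have h := Real.le_log_one_add_of_nonneg (div_nonneg hy hx.le)
  rw [Real.le_log_iff_exp_le (by positivity)] at h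
  have e : 2 * (y / x) / (y / x + 2) = 2 * y / (2 * x + y) := by field_simp; ring
  rw [e] at h
  rw [Real.exp_nat_mul, ← mul_pow]
  refine pow_le_pow_left₀ (by positivity) ?_ n
  calc _ ≤ (1 + y / x) * x := mul_le_mul_of_nonneg_right h hx.le
    _ = x + y := by field_simp

theorem NBas_pos (k : ℕ) : 0 < (k : ℝ) ^ k := by
  rcases Nat.eq_zero_or_pos k with rfl | hk
  · simp
  · positivity

theorem NBas_succ (k : ℕ) : ((k + 1).factorial : ℝ) / ((k + 1 : ℕ) : ℝ) ^ (k + 1)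
    = (k.factorial : ℝ) / (k : ℝ) ^ k * ((k : ℝ) ^ k / ((k : ℝ) + 1) ^ k) := by
  have := NBas_pos k
  rw [Nat.factorial_succ, pow_succ]
  push_cast
  field_simp

theorem NBas_El (k l : ℕ) : (k.factorial : ℝ) / (k : ℝ) ^ k
    ≤ Real.exp l * (((k + l).factorial : ℝ) / ((k + l : ℕ) : ℝ) ^ (k + l)) := by
  induction l with
  | zero => simp
  | succ l ih =>
    refine ih.trans ?_
    rw [← add_assoc, NBas_succ, Nat.cast_succ l, Real.exp_add, mul_assoc]
    refine mul_le_mul_of_nonneg_left ?_ (Real.exp_pos _).le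
    rw [mul_left_comm]
    refine le_mul_of_one_le_right (by positivity) ?_
    rw [← mul_div_assoc, one_le_div (by positivity)]
    exact NBas_up _

theorem wt_anti {s j e d d' : ℕ} (h : 1 ≤ j + e) (hd : 0 < d) (hd' : d ≤ d') (μ a : ℕ) :
    wt s j e d' μ a ≤ wt s j e d μ a := by
  obtain ⟨r, hr⟩ : ∃ r, s = s + 1 - j - e + r := ⟨s - (s + 1 - j - e), by omega⟩
  unfold wt
  generalize s + 1 - j - e = n at hr
  subst hr
  have h0 : (0 : ℝ) < d := by exact_mod_cast hd
  have h1 : (d : ℝ) ≤ d' := by exact_mod_cast hd'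
  have h2 : (0 : ℝ) < d' := h0.trans_le h1
  have h3 : (((d' * μ).ascFactorial a : ℕ) : ℝ) / (d' : ℝ) ^ a
      ≤ (((d * μ).ascFactorial a : ℕ) : ℝ) / (d : ℝ) ^ a := by
    rw [div_le_div_iff₀ (by positivity) (by positivity)]
    exact_mod_cast NBas_asc hd' μ a
  have e : ∀ c : ℕ, sph (c * μ) a ^ n * sph (μ ^ 2) a ^ j * ((a.factorial : ℝ) / (c : ℝ) ^ a) ^ (n + r)
      = ((((c * μ).ascFactorial a : ℕ) : ℝ) / (c : ℝ) ^ a * (a.factorial / (a : ℝ) ^ a)) ^ n
        * sph (μ ^ 2) a ^ j * ((a.factorial : ℝ) / (c : ℝ) ^ a) ^ r := fun c => by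
    have : (((c * μ).ascFactorial a : ℕ) : ℝ) / (c : ℝ) ^ a * (a.factorial / (a : ℝ) ^ a)
        = sph (c * μ) a * ((a.factorial : ℝ) / (c : ℝ) ^ a) := by
      unfold sph
      ring
    rw [this, mul_pow, pow_add]
    ring
  have := sph_nonneg (μ ^ 2) a
  rw [e, e]
  gcongr

theorem Ul_le {k : ℕ} (s j e : ℕ) (d μ : Fin k → ℕ) (l : ℕ) {X : ℝ} (hX : 0 < X) :
    Ul s j e d μ l ≤ X ^ l * ∏ i, ∑ a ∈ range (l + 1), wt s j e (d i) (μ i) a / X ^ a := by
  rw [prod_univ_sum, mul_sum]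
  unfold Ul
  refine le_trans (le_of_eq (sum_congr rfl fun a ha => ?_))
    (sum_le_sum_of_subset_of_nonneg (s := piAntidiag univ l) (fun a ha => ?_) fun a _ _ =>
      mul_nonneg (by positivity) (prod_nonneg fun i _ =>
        div_nonneg (wt_nonneg _ _ _ _ _ _) (by positivity)))
  · rw [prod_div_distrib, prod_pow_eq_pow_sum, (mem_piAntidiag.1 ha).1]
    field_simp
  · rw [Fintype.mem_piFinset]
    intro i
    rw [mem_range, Nat.lt_succ_iff, ← (mem_piAntidiag.1 ha).1]
    exact single_le_sum (f := a) (fun _ _ => Nat.zero_le _) (mem_univ i)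

theorem El_le {m l : ℕ} (h : l ≤ m) : El m l ≤ Real.exp l := by
  obtain ⟨k, rfl⟩ := Nat.exists_eq_add_of_le' h
  have h1 := NBas_El k l
  have h2 := NBas_pos k
  have h3 := NBas_pos (k + l)
  unfold El
  rw [Nat.add_sub_cancel]
  rw [← mul_div_assoc, div_le_div_iff₀ h2 h3] at h1
  rw [div_le_iff₀ (by positivity)]
  linarith

theorem El_div {m l : ℕ} (h : l ≤ m) (hm : 0 < m) :
    El m l / m.descFactorial l ≤ (Real.exp (1 + l / (2 * m - l)) / m) ^ l := by
  have h0 := El_le h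
  have h0' := El_nonneg m l
  have hd : (((m - l).factorial : ℕ) : ℝ) * m.descFactorial l = m.factorial := by
    exact_mod_cast Nat.factorial_mul_descFactorial h
  obtain ⟨k, rfl⟩ := Nat.exists_eq_add_of_le' h
  have h2 := NBas_pos k
  have hm' : (0 : ℝ) < ((k + l : ℕ) : ℝ) := by exact_mod_cast hm
  have e : El (k + l) l / (k + l).descFactorial l
      = El (k + l) l ^ 2 * ((k : ℝ) ^ k / ((k + l : ℕ) : ℝ) ^ k) / ((k + l : ℕ) : ℝ) ^ l := by
    unfold El
    rw [Nat.add_sub_cancel] at hd ⊢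
    have h4 : (0 : ℝ) < (k + l).descFactorial l := by
      exact_mod_cast Nat.descFactorial_pos.2 h
    rw [← hd, pow_add]
    field_simp
  have h5 : (k : ℝ) ^ k / ((k + l : ℕ) : ℝ) ^ k ≤ Real.exp (-(k * (2 * l / (2 * k + l)))) := by
    rcases Nat.eq_zero_or_pos k with rfl | hk
    · simp
    have := NBas_low (x := k) (y := l) (by exact_mod_cast hk) (Nat.cast_nonneg _) k
    rw [Real.exp_neg, div_le_iff₀ (by positivity), le_inv_mul_iff₀ (Real.exp_pos _)]
    push_cast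
    exact this
  have h6 : (0 : ℝ) < 2 * k + l := by
    push_cast at hm'
    have : (0 : ℝ) ≤ k := Nat.cast_nonneg _
    linarith
  rw [e, div_pow, ← Real.exp_nat_mul]
  refine div_le_div_of_nonneg_right ?_ (by positivity)
  calc _ ≤ Real.exp l ^ 2 * Real.exp (-(k * (2 * l / (2 * k + l)))) := by gcongr
    _ = _ := by
      rw [sq, ← Real.exp_add, ← Real.exp_add]
      congr 1
      have e2 : 2 * ((k + l : ℕ) : ℝ) - l = 2 * k + l := by push_cast; ring
      have e3 : (l : ℝ) = l * ((2 * k + l) / (2 * k + l)) := by rw [div_self h6.ne', mul_one]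
      rw [e2]
      linear_combination e3

theorem fact_half {a : ℕ} (h : 1 ≤ a) : (a.factorial : ℝ) / (a : ℝ) ^ a ≤ 2 * (1 / 2) ^ a := by
  induction a, h using Nat.le_induction with
  | base => norm_num
  | succ a ha ih =>
    have h0 : (0 : ℝ) < a := by exact_mod_cast ha
    have h1 : (a : ℝ) ^ a / ((a : ℝ) + 1) ^ a ≤ 1 / 2 := by
      have h2 := one_add_mul_le_pow (a := (a : ℝ)⁻¹) (le_trans (by norm_num) (inv_pos.2 h0).le) a
      have e : (a : ℝ) + 1 = (1 + (a : ℝ)⁻¹) * a := by field_simp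
      rw [mul_inv_cancel₀ h0.ne'] at h2
      rw [div_le_div_iff₀ (by positivity) two_pos, e, mul_pow]
      nlinarith [pow_pos h0 a]
    rw [NBas_succ, pow_succ, ← mul_assoc]
    gcongr

theorem fact_rho {a : ℕ} (h : 12 ≤ a) : (a.factorial : ℝ) / (a : ℝ) ^ a ≤ 0.442 ^ a := by
  induction a, h using Nat.le_induction with
  | base => norm_num [Nat.factorial]
  | succ a ha ih =>
    have h0 : (12 : ℝ) ≤ a := by exact_mod_cast ha
    have h1 : (a : ℝ) ^ a / ((a : ℝ) + 1) ^ a ≤ 0.442 := by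
      have h2 := NBas_low (x := a) (y := 1) (by linarith) zero_le_one a
      have h3 : (0.96 : ℝ) ≤ a * (2 * 1 / (2 * a + 1)) := by
        rw [← mul_div_assoc, le_div_iff₀ (by positivity)]
        linarith
      have h4 := (Real.quadratic_le_exp_of_nonneg (by norm_num : (0 : ℝ) ≤ 0.96)).trans
        (Real.exp_le_exp.2 h3)
      have h5 := mul_le_mul_of_nonneg_right h4 (NBas_pos a).le
      rw [div_le_iff₀ (by positivity)]
      nlinarith [NBas_pos a]
    rw [NBas_succ, pow_succ]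
    gcongr

theorem asc_le (n a : ℕ) : (n.ascFactorial a : ℝ) ≤ (n + (a - 1) / 2) ^ a := by
  induction a using Nat.twoStepInduction generalizing n with
  | zero => simp
  | one => simp [Nat.ascFactorial_succ]
  | more a ih _ =>
    have e : n.ascFactorial (a + 2) = (n + (a + 1)) * n * (n + 1).ascFactorial a := by
      rw [Nat.ascFactorial_succ, Nat.ascFactorial_succ, ← Nat.succ_ascFactorial, mul_assoc]
    have e2 : ((n + 1 : ℕ) : ℝ) + (a - 1) / 2 = n + (((a + 2 : ℕ) : ℝ) - 1) / 2 := by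
      push_cast
      ring
    have h := ih (n + 1)
    rw [e2] at h
    rw [e, pow_add, mul_comm (_ ^ a), Nat.cast_mul]
    refine mul_le_mul ?_ h (Nat.cast_nonneg _) (sq_nonneg _)
    push_cast
    nlinarith [sq_nonneg ((a : ℝ) + 1)]

theorem wt_one (d μ : ℕ) (hd : 0 < d) : wt 1 1 0 d μ 1 = (μ : ℝ) ^ 3 := by
  have h0 : (d : ℝ) ≠ 0 := by exact_mod_cast hd.ne'
  simp only [wt, sph, Nat.ascFactorial_succ, Nat.ascFactorial_zero, Nat.factorial_one, add_zero]
  push_cast
  field_simp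

theorem wt_succ {d μ a : ℕ} (hd : 3 * μ ≤ d) (h0 : 0 < d) (ha : 1 ≤ a) : wt 1 1 0 d μ (a + 1) ≤
    wt 1 1 0 d μ a * (((μ : ℝ) ^ 3 / a + 4 * μ / 3 + a / d) / Real.exp 2) := by
  have hd0 : (0 : ℝ) < d := by exact_mod_cast h0
  have ha0 : (0 : ℝ) < a := by exact_mod_cast ha
  have hd' : 3 * (μ : ℝ) ≤ d := by exact_mod_cast hd
  have hμ : (0 : ℝ) ≤ μ := Nat.cast_nonneg _
  have e : wt 1 1 0 d μ (a + 1) = wt 1 1 0 d μ a * (((μ : ℝ) ^ 3 / a + μ ^ 2 / d + μ + a / d) *
      ((a : ℝ) ^ (2 * a + 1) / ((a : ℝ) + 1) ^ (2 * a + 1))) := by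
    simp only [wt, sph, Nat.ascFactorial_succ, Nat.factorial_succ]
    push_cast
    simp only [pow_succ, two_mul, pow_add, pow_zero, one_mul]
    field_simp
    ring
  have h1 : (a : ℝ) ^ (2 * a + 1) / ((a : ℝ) + 1) ^ (2 * a + 1) ≤ (Real.exp 2)⁻¹ := by
    have h2 := NBas_low ha0 zero_le_one (2 * a + 1)
    have e2 : ((2 * a + 1 : ℕ) : ℝ) * (2 * 1 / (2 * a + 1)) = 2 := by
      push_cast
      field_simp
    rw [e2] at h2
    rw [div_le_iff₀ (by positivity), le_inv_mul_iff₀ (Real.exp_pos _)]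
    exact h2
  have h3 : (μ : ℝ) ^ 2 / d ≤ μ / 3 := by
    rw [div_le_div_iff₀ hd0 (by norm_num)]
    nlinarith
  rw [e, div_eq_mul_inv _ (Real.exp 2)]
  refine mul_le_mul_of_nonneg_left (mul_le_mul (by linarith) h1 (by positivity) (by positivity))
    (wt_nonneg _ _ _ _ _ _)

end Pool.Agent.Work.MP_66fdf3_co.BP
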