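import Mathlib

/-!
Balanced permutations: the numerical quantities. No groups here.
-/

namespace Pool.Agent.Work.MP_66fdf3_co.BP

open Finset

/-- `l!` times the level mass. -/
def Nl (m : ℕ) : ℕ → ℕ
  | 0 => 1
  | 1 => 0
  | l + 2 => 2 * (l + 1) * Nl m (l + 1) + (l + 1) * (m - l) * Nl m l

/-- The level mass of the indicator function of the bijections. -/
noncomputable def Ml (m l : ℕ) : ℝ := (Nl m l : ℝ) / l.factorial

/-- Derangements weighted by `x` to the number of cycles. -/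
def Dl (x : ℝ) : ℕ → ℝ
  | 0 => 1
  | 1 => 0
  | l + 2 => (l + 1) * (Dl x (l + 1) + x * Dl x l)

/-- The factor of the trivial block. -/
noncomputable def El (m l : ℕ) : ℝ :=
  (m : ℝ) ^ m * (m - l).factorial / (m.factorial * ((m - l : ℕ) : ℝ) ^ (m - l))

/-- The sphere factor. -/
noncomputable def sph (n a : ℕ) : ℝ := (n.ascFactorial a : ℝ) / (a : ℝ) ^ a

/-- The weight of a block. -/
noncomputable def wt (s j e d μ a : ℕ) : ℝ :=
  sph (d * μ) a ^ (s + 1 - j - e) * sph (μ ^ 2) a ^ j * ((a.factorial : ℝ) / (d : ℝ) ^ a) ^ s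

/-- The coefficient of the product of the generating functions of the blocks. -/
noncomputable def Ul {k : ℕ} (s j e : ℕ) (d μ : Fin k → ℕ) (l : ℕ) : ℝ :=
  ∑ a ∈ piAntidiag univ l, ∏ i, wt s j e (d i) (μ i) (a i)

/-- The rook polynomial of a class of size `k`, scaled. -/
noncomputable def Lz (m k : ℕ) : Polynomial ℕ :=
  ∑ c ∈ range (k + 1), Polynomial.monomial c (k.choose c ^ 2 * c.factorial * m ^ c * k ^ (k - c))

/-- The level mass for a partition with part sizes `ks`. -/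
noncomputable def Bf (m : ℕ) (ks : Multiset ℕ) (l : ℕ) : ℝ :=
  (∑ j ∈ range (l + 1), (-1 : ℝ) ^ (l - j) * ((m - j).choose (l - j) : ℝ) * (m - j).factorial *
    ((ks.map (Lz m)).prod.coeff j : ℕ)) / (m.factorial * ((ks.map fun k => k ^ k).prod : ℕ))

/-- What the analytic part gives. -/
structure Good (m : ℕ) {k : ℕ} (d μ : Fin k → ℕ) (B z : ℕ → ℝ) : Prop where
  nonneg : ∀ l, 0 ≤ z l
  P : ∀ q : ℕ, 0 < q → (∀ i, q * μ i ≤ d i) → ∀ l ≤ m,
    z l ≤ Ml m l * Dl (m / q) l / m.descFactorial l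
  H : ∀ s j e l, 1 ≤ s → j ≤ s → j + e ≤ s + 1 → l ≤ m → z l ^ (2 * s) ≤
    Ml m l ^ (s - 1 + j + e) * B l ^ (s - j) * El m l ^ (s + 1 - e) /
      (m.descFactorial l : ℝ) ^ s * Ul s j e d μ l
  S : ∀ l ≤ m, ∀ Y : ℝ, 0 ≤ Y → (∀ a ∈ piAntidiag univ l, ∏ i, wt 1 1 1 (d i) (μ i) (a i) ≤ Y) →
    z l ^ 2 ≤ Ml m l ^ 2 * El m l / m.descFactorial l * Y

/-- The admissible part sizes. -/
def Cls (m dm : ℕ) (ks : Multiset ℕ) : Prop :=
  ks.sum = m ∧
  ((dm = 3 ∧ ∃ b c e, ks = {1} + Multiset.replicate b 6 + Multiset.replicate c 8 +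
      Multiset.replicate e 10) ∨
    (dm = 3 ∧ ∃ a c, 2 * (1 + 4 * a) ≤ m ∧
      ks = {1} + Multiset.replicate a 4 + Multiset.replicate c 8) ∨
    (dm = 4 ∧ ∃ a b, ks = {1} + Multiset.replicate a 4 + Multiset.replicate b 6 + {12}))

/-- The constraints on the spectrum. -/
structure Adm (m dm R : ℕ) {k : ℕ} (d μ : Fin k → ℕ) : Prop where
  pos : ∀ i, 1 ≤ μ i
  four : ∀ i, 4 ≤ d i
  dm : ∀ i, dm * μ i ≤ d i
  dim : ∀ i, d i * μ i + 1 ≤ m
  rank : ∑ i, μ i ^ 2 ≤ R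

end Pool.Agent.Work.MP_66fdf3_co.BP
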