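import Pool.Agent.Work.MP_66fdf3_co.BP.Big

/-!
The numerical theorem.
-/

namespace Pool.Agent.Work.MP_66fdf3_co.BP

open Finset

theorem num_main {m dm k : ℕ} {ks : Multiset ℕ} {d μ : Fin k → ℕ} {z : ℕ → ℝ} (hm : 21 ≤ m)
    (ho : Odd m) (hp : ¬IsPrimePow m) (hc : Cls m dm ks)
    (ha : Adm m dm (Multiset.card ks - 1) d μ) (hg : Good m d μ (Bf m ks) z) :
    ∑ l ∈ Icc 1 m, z l < 1 := by
  sorry

end Pool.Agent.Work.MP_66fdf3_co.BP
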