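import Pool.Agent.Work.MP_66fdf3_co.BP.Inj

/-!
The derangement bound for operators.

Plan. `Jf x a b` counts permutations of `a + b` points without fixed points among the first `a`,
with weight `x` for each cycle. For labels `Λ` and a labelling `c : ι → Option ι` with values in
`Λ` and onto `Λ` put `I Λ c = ∑ w ∈ injs X Λ, tens fun i => (c i).elim 1 fun b => A (w b)`. Let `a`
be the number of labels used once and `b` the number of labels used at least twice. Claim:
`I Λ c` has norm at most `m ^ (|ι| - |Λ|) * Jf x a b`. Induction on `|Λ|` with `inj_insert`; remove a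
label `b0` that is used once if there is one. The first term is
`(∑ v, tens (A v on the fibre of b0, 1 elsewhere)) * I Λ' c'` (`tens_mul`; `c'` forgets `b0`); the
first factor is `0` if `b0` is used once (`tens_update_sum`) and has norm at most `x` otherwise
(`merged`: split off two coordinates `i ≠ j` of the fibre, Cauchy-Schwarz over `v` with `h1`, `h2`,
`hc`). The other terms are `I Λ' c''`, where `c''` renames `b0` to a label in `Λ'`.
One may work with the seminorm statement `nsq (T *ᵥ v) ≤ C ^ 2 * nsq v`, or with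
`Matrix.toEuclideanCLM` and operator norms.
-/

namespace Pool.Agent.Work.MP_66fdf3_co.BP

open Finset Matrix

/-- Permutations without fixed points in a given set. -/
def Jf (x : ℝ) : ℕ → ℕ → ℝ
  | a, 0 => Dl x a
  | a, b + 1 => Jf x (a + 1) b + x * Jf x a b

theorem Dl_nonneg {x : ℝ} (hx : 0 ≤ x) (l : ℕ) : 0 ≤ Dl x l := by
  induction l using Nat.twoStepInduction with
  | zero => simp [Dl]
  | one => simp [Dl]
  | more l h1 h2 =>
    rw [Dl]
    positivity

theorem Jf_succ (x : ℝ) (a b : ℕ) :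
    Jf x (a + 1) b = a * Jf x (a - 1) (b + 1) + b * Jf x a b := by
  induction b generalizing a with
  | zero =>
    cases a with
    | zero => simp [Jf, Dl]
    | succ l => simp [Jf, Dl]
  | succ b ih =>
    have e1 : Jf x (a + 1) (b + 1) = Jf x (a + 1 + 1) b + x * Jf x (a + 1) b := by rw [Jf]
    have e2 : Jf x a (b + 1) = Jf x (a + 1) b + x * Jf x a b := by rw [Jf]
    have e3 : (a : ℝ) * Jf x (a - 1) (b + 1 + 1) =
        a * (Jf x a (b + 1) + x * Jf x (a - 1) (b + 1)) := by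
      cases a with
      | zero => simp
      | succ l => rw [Jf]; simp
    have e4 := ih (a + 1)
    have e5 := ih a
    rw [Nat.add_sub_cancel] at e4
    rw [e3, e1, e4]
    push_cast
    linear_combination x * e5 - (b : ℝ) * e2

theorem Jf_zero (x : ℝ) (b : ℕ) : Jf x 0 (b + 1) = (x + b) * Jf x 0 b := by
  rw [Jf, Jf_succ]
  simp only [Nat.cast_zero, zero_mul, zero_add]
  ring

section norm

variable {Y : Type*} [Fintype Y]

/-- The Euclidean norm. -/
noncomputable def PJ_nr (v : Y → ℂ) : ℝ := ‖(WithLp.toLp 2 v : EuclideanSpace ℂ Y)‖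

theorem PJ_nr_nonneg (v : Y → ℂ) : 0 ≤ PJ_nr v := norm_nonneg _

theorem PJ_nr_sq (v : Y → ℂ) : PJ_nr v ^ 2 = nsq v := by
  rw [PJ_nr, EuclideanSpace.norm_sq_eq]
  rfl

/-- Operator norm bound. -/
def PJ_Bd (T : Matrix Y Y ℂ) (C : ℝ) : Prop := ∀ v, PJ_nr (T *ᵥ v) ≤ C * PJ_nr v

theorem PJ_Bd_of_nsq {T : Matrix Y Y ℂ} {C : ℝ} (hC : 0 ≤ C)
    (h : ∀ v, nsq (T *ᵥ v) ≤ C ^ 2 * nsq v) : PJ_Bd T C := by
  intro v
  refine (pow_le_pow_iff_left₀ (PJ_nr_nonneg _) (mul_nonneg hC (PJ_nr_nonneg v)) two_ne_zero).1 ?_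
  rw [mul_pow, PJ_nr_sq, PJ_nr_sq]
  exact h v

theorem PJ_Bd.nsq {T : Matrix Y Y ℂ} {C : ℝ} (h : PJ_Bd T C) (v : Y → ℂ) :
    nsq (T *ᵥ v) ≤ C ^ 2 * nsq v := by
  rw [← PJ_nr_sq, ← PJ_nr_sq, ← mul_pow]
  exact pow_le_pow_left₀ (PJ_nr_nonneg _) (h v) 2

theorem PJ_Bd_zero : PJ_Bd (0 : Matrix Y Y ℂ) 0 := by
  intro v
  simp [PJ_nr]

theorem PJ_Bd.add {T T' : Matrix Y Y ℂ} {C C' : ℝ} (h : PJ_Bd T C) (h' : PJ_Bd T' C') :
    PJ_Bd (T + T') (C + C') := by
  intro v
  have h1 : PJ_nr ((T + T') *ᵥ v) ≤ PJ_nr (T *ᵥ v) + PJ_nr (T' *ᵥ v) := by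
    rw [add_mulVec]
    exact norm_add_le (WithLp.toLp 2 (T *ᵥ v) : EuclideanSpace ℂ Y) (WithLp.toLp 2 (T' *ᵥ v))
  linarith [h v, h' v]

theorem PJ_Bd.sub {T T' : Matrix Y Y ℂ} {C C' : ℝ} (h : PJ_Bd T C) (h' : PJ_Bd T' C') :
    PJ_Bd (T - T') (C + C') := by
  intro v
  have h1 : PJ_nr ((T - T') *ᵥ v) ≤ PJ_nr (T *ᵥ v) + PJ_nr (T' *ᵥ v) := by
    rw [sub_mulVec]
    exact norm_sub_le (WithLp.toLp 2 (T *ᵥ v) : EuclideanSpace ℂ Y) (WithLp.toLp 2 (T' *ᵥ v))
  linarith [h v, h' v]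

theorem PJ_Bd_sum {α : Type*} (s : Finset α) (T : α → Matrix Y Y ℂ) (C : ℝ)
    (h : ∀ a ∈ s, PJ_Bd (T a) C) : PJ_Bd (∑ a ∈ s, T a) (s.card * C) := by
  classical
  induction s using Finset.induction_on with
  | empty => simpa using PJ_Bd_zero
  | insert a s ha ih =>
    rw [sum_insert ha, card_insert_of_notMem ha]
    have h1 := (h a (mem_insert_self a s)).add (ih fun b hb => h b (mem_insert_of_mem hb))
    convert h1 using 1
    push_cast
    ring

theorem PJ_Bd.mul {T T' : Matrix Y Y ℂ} {C C' : ℝ} (hC : 0 ≤ C) (h : PJ_Bd T C)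
    (h' : PJ_Bd T' C') : PJ_Bd (T * T') (C * C') := by
  intro v
  rw [← mulVec_mulVec, mul_assoc]
  exact (h _).trans (mul_le_mul_of_nonneg_left (h' v) hC)

theorem PJ_Bd_of_smul {T : Matrix Y Y ℂ} {C : ℝ} {m : ℕ} (hm : 0 < m)
    (h : PJ_Bd (m • T) (m * C)) : PJ_Bd T C := by
  intro v
  have h1 : PJ_nr ((m • T) *ᵥ v) = m * PJ_nr (T *ᵥ v) := by
    rw [smul_mulVec, ← Nat.cast_smul_eq_nsmul ℂ]
    have := norm_smul (m : ℂ) (WithLp.toLp 2 (T *ᵥ v) : EuclideanSpace ℂ Y)
    rw [Complex.norm_natCast] at this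
    exact this
  have h2 := h v
  rw [h1, mul_assoc] at h2
  exact le_of_mul_le_mul_left h2 (by exact_mod_cast hm)

/-- Cauchy-Schwarz for a sum of products. -/
theorem PJ_cs {W : Type*} [Fintype W] (U R V : W → Matrix Y Y ℂ) {x : ℝ} (hx : 0 ≤ x)
    (hU : ∀ v, ∑ w, nsq ((U w)ᴴ *ᵥ v) ≤ x * nsq v) (hR : ∀ w v, nsq (R w *ᵥ v) ≤ nsq v)
    (hV : ∀ v, ∑ w, nsq (V w *ᵥ v) ≤ x * nsq v) : PJ_Bd (∑ w, U w * (R w * V w)) x := by
  refine PJ_Bd_of_nsq hx fun z => ?_
  set u := (∑ w, U w * (R w * V w)) *ᵥ z with hu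
  have h1 : (nsq u : ℂ) = ∑ w, star ((U w)ᴴ *ᵥ u) ⬝ᵥ (R w *ᵥ (V w *ᵥ z)) := by
    rw [nsq_eq]
    conv_lhs => rw [hu]
    rw [← hu, hu, sum_mulVec, dotProduct_sum, ← sum_mulVec, ← hu]
    refine sum_congr rfl fun w _ => ?_
    rw [← mulVec_mulVec, ← mulVec_mulVec, dot_mulVec]
  have h2 : nsq u ≤ ∑ w, PJ_nr ((U w)ᴴ *ᵥ u) * PJ_nr (V w *ᵥ z) := by
    have h3 : nsq u = ‖(nsq u : ℂ)‖ := by
      rw [Complex.norm_real, Real.norm_of_nonneg (nsq_nonneg _)]
    rw [h3, h1]
    refine (norm_sum_le _ _).trans (sum_le_sum fun w _ => ?_)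
    refine (pow_le_pow_iff_left₀ (norm_nonneg _) (mul_nonneg (PJ_nr_nonneg _) (PJ_nr_nonneg _))
      two_ne_zero).1 ?_
    rw [mul_pow, PJ_nr_sq, PJ_nr_sq]
    exact (dot_le _ _).trans (mul_le_mul_of_nonneg_left (hR w _) (nsq_nonneg _))
  have h4 : nsq u ^ 2 ≤ (x * nsq u) * (x * nsq z) := by
    refine (pow_le_pow_left₀ (nsq_nonneg _) h2 2).trans ?_
    refine (sum_mul_sq_le_sq_mul_sq univ _ _).trans ?_
    simp only [PJ_nr_sq]
    exact mul_le_mul (hU u) (hV z) (sum_nonneg fun w _ => nsq_nonneg _)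
      (mul_nonneg hx (nsq_nonneg _))
  rcases (nsq_nonneg u).eq_or_lt with e | e
  · rw [← e]
    exact mul_nonneg (sq_nonneg _) (nsq_nonneg _)
  · nlinarith

end norm

section main

variable {ι X : Type*} [Fintype ι] [DecidableEq ι] [Fintype X] [DecidableEq X]

/-- The sum attached to a labelling. -/
noncomputable def PJ_I (A : X → Matrix X X ℂ) (Λ : Finset ι) (c : ι → Option ι) :
    Matrix (ι → X) (ι → X) ℂ :=
  ∑ w ∈ injs X Λ, tens fun i => (c i).elim 1 fun b => A (w b)

/-- Labels in `P` are used once, labels in `Q` at least twice. -/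
structure PJ_ok (P Q : Finset ι) (c : ι → Option ι) : Prop where
  disj : ∀ b ∈ P, b ∉ Q
  mem : ∀ i b, c i = some b → b ∈ P ∨ b ∈ Q
  once : ∀ b ∈ P, ∃ i, c i = some b ∧ ∀ j, c j = some b → j = i
  twice : ∀ b ∈ Q, ∃ i j, i ≠ j ∧ c i = some b ∧ c j = some b

/-- Forgetting a label. -/
def PJ_del (c : ι → Option ι) (b0 : ι) : ι → Option ι :=
  fun i => if c i = some b0 then none else c i

/-- Renaming a label. -/
def PJ_ren (c : ι → Option ι) (b0 b1 : ι) : ι → Option ι :=
  fun i => if c i = some b0 then some b1 else c i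

theorem PJ_rec (A : X → Matrix X X ℂ) {Λ : Finset ι} {b0 : ι} (hb : b0 ∉ Λ) (c : ι → Option ι) :
    Fintype.card X • PJ_I A (insert b0 Λ) c =
      (∑ v, tens fun i => if c i = some b0 then A v else 1) * PJ_I A Λ (PJ_del c b0) -
        ∑ b1 ∈ Λ, PJ_I A Λ (PJ_ren c b0 b1) := by
  have h := inj_insert (X := X) hb
    (fun w v => tens fun i => (c i).elim 1 fun b => if b = b0 then A v else A (w b)) (by
      intro w v v'
      congr 1
      funext i
      cases c i with
      | none => rfl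
      | some b =>
        simp only [Option.elim_some]
        by_cases e : b = b0
        · simp only [if_pos e]
        · simp only [if_neg e, Function.update_of_ne e])
  have e1 : PJ_I A (insert b0 Λ) c = ∑ w ∈ injs X (insert b0 Λ),
      tens fun i => (c i).elim 1 fun b => if b = b0 then A (w b0) else A (w b) := by
    refine sum_congr rfl fun w _ => ?_
    congr 1
    funext i
    cases c i with
    | none => rfl
    | some b =>
      simp only [Option.elim_some]
      by_cases e : b = b0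
      · rw [if_pos e, e]
      · rw [if_neg e]
  rw [e1, h]
  congr 1
  · rw [PJ_I, mul_sum]
    refine sum_congr rfl fun w _ => ?_
    rw [sum_mul]
    refine sum_congr rfl fun v _ => ?_
    rw [tens_mul]
    congr 1
    funext i
    unfold PJ_del
    cases hci : c i with
    | none => simp
    | some b =>
      by_cases e : b = b0
      · simp [e]
      · simp [e]
  · refine sum_congr rfl fun b1 _ => sum_congr rfl fun w _ => ?_
    congr 1
    funext i
    unfold PJ_ren
    cases hci : c i with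
    | none => simp
    | some b =>
      by_cases e : b = b0
      · simp [e]
      · simp [e]

omit [Fintype ι] in
theorem PJ_ren_ne {c : ι → Option ι} {b0 b1 b : ι} (h0 : b ≠ b0) (h1 : b ≠ b1) (i : ι) :
    PJ_ren c b0 b1 i = some b ↔ c i = some b := by
  unfold PJ_ren
  by_cases e : c i = some b0
  · rw [if_pos e, e]
    simp [h0.symm, h1.symm]
  · rw [if_neg e]

omit [Fintype ι] in
theorem PJ_ren_of {c : ι → Option ι} {b0 b1 b : ι} (h0 : b ≠ b0) {i : ι} (h : c i = some b) :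
    PJ_ren c b0 b1 i = some b := by
  unfold PJ_ren
  rw [if_neg, h]
  rw [h]
  simpa using h0

omit [Fintype ι] in
theorem PJ_ren_mem {c : ι → Option ι} {b0 b1 b : ι} {i : ι} (h : PJ_ren c b0 b1 i = some b) :
    b = b1 ∨ (c i = some b ∧ b ≠ b0) := by
  unfold PJ_ren at h
  by_cases e : c i = some b0
  · rw [if_pos e] at h
    exact Or.inl (Option.some.inj h).symm
  · rw [if_neg e] at h
    exact Or.inr ⟨h, fun e' => e (e' ▸ h)⟩

omit [Fintype ι] in
theorem PJ_ok.ren1 {P Q : Finset ι} {c : ι → Option ι} {b0 b1 : ι} (hb : b0 ∉ P)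
    (h : PJ_ok (insert b0 P) Q c) (h1 : b1 ∈ P) :
    PJ_ok (P.erase b1) (insert b1 Q) (PJ_ren c b0 b1) := by
  have hQ : b0 ∉ Q := h.disj b0 (mem_insert_self _ _)
  refine ⟨fun b hb' => ?_, fun i b hi => ?_, fun b hb' => ?_, fun b hb' => ?_⟩
  · rw [mem_insert, not_or]
    exact ⟨ne_of_mem_erase hb', h.disj b (mem_insert_of_mem (mem_of_mem_erase hb'))⟩
  · by_cases e : b = b1
    · exact Or.inr (e ▸ mem_insert_self _ _)
    · rcases PJ_ren_mem hi with e' | ⟨e1, e2⟩
      · exact absurd e' e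
      · rcases h.mem i b e1 with e3 | e3
        · exact Or.inl (mem_erase.2 ⟨e, (mem_insert.1 e3).resolve_left e2⟩)
        · exact Or.inr (mem_insert_of_mem e3)
  · have e0 : b ≠ b0 := fun e => hb (e ▸ mem_of_mem_erase hb')
    obtain ⟨i, hi, hj⟩ := h.once b (mem_insert_of_mem (mem_of_mem_erase hb'))
    exact ⟨i, PJ_ren_of e0 hi, fun j e => hj j ((PJ_ren_ne e0 (ne_of_mem_erase hb') j).1 e)⟩
  · rcases mem_insert.1 hb' with e | e
    · subst e
      have e0 : b ≠ b0 := fun e => hb (e ▸ h1)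
      obtain ⟨i, hi, -⟩ := h.once b (mem_insert_of_mem h1)
      obtain ⟨j, hj, -⟩ := h.once b0 (mem_insert_self _ _)
      refine ⟨i, j, fun e => e0 (Option.some.inj (hi.symm.trans (e ▸ hj))), PJ_ren_of e0 hi, ?_⟩
      unfold PJ_ren
      rw [if_pos hj]
    · have e0 : b ≠ b0 := fun e' => hQ (e' ▸ e)
      obtain ⟨i, j, hij, hi, hj⟩ := h.twice b e
      exact ⟨i, j, hij, PJ_ren_of e0 hi, PJ_ren_of e0 hj⟩

omit [Fintype ι] in
theorem PJ_ok.ren2 {P Q P' Q' : Finset ι} {c : ι → Option ι} {b0 b1 : ι} (h : PJ_ok P' Q' c)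
    (hP : ∀ b, b ∈ P ↔ b ∈ P' ∧ b ≠ b0) (hQ : ∀ b, b ∈ Q ↔ b ∈ Q' ∧ b ≠ b0) (h1 : b1 ∈ Q) :
    PJ_ok P Q (PJ_ren c b0 b1) := by
  refine ⟨fun b hb' e => h.disj b ((hP b).1 hb').1 ((hQ b).1 e).1, fun i b hi => ?_,
    fun b hb' => ?_, fun b hb' => ?_⟩
  · rcases PJ_ren_mem hi with e' | ⟨e1, e2⟩
    · exact Or.inr (e' ▸ h1)
    · exact (h.mem i b e1).imp (fun e => (hP b).2 ⟨e, e2⟩) fun e => (hQ b).2 ⟨e, e2⟩
  · obtain ⟨e1, e0⟩ := (hP b).1 hb'
    have e2 : b ≠ b1 := fun e => h.disj b e1 (e ▸ ((hQ b1).1 h1).1)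
    obtain ⟨i, hi, hj⟩ := h.once b e1
    exact ⟨i, PJ_ren_of e0 hi, fun j e => hj j ((PJ_ren_ne e0 e2 j).1 e)⟩
  · obtain ⟨e1, e0⟩ := (hQ b).1 hb'
    obtain ⟨i, j, hij, hi, hj⟩ := h.twice b e1
    exact ⟨i, j, hij, PJ_ren_of e0 hi, PJ_ren_of e0 hj⟩

omit [Fintype ι] in
theorem PJ_ok.del {Q : Finset ι} {c : ι → Option ι} {b0 : ι} (hb : b0 ∉ Q)
    (h : PJ_ok ∅ (insert b0 Q) c) : PJ_ok ∅ Q (PJ_del c b0) := by
  refine ⟨fun b hb' => absurd hb' (notMem_empty _), fun i b hi => ?_,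
    fun b hb' => absurd hb' (notMem_empty _), fun b hb' => ?_⟩
  · unfold PJ_del at hi
    by_cases e : c i = some b0
    · rw [if_pos e] at hi
      exact absurd hi (by simp)
    · rw [if_neg e] at hi
      refine (h.mem i b hi).imp id fun e1 => (mem_insert.1 e1).resolve_left fun e2 => e ?_
      rw [← e2]
      exact hi
  · have e0 : b ≠ b0 := fun e => hb (e ▸ hb')
    obtain ⟨i, j, hij, hi, hj⟩ := h.twice b (mem_insert_of_mem hb')
    have e1 : ∀ k, c k = some b → PJ_del c b0 k = some b := by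
      intro k hk
      unfold PJ_del
      rw [if_neg, hk]
      rw [hk]
      simpa using e0
    exact ⟨i, j, hij, e1 i hi, e1 j hj⟩

theorem PJ_merged (A : X → Matrix X X ℂ) {x : ℝ} (hx : 0 ≤ x)
    (hc : ∀ (c : ι → Option X) v, nsq (tens (fun i => (c i).elim 1 A) *ᵥ v) ≤ nsq v)
    (h1 : ∀ (i : ι) v, ∑ w, nsq (tens (Function.update (fun _ => 1) i (A w)) *ᵥ v) ≤ x * nsq v)
    (h2 : ∀ (i : ι) v, ∑ w, nsq (tens (Function.update (fun _ => 1) i (A w)ᴴ) *ᵥ v) ≤ x * nsq v)
    (p : ι → Prop) [DecidablePred p] {i j : ι} (hij : i ≠ j) (hi : p i) (hj : p j) :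
    PJ_Bd (∑ v, tens fun k => if p k then A v else 1) x := by
  have h := PJ_cs (fun v => tens (Function.update (fun _ : ι => 1) i (A v)))
    (fun v => tens fun k => (if p k ∧ k ≠ i ∧ k ≠ j then some v else none : Option X).elim 1 A)
    (fun v => tens (Function.update (fun _ : ι => 1) j (A v))) hx (by
      intro v
      refine le_trans (le_of_eq (sum_congr rfl fun w _ => ?_)) (h2 i v)
      rw [tens_conjT]
      congr 3
      funext k
      by_cases e : k = i
      · subst e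
        simp
      · simp [Function.update_of_ne e]) (fun v => hc _) (h1 j)
  convert h using 2 with v
  rw [tens_mul, tens_mul]
  congr 1
  funext k
  by_cases e : k = i
  · subst e
    simp [hi, Function.update_of_ne hij]
  · by_cases e' : k = j
    · subst e'
      simp [hj, Function.update_of_ne e]
    · by_cases e2 : p k
      · simp [e, e', e2]
      · simp [e, e', e2]

theorem PJ_main [Nonempty X] (A : X → Matrix X X ℂ) {x : ℝ} (hx : 0 ≤ x) (h0 : ∑ w, A w = 0)
    (hc : ∀ (c : ι → Option X) v, nsq (tens (fun i => (c i).elim 1 A) *ᵥ v) ≤ nsq v)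
    (h1 : ∀ (i : ι) v, ∑ w, nsq (tens (Function.update (fun _ => 1) i (A w)) *ᵥ v) ≤ x * nsq v)
    (h2 : ∀ (i : ι) v, ∑ w, nsq (tens (Function.update (fun _ => 1) i (A w)ᴴ) *ᵥ v) ≤ x * nsq v)
    (n : ℕ) : ∀ (P Q : Finset ι) (c : ι → Option ι), PJ_ok P Q c → P.card + Q.card = n →
      PJ_Bd (PJ_I A (P ∪ Q) c)
        ((Fintype.card X : ℝ) ^ (Fintype.card ι - n) * Jf x P.card Q.card) := by
  induction n with
  | zero =>
    intro P Q c h hn
    have hP : P = ∅ := card_eq_zero.1 (by omega)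
    have hQ : Q = ∅ := card_eq_zero.1 (by omega)
    subst hP hQ
    have e1 : ∀ i, c i = none := by
      intro i
      cases hci : c i with
      | none => rfl
      | some b => simpa using h.mem i b hci
    have e2 : injs X ((∅ : Finset ι) ∪ ∅) = univ := by
      ext w
      simp [injs]
    have e3 := PJ_Bd_sum (univ : Finset (ι → X))
      (fun w => tens fun i => (c i).elim 1 fun b => A (w b)) 1 (fun w _ v => by
        simp only [e1, Option.elim_none, tens_one, one_mulVec, one_mul, le_refl])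
    rw [PJ_I, e2]
    convert e3 using 1
    simp [Jf, Dl]
  | succ n ih =>
    intro P Q c h hn
    have hle : n + 1 ≤ Fintype.card ι := by
      rw [← hn, ← card_union_of_disjoint (disjoint_left.2 h.disj)]
      exact card_le_univ _
    have hpow : (Fintype.card X : ℝ) ^ (Fintype.card ι - n) =
        Fintype.card X * (Fintype.card X : ℝ) ^ (Fintype.card ι - (n + 1)) := by
      rw [← pow_succ']
      congr 1
      omega
    refine PJ_Bd_of_smul (Fintype.card_pos (α := X)) ?_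
    rcases P.eq_empty_or_nonempty with hP | ⟨b0, hb0⟩
    · subst hP
      obtain ⟨b0, hb0⟩ : Q.Nonempty := card_pos.1 (by simp at hn; omega)
      obtain ⟨Q, hQ, rfl⟩ : ∃ Q', b0 ∉ Q' ∧ Q = insert b0 Q' :=
        ⟨Q.erase b0, notMem_erase _ _, (insert_erase hb0).symm⟩
      rw [card_insert_of_notMem hQ] at hn ⊢
      obtain ⟨i, j, hij, hi, hj⟩ := h.twice b0 hb0
      have e1 := PJ_merged A hx hc h1 h2 (fun k => c k = some b0) hij hi hj
      have e2 := ih ∅ Q _ (h.del hQ) (by omega)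
      have e3 := PJ_Bd_sum Q (fun b1 => PJ_I A (∅ ∪ Q) (PJ_ren c b0 b1)) _ (fun b1 hb1 =>
        ih ∅ Q _ (h.ren2 (by simp) (fun b => by
          rw [mem_insert]
          exact ⟨fun e => ⟨Or.inr e, fun e' => hQ (e' ▸ e)⟩, fun e => e.1.resolve_left e.2⟩) hb1)
          (by omega))
      rw [empty_union] at e2 e3 ⊢
      rw [PJ_rec A hQ c]
      convert (e1.mul hx e2).sub e3 using 1
      rw [card_empty, Jf_zero, hpow]
      ring
    · obtain ⟨P, hP, rfl⟩ : ∃ P', b0 ∉ P' ∧ P = insert b0 P' :=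
        ⟨P.erase b0, notMem_erase _ _, (insert_erase hb0).symm⟩
      have hQ : b0 ∉ Q := h.disj b0 hb0
      have hd : Disjoint P Q := disjoint_left.2 fun b hb => h.disj b (mem_insert_of_mem hb)
      rw [card_insert_of_notMem hP] at hn ⊢
      obtain ⟨i, hi, hj⟩ := h.once b0 hb0
      have e1 : (∑ v, tens fun k => if c k = some b0 then A v else 1) = 0 := by
        have e4 : ∀ v, (fun k => if c k = some b0 then A v else 1) =
            Function.update (fun _ => 1) i (A v) := by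
          intro v
          funext k
          by_cases e : k = i
          · subst e
            simp [hi]
          · rw [Function.update_of_ne e, if_neg fun e' => e (hj k e')]
        simp only [e4]
        rw [tens_update_sum, h0]
        exact tens_zero (Function.update_self i 0 _)
      have e2 := PJ_Bd_sum P (fun b1 => PJ_I A (P ∪ Q) (PJ_ren c b0 b1))
        ((Fintype.card X : ℝ) ^ (Fintype.card ι - n) * Jf x (P.card - 1) (Q.card + 1))
        (fun b1 hb1 => by
          have hb1' : b1 ∉ Q := disjoint_left.1 hd hb1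
          have e5 := card_pos.2 ⟨b1, hb1⟩
          have e4 := ih (P.erase b1) (insert b1 Q) _ (h.ren1 hP hb1) (by
            rw [card_erase_of_mem hb1, card_insert_of_notMem hb1']
            omega)
          rw [card_erase_of_mem hb1, card_insert_of_notMem hb1', union_insert, ← insert_union,
            insert_erase hb1] at e4
          exact e4)
      have e3 := PJ_Bd_sum Q (fun b1 => PJ_I A (P ∪ Q) (PJ_ren c b0 b1)) _ (fun b1 hb1 =>
        ih P Q _ (h.ren2 (fun b => by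
          rw [mem_insert]
          exact ⟨fun e => ⟨Or.inr e, fun e' => hP (e' ▸ e)⟩, fun e => e.1.resolve_left e.2⟩)
          (fun b => ⟨fun e => ⟨e, fun e' => hQ (e' ▸ e)⟩, fun e => e.1⟩) hb1) (by omega))
      rw [insert_union, PJ_rec A (by simp [hP, hQ]) c, e1, Matrix.zero_mul, sum_union hd]
      convert PJ_Bd_zero.sub (e2.add e3) using 1
      rw [Jf_succ, hpow]
      ring

end main

theorem der_bound {ι X : Type*} [Fintype ι] [DecidableEq ι] [Fintype X] [DecidableEq X]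
    [Nonempty X] (A : X → Matrix X X ℂ) {x : ℝ} (hx : 0 ≤ x) (h0 : ∑ w, A w = 0)
    (hc : ∀ (c : ι → Option X) v, nsq (tens (fun i => (c i).elim 1 A) *ᵥ v) ≤ nsq v)
    (h1 : ∀ (i : ι) v, ∑ w, nsq (tens (Function.update (fun _ => 1) i (A w)) *ᵥ v) ≤ x * nsq v)
    (h2 : ∀ (i : ι) v, ∑ w, nsq (tens (Function.update (fun _ => 1) i (A w)ᴴ) *ᵥ v) ≤ x * nsq v)
    (S : Finset ι) (v : (ι → X) → ℂ) :
    nsq ((∑ w ∈ injs X S, tens fun i => if i ∈ S then A (w i) else 1) *ᵥ v) ≤
      ((Fintype.card X : ℝ) ^ (Fintype.card ι - S.card) * Dl x S.card) ^ 2 * nsq v := by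
  have hok : PJ_ok S ∅ (fun i => if i ∈ S then some i else none) := by
    refine ⟨fun b _ => notMem_empty b, fun i b hi => ?_, fun b hb => ⟨b, if_pos hb, fun j hj => ?_⟩,
      fun b hb => absurd hb (notMem_empty _)⟩
    · by_cases e : i ∈ S
      · rw [if_pos e] at hi
        exact Or.inl (Option.some.inj hi ▸ e)
      · rw [if_neg e] at hi
        exact absurd hi (by simp)
    · by_cases e : j ∈ S
      · rw [if_pos e] at hj
        exact Option.some.inj hj
      · rw [if_neg e] at hj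
        exact absurd hj (by simp)
  have h := (PJ_main A hx h0 hc h1 h2 S.card S ∅ _ hok (by simp)).nsq v
  rw [union_empty, card_empty, Jf, PJ_I] at h
  convert h using 6 with w _ i
  by_cases e : i ∈ S
  · simp [e]
  · simp [e]

end Pool.Agent.Work.MP_66fdf3_co.BP
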