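import Pool.Agent.Work.MP_66fdf3_co.BP.Irr
import Pool.Agent.Work.MP_66fdf3_co.BP.GBas

/-!
Existence of the spectral package.

Plan. `C u = ∑ g, rho (g * u * g⁻¹)` is invariant and commutes with every invariant matrix
(`InSpan.comm`, or termwise). For a minimal `F` of trace `d` (`Proj.exists_basis`, `d > 0`) put
`om u = trace (rho u * F) / d`; Schur and traces give `C u * F = (|G| * om u) • F`.
For any `A`, `Φ = ∑ u, rho u * F' * A * F * rho u⁻¹` is invariant and `Φ = F' * Φ * F`.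
With `A = single a b 1`: `∑ a b, Φ a b = ∑ u, trace (rho u * F') * trace (F * rho u⁻¹)`.
If `F' = F`, Schur gives `Φ = (|G| * trace (F * A) / d) • F`, and the sum is `|G|` (`irr_self`).
If `om' v ≠ om v` then `C v * Φ = Φ * C v` gives `Φ = 0` (`irr_ne`).
Assembly: apply `exists_irr` to `1 - E0`; the set of types is the image of `i ↦ om i`
(`Finset.image`, `Finset.equivFin`), `E j` is the sum of the `F i` with `om i = j`, `mu j` their
number; they have the same trace `d j` because of `irr_self`. For `none`: `om = 1`;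
`∑ u, rho u = |G| • E0` by transitivity, and `F i * E0 = 0`.
-/

namespace Pool.Agent.Work.MP_66fdf3_co.BP

open Finset Matrix

variable {G Ω : Type*} [Group G] [MulAction G Ω] [Fintype G] [Fintype Ω] [DecidableEq Ω]

theorem sum_rho (htr : ∀ x y : Ω, ∃ g : G, g • x = y) :
    ∑ g : G, rho Ω g = (Fintype.card G : ℂ) • E0 Ω := by
  ext x y
  have h0 : (Fintype.card Ω : ℂ) ≠ 0 := Nat.cast_ne_zero.2 (Fintype.card_pos_iff.2 ⟨x⟩).ne'
  simp only [Matrix.sum_apply, rho, of_apply, Matrix.smul_apply, E0, smul_eq_mul, sum_boole]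
  rw [← card_fib htr y x, Nat.cast_mul, mul_right_comm, mul_inv_cancel₀ h0, one_mul]

variable (G) in
/-- Minimal invariant projections. -/
def SpecE_Min (F : Matrix Ω Ω ℂ) : Prop :=
  Proj F ∧ Invt G F ∧ F ≠ 0 ∧ ∀ A, Invt G A → ∃ c : ℂ, F * A * F = c • F

/-- The normalised character. -/
noncomputable def SpecE_om (F : Matrix Ω Ω ℂ) (u : G) : ℂ := (rho Ω u * F).trace / F.trace

theorem SpecE_invt (u : G) : Invt G (∑ g : G, rho Ω (g * u * g⁻¹)) := fun k => by
  rw [sum_mul, mul_sum, ← Equiv.sum_comp (Equiv.mulLeft k)]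
  refine sum_congr rfl fun g _ => ?_
  rw [rho_mul, rho_mul]
  congr 1
  simp [mul_assoc]

theorem SpecE_comm (u : G) {A : Matrix Ω Ω ℂ} (hA : Invt G A) :
    (∑ g : G, rho Ω (g * u * g⁻¹)) * A = A * ∑ g : G, rho Ω (g * u * g⁻¹) := by
  rw [sum_mul, mul_sum]
  exact sum_congr rfl fun g _ => (hA _).symm

omit [Fintype G] in
theorem SpecE_conj (g : G) (A : Matrix Ω Ω ℂ) : (rho Ω g * A * rho Ω g⁻¹).trace = A.trace := by
  rw [trace_mul_cycle, rho_mul, inv_mul_cancel, rho_one, Matrix.one_mul]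

/-- The averaged intertwiner. -/
noncomputable def SpecE_Phi (G : Type*) [Group G] [MulAction G Ω] [Fintype G]
    (B : Matrix Ω Ω ℂ) : Matrix Ω Ω ℂ := ∑ u : G, rho Ω u * B * rho Ω u⁻¹

theorem SpecE_Phi_invt (B : Matrix Ω Ω ℂ) : Invt G (SpecE_Phi G B) := fun k => by
  rw [SpecE_Phi, sum_mul, mul_sum, ← Equiv.sum_comp (Equiv.mulLeft k)]
  refine sum_congr rfl fun g _ => ?_
  simp only [Equiv.coe_mulLeft, ← Matrix.mul_assoc, rho_mul]
  rw [Matrix.mul_assoc _ (rho Ω (k * g)⁻¹), rho_mul]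
  simp

theorem SpecE_Phi_left {F : Matrix Ω Ω ℂ} (h : Invt G F) (B : Matrix Ω Ω ℂ) :
    F * SpecE_Phi G B = SpecE_Phi G (F * B) := by
  simp only [SpecE_Phi, mul_sum, ← Matrix.mul_assoc, h _]

theorem SpecE_Phi_right {F : Matrix Ω Ω ℂ} (h : Invt G F) (B : Matrix Ω Ω ℂ) :
    SpecE_Phi G B * F = SpecE_Phi G (B * F) := by
  simp only [SpecE_Phi, sum_mul, Matrix.mul_assoc, h _]

theorem SpecE_Phi_sum {F F' : Matrix Ω Ω ℂ} (h : Invt G F) :
    ∑ a, ∑ b, SpecE_Phi G (F' * single a b 1 * F) a b =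
      ∑ u : G, (rho Ω u⁻¹ * F).trace * (rho Ω u * F').trace := by
  have e : ∀ (u : G) (a b : Ω), (rho Ω u * (F' * single a b (1 : ℂ) * F) * rho Ω u⁻¹) a b =
      (rho Ω u⁻¹ * F) b b * (rho Ω u * F') a a := fun u a b => by
    rw [← h, ← Matrix.mul_assoc, ← Matrix.mul_assoc, Matrix.mul_assoc _ F, mul_apply,
      sum_eq_single b (fun c _ hc => by rw [mul_single_apply_of_ne _ _ _ _ _ hc, zero_mul])
      (fun hb => absurd (mem_univ b) hb), mul_single_apply_same, mul_one, mul_comm]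
  simp only [SpecE_Phi, Matrix.sum_apply, e, trace, diag_apply, sum_mul_sum]
  rw [sum_congr rfl fun a _ => sum_comm, sum_comm]
  exact sum_congr rfl fun u _ => sum_comm

namespace SpecE_Min

variable {F F' : Matrix Ω Ω ℂ} (h : SpecE_Min G F)
include h

omit [Fintype G] in
theorem dim : ∃ n : ℕ, 0 < n ∧ F.trace = n := by
  obtain ⟨n, U, h1, -, h2⟩ := h.1.exists_basis
  refine ⟨n, Nat.pos_of_ne_zero ?_, h2⟩
  rintro rfl
  exact h.2.2.1 (by rw [← h1]; ext x y; simp [mul_apply])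

omit [Fintype G] in
theorem tr_ne : F.trace ≠ 0 := by
  obtain ⟨n, h1, h2⟩ := h.dim
  rw [h2]
  exact Nat.cast_ne_zero.2 h1.ne'

theorem cls (u : G) : (∑ g : G, rho Ω (g * u * g⁻¹)) * F =
    ((Fintype.card G : ℂ) * SpecE_om F u) • F := by
  obtain ⟨c, hc⟩ := h.2.2.2 _ (SpecE_invt u)
  rw [← SpecE_comm u h.2.1, Matrix.mul_assoc, h.1.2] at hc
  have e := congrArg trace hc
  have e1 : ∀ g : G, (rho Ω (g * u * g⁻¹) * F).trace = (rho Ω u * F).trace := fun g => by
    rw [← SpecE_conj g (rho Ω u * F), ← rho_mul, ← rho_mul, Matrix.mul_assoc, ← h.2.1]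
    simp only [Matrix.mul_assoc]
  rw [sum_mul, trace_sum, trace_smul] at e
  simp only [e1, sum_const, card_univ, nsmul_eq_mul, smul_eq_mul] at e
  rw [hc, SpecE_om, ← mul_div_assoc, e, mul_div_cancel_right₀ _ h.tr_ne]

theorem self : (∑ u : G, SpecE_om F u⁻¹ * SpecE_om F u) * F.trace ^ 2 = Fintype.card G := by
  have h0 := h.tr_ne
  have e : ∀ a b, SpecE_Phi G (F * single a b 1 * F) a b =
      Fintype.card G / F.trace * (F b a * F a b) := fun a b => by
    obtain ⟨c, hc⟩ := h.2.2.2 _ (SpecE_Phi_invt (F * single a b 1 * F))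
    rw [SpecE_Phi_left h.2.1, SpecE_Phi_right h.2.1, ← Matrix.mul_assoc, ← Matrix.mul_assoc, h.1.2,
      Matrix.mul_assoc _ F, h.1.2] at hc
    have e := congrArg trace hc
    rw [SpecE_Phi, trace_sum, trace_smul] at e
    simp only [SpecE_conj, sum_const, card_univ, nsmul_eq_mul, smul_eq_mul] at e
    rw [trace_mul_cycle, h.1.2, trace_mul_single] at e
    rw [hc, Matrix.smul_apply, smul_eq_mul, eq_div_of_mul_eq h0 e.symm]
    simp only [MulOpposite.op_one, one_smul]
    ring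
  have e1 := SpecE_Phi_sum (F' := F) h.2.1
  have e2 : ∑ a, ∑ b, F b a * F a b = F.trace := by
    rw [sum_comm]
    conv_rhs => rw [← h.1.2]
    rfl
  simp only [e, ← mul_sum, e2, div_mul_cancel₀ _ h0] at e1
  rw [e1, sum_mul]
  refine sum_congr rfl fun u _ => ?_
  unfold SpecE_om
  field_simp

theorem ne (h' : SpecE_Min G F') (hn : SpecE_om (G := G) F ≠ SpecE_om F') :
    ∑ u : G, SpecE_om F u⁻¹ * SpecE_om F' u = 0 := by
  obtain ⟨v, hv⟩ := Function.ne_iff.1 hn
  have e : ∀ A, SpecE_Phi G (F' * A * F) = 0 := fun A => by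
    have e1 := SpecE_comm v (SpecE_Phi_invt (F' * A * F))
    have e2 : F' * SpecE_Phi G (F' * A * F) = SpecE_Phi G (F' * A * F) := by
      rw [SpecE_Phi_left h'.2.1, ← Matrix.mul_assoc, ← Matrix.mul_assoc, h'.1.2]
    have e3 : SpecE_Phi G (F' * A * F) * F = SpecE_Phi G (F' * A * F) := by
      rw [SpecE_Phi_right h.2.1, Matrix.mul_assoc, h.1.2]
    generalize SpecE_Phi G (F' * A * F) = Φ at *
    nth_rewrite 2 [← e3] at e1
    nth_rewrite 1 [← e2] at e1
    rw [← Matrix.mul_assoc, h'.cls, Matrix.mul_assoc, ← SpecE_comm v h.2.1, h.cls, smul_mul_assoc,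
      mul_smul_comm, e2, e3, ← sub_eq_zero, ← sub_smul, ← mul_sub, smul_eq_zero, mul_eq_zero,
      sub_eq_zero] at e1
    exact e1.resolve_left fun e => e.elim (Nat.cast_ne_zero.2 Fintype.card_ne_zero) (Ne.symm hv)
  have e1 := SpecE_Phi_sum (F' := F') h.2.1
  simp only [e, Matrix.zero_apply, sum_const_zero] at e1
  simp only [SpecE_om, div_mul_div_comm, ← sum_div, ← e1, zero_div]

end SpecE_Min

theorem SpecE_types {β : Type*} {n : ℕ} (ω : Fin n → β) : ∃ (k : ℕ) (τ : Fin n → Fin k)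
    (σ : Fin k → Fin n), (∀ j, τ (σ j) = j) ∧ ∀ i i', τ i = τ i' ↔ ω i = ω i' := by
  classical
  let τ : Fin n → Fin (univ.image ω).card := fun i =>
    (univ.image ω).equivFin ⟨ω i, mem_image_of_mem ω (mem_univ i)⟩
  have hs : Function.Surjective τ := fun j => by
    obtain ⟨⟨b, hb⟩, rfl⟩ := (univ.image ω).equivFin.surjective j
    obtain ⟨i, -, rfl⟩ := mem_image.1 hb
    exact ⟨i, rfl⟩
  exact ⟨_, τ, Function.surjInv hs, Function.surjInv_eq hs, fun i i' => by simp [τ]⟩

theorem exists_spec [Nonempty Ω] (htr : ∀ x y : Ω, ∃ g : G, g • x = y) : Nonempty (Spec G Ω) := by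
  obtain ⟨n, F, h1, h2, h3⟩ := exists_irr (G := G) (proj_E0 (X := Ω)).one_sub fun g => by
    rw [sub_mul, mul_sub, E0_mul_rho, rho_mul_E0, Matrix.one_mul, Matrix.mul_one]
  have hM : ∀ i, SpecE_Min G (F i) := h1
  choose dm hd0 hd using fun i => (hM i).dim
  obtain ⟨k, τ, σ, hσ, hτ⟩ := SpecE_types fun i => SpecE_om (G := G) (F i)
  have hG : (Fintype.card G : ℂ) ≠ 0 := Nat.cast_ne_zero.2 Fintype.card_ne_zero
  have hFF : ∀ i l, F i * F l = if i = l then F i else 0 := fun i l => by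
    split_ifs with e
    exacts [e ▸ (hM i).1.2, h2 i l e]
  have hl : ∀ i, E0 Ω * F i = 0 := fun i => by
    have e : (1 - E0 Ω) * F i = F i := by simp [← h3, sum_mul, hFF]
    rw [← e, ← Matrix.mul_assoc, mul_sub, Matrix.mul_one, proj_E0.2, sub_self, Matrix.zero_mul]
  have hr : ∀ i, F i * E0 Ω = 0 := fun i => by
    rw [← (hM i).1.1, ← proj_E0.1, ← conjTranspose_mul, hl, conjTranspose_zero]
  have ho : ∀ {i j}, τ i = j → SpecE_om (G := G) (F i) = SpecE_om (F (σ j)) := fun e =>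
    (hτ _ _).1 (e.trans (hσ _).symm)
  have he : ∀ {i j}, τ i = j → dm i = dm (σ j) := fun {i j} e => by
    have a := (hM i).self
    have b := (hM (σ j)).self
    rw [ho e, hd] at a
    rw [hd] at b
    have c := mul_left_cancel₀ (fun z => hG (by rw [← a, z, zero_mul])) (a.trans b.symm)
    exact Nat.pow_left_injective two_ne_zero (by exact_mod_cast c)
  have hz : ∀ i, ∑ u : G, SpecE_om (F i) u = 0 := fun i => by
    simp only [SpecE_om, ← sum_div, ← trace_sum, ← sum_mul]
    rw [sum_rho htr, smul_mul_assoc, hl, smul_zero, trace_zero, zero_div]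
  refine ⟨⟨k, fun j => j.elim (E0 Ω) fun j => ∑ i with τ i = j, F i,
    fun j => j.elim 1 fun j => dm (σ j), fun j => j.elim 1 fun j => (univ.filter (τ · = j)).card,
    fun j => j.elim 1 fun j => SpecE_om (F (σ j)), rfl, rfl, rfl, ?_, ?_, ?_, ?_, ?_, ?_, ?_, ?_,
    ?_⟩⟩
  · rintro (_ | j)
    exacts [one_pos, hd0 _]
  · rintro (_ | j)
    exacts [one_pos, card_pos.2 ⟨σ j, by simp [hσ]⟩]
  · rintro (_ | j)
    · exact proj_E0.1
    · exact (conjTranspose_sum _ _).trans (sum_congr rfl fun i _ => (hM i).1.1)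
  · rintro (_ | j) (_ | l)
    · exact proj_E0.2
    · simp [mul_sum, hl]
    · simp [sum_mul, hr]
    · simp only [Option.elim, sum_mul_sum, hFF, sum_ite_eq, mem_filter, mem_univ, true_and,
        Option.some.injEq]
      split_ifs with e
      · exact sum_congr rfl fun i hi => if_pos ((mem_filter.1 hi).2.trans e)
      · exact sum_eq_zero fun i hi => if_neg fun a => e ((mem_filter.1 hi).2.symm.trans a)
  · rw [Fintype.sum_option]
    simp only [Option.elim]
    rw [sum_fiberwise, h3, add_sub_cancel]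
  · rintro (_ | j) g
    · exact (E0_mul_rho g).trans (rho_mul_E0 g).symm
    · simp only [Option.elim, sum_mul, mul_sum]
      exact sum_congr rfl fun i _ => (hM i).2.1 g
  · rintro (_ | j) u
    · simp [sum_mul, rho_mul_E0, Nat.cast_smul_eq_nsmul]
    · simp only [Option.elim]
      rw [mul_sum, smul_sum]
      exact sum_congr rfl fun i hi => by rw [(hM i).cls, ho (mem_filter.1 hi).2]
  · rintro (_ | j) (_ | l)
    · simp
    · simp [hz]
    · have e : ∑ u : G, SpecE_om (F (σ j)) u⁻¹ = 0 :=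
        (Equiv.sum_comp (Equiv.inv G) (SpecE_om (F (σ j)))).trans (hz _)
      simp [e]
    · simp only [Option.elim, Option.some.injEq]
      split_ifs with e
      · rw [← e, ← hd, (hM _).self]
      · rw [(hM _).ne (hM _) fun a => e (by rw [← hσ j, (hτ _ _).2 a, hσ]), zero_mul]
  · rintro (_ | j)
    · simp [trace, E0]
    · simp only [Option.elim]
      rw [trace_sum, sum_congr rfl fun i hi => (hd i).trans
        (congrArg Nat.cast (he (mem_filter.1 hi).2)), sum_const, nsmul_eq_mul, mul_comm]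

end Pool.Agent.Work.MP_66fdf3_co.BP
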