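import Pool.Agent.Work.MP_66fdf3_co.BP.NDefs

/-!
Integration against `exp (- ∑ s)` on the positive orthant.

Plan. Let `L` be the integral over `A → ℝ` of `F s * ∏ α, indicator (Ioi 0) (exp (- ·)) (s α)`
(or use the product of the measures `volume.restrict (Ioi 0)`). For a monomial
`MeasureTheory.integral_fintype_prod_eq_prod` and `Real.Gamma` (`Real.Gamma_eq_integral`,
`Real.Gamma_nat_eq_factorial`) give `∏ (β α)!`; monomials are integrable
(`MeasureTheory.Integrable.fintype_prod`). State this as `mono_le`: for finite sums of monomials,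
an inequality on the orthant gives the inequality after replacing `s ^ β` by `β!`.
Expand `∏ j, (∑ α ∈ fibre j, s α) ^ a j` into monomials. It is enough to know its image:
induction, or `Finset.sum_pow_eq_sum_piAntidiag` with `multinomial * ∏ β! = a!` and
`card (piAntidiag s a) = choose (|s| + a - 1) a`, so that one block gives `ascFactorial |s| a`; the
blocks have disjoint variables. An alternative is to work in `MvPolynomial A ℝ` with the linear
functional `monomial β c ↦ c * ∏ β!`, which is multiplicative on disjoint sets of variables.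
-/

namespace Pool.Agent.Work.MP_66fdf3_co.BP

open Finset

open MeasureTheory in
theorem SphA_one (n : ℕ) :
    Integrable (fun x : ℝ => Real.exp (-x) * x ^ n) (volume.restrict (Set.Ioi 0)) ∧
      ∫ x in Set.Ioi (0 : ℝ), Real.exp (-x) * x ^ n = n.factorial := by
  have h0 : (0 : ℝ) < n + 1 := by positivity
  have h1 := Real.GammaIntegral_convergent h0
  have h2 := Real.Gamma_eq_integral h0
  rw [Real.Gamma_nat_eq_factorial] at h2
  simp only [add_sub_cancel_right, Real.rpow_natCast] at h1 h2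
  exact ⟨h1, h2.symm⟩

open MeasureTheory in
theorem SphA_fam {A K : Type*} [Fintype A] (T : Finset K) (c : K → ℝ) (β : K → A → ℕ) :
    Integrable (fun s : A → ℝ => (∑ k ∈ T, c k * ∏ α, s α ^ β k α) * ∏ α, Real.exp (-s α))
      (Measure.pi fun _ : A => volume.restrict (Set.Ioi (0 : ℝ))) ∧
    ∫ s : A → ℝ, (∑ k ∈ T, c k * ∏ α, s α ^ β k α) * ∏ α, Real.exp (-s α)
      ∂(Measure.pi fun _ : A => volume.restrict (Set.Ioi (0 : ℝ))) =
      ∑ k ∈ T, c k * ∏ α, ((β k α).factorial : ℝ) := by
  have e : (fun s : A → ℝ => (∑ k ∈ T, c k * ∏ α, s α ^ β k α) * ∏ α, Real.exp (-s α)) =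
      fun s => ∑ k ∈ T, c k * ∏ α, (Real.exp (-s α) * s α ^ β k α) := by
    funext s
    rw [sum_mul]
    refine sum_congr rfl fun k _ => ?_
    rw [prod_mul_distrib]
    ring
  have i : ∀ k ∈ T, Integrable (fun s : A → ℝ => c k * ∏ α, (Real.exp (-s α) * s α ^ β k α))
      (Measure.pi fun _ : A => volume.restrict (Set.Ioi (0 : ℝ))) := fun k _ =>
    (Integrable.fintype_prod (f := fun α (x : ℝ) => Real.exp (-x) * x ^ β k α)
      fun α => (SphA_one (β k α)).1).const_mul _
  rw [e]
  refine ⟨integrable_finsetSum T i, ?_⟩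
  rw [integral_finsetSum T i]
  refine sum_congr rfl fun k _ => ?_
  rw [integral_const_mul, integral_fintype_prod_eq_prod
    (fun α (x : ℝ) => Real.exp (-x) * x ^ β k α)]
  simp only [(SphA_one _).2]

open MeasureTheory in
theorem SphA_mono {A K K' : Type*} [Fintype A] (T : Finset K) (c : K → ℝ) (β : K → A → ℕ)
    (T' : Finset K') (c' : K' → ℝ) (β' : K' → A → ℕ)
    (h : ∀ s : A → ℝ, (∀ α, 0 < s α) →
      ∑ k ∈ T, c k * ∏ α, s α ^ β k α ≤ ∑ k ∈ T', c' k * ∏ α, s α ^ β' k α) :
    ∑ k ∈ T, c k * ∏ α, ((β k α).factorial : ℝ) ≤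
      ∑ k ∈ T', c' k * ∏ α, ((β' k α).factorial : ℝ) := by
  rw [← (SphA_fam T c β).2, ← (SphA_fam T' c' β').2]
  refine integral_mono_ae (SphA_fam T c β).1 (SphA_fam T' c' β').1 ?_
  have hp : ∀ᵐ s : A → ℝ ∂(Measure.pi fun _ : A => volume.restrict (Set.Ioi (0 : ℝ))),
      ∀ α, 0 < s α :=
    ae_all_iff.2 fun α => (Measure.tendsto_eval_ae_ae
      (μ := fun _ : A => volume.restrict (Set.Ioi (0 : ℝ))) (i := α)).eventually
        (ae_restrict_mem measurableSet_Ioi)
  filter_upwards [hp] with s hs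
  exact mul_le_mul_of_nonneg_right (h s hs) (prod_nonneg fun α _ => (Real.exp_pos _).le)

theorem SphA_step {A : Type*} [Fintype A] [DecidableEq A] (φ : A → ℕ → ℝ) (β : A → ℕ) (α : A)
    (r : ℝ) (h : φ α (β α + 1) = r * φ α (β α)) :
    ∏ x, φ x ((β + Pi.single α 1 : A → ℕ) x) = r * ∏ x, φ x (β x) := by
  rw [← mul_prod_erase univ _ (mem_univ α), ← mul_prod_erase univ (fun x => φ x (β x)) (mem_univ α),
    Pi.add_apply, Pi.single_eq_same, h, mul_assoc]
  congr 2
  refine prod_congr rfl fun x hx => ?_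
  rw [Pi.add_apply, Pi.single_eq_of_ne (ne_of_mem_erase hx), add_zero]

universe u in
theorem SphA_expand {A : Type u} {J : Type*} [Fintype A] [Fintype J] [DecidableEq J] (b : A → J)
    (n : ℕ) : ∀ a : J → ℕ, ∑ j, a j = n → ∃ (K : Type u) (_ : Fintype K) (β : K → A → ℕ),
      (∀ s : A → ℝ, ∏ j, (∑ α ∈ univ.filter fun α => b α = j, s α) ^ a j =
        ∑ k, ∏ α, s α ^ β k α) ∧
      (∀ k j, ∑ α ∈ univ.filter fun α => b α = j, β k α = a j) ∧
      ∑ k, ∏ α, ((β k α).factorial : ℝ) =
        ∏ j, (((univ.filter fun α => b α = j).card.ascFactorial (a j) : ℕ) : ℝ) := by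
  classical
  induction n with
  | zero =>
    intro a ha
    have h0 : ∀ j, a j = 0 := fun j => (sum_eq_zero_iff.1 ha) j (mem_univ j)
    exact ⟨PUnit, inferInstance, fun _ _ => 0, by simp [h0], by simp [h0], by simp [h0]⟩
  | succ n ih =>
    intro a ha
    obtain ⟨j, -, hj⟩ := exists_ne_zero_of_sum_ne_zero (ha ▸ n.succ_ne_zero : ∑ j, a j ≠ 0)
    obtain ⟨a', rfl⟩ : ∃ a' : J → ℕ, a = a' + Pi.single j 1 := by
      refine ⟨Function.update a j (a j - 1), funext fun i => ?_⟩
      by_cases h : i = j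
      · subst h
        simp only [Pi.add_apply, Function.update_self, Pi.single_eq_same]
        omega
      · simp [h]
    have ha' : ∑ i, a' i = n := by
      simp only [Pi.add_apply, sum_add_distrib, sum_pi_single', mem_univ, if_true] at ha
      omega
    obtain ⟨K, _, β, h1, h2, h3⟩ := ih a' ha'
    have hsub : ∀ f : A → ℝ, ∑ α : {α // b α = j}, f α = ∑ α ∈ univ.filter fun α => b α = j, f α :=
      fun f => (sum_subtype _ (by simp) f).symm
    refine ⟨K × {α // b α = j}, inferInstance, fun p => β p.1 + Pi.single p.2.1 1, ?_, ?_, ?_⟩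
    · intro s
      rw [SphA_step (fun i m => (∑ α ∈ univ.filter fun α => b α = i, s α) ^ m) a' j _
        (pow_succ' _ _), h1, Fintype.sum_prod_type, mul_sum]
      refine sum_congr rfl fun k _ => ?_
      rw [← hsub, sum_mul]
      exact sum_congr rfl fun α _ =>
        (SphA_step (fun x m => s x ^ m) (β k) α _ (pow_succ' _ _)).symm
    · rintro ⟨k, α, hα⟩ i
      simp only [Pi.add_apply, sum_add_distrib, h2, sum_pi_single', mem_filter, mem_univ, true_and,
        hα]
      simp only [Pi.single_apply, eq_comm]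
    · rw [SphA_step (fun i m => (((univ.filter fun α => b α = i).card.ascFactorial m : ℕ) : ℝ))
        a' j ((univ.filter fun α => b α = j).card + a' j) (by
          rw [Nat.ascFactorial_succ]; push_cast; ring), ← h3, Fintype.sum_prod_type, mul_sum]
      refine sum_congr rfl fun k _ => ?_
      have e : ((univ.filter fun α => b α = j).card + a' j : ℝ) =
          ∑ α ∈ univ.filter fun α => b α = j, ((β k α : ℝ) + 1) := by
        rw [sum_add_distrib, ← h2 k j]
        simp [add_comm]
      rw [e, ← hsub, sum_mul]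
      exact sum_congr rfl fun α _ => SphA_step (fun _ m => (m.factorial : ℝ)) (β k) α _ (by
        rw [Nat.factorial_succ]; push_cast; ring)

theorem gamma_le {A J : Type*} [Fintype A] [Fintype J] [DecidableEq J] (b : A → J) (a : J → ℕ)
    (T : Finset (A → ℕ)) (c : (A → ℕ) → ℝ)
    (h : ∀ s : A → ℝ, (∀ α, 0 < s α) → ∑ β ∈ T, c β * ∏ α, s α ^ β α ≤
      ∏ j, ((∑ α ∈ univ.filter fun α => b α = j, s α) / a j) ^ a j) :
    ∑ β ∈ T, c β * ∏ α, ((β α).factorial : ℝ) ≤
      ∏ j, sph (univ.filter fun α => b α = j).card (a j) := by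
  obtain ⟨K, _, β, h1, -, h3⟩ := SphA_expand b _ a rfl
  have key := SphA_mono T c (fun β => β) univ (fun _ : K => (∏ j, (a j : ℝ) ^ a j)⁻¹) β
    fun s hs => (h s hs).trans (le_of_eq (by
      rw [← mul_sum, ← h1, ← div_eq_inv_mul, ← prod_div_distrib]
      exact prod_congr rfl fun j _ => div_pow _ _ _))
  refine key.trans (le_of_eq ?_)
  rw [← mul_sum, h3, ← div_eq_inv_mul, ← prod_div_distrib]
  rfl

end Pool.Agent.Work.MP_66fdf3_co.BP
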