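import Pool.Agent.Work.MP_66fdf3_co.BP.Sym

/-!
Parseval's identity on the torus and the inequality of the means.

Plan. `p z = ∏ u, ∑ α, z α * e α u = ∑ x : Ω → A, (∏ α, z α ^ cnt x α) * ∏ u, e (x u) u`
(`Finset.prod_univ_sum`, `prod_cnt`) `= ∑ β, cf e β * z ^ β`. By the inequality of the means
(`Real.inner_le_nnorm_mul_nnorm` is not needed: use `Real.geom_mean_le_arith_mean_weighted` or
`inner_le_pow`-like induction) `‖p z‖ ^ 2 ≤ (∑ u, ‖∑ α, z α * e α u‖ ^ 2 / m) ^ m`, and the sum is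
`∑ α, ‖z α‖ ^ 2` by orthonormality. Put `z α = √(r α) * ζ ^ k α` with `ζ` a primitive root of unity
of order `m + 1` and average over `k : A → Fin (m + 1)`: `∑ k, ζ ^ (k β) * conj ζ ^ (k β')` vanishes
unless `β = β'`, because all exponents are at most `m` (`IsPrimitiveRoot.geom_sum_eq_zero`,
`geom_sum_eq`, or `ZMod.toCircle` and `AddChar.sum_mulShift`).
-/

namespace Pool.Agent.Work.MP_66fdf3_co.BP

open Finset Matrix

variable {Ω A : Type*} [Fintype Ω] [DecidableEq Ω] [Fintype A] [DecidableEq A]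

/-- The coefficients of the product of the linear forms. -/
noncomputable def cf (e : A → Ω → ℂ) (β : A → ℕ) : ℂ :=
  ∑ x ∈ univ.filter fun x : Ω → A => cnt x = β, ∏ u, e (x u) u

theorem SphB_parseval {K B : Type*} [Fintype K] [DecidableEq B] (s : Finset B) (χ : B → K → ℂ)
    (c : B → ℂ) (N : ℝ)
    (h : ∀ β ∈ s, ∀ β' ∈ s, ∑ k, star (χ β k) * χ β' k = if β = β' then (N : ℂ) else 0) :
    ∑ k, ‖∑ β ∈ s, c β * χ β k‖ ^ 2 = N * ∑ β ∈ s, ‖c β‖ ^ 2 := by
  have n : ∀ z : ℂ, ((‖z‖ ^ 2 : ℝ) : ℂ) = star z * z := fun z => by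
    rw [Complex.star_def, Complex.conj_mul', Complex.ofReal_pow]
  apply Complex.ofReal_injective
  simp only [Complex.ofReal_sum, Complex.ofReal_mul, n, star_sum, sum_mul_sum]
  rw [sum_comm, mul_sum]
  refine sum_congr rfl fun β hβ => ?_
  rw [sum_comm]
  have e : ∀ β' ∈ s, ∑ k, star (c β * χ β k) * (c β' * χ β' k) =
      if β = β' then (N : ℂ) * (star (c β) * c β') else 0 := fun β' hβ' => by
    have : ∑ k, star (c β * χ β k) * (c β' * χ β' k) =
        (∑ k, star (χ β k) * χ β' k) * (star (c β) * c β') := by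
      rw [sum_mul]
      refine sum_congr rfl fun k _ => ?_
      rw [star_mul]
      ring
    rw [this, h β hβ β' hβ', ite_mul, zero_mul]
  rw [sum_congr rfl e, sum_ite_eq, if_pos hβ]

omit [DecidableEq Ω] in
theorem SphB_amgm (a : Ω → ℝ) (ha : ∀ u, 0 ≤ a u) :
    ∏ u, a u ≤ ((∑ u, a u) / Fintype.card Ω) ^ Fintype.card Ω := by
  rcases Nat.eq_zero_or_pos (Fintype.card Ω) with h | h
  · have := Fintype.card_eq_zero_iff.1 h
    simp
  · have h1 := Real.geom_mean_le_arith_mean univ (fun _ => (1 : ℝ)) a (fun _ _ => zero_le_one)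
      (by simpa using h) fun u _ => ha u
    simp only [Real.rpow_one, sum_const, card_univ, nsmul_eq_mul, mul_one, one_mul] at h1
    have h0 : 0 ≤ ∏ u, a u := prod_nonneg fun u _ => ha u
    rw [← Real.rpow_inv_natCast_pow h0 h.ne']
    exact pow_le_pow_left₀ (Real.rpow_nonneg h0 _) h1 _

theorem SphB_expand (e : A → Ω → ℂ) (z : A → ℂ) :
    ∏ u, ∑ α, z α * e α u =
      ∑ β ∈ piAntidiag univ (Fintype.card Ω), cf e β * ∏ α, z α ^ β α := by
  rw [prod_univ_sum, Fintype.piFinset_univ, ← sum_fiberwise_of_maps_to (g := fun x => cnt x)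
    (t := piAntidiag univ (Fintype.card Ω))
    fun x _ => mem_piAntidiag.2 ⟨sum_cnt x, fun _ _ => mem_univ _⟩]
  refine sum_congr rfl fun β _ => ?_
  rw [cf, sum_mul]
  refine sum_congr rfl fun x hx => ?_
  rw [prod_mul_distrib, prod_cnt x z, (mem_filter.1 hx).2, mul_comm]

theorem SphB_orth {N : ℕ} {ζ : ℂ} (hζ : IsPrimitiveRoot ζ N) {a b : ℕ} (ha : a < N) (hb : b < N) :
    ∑ k : Fin N, star ((ζ ^ (k : ℕ)) ^ a) * (ζ ^ (k : ℕ)) ^ b = if a = b then (N : ℂ) else 0 := by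
  have hN : N ≠ 0 := by omega
  have h0 : ζ ≠ 0 := hζ.ne_zero hN
  have h1 : star ζ = ζ⁻¹ := (Complex.inv_eq_conj (hζ.norm'_eq_one hN)).symm
  have e : ∀ k : ℕ, star ((ζ ^ k) ^ a) * (ζ ^ k) ^ b = (ζ ^ b / ζ ^ a) ^ k := fun k => by
    rw [star_pow, star_pow, h1, div_pow, inv_pow, inv_pow, ← pow_mul, ← pow_mul, ← pow_mul,
      ← pow_mul, mul_comm k, mul_comm k, div_eq_inv_mul]
  simp only [e]
  rw [Fin.sum_univ_eq_sum_range (fun k => (ζ ^ b / ζ ^ a) ^ k)]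
  split_ifs with h
  · simp [h, h0]
  · have h2 : ζ ^ b / ζ ^ a ≠ 1 := fun h2 =>
      h (hζ.pow_inj hb ha ((div_eq_one_iff_eq (pow_ne_zero _ h0)).1 h2)).symm
    rw [geom_sum_eq h2, div_pow, ← pow_mul, ← pow_mul, mul_comm b, mul_comm a, pow_mul, pow_mul,
      hζ.pow_eq_one]
    simp

theorem SphB_orth' {N : ℕ} {ζ : ℂ} (hζ : IsPrimitiveRoot ζ N) {β β' : A → ℕ} (h : ∀ α, β α < N)
    (h' : ∀ α, β' α < N) :
    ∑ k : A → Fin N, star (∏ α, (ζ ^ (k α : ℕ)) ^ β α) * ∏ α, (ζ ^ (k α : ℕ)) ^ β' α =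
      if β = β' then (((N : ℝ) ^ Fintype.card A : ℝ) : ℂ) else 0 := by
  simp only [star_prod, ← prod_mul_distrib]
  rw [← Fintype.piFinset_univ, ← prod_univ_sum (fun _ => univ)
    fun α (k : Fin N) => star ((ζ ^ (k : ℕ)) ^ β α) * (ζ ^ (k : ℕ)) ^ β' α]
  simp only [SphB_orth hζ (h _) (h' _)]
  split_ifs with e
  · simp [e]
  · obtain ⟨α, hα⟩ := Function.ne_iff.1 e
    exact prod_eq_zero (mem_univ α) (if_neg hα)

theorem torus_le (e : A → Ω → ℂ)
    (he : ∀ α α', ∑ u, star (e α u) * e α' u = if α = α' then 1 else 0) (r : A → ℝ)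
    (hr : ∀ α, 0 ≤ r α) :
    ∑ β ∈ piAntidiag univ (Fintype.card Ω), ‖cf e β‖ ^ 2 * ∏ α, r α ^ β α ≤
      ((∑ α, r α) / Fintype.card Ω) ^ Fintype.card Ω := by
  have hζ := Complex.isPrimitiveRoot_exp (Fintype.card Ω + 1) (Nat.succ_ne_zero _)
  generalize Complex.exp _ = ζ at hζ
  have hlt : ∀ β ∈ piAntidiag (univ : Finset A) (Fintype.card Ω), ∀ α,
      β α < Fintype.card Ω + 1 := fun β hβ α =>
    Nat.lt_succ_of_le ((single_le_sum (fun _ _ => Nat.zero_le _) (mem_univ α)).trans_eq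
      (mem_piAntidiag.1 hβ).1)
  have h1 := SphB_parseval (piAntidiag univ (Fintype.card Ω))
    (fun β (k : A → Fin (Fintype.card Ω + 1)) => ∏ α, (ζ ^ (k α : ℕ)) ^ β α)
    (fun β => cf e β * ∏ α, ((√(r α) : ℝ) : ℂ) ^ β α) _
    fun β hβ β' hβ' => SphB_orth' hζ (hlt β hβ) (hlt β' hβ')
  have h2 : ∀ k : A → Fin (Fintype.card Ω + 1),
      ‖∑ β ∈ piAntidiag univ (Fintype.card Ω), (cf e β * ∏ α, ((√(r α) : ℝ) : ℂ) ^ β α) *
        ∏ α, (ζ ^ (k α : ℕ)) ^ β α‖ ^ 2 ≤ ((∑ α, r α) / Fintype.card Ω) ^ Fintype.card Ω := by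
    intro k
    have a1 := SphB_expand e fun α => ((√(r α) : ℝ) : ℂ) * ζ ^ (k α : ℕ)
    simp only [mul_pow, prod_mul_distrib, ← mul_assoc] at a1
    have a2 := SphB_parseval univ e (fun α => ((√(r α) : ℝ) : ℂ) * ζ ^ (k α : ℕ)) 1
      fun α _ α' _ => by simpa using he α α'
    simp only [norm_mul, norm_pow, hζ.norm'_eq_one (Nat.succ_ne_zero _), one_pow, mul_one, one_mul,
      Complex.norm_real, Real.norm_eq_abs, sq_abs, Real.sq_sqrt (hr _)] at a2
    rw [← a1, norm_prod, ← prod_pow, ← a2]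
    exact SphB_amgm _ fun u => sq_nonneg _
  have h3 := (sum_le_sum fun k (_ : k ∈ univ) => h2 k)
  rw [h1, sum_const, card_univ, Fintype.card_fun, Fintype.card_fin, nsmul_eq_mul,
    Nat.cast_pow] at h3
  refine le_trans (le_of_eq (sum_congr rfl fun β _ => ?_))
    (le_of_mul_le_mul_left h3 (by positivity))
  rw [norm_mul, mul_pow, norm_prod, ← prod_pow]
  refine congrArg _ (prod_congr rfl fun α _ => ?_)
  rw [norm_pow, ← pow_mul, mul_comm, pow_mul, Complex.norm_real, Real.norm_eq_abs, sq_abs,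
    Real.sq_sqrt (hr α)]

end Pool.Agent.Work.MP_66fdf3_co.BP
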