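import Pool.Agent.Work.MP_66fdf3_co.BP.SphA
import Pool.Agent.Work.MP_66fdf3_co.BP.SphB
import Pool.Agent.Work.MP_66fdf3_co.BP.Irr

/-!
The sphere bound.

Plan. `P j = U j * (U j)ᴴ` (`Proj.exists_basis`), `A = Σ j, Fin (n j)`, `e ⟨j, α⟩ u = star (U j u α)`;
these are orthonormal (`U j = P j * U j`). With `P j x y = ∑ α ∈ fibre j, star (e α x) * e α y`,
`nsq (tens (P (t i)) f) = ⟨f, tens (P (t i)) f⟩ = ∑ x : Ω → A with (x i).1 = t i, ‖per x‖ ^ 2`, where
`per x = ∑ y bijective, ∏ i, e (x i) (y i) = ∑ σ, ∏ u, e (x (σ u)) u = (∏ (cnt x)!) * cf e (cnt x)`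
(`sum_perm`). Sum over all `t'` with `cnt t' = cnt t` (all terms are equal, `nsq_tens_perm`,
`exists_perm`, `card_cnt`), and group the `x` by `β = cnt x` (`card_cnt`):
`nsq = (∏ a!) * ∑ β ∈ T, β! * ‖cf e β‖ ^ 2`, where `T` is the set of `β` with block sums `a`.
For `s > 0` apply `torus_le` with `r α = a j / S j * s α` (`S j` the block sum of `s`; if the block
is empty then `a j = 0` or `T` is empty), keep only `β ∈ T`; the right side is at most `1`. Then
`gamma_le`.
-/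

namespace Pool.Agent.Work.MP_66fdf3_co.BP

open Finset Matrix

section

variable {Ω A J : Type*} [Fintype Ω] [DecidableEq Ω] [Fintype A] [DecidableEq A] [Fintype J]
  [DecidableEq J]

/-- The permanent of the rows selected by `x`. -/
noncomputable def SphC_per (e : A → Ω → ℂ) (x : Ω → A) : ℂ :=
  ∑ y : Ω → Ω, (∏ i, e (x i) (y i)) * ind Ω y

omit [DecidableEq A] [Fintype J] in
theorem SphC_nsq (P : J → Matrix Ω Ω ℂ) (hP : ∀ j, Proj (P j)) (b : A → J) (e : A → Ω → ℂ)
    (hPe : ∀ j x y, P j x y = ∑ α ∈ univ.filter (fun α => b α = j), star (e α x) * e α y)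
    (t : Ω → J) :
    nsq (tens (fun i => P (t i)) *ᵥ ind Ω) =
      ∑ x ∈ univ.filter (fun x : Ω → A => b ∘ x = t), ‖SphC_per e x‖ ^ 2 := by
  set M : Matrix (Ω → A) (Ω → Ω) ℂ :=
    Matrix.of fun x y => if b ∘ x = t then ∏ i, e (x i) (y i) else 0 with hM
  have h1 : Mᴴ * M = tens (fun i => P (t i)) := by
    ext y y'
    simp only [Matrix.mul_apply, conjTranspose_apply, hM, Matrix.of_apply, tens, hPe]
    rw [Finset.prod_univ_sum]
    have hs : Fintype.piFinset (fun i => univ.filter (fun α => b α = t i)) =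
        univ.filter (fun x : Ω → A => b ∘ x = t) := by
      ext x
      simp [funext_iff]
    rw [hs, sum_filter]
    refine sum_congr rfl fun x _ => ?_
    split_ifs
    · rw [star_prod, ← prod_mul_distrib]
    · simp
  have h2 : (nsq (tens (fun i => P (t i)) *ᵥ ind Ω) : ℂ) = nsq (M *ᵥ ind Ω) := by
    rw [(Proj.tens fun i => hP (t i)).nsq_eq, nsq_mulVec, h1]
  have h3 := Complex.ofReal_injective h2
  rw [h3, nsq, sum_filter]
  refine sum_congr rfl fun x _ => ?_
  split_ifs with hx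
  · congr 2
    simp only [Matrix.mulVec, dotProduct, hM, Matrix.of_apply, hx, if_true, SphC_per]
  · simp [Matrix.mulVec, dotProduct, hM, hx]

theorem SphC_per_eq (e : A → Ω → ℂ) (x : Ω → A) :
    SphC_per e x = (∏ α, ((cnt x α).factorial : ℂ)) * cf e (cnt x) := by
  have h1 : SphC_per e x = ∑ σ : Equiv.Perm Ω, ∏ i, e (x i) (σ i) := by
    unfold SphC_per ind
    simp only [mul_ite, mul_one, mul_zero]
    rw [← sum_filter]
    symm
    refine sum_bij (fun σ _ => (σ : Ω → Ω)) (fun σ _ => ?_) (fun σ _ τ _ h => ?_)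
      (fun y hy => ?_) (fun σ _ => rfl)
    · exact mem_filter.2 ⟨mem_univ _, σ.bijective⟩
    · exact Equiv.coe_fn_injective h
    · exact ⟨Equiv.ofBijective y (mem_filter.1 hy).2, mem_univ _, rfl⟩
  have h2 : ∑ σ : Equiv.Perm Ω, ∏ i, e (x i) (σ i) =
      ∑ σ : Equiv.Perm Ω, ∏ u, e ((x ∘ σ) u) u := by
    refine Fintype.sum_equiv (Equiv.inv _) _ _ fun σ => ?_
    refine Fintype.prod_equiv σ _ _ fun i => ?_
    simp
  rw [h1, h2, sum_perm x fun x' => ∏ u, e (x' u) u, nsmul_eq_mul]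
  push_cast
  rfl

omit [DecidableEq Ω] [Fintype J] in
theorem SphC_cnt_perm (t : Ω → J) (σ : Equiv.Perm Ω) : cnt (t ∘ σ) = cnt t := by
  funext j
  unfold cnt
  refine card_bij (fun i _ => σ i) (fun i hi => ?_) (fun i _ k _ h => σ.injective h)
    (fun i hi => ⟨σ.symm i, ?_, by simp⟩)
  · simpa using hi
  · simpa using hi

theorem SphC_eq (P : J → Matrix Ω Ω ℂ) (hP : ∀ j, Proj (P j)) (b : A → J) (e : A → Ω → ℂ)
    (hPe : ∀ j x y, P j x y = ∑ α ∈ univ.filter (fun α => b α = j), star (e α x) * e α y)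
    (t : Ω → J) :
    nsq (tens (fun i => P (t i)) *ᵥ ind Ω) = (∏ j, ((cnt t j).factorial : ℝ)) *
      ∑ β ∈ (univ.filter fun x : Ω → A => cnt (b ∘ x) = cnt t).image cnt,
        ‖cf e β‖ ^ 2 * ∏ α, ((β α).factorial : ℝ) := by
  set S := univ.filter fun x : Ω → A => cnt (b ∘ x) = cnt t with hS
  set R := univ.filter fun t' : Ω → J => cnt t' = cnt t with hR
  have hRpos : (0 : ℝ) < R.card := by
    have : t ∈ R := mem_filter.2 ⟨mem_univ _, rfl⟩
    exact_mod_cast card_pos.2 ⟨t, this⟩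
  have h1 : ∑ t' ∈ R, nsq (tens (fun i => P (t' i)) *ᵥ ind Ω) =
      R.card * nsq (tens (fun i => P (t i)) *ᵥ ind Ω) := by
    rw [← nsmul_eq_mul, ← sum_const]
    refine sum_congr rfl fun t' ht' => ?_
    obtain ⟨σ, rfl⟩ := exists_perm (mem_filter.1 ht').2
    exact nsq_tens_perm (fun i => P (t i)) σ
  have h2 : ∑ t' ∈ R, nsq (tens (fun i => P (t' i)) *ᵥ ind Ω) =
      ∑ x ∈ S, ‖SphC_per e x‖ ^ 2 := by
    simp only [SphC_nsq P hP b e hPe]
    rw [← sum_fiberwise_of_maps_to (s := S) (t := R) (g := fun x => b ∘ x)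
      (fun x hx => mem_filter.2 ⟨mem_univ _, (mem_filter.1 hx).2⟩)]
    refine sum_congr rfl fun t' ht' => sum_congr ?_ fun _ _ => rfl
    ext x
    simp only [hS, mem_filter, mem_univ, true_and]
    exact ⟨fun h => ⟨h ▸ (mem_filter.1 ht').2, h⟩, fun h => h.2⟩
  have h3 : ∑ x ∈ S, ‖SphC_per e x‖ ^ 2 = (Fintype.card Ω).factorial *
      ∑ β ∈ S.image cnt, ‖cf e β‖ ^ 2 * ∏ α, ((β α).factorial : ℝ) := by
    rw [← sum_fiberwise_of_maps_to (s := S) (t := S.image cnt) (g := cnt)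
      (fun x hx => mem_image_of_mem _ hx), mul_sum]
    refine sum_congr rfl fun β hβ => ?_
    obtain ⟨x0, hx0, rfl⟩ := mem_image.1 hβ
    have hf : S.filter (fun x => cnt x = cnt x0) =
        univ.filter fun x : Ω → A => cnt x = cnt x0 := by
      ext x
      simp only [hS, mem_filter, mem_univ, true_and]
      refine ⟨fun h => h.2, fun h => ⟨?_, h⟩⟩
      obtain ⟨σ, rfl⟩ := exists_perm h
      rw [← Function.comp_assoc, SphC_cnt_perm]
      exact (mem_filter.1 hx0).2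
    have hc : ∀ x ∈ univ.filter (fun x : Ω → A => cnt x = cnt x0), ‖SphC_per e x‖ ^ 2 =
        (∏ α, ((cnt x0 α).factorial : ℝ)) ^ 2 * ‖cf e (cnt x0)‖ ^ 2 := by
      intro x hx
      rw [SphC_per_eq, (mem_filter.1 hx).2, norm_mul, mul_pow, norm_prod]
      simp
    rw [hf, sum_congr rfl hc, sum_const, nsmul_eq_mul, ← card_cnt x0]
    push_cast
    ring
  have h4 : ((Fintype.card Ω).factorial : ℝ) = (∏ j, ((cnt t j).factorial : ℝ)) * R.card := by
    rw [← card_cnt t]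
    push_cast
    rfl
  apply mul_left_cancel₀ hRpos.ne'
  rw [← h1, h2, h3, h4]
  ring

theorem SphC_ineq (b : A → J) (e : A → Ω → ℂ)
    (he : ∀ α α', ∑ u, star (e α u) * e α' u = if α = α' then 1 else 0) (t : Ω → J)
    (s : A → ℝ) (hs : ∀ α, 0 < s α) :
    ∑ β ∈ (univ.filter fun x : Ω → A => cnt (b ∘ x) = cnt t).image cnt,
        ‖cf e β‖ ^ 2 * ∏ α, s α ^ β α ≤
      ∏ j, ((∑ α ∈ univ.filter fun α => b α = j, s α) / cnt t j) ^ cnt t j := by
  set S := univ.filter fun x : Ω → A => cnt (b ∘ x) = cnt t with hS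
  set B : J → ℝ := fun j => ∑ α ∈ univ.filter (fun α => b α = j), s α with hB
  have hB0 : ∀ j, 0 ≤ B j := fun j => sum_nonneg fun α _ => (hs α).le
  have hBp : ∀ α, 0 < B (b α) := fun α =>
    sum_pos (fun α _ => hs α) ⟨α, mem_filter.2 ⟨mem_univ _, rfl⟩⟩
  have hpos : 0 ≤ ∏ j, (B j / cnt t j) ^ cnt t j :=
    prod_nonneg fun j _ => pow_nonneg (div_nonneg (hB0 j) (Nat.cast_nonneg _)) _
  rcases S.eq_empty_or_nonempty with hE | ⟨x0, hx0⟩
  · rw [hE, image_empty, sum_empty]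
    exact hpos
  have hr : ∀ α, 0 ≤ (cnt t (b α) : ℝ) / B (b α) * s α := fun α =>
    mul_nonneg (div_nonneg (Nat.cast_nonneg _) (hB0 _)) (hs α).le
  have hT := torus_le e he (fun α => (cnt t (b α) : ℝ) / B (b α) * s α) hr
  have hsum : ∑ α, (cnt t (b α) : ℝ) / B (b α) * s α ≤ Fintype.card Ω := by
    rw [← sum_cnt t, ← sum_fiberwise (s := univ) (g := b)]
    push_cast
    refine sum_le_sum fun j _ => ?_
    have : ∑ α ∈ univ.filter (fun α => b α = j), (cnt t (b α) : ℝ) / B (b α) * s α =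
        (cnt t j : ℝ) / B j * B j := by
      rw [hB, mul_sum]
      exact sum_congr rfl fun α hα => by rw [(mem_filter.1 hα).2]
    rw [this]
    rcases (hB0 j).eq_or_lt with h0 | h0
    · rw [← h0, mul_zero]
      exact Nat.cast_nonneg _
    · rw [div_mul_cancel₀ _ h0.ne']
  have h1 : ((∑ α, (cnt t (b α) : ℝ) / B (b α) * s α) / Fintype.card Ω) ^ Fintype.card Ω ≤ 1 :=
    pow_le_one₀ (div_nonneg (sum_nonneg fun α _ => hr α) (Nat.cast_nonneg _))
      (div_le_one_of_le₀ hsum (Nat.cast_nonneg _))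
  have hsub : S.image cnt ⊆ piAntidiag univ (Fintype.card Ω) := by
    intro β hβ
    obtain ⟨x, -, rfl⟩ := mem_image.1 hβ
    exact mem_piAntidiag.2 ⟨sum_cnt x, fun α _ => mem_univ α⟩
  have h2 := (sum_le_sum_of_subset_of_nonneg hsub fun β _ _ =>
    mul_nonneg (sq_nonneg _) (prod_nonneg fun α _ => pow_nonneg (hr α) _)).trans (hT.trans h1)
  have h3 : ∀ β ∈ S.image cnt, ‖cf e β‖ ^ 2 * ∏ α, ((cnt t (b α) : ℝ) / B (b α) * s α) ^ β α =
      (∏ j, ((cnt t j : ℝ) / B j) ^ cnt t j) * (‖cf e β‖ ^ 2 * ∏ α, s α ^ β α) := by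
    intro β hβ
    obtain ⟨x, hx, rfl⟩ := mem_image.1 hβ
    have e1 := prod_cnt x fun α => (cnt t (b α) : ℝ) / B (b α)
    have e2 := prod_cnt (b ∘ x) fun j => (cnt t j : ℝ) / B j
    rw [(mem_filter.1 hx).2] at e2
    simp only [mul_pow]
    rw [prod_mul_distrib, ← e1, ← e2]
    simp only [Function.comp]
    ring
  rw [sum_congr rfl h3, ← mul_sum] at h2
  have h4 : (∏ j, (B j / cnt t j) ^ cnt t j) * ∏ j, ((cnt t j : ℝ) / B j) ^ cnt t j = 1 := by
    rw [← prod_mul_distrib]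
    refine prod_eq_one fun j _ => ?_
    rcases Nat.eq_zero_or_pos (cnt t j) with h0 | h0
    · rw [h0]; simp
    · have hj : 0 < cnt (b ∘ x0) j := by rw [(mem_filter.1 hx0).2]; exact h0
      obtain ⟨i, hi⟩ := card_pos.1 hj
      have hBj : 0 < B j := by
        have := hBp (x0 i)
        rwa [show b (x0 i) = j from (mem_filter.1 hi).2] at this
      have hc : (cnt t j : ℝ) ≠ 0 := by exact_mod_cast h0.ne'
      rw [← mul_pow, div_mul_div_cancel₀ hc, div_self hBj.ne', one_pow]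
  have h5 := mul_le_mul_of_nonneg_left h2 hpos
  rwa [← mul_assoc, h4, one_mul, mul_one] at h5

end

theorem sphere {Ω J : Type*} [Fintype Ω] [DecidableEq Ω] [Fintype J] [DecidableEq J]
    (P : J → Matrix Ω Ω ℂ) (n : J → ℕ) (hP : ∀ j, Proj (P j))
    (ho : ∀ j l, j ≠ l → P j * P l = 0) (hn : ∀ j, (P j).trace = n j) (t : Ω → J) :
    nsq (tens (fun i => P (t i)) *ᵥ ind Ω) ≤
      ∏ j, (((cnt t j).factorial : ℝ) * sph (n j) (cnt t j)) := by
  choose k U hU1 hU2 hU3 using fun j => (hP j).exists_basis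
  have hk : ∀ j, k j = n j := fun j => by
    have := (hU3 j).symm.trans (hn j)
    exact_mod_cast this
  have hfib : ∀ (j : J) (F : (Σ j, Fin (k j)) → ℂ),
      ∑ α ∈ univ.filter (fun α : Σ j, Fin (k j) => α.1 = j), F α = ∑ c : Fin (k j), F ⟨j, c⟩ := by
    intro j F
    rw [sum_filter, Fintype.sum_sigma, Finset.sum_eq_single j]
    · simp
    · intro l _ hl
      simp [hl]
    · simp
  have hcard : ∀ j, (univ.filter fun α : Σ j, Fin (k j) => α.1 = j).card = n j := by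
    intro j
    have := hfib j fun _ => 1
    rw [← hk]
    simp only [sum_const, nsmul_eq_mul, mul_one, card_univ, Fintype.card_fin] at this
    exact_mod_cast this
  have hPU : ∀ j, P j * U j = U j := fun j => by
    rw [← hU1 j, Matrix.mul_assoc, hU2, Matrix.mul_one]
  have hUP : ∀ j, (U j)ᴴ * P j = (U j)ᴴ := fun j => by
    rw [← hU1 j, ← Matrix.mul_assoc, hU2, Matrix.one_mul]
  have he : ∀ α α' : Σ j, Fin (k j), ∑ u, star (star (U α.1 u α.2)) * star (U α'.1 u α'.2) =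
      if α = α' then 1 else 0 := by
    rintro ⟨j, c⟩ ⟨l, d⟩
    have h1 : ∑ u, star (star (U j u c)) * star (U l u d) = ((U l)ᴴ * U j) d c := by
      rw [Matrix.mul_apply]
      exact sum_congr rfl fun u _ => by rw [star_star, conjTranspose_apply, mul_comm]
    rw [h1]
    by_cases hjl : j = l
    · subst hjl
      rw [hU2, Matrix.one_apply]
      simp [eq_comm]
    · have h2 : (U l)ᴴ * U j = 0 := by
        rw [← hPU j, ← hUP l, Matrix.mul_assoc, ← Matrix.mul_assoc (P l), ho l j (Ne.symm hjl)]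
        simp
      rw [h2, if_neg fun h => hjl (congrArg Sigma.fst h)]
      rfl
  have hPe : ∀ j x y, P j x y = ∑ α ∈ univ.filter (fun α : Σ j, Fin (k j) => α.1 = j),
      star (star (U α.1 x α.2)) * star (U α.1 y α.2) := by
    intro j x y
    rw [hfib, ← hU1 j, Matrix.mul_apply]
    exact sum_congr rfl fun c _ => by rw [star_star, conjTranspose_apply]
  rw [SphC_eq P hP Sigma.fst (fun (α : Σ j, Fin (k j)) u => star (U α.1 u α.2)) hPe t,
    prod_mul_distrib]
  refine mul_le_mul_of_nonneg_left ?_ (prod_nonneg fun j _ => Nat.cast_nonneg _)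
  have hg := gamma_le (Sigma.fst : (Σ j, Fin (k j)) → J) (cnt t) _
    (fun β => ‖cf (fun (α : Σ j, Fin (k j)) u => star (U α.1 u α.2)) β‖ ^ 2)
    (SphC_ineq Sigma.fst (fun (α : Σ j, Fin (k j)) u => star (U α.1 u α.2)) he t)
  simpa only [hcard] using hg

end Pool.Agent.Work.MP_66fdf3_co.BP
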