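import Pool.Agent.Work.MP_66fdf3_co.BP.Tens

/-!
Symmetry: the symmetric group acts on types.

Plan. `sum_perm`: the fibres of `σ ↦ t ∘ σ` are cosets of the stabiliser
(`DomMulAct.stabilizer_card`); `t'` is in the orbit iff the counts agree (`Equiv.ofFiberEquiv`).
`sum_cnt_le`: group the `t` by `a = fun j => cnt t (some j)`, which lies in `piAntidiag univ l`;
`cnt t none = |ι| - l`; each class has `|ι|! / ∏ (cnt)!` elements (`card_cnt`) or is empty.
-/

namespace Pool.Agent.Work.MP_66fdf3_co.BP

open Finset Matrix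

section
variable {ι J : Type*} [Fintype ι] [DecidableEq ι] [Fintype J] [DecidableEq J]

omit [DecidableEq ι] in
theorem sum_cnt (t : ι → J) : ∑ j, cnt t j = Fintype.card ι := by
  rw [← card_univ, card_eq_sum_card_fiberwise (f := t) (s := univ) (t := univ)
    (fun _ _ => mem_coe.2 (mem_univ _))]
  rfl

omit [DecidableEq ι] in
theorem prod_cnt {M : Type*} [CommMonoid M] (t : ι → J) (F : J → M) :
    ∏ i, F (t i) = ∏ j, F j ^ cnt t j := by
  rw [← prod_fiberwise univ t fun i => F (t i)]
  refine prod_congr rfl fun j _ => ?_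
  rw [prod_congr rfl (g := fun _ => F j) fun i hi => by rw [(mem_filter.1 hi).2], prod_const]
  rfl

omit [DecidableEq ι] in
theorem sum_cnt_some (t : ι → Option J) : ∑ j, cnt t (some j) = lvl t := by
  simp only [cnt, lvl, card_filter]
  rw [sum_comm]
  refine sum_congr rfl fun i _ => ?_
  cases t i <;> simp

omit [DecidableEq ι] in
theorem cnt_none (t : ι → Option J) : cnt t none = Fintype.card ι - lvl t := by
  have h := sum_cnt t
  rw [Fintype.sum_option, sum_cnt_some] at h
  omega

omit [DecidableEq ι] [Fintype J] in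
theorem Sym_card (t : ι → J) (j : J) : Fintype.card {a // t a = j} = cnt t j :=
  Fintype.card_subtype _

theorem exists_perm {t t' : ι → J} (h : cnt t' = cnt t) : ∃ σ : Equiv.Perm ι, t' = t ∘ σ := by
  have e : ∀ j, {a // t' a = j} ≃ {b // t b = j} := fun j =>
    Fintype.equivOfCardEq (by rw [Sym_card, Sym_card, h])
  exact ⟨Equiv.ofFiberEquiv e, funext fun a => (Equiv.ofFiberEquiv_map e a).symm⟩

omit [DecidableEq ι] [Fintype J] in
theorem Sym_cnt_comp (t : ι → J) (σ : Equiv.Perm ι) : cnt (t ∘ σ) = cnt t := by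
  funext j
  exact card_equiv σ fun i => by simp

theorem Sym_fib {t t' : ι → J} (h : cnt t' = cnt t) :
    (univ.filter fun σ : Equiv.Perm ι => t ∘ σ = t').card = ∏ j, (cnt t j).factorial := by
  obtain ⟨τ, rfl⟩ := exists_perm h
  have h1 := DomMulAct.stabilizer_card t
  rw [prod_congr rfl fun j _ => by rw [Sym_card t j], Fintype.card_subtype] at h1
  rw [← h1]
  refine card_equiv (Equiv.mulRight τ⁻¹) fun σ => ?_
  simp only [mem_filter, mem_univ, true_and, Equiv.coe_mulRight, Equiv.Perm.coe_mul]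
  constructor
  · intro e
    rw [← Function.comp_assoc, e]
    funext a
    simp
  · intro e
    funext a
    simpa using congrFun e (τ a)

theorem sum_perm {M : Type*} [AddCommMonoid M] (t : ι → J) (F : (ι → J) → M) :
    ∑ σ : Equiv.Perm ι, F (t ∘ σ) =
      (∏ j, (cnt t j).factorial) • ∑ t' ∈ univ.filter fun t' => cnt t' = cnt t, F t' := by
  rw [← sum_fiberwise_of_maps_to (s := univ) (t := univ.filter fun t' => cnt t' = cnt t)
    (g := fun σ : Equiv.Perm ι => t ∘ σ)
    (fun σ _ => mem_filter.2 ⟨mem_univ _, Sym_cnt_comp t σ⟩), smul_sum]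
  refine sum_congr rfl fun t' ht' => ?_
  rw [sum_congr rfl (g := fun _ => F t') fun σ hσ => by rw [(mem_filter.1 hσ).2], sum_const,
    Sym_fib (mem_filter.1 ht').2]

theorem card_cnt (t : ι → J) : (∏ j, (cnt t j).factorial) *
    (univ.filter fun t' : ι → J => cnt t' = cnt t).card = (Fintype.card ι).factorial := by
  have h := sum_perm t fun _ => (1 : ℕ)
  simp only [sum_const, card_univ, Fintype.card_perm, smul_eq_mul, mul_one] at h
  exact h.symm

theorem sum_cnt_le (F : (J → ℕ) → ℝ) (hF : ∀ a, 0 ≤ F a) (l : ℕ) :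
    ∑ t ∈ univ.filter fun t : ι → Option J => lvl t = l,
      (∏ j, ((cnt t j).factorial : ℝ)) * F (fun j => cnt t (some j)) ≤
      (Fintype.card ι).factorial * ∑ a ∈ piAntidiag univ l, F a := by
  rw [← sum_fiberwise_of_maps_to (t := piAntidiag univ l)
    (g := fun t : ι → Option J => fun j => cnt t (some j))
    (fun t ht => by
      rw [mem_piAntidiag]
      exact ⟨by rw [sum_cnt_some, (mem_filter.1 ht).2], fun _ _ => mem_univ _⟩), mul_sum]
  refine sum_le_sum fun a _ => ?_
  rcases ((univ.filter fun t : ι → Option J => lvl t = l).filter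
    fun t => (fun j => cnt t (some j)) = a).eq_empty_or_nonempty with e | ⟨t0, h0⟩
  · rw [e, sum_empty]
    exact mul_nonneg (Nat.cast_nonneg _) (hF a)
  have key : ∀ t ∈ (univ.filter fun t : ι → Option J => lvl t = l).filter
      fun t => (fun j => cnt t (some j)) = a, cnt t = cnt t0 := fun t ht => by
    simp only [mem_filter, mem_univ, true_and] at ht h0
    funext j
    cases j with
    | none => rw [cnt_none, cnt_none, ht.1, h0.1]
    | some j => exact (congrFun ht.2 j).trans (congrFun h0.2 j).symm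
  rw [sum_congr rfl (g := fun _ => (∏ j, ((cnt t0 j).factorial : ℝ)) * F a) fun t ht => by
    rw [key t ht, (mem_filter.1 h0).2], sum_const, nsmul_eq_mul, ← mul_assoc]
  refine mul_le_mul_of_nonneg_right ?_ (hF a)
  rw [← card_cnt t0, mul_comm]
  push_cast
  refine mul_le_mul_of_nonneg_left (Nat.cast_le.2 (card_le_card fun t ht => ?_))
    (prod_nonneg fun _ _ => Nat.cast_nonneg _)
  exact mem_filter.2 ⟨mem_univ _, key t ht⟩

end

theorem nsq_tens_perm {Ω : Type*} [Fintype Ω] [DecidableEq Ω] (A : Ω → Matrix Ω Ω ℂ)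
    (σ : Equiv.Perm Ω) : nsq (tens (A ∘ σ) *ᵥ ind Ω) = nsq (tens A *ᵥ ind Ω) := by
  let e : (Ω → Ω) ≃ (Ω → Ω) := Equiv.arrowCongr σ.symm (Equiv.refl Ω)
  have he : ∀ x : Ω → Ω, e x = x ∘ σ := fun x => by
    funext a
    simp [e, Equiv.arrowCongr_apply]
  unfold nsq
  rw [← Equiv.sum_comp e]
  refine sum_congr rfl fun x _ => ?_
  congr 2
  simp only [mulVec, dotProduct]
  rw [← Equiv.sum_comp e]
  refine sum_congr rfl fun y _ => ?_
  rw [he, he]
  congr 1
  · exact Equiv.prod_comp σ fun i => A i (x i) (y i)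
  · simp only [ind, Equiv.bijective_comp]

end Pool.Agent.Work.MP_66fdf3_co.BP
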