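import Pool.Agent.Work.MP_66fdf3_co.BP.Defs

/-!
Tensor products of matrices, permutation matrices, projections.
-/

namespace Pool.Agent.Work.MP_66fdf3_co.BP

open Finset Matrix

section
variable {ι X : Type*} [Fintype ι] [DecidableEq ι] [Fintype X]

theorem tens_mul (A B : ι → Matrix X X ℂ) : tens A * tens B = tens fun i => A i * B i := by
  ext x y
  simp only [tens, mul_apply, of_apply, ← prod_mul_distrib]
  rw [Finset.prod_univ_sum]
  simp

omit [DecidableEq ι] [Fintype X] in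
theorem tens_conjT (A : ι → Matrix X X ℂ) : (tens A)ᴴ = tens fun i => (A i)ᴴ := by
  ext x y
  simp [tens]

omit [DecidableEq ι] [Fintype X] in
theorem tens_one [DecidableEq X] : tens (fun _ : ι => (1 : Matrix X X ℂ)) = 1 := by
  ext x y
  simp only [tens, of_apply, one_apply, prod_ite_zero, prod_const_one, mem_univ, forall_true_left]
  simp [funext_iff]

omit [Fintype X] in
theorem tens_sum {J : Type*} [Fintype J] (A : ι → J → Matrix X X ℂ) :
    tens (fun i => ∑ j, A i j) = ∑ t : ι → J, tens fun i => A i (t i) := by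
  ext x y
  simp only [tens, of_apply, Matrix.sum_apply]
  rw [Finset.prod_univ_sum]
  simp

omit [DecidableEq ι] [Fintype X] in
theorem tens_smul (c : ι → ℂ) (A : ι → Matrix X X ℂ) :
    tens (fun i => c i • A i) = (∏ i, c i) • tens A := by
  ext x y
  simp [tens, prod_mul_distrib]

omit [DecidableEq ι] [Fintype X] in
theorem tens_zero {A : ι → Matrix X X ℂ} {i : ι} (h : A i = 0) : tens A = 0 := by
  ext x y
  exact prod_eq_zero (mem_univ i) (by simp [h])

omit [Fintype X] in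
theorem tens_update_sum {W : Type*} (s : Finset W) (A : ι → Matrix X X ℂ) (i : ι)
    (B : W → Matrix X X ℂ) :
    ∑ w ∈ s, tens (Function.update A i (B w)) = tens (Function.update A i (∑ w ∈ s, B w)) := by
  have h : ∀ (C : Matrix X X ℂ) x y, tens (Function.update A i C) x y =
      C (x i) (y i) * ∏ j ∈ univ.erase i, A j (x j) (y j) := fun C x y => by
    simp only [tens, of_apply]
    rw [← mul_prod_erase _ _ (mem_univ i), Function.update_self]
    congr 1
    exact prod_congr rfl fun j hj => by rw [Function.update_of_ne (ne_of_mem_erase hj)]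
  ext x y
  simp only [Matrix.sum_apply, h, sum_mul]

end

section
variable {G X : Type*} [Group G] [MulAction G X] [Fintype X] [DecidableEq X]

theorem rho_mulVec (g : G) (v : X → ℂ) (x : X) : (rho X g *ᵥ v) x = v (g⁻¹ • x) := by
  simp only [rho, mulVec, dotProduct, of_apply, ← eq_inv_smul_iff]
  simp

theorem rho_mul (g h : G) : rho X g * rho X h = rho X (g * h) := by
  ext x y
  simp only [rho, mul_apply, of_apply, mul_smul]
  rw [sum_eq_single (h • y)] <;> simp +contextual [eq_comm]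

omit [Fintype X] in
theorem rho_one : rho X (1 : G) = 1 := by
  ext x y
  simp [rho, one_apply, eq_comm]

omit [Fintype X] in
theorem rho_conjT (g : G) : (rho X g)ᴴ = rho X g⁻¹ := by
  ext x y
  simp only [rho, conjTranspose_apply, of_apply, inv_smul_eq_iff]
  by_cases h : g • x = y
  · simp [h]
  · simp [h, Ne.symm h]

theorem nsq_rho (g : G) (v : X → ℂ) : nsq (rho X g *ᵥ v) = nsq v := by
  simp only [nsq, rho_mulVec]
  exact Equiv.sum_comp (MulAction.toPerm g⁻¹) fun x => ‖v x‖ ^ 2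

omit [Fintype X] in
theorem rho_pi {ι : Type*} [Fintype ι] (g : ι → G) :
    rho (ι → X) g = tens fun i => rho X (g i) := by
  ext x y
  simp only [tens, rho, of_apply, prod_ite_zero, prod_const_one, mem_univ, forall_true_left]
  simp [funext_iff]

theorem rho_mul_E0 (g : G) : rho X g * E0 X = E0 X := by
  ext x y
  simp only [rho, E0, mul_apply, of_apply, ← eq_inv_smul_iff]
  simp

theorem E0_mul_rho (g : G) : E0 X * rho X g = E0 X := by
  ext x y
  simp [rho, E0, mul_apply]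

omit [Fintype X] in
theorem InSpan.tens [Fintype G] {ι : Type*} [Fintype ι] [DecidableEq ι] {A : ι → Matrix X X ℂ}
    (h : ∀ i, InSpan G (A i)) : InSpan (ι → G) (tens A) := by
  choose c hc using h
  refine ⟨fun g => ∏ i, c i (g i), ?_⟩
  rw [funext hc, tens_sum]
  simp only [tens_smul, rho_pi]

theorem InSpan.comm [Fintype G] {E A : Matrix X X ℂ} (h : InSpan G E) (hA : Invt G A) :
    E * A = A * E := by
  obtain ⟨c, rfl⟩ := h
  simp only [sum_mul, mul_sum, smul_mul_assoc, mul_smul_comm, hA _]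

end

section
variable {X : Type*} [Fintype X]

theorem nsq_nonneg (v : X → ℂ) : 0 ≤ nsq v := sum_nonneg fun _ _ => sq_nonneg _

theorem nsq_eq (v : X → ℂ) : (nsq v : ℂ) = star v ⬝ᵥ v := by
  simp only [nsq, dotProduct, Pi.star_apply, Complex.ofReal_sum]
  refine sum_congr rfl fun x _ => ?_
  rw [← Complex.normSq_eq_norm_sq, Complex.normSq_eq_conj_mul_self]
  rfl

theorem dot_mulVec {Y : Type*} [Fintype Y] (A : Matrix X Y ℂ) (u : X → ℂ) (v : Y → ℂ) :
    star u ⬝ᵥ (A *ᵥ v) = star (Aᴴ *ᵥ u) ⬝ᵥ v := by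
  rw [star_mulVec, conjTranspose_conjTranspose, dotProduct_mulVec]

theorem nsq_mulVec {Y : Type*} [Fintype Y] (A : Matrix X Y ℂ) (v : Y → ℂ) :
    (nsq (A *ᵥ v) : ℂ) = star v ⬝ᵥ ((Aᴴ * A) *ᵥ v) := by
  rw [nsq_eq, ← mulVec_mulVec, dot_mulVec Aᴴ, conjTranspose_conjTranspose]

theorem dot_le (u v : X → ℂ) : ‖star u ⬝ᵥ v‖ ^ 2 ≤ nsq u * nsq v := by
  refine le_trans ?_ (sum_mul_sq_le_sq_mul_sq univ (fun x => ‖u x‖) fun x => ‖v x‖)
  refine pow_le_pow_left₀ (norm_nonneg _) ((norm_sum_le _ _).trans (le_of_eq ?_)) 2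
  simp

theorem Proj.nsq_eq {P : Matrix X X ℂ} (h : Proj P) (v : X → ℂ) :
    (nsq (P *ᵥ v) : ℂ) = star v ⬝ᵥ (P *ᵥ v) := by
  rw [nsq_mulVec, h.1, h.2]

theorem Proj.nsq_le {P : Matrix X X ℂ} (h : Proj P) (v : X → ℂ) : nsq (P *ᵥ v) ≤ nsq v := by
  have a := dot_le v (P *ᵥ v)
  rw [← h.nsq_eq, Complex.norm_real, Real.norm_of_nonneg (nsq_nonneg _)] at a
  rcases (nsq_nonneg (P *ᵥ v)).eq_or_lt with e | e
  · rw [← e]; exact nsq_nonneg v
  · nlinarith

theorem Proj.tens {ι : Type*} [Fintype ι] [DecidableEq ι] {P : ι → Matrix X X ℂ}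
    (h : ∀ i, Proj (P i)) : Proj (tens P) :=
  ⟨by rw [tens_conjT]; exact congrArg _ (funext fun i => (h i).1),
    by rw [tens_mul]; exact congrArg _ (funext fun i => (h i).2)⟩

theorem Proj.one [DecidableEq X] : Proj (1 : Matrix X X ℂ) := ⟨conjTranspose_one, mul_one _⟩

theorem Proj.one_sub [DecidableEq X] {P : Matrix X X ℂ} (h : Proj P) : Proj (1 - P) :=
  ⟨by simp [h.1], by simp [mul_sub, sub_mul, h.2]⟩

theorem Proj.mul {P Q : Matrix X X ℂ} (hP : Proj P) (hQ : Proj Q) (c : P * Q = Q * P) :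
    Proj (P * Q) :=
  ⟨by rw [conjTranspose_mul, hP.1, hQ.1, c], by
    rw [Matrix.mul_assoc, ← Matrix.mul_assoc Q, ← c, Matrix.mul_assoc, hQ.2, ← Matrix.mul_assoc,
      hP.2]⟩

theorem proj_E0 : Proj (E0 X) := by
  refine ⟨by ext x y; simp [E0], ?_⟩
  ext x y
  have : (Fintype.card X : ℂ) ≠ 0 := by
    have : Nonempty X := ⟨x⟩
    simp
  simp [E0, mul_apply, this]

/-- Pythagoras for mutually orthogonal projections. -/
theorem nsq_sum_orth {T : Type*} (s : Finset T) (P : T → Matrix X X ℂ) (h : ∀ t ∈ s, Proj (P t))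
    (ho : ∀ t ∈ s, ∀ t' ∈ s, t ≠ t' → P t * P t' = 0) (v : X → ℂ) :
    nsq ((∑ t ∈ s, P t) *ᵥ v) = ∑ t ∈ s, nsq (P t *ᵥ v) := by
  have hp : Proj (∑ t ∈ s, P t) := by
    refine ⟨by rw [conjTranspose_sum]; exact sum_congr rfl fun t ht => (h t ht).1, ?_⟩
    rw [sum_mul]
    refine sum_congr rfl fun t ht => ?_
    rw [mul_sum, sum_eq_single t (fun t' ht' e => ho t ht t' ht' e.symm) (fun a => absurd ht a),
      (h t ht).2]
  apply Complex.ofReal_injective
  rw [hp.nsq_eq, Complex.ofReal_sum, sum_mulVec, dotProduct_sum]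
  exact sum_congr rfl fun t ht => ((h t ht).nsq_eq v).symm

/-- A doubly stochastic matrix is a contraction. -/
theorem stoch_nsq_le {A : Matrix X X ℂ} (a : X → X → ℝ) (hA : ∀ x y, A x y = a x y)
    (h0 : ∀ x y, 0 ≤ a x y) (hr : ∀ x, ∑ y, a x y = 1) (hc : ∀ y, ∑ x, a x y = 1) (v : X → ℂ) :
    nsq (A *ᵥ v) ≤ nsq v := by
  have h1 : ∀ x, ‖(A *ᵥ v) x‖ ^ 2 ≤ ∑ y, a x y * ‖v y‖ ^ 2 := fun x => by
    have h2 : ‖(A *ᵥ v) x‖ ≤ ∑ y, a x y * ‖v y‖ := by
      refine (norm_sum_le _ _).trans (le_of_eq (sum_congr rfl fun y _ => ?_))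
      simp only [norm_mul, hA, Complex.norm_real, Real.norm_of_nonneg (h0 x y)]
    refine (pow_le_pow_left₀ (norm_nonneg _) h2 2).trans ?_
    have h3 := sum_sq_le_sum_mul_sum_of_sq_le_mul univ (r := fun y => a x y * ‖v y‖)
      (f := a x) (g := fun y => a x y * ‖v y‖ ^ 2) (fun y _ => h0 x y)
      (fun y _ => mul_nonneg (h0 x y) (sq_nonneg _)) (fun y _ => le_of_eq (by ring))
    rwa [hr, one_mul] at h3
  refine (sum_le_sum fun x _ => h1 x).trans (le_of_eq ?_)
  rw [sum_comm]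
  exact sum_congr rfl fun y _ => by rw [← sum_mul, hc, one_mul]

end

end Pool.Agent.Work.MP_66fdf3_co.BP
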