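import Pool.Agent.Work.MP_66fdf3_co.BP.Tens

/-!
The twirling bound.

Plan. Put `Y = ∑ g, ⟨b, ρ g v⟩ ⟨v, ρ g⁻¹ b⟩` (the left side) and
`T (x, y) = ∑ g, (ρ g v) x * (ρ g⁻¹ b) y`. Then `Y = ⟨b ⊗ v, T⟩`, so
`Y ^ 2 ≤ nsq b * nsq v * nsq T` (`dot_le` on `X × X`), and
`nsq T = ∑ g h, ⟨v, ρ (g⁻¹ h) v⟩ ⟨b, ρ (g h⁻¹) b⟩`. With `h = g u` we have `g h⁻¹ = g u⁻¹ g⁻¹`;
the sum over `g` gives `|Γ| ω u⁻¹ nsq b`. To evaluate `∑ u, ω u⁻¹ ⟨v, ρ u v⟩` write the double sum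
also with `g = h u⁻¹`, or note that `ω` is a class function as soon as `E ≠ 0`, and average over
conjugates: it is `(∑ u, ω u⁻¹ ω u) nsq v`. So `nsq T = |Γ| ^ 2 nsq b nsq v / D ^ 2`.
-/

namespace Pool.Agent.Work.MP_66fdf3_co.BP

open Finset Matrix

/-- The product of two vectors. -/
def Twirl_tn {X : Type*} (p q : X → ℂ) : X × X → ℂ := fun z => p z.1 * q z.2

theorem Twirl_dot {X : Type*} [Fintype X] (p q r s : X → ℂ) :
    star (Twirl_tn p q) ⬝ᵥ Twirl_tn r s = (star p ⬝ᵥ r) * (star q ⬝ᵥ s) := by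
  simp only [dotProduct, Twirl_tn, Pi.star_apply, star_mul', Fintype.sum_prod_type, sum_mul_sum]
  exact sum_congr rfl fun x _ => sum_congr rfl fun y _ => by ring

theorem Twirl_rho {Γ X : Type*} [Group Γ] [MulAction Γ X] [Fintype X] [DecidableEq X] (g h : Γ)
    (p q : X → ℂ) : star (rho X g *ᵥ p) ⬝ᵥ (rho X h *ᵥ q) = star p ⬝ᵥ (rho X (g⁻¹ * h) *ᵥ q) := by
  rw [← rho_mul, ← mulVec_mulVec, dot_mulVec (rho X g⁻¹), rho_conjT, inv_inv]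

theorem twirl {Γ X : Type*} [Group Γ] [MulAction Γ X] [Fintype Γ] [Fintype X] [DecidableEq X]
    (E : Matrix X X ℂ) (ω : Γ → ℂ) {D : ℝ} (hD : 0 < D)
    (hc : ∀ u, (∑ g : Γ, rho X (g * u * g⁻¹)) * E = ((Fintype.card Γ : ℂ) * ω u) • E)
    (ho : (∑ u, ω u⁻¹ * ω u) * (D : ℂ) ^ 2 = Fintype.card Γ) {b v : X → ℂ} (hb : E *ᵥ b = b)
    (hv : E *ᵥ v = v) :
    ∑ g : Γ, ‖star b ⬝ᵥ (rho X g *ᵥ v)‖ ^ 2 ≤ Fintype.card Γ * nsq b * nsq v / D := by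
  have hG : (Fintype.card Γ : ℂ) ≠ 0 := Nat.cast_ne_zero.2 Fintype.card_ne_zero
  have hK : ∀ w, E *ᵥ w = w → ∀ u : Γ, ∑ g : Γ, star w ⬝ᵥ (rho X (g * u * g⁻¹) *ᵥ w) =
      Fintype.card Γ * ω u * nsq w := fun w hw u => by
    have e := congrArg (fun A => star w ⬝ᵥ (A *ᵥ w)) (hc u)
    simp only [← mulVec_mulVec, smul_mulVec, hw, dotProduct_smul, smul_eq_mul] at e
    rw [nsq_eq, ← e, sum_mulVec, dotProduct_sum]
  let ψ : Γ → ℂ := fun u => ∑ g : Γ, star b ⬝ᵥ (rho X (g * u⁻¹ * g⁻¹) *ᵥ b)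
  have hψ : ∀ k u, ψ (k * u * k⁻¹) = ψ u := fun k u => by
    refine (Equiv.sum_comp (Equiv.mulRight k⁻¹) _).symm.trans (sum_congr rfl fun g _ => ?_)
    simp [mul_assoc]
  let T : X × X → ℂ := ∑ g : Γ, Twirl_tn (rho X g *ᵥ v) (rho X g⁻¹ *ᵥ b)
  have h1 : (nsq T : ℂ) = ∑ u : Γ, star v ⬝ᵥ (rho X u *ᵥ v) * ψ u := by
    simp only [nsq_eq, T, ψ, star_sum, sum_dotProduct, dotProduct_sum, Twirl_dot, Twirl_rho,
      mul_sum]
    rw [sum_comm, eq_comm, sum_comm]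
    refine sum_congr rfl fun g _ => ?_
    rw [eq_comm, ← Equiv.sum_comp (Equiv.mulLeft g)]
    simp [mul_assoc]
  have h2 : Fintype.card Γ * (nsq T : ℂ) =
      ∑ u : Γ, Fintype.card Γ * ω u * nsq v * (Fintype.card Γ * ω u⁻¹ * nsq b) := by
    have e : ∀ k : Γ, (nsq T : ℂ) = ∑ u : Γ, star v ⬝ᵥ (rho X (k * u * k⁻¹) *ᵥ v) * ψ u :=
      fun k => by
        rw [h1, ← Equiv.sum_comp (MulAut.conj k).toEquiv]
        exact sum_congr rfl fun u _ => congrArg _ (hψ k u)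
    rw [← nsmul_eq_mul, ← card_univ, ← sum_const, sum_congr rfl fun k _ => e k, sum_comm,
      card_univ]
    exact sum_congr rfl fun u _ => by rw [← sum_mul, hK v hv, ← hK b hb]
  have h3 : nsq T * D ^ 2 = (Fintype.card Γ : ℝ) ^ 2 * nsq b * nsq v := by
    have e : ∑ u : Γ, Fintype.card Γ * ω u * nsq v * (Fintype.card Γ * ω u⁻¹ * nsq b) =
        Fintype.card Γ * (Fintype.card Γ * nsq b * nsq v * ∑ u, ω u⁻¹ * ω u) := by
      simp only [mul_sum]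
      exact sum_congr rfl fun u _ => by ring
    apply Complex.ofReal_injective
    push_cast
    rw [mul_left_cancel₀ hG (h2.trans e), mul_assoc, ho]
    ring
  have h4 : star (Twirl_tn b v) ⬝ᵥ T = (∑ g : Γ, ‖star b ⬝ᵥ (rho X g *ᵥ v)‖ ^ 2 : ℝ) := by
    simp only [T, dotProduct_sum, Twirl_dot, Complex.ofReal_sum]
    refine sum_congr rfl fun g _ => ?_
    rw [dot_mulVec (rho X g⁻¹), rho_conjT, inv_inv, star_dotProduct (rho X g *ᵥ v),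
      Complex.ofReal_pow, ← Complex.mul_conj']
    rfl
  have h5 : nsq (Twirl_tn b v) = nsq b * nsq v := by
    apply Complex.ofReal_injective
    rw [Complex.ofReal_mul, nsq_eq, nsq_eq, nsq_eq, Twirl_dot]
  have h6 := dot_le (Twirl_tn b v) T
  have h7 : 0 ≤ ∑ g : Γ, ‖star b ⬝ᵥ (rho X g *ᵥ v)‖ ^ 2 := sum_nonneg fun _ _ => sq_nonneg _
  rw [h4, h5, Complex.norm_real, Real.norm_of_nonneg h7,
    eq_div_of_mul_eq (pow_ne_zero 2 hD.ne') h3] at h6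
  have h8 := nsq_nonneg b
  have h9 := nsq_nonneg v
  refine (pow_le_pow_iff_left₀ h7 (by positivity) two_ne_zero).1 (h6.trans_eq ?_)
  ring

end Pool.Agent.Work.MP_66fdf3_co.BP
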